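import Pool.Agent.H48.GEN.LevJ
import Pool.Agent.H55.GEN.Wt
import Pool.Agent.H86.M5.Tim

/-!
# L1 level by level: the theorem
-/

set_option autoImplicit false

namespace Pool.LEV

open Finset Real
open Pool.Agent.H49.Ent Pool.Agent.H32.Dense Pool.STK Pool.KAF Pool.SLO
open Pool.KVA (MI)

section

variable {Ω Λ τ S T U : Type} [Fintype Ω]

theorem det_on {p : Ω → ℝ} (hp : ∀ ω, 0 ≤ p ω) (G : Set Ω) {f : Ω → S} {g : Ω → T}
    (h : Det p f g) : Det (cond p (fun ω => ω ∈ G) True) f g := fun ω ω' a a' hl =>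
  h ω ω' ((cond_pos_iff hp _ _ ω).1 a).1 ((cond_pos_iff hp _ _ ω').1 a').1 hl

/-- The first digits, for raw functions. -/
theorem tic_raw (ε : ℝ) (hε : 0 < ε) : ∃ (a : ℕ) (ε₀ : ℝ), 0 < ε₀ ∧ ∀ (Ω Λ τ : Type) [Fintype Ω]
    (p : Ω → ℝ) (L : Ω → Λ) (T : Ω → τ) (th : τ → ℝ) (j₀ : ℕ), IsLaw p →
      (∀ t, 0 ≤ th t ∧ th t < 1) → a ≤ j₀ →
      j₀ * Real.log 2 - ε₀ ≤ CH p (fun ω => ⌊(2 : ℝ) ^ j₀ * th (T ω)⌋) L →
      Pr (dbl p L) {w | |th (T w.2) - th (T w.1)| < (2 : ℝ) ^ (-(a : ℤ))} ≤ ε := by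
  obtain ⟨a, ε₀, h0, hmain⟩ := Pool.M5.T86.tic_thm ε hε
  obtain ⟨b, hg, hD⟩ := Pool.Agent.H1.M5.tay_thm 1 1
  refine ⟨a, ε₀, h0, ?_⟩
  intro Ω Λ τ _ p L T th j₀ hp hth ha hj
  have hOK := ldz_ok (D := 0) (A := 0) (c := 0) (c' := 0) (R := 0) (X := 1) (L := L) (T := T)
    (y := fun _ : Λ => (0 : ℤ)) (q := fun (_ : Λ) _ => (0 : ℝ)) (N := fun _ => 0) (th := th)
    (e := fun _ => 0) (S := fun _ => 0) b hg hp le_rfl (by simp) (fun l => by simp)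
    (fun l i => by simp) (fun t => by simp) hth (fun _ _ _ _ _ => rfl)
    (fun ω ω' _ _ _ => by simp [hg1])
  have h1 := hmain 1 0 _ _ b _ j₀ (MI p T L (fun _ => ()) + 1) 0 hOK ha ⟨?_, ?_, hj⟩
  · unfold Pool.M5.TC at h1
    rw [Pool.L1.Qp0_eq b _ hOK] at h1
    exact h1
  · show MI p T L (fun _ => ()) ≤ (MI p T L (fun _ => ()) + 1) * ((1 : ℕ) : ℝ)
    rw [Nat.cast_one, mul_one]
    linarith
  · show (1 - (MI p T L (fun _ => ()) + 1)) * ((1 : ℕ) : ℝ) * Real.log 2 ≤ CH p _ L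
    have k1 : 0 ≤ MI p T L (fun _ => ()) := Pool.M5.MI_nonneg hp.nonneg _ _ _
    have k2 : 0 ≤ Real.log 2 := Real.log_nonneg one_le_two
    refine le_trans ?_ (CH_nonneg hp.nonneg _ _)
    rw [Nat.cast_one, mul_one]
    nlinarith

/-- Blocks of rows. -/
theorem blocks {q : Ω → ℝ} (hq : IsLaw q) (F : ℕ → Ω → ℤ) (T : Ω → U) {X h : ℕ} {a : ℝ}
    (hB : ∀ j : ℕ, (j + 1) * h ≤ X → CH q (F ((j + 1) * h)) (fun ω => (F (j * h) ω, T ω)) ≤ a)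
    (j₁ i : ℕ) (hi : (j₁ + i) * h ≤ X) :
    CH q (F ((j₁ + i) * h)) (fun ω => (F (j₁ * h) ω, T ω)) ≤ i * a := by
  induction i with
  | zero =>
    rw [Nat.cast_zero, zero_mul, add_zero]
    refine (CH_eq_zero hq.nonneg ?_).le
    intro ω ω' _ _ hl
    simp only [Prod.mk.injEq] at hl
    exact hl.1
  | succ i ih =>
    have h1 : (j₁ + i) * h ≤ X := le_trans (Nat.mul_le_mul_right h (by omega)) hi
    have k1 := CH_le_add hq.nonneg (F ((j₁ + i + 1) * h)) (F ((j₁ + i) * h))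
      (fun ω => (F (j₁ * h) ω, T ω))
    have k2 : CH q (F ((j₁ + i + 1) * h))
        (fun ω => (F ((j₁ + i) * h) ω, (F (j₁ * h) ω, T ω))) ≤
        CH q (F ((j₁ + i + 1) * h)) (fun ω => (F ((j₁ + i) * h) ω, T ω)) := by
      refine CH_mono_cond hq.nonneg ?_
      intro ω ω' _ _ hl
      simp only [Prod.mk.injEq] at hl ⊢
      exact ⟨hl.1, hl.2.2⟩
    have k3 := hB (j₁ + i) hi
    have k4 := ih h1
    have e1 : (((i + 1 : ℕ)) : ℝ) * a = i * a + a := by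
      push_cast
      ring
    rw [e1]
    exact k1.trans (add_le_add k4 (k2.trans k3))

/-- All pairs of rows, from the blocks. -/
theorem blocks_all {q : Ω → ℝ} (hq : IsLaw q) (N : Ω → ℤ) (T : Ω → U) {X h : ℕ} {c : ℝ}
    (hh : 0 < h) (hc1 : c ≤ 1)
    (hB : ∀ j : ℕ, (j + 1) * h ≤ X → CH q (fun ω => N ω / 2 ^ (X - (j + 1) * h))
      (fun ω => (N ω / 2 ^ (X - j * h), T ω)) ≤ (1 - c) * h * Real.log 2) {r₁ r₂ : ℕ}
    (h1 : r₁ ≤ r₂) (h2 : r₂ ≤ X) : CH q (fun ω => N ω / 2 ^ (X - r₂))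
      (fun ω => (N ω / 2 ^ (X - r₁), T ω)) ≤
        ((1 - c) * ((r₂ : ℝ) - r₁) + 2 * h) * Real.log 2 := by
  have hl2 : 0 ≤ Real.log 2 := Real.log_nonneg one_le_two
  have hr : (r₁ : ℝ) ≤ r₂ := by exact_mod_cast h1
  by_cases hs : r₂ ≤ r₁ + 2 * h
  · have k1 := CH_dig hq N (show X - r₂ ≤ X - r₁ by omega) T
    refine k1.trans (mul_le_mul_of_nonneg_right ?_ hl2)
    have e1 : ((X - r₁ : ℕ) : ℝ) = X - r₁ := by rw [Nat.cast_sub (h1.trans h2)]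
    have e2 : ((X - r₂ : ℕ) : ℝ) = X - r₂ := by rw [Nat.cast_sub h2]
    rw [e1, e2]
    have e3 : (r₂ : ℝ) ≤ r₁ + 2 * h := by exact_mod_cast hs
    nlinarith
  · obtain ⟨j₁, hj₁⟩ : ∃ j₁ : ℕ, j₁ = r₁ / h + 1 := ⟨_, rfl⟩
    obtain ⟨j₂, hj₂⟩ : ∃ j₂ : ℕ, j₂ = r₂ / h := ⟨_, rfl⟩
    have a1 : r₁ < j₁ * h := by
      rw [hj₁, Nat.succ_mul]
      exact Nat.lt_div_mul_add hh
    have a2 : j₁ * h ≤ r₁ + h := by
      rw [hj₁, Nat.succ_mul]
      exact Nat.add_le_add_right (Nat.div_mul_le_self _ _) _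
    have a3 : j₂ * h ≤ r₂ := by
      rw [hj₂]
      exact Nat.div_mul_le_self _ _
    have a4 : r₂ < j₂ * h + h := by
      rw [hj₂]
      have := Nat.lt_div_mul_add hh (a := r₂)
      exact this
    have a5 : j₁ ≤ j₂ := by
      by_contra hcon
      have : j₂ * h ≤ j₁ * h := Nat.mul_le_mul_right h (by omega)
      omega
    obtain ⟨i, rfl⟩ := Nat.exists_eq_add_of_le a5
    have k1 := CH_le_add hq.nonneg (fun ω => N ω / 2 ^ (X - r₂))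
      (fun ω => N ω / 2 ^ (X - j₁ * h)) (fun ω => (N ω / 2 ^ (X - r₁), T ω))
    have k2 := CH_le_add hq.nonneg (fun ω => N ω / 2 ^ (X - r₂))
      (fun ω => N ω / 2 ^ (X - (j₁ + i) * h)) (fun ω => (N ω / 2 ^ (X - j₁ * h), T ω))
    have k3 : CH q (fun ω => N ω / 2 ^ (X - r₂))
        (fun ω => (N ω / 2 ^ (X - j₁ * h), (N ω / 2 ^ (X - r₁), T ω))) ≤
        CH q (fun ω => N ω / 2 ^ (X - r₂)) (fun ω => (N ω / 2 ^ (X - j₁ * h), T ω)) := by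
      refine CH_mono_cond hq.nonneg ?_
      intro ω ω' _ _ hl
      simp only [Prod.mk.injEq] at hl ⊢
      exact ⟨hl.1, hl.2.2⟩
    have k4 : CH q (fun ω => N ω / 2 ^ (X - r₂))
        (fun ω => (N ω / 2 ^ (X - (j₁ + i) * h), (N ω / 2 ^ (X - j₁ * h), T ω))) ≤
        CH q (fun ω => N ω / 2 ^ (X - r₂)) (fun ω => (N ω / 2 ^ (X - (j₁ + i) * h), T ω)) := by
      refine CH_mono_cond hq.nonneg ?_
      intro ω ω' _ _ hl
      simp only [Prod.mk.injEq] at hl ⊢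
      exact ⟨hl.1, hl.2.2⟩
    have k5 := CH_dig hq N (show X - j₁ * h ≤ X - r₁ by omega) T
    have k6 := CH_dig hq N (show X - r₂ ≤ X - (j₁ + i) * h by omega) T
    have k7 := blocks hq (fun r ω => N ω / 2 ^ (X - r)) T hB j₁ i (a3.trans h2)
    have e1 : ((X - r₁ : ℕ) : ℝ) = X - r₁ := by rw [Nat.cast_sub (h1.trans h2)]
    have e2 : ((X - r₂ : ℕ) : ℝ) = X - r₂ := by rw [Nat.cast_sub h2]
    have e3 : ((X - j₁ * h : ℕ) : ℝ) = X - j₁ * h := by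
      rw [Nat.cast_sub (by omega)]
      push_cast
      ring
    have e4 : ((X - (j₁ + i) * h : ℕ) : ℝ) = X - (j₁ + i) * h := by
      rw [Nat.cast_sub (a3.trans h2)]
      push_cast
      ring
    rw [e1, e3] at k5
    rw [e2, e4] at k6
    have b1 : (r₁ : ℝ) ≤ j₁ * h := by exact_mod_cast a1.le
    have b2 : (j₁ : ℝ) * h ≤ r₁ + h := by exact_mod_cast a2
    have b3 : ((j₁ : ℝ) + i) * h ≤ r₂ := by exact_mod_cast a3
    have b4 : (r₂ : ℝ) ≤ ((j₁ : ℝ) + i) * h + h := by exact_mod_cast a4.le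
    have b5 : ((j₁ : ℝ) * h - r₁) + (1 - c) * (i * h) + (r₂ - ((j₁ : ℝ) + i) * h) ≤
        (1 - c) * ((r₂ : ℝ) - r₁) + 2 * h := by
      have c1 : c * ((j₁ : ℝ) * h - r₁) ≤ 1 * h :=
        mul_le_mul hc1 (by linarith) (by linarith) zero_le_one
      have c2 : c * ((r₂ : ℝ) - ((j₁ : ℝ) + i) * h) ≤ 1 * h :=
        mul_le_mul hc1 (by linarith) (by linarith) zero_le_one
      nlinarith
    have b6 := mul_le_mul_of_nonneg_right b5 hl2
    linarith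

end

namespace EDat

variable {k n m : ℕ} (d : EDat k n m)

/-- The data given an event. -/
noncomputable def on (G : Set d.Om) : EDat k n m :=
  { d with P := cond d.P (fun ω => ω ∈ G) True }

variable {d}

theorem on_ok {G : Set d.Om} {A : ℕ} {c : ℝ} (h : d.OK G A c) (hG : 0 < Pr d.P G) :
    (d.on G).OK Set.univ A c := by
  have hp0 := h.law.nonneg
  refine ⟨condG_law hp0 hG, h.hy, h.hp, h.hq, h.he, h.hth, det_on hp0 G h.hN, det_on hp0 G h.hV,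
    fun j => det_on hp0 G (h.hZ j), fun j j' hj => det_on hp0 G (h.hZ' j j' hj),
    fun j => det_on hp0 G (h.hZB j), det_on hp0 G h.hTB, ?_⟩
  intro ω _ ω' _ a a' hl
  have k1 := (cond_pos_iff hp0 (fun ω => ω ∈ G) True ω).1 a
  have k2 := (cond_pos_iff hp0 (fun ω => ω ∈ G) True ω').1 a'
  exact h.hh ω (of_eq_true k1.2) ω' (of_eq_true k2.2) k1.1 k2.1 hl

theorem on_H1a {G : Set d.Om} {A : ℕ} {c ι ι' p₀ : ℝ} {j₀ : ℕ} {ε₀ : ℝ} (h : d.OK G A c)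
    (hp₀ : 0 < p₀) (hG : p₀ ≤ Pr d.P G) (hι : (ι * d.X + 1) ≤ p₀ * (ι' * d.X))
    (hH : d.H1 ι j₀ ε₀) : (d.on G).H1a ι' := by
  have hp0 := h.law.nonneg
  have hG0 : 0 < Pr d.P G := hp₀.trans_le hG
  have hl2 : 0 < Real.log 2 := Real.log_pos one_lt_two
  have hl1 : Real.log 2 ≤ 1 := by
    have := Real.log_two_lt_d9
    linarith
  have k0 : 0 ≤ MI d.P d.T d.L (fun ω => d.B (d.L ω)) := Pool.M5.MI_nonneg hp0 _ _ _
  have k0' : 0 ≤ ι' * d.X := by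
    have h1 : 0 ≤ ι * d.X := k0.trans hH.1
    by_contra hcon
    rw [not_le] at hcon
    have : p₀ * (ι' * d.X) < 0 := mul_neg_of_pos_of_neg hp₀ hcon
    linarith
  have k1 : ι * d.X + 1 ≤ Pr d.P G * (ι' * d.X) :=
    hι.trans (mul_le_mul_of_nonneg_right hG k0')
  constructor
  · refine (mi_ev h.law d.T d.L (fun ω => d.B (d.L ω)) G hG0).trans ?_
    rw [div_le_iff₀ hG0]
    have := hH.1
    show _ ≤ ι' * (d.X : ℝ) * _
    linarith
  · have k2 := Pool.DY1.ev_ge h.law G (d.Ti d.X) d.L (d.X * Real.log 2) hG0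
      (fun q hq _ => tmax (T := d.T) hq h.hth rfl)
    show (1 - ι') * d.X * Real.log 2 ≤ CH (cond d.P (fun ω => ω ∈ G) True) (d.Ti d.X) d.L
    refine le_trans ?_ k2
    rw [le_sub_iff_add_le, ← le_sub_iff_add_le', div_le_iff₀ hG0]
    have k3 := hH.2.1
    have k4 := mul_le_mul_of_nonneg_right k1 hl2.le
    linarith

theorem on_H2 {G : Set d.Om} {A : ℕ} {c ι ι' p₀ : ℝ} (h : d.OK G A c)
    (hp₀ : 0 < p₀) (hG : p₀ ≤ Pr d.P G) (hι : (ι * d.X + 1) ≤ p₀ * (ι' * d.X))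
    (hH : d.H2 ι) : (d.on G).H2 ι' := by
  have hp0 := h.law.nonneg
  have hG0 : 0 < Pr d.P G := hp₀.trans_le hG
  have hl1 : Real.log 2 ≤ 1 := by
    have := Real.log_two_lt_d9
    linarith
  have k2 : MI d.P d.N (fun ω => d.V (d.L ω)) d.T ≤ ι * d.X := hH
  have k0 : 0 ≤ MI d.P d.N (fun ω => d.V (d.L ω)) d.T := Pool.M5.MI_nonneg hp0 _ _ _
  have k0' : 0 ≤ ι' * d.X := by
    have h1 : 0 ≤ ι * d.X := k0.trans k2
    by_contra hcon
    rw [not_le] at hcon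
    have : p₀ * (ι' * d.X) < 0 := mul_neg_of_pos_of_neg hp₀ hcon
    linarith
  have k1 : ι * d.X + 1 ≤ Pr d.P G * (ι' * d.X) :=
    hι.trans (mul_le_mul_of_nonneg_right hG k0')
  refine (mi_ev h.law d.N (fun ω => d.V (d.L ω)) d.T G hG0).trans ?_
  rw [div_le_iff₀ hG0]
  show _ ≤ ι' * (d.X : ℝ) * _
  linarith

theorem on_H3 {G : Set d.Om} {A : ℕ} {c ι ι' p₀ : ℝ} (h : d.OK G A c) (hι0 : 0 ≤ ι)
    (hp₀ : 0 < p₀) (hG : p₀ ≤ Pr d.P G) (hι : (ι * d.X + 3) ≤ p₀ * (ι' * d.X))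
    (hH : d.H3 ι) : (d.on G).H3 ι' := by
  intro j
  have hp0 := h.law.nonneg
  have hG0 : 0 < Pr d.P G := hp₀.trans_le hG
  have hl2 : 0 < Real.log 2 := Real.log_pos one_lt_two
  have hX : (0 : ℝ) ≤ d.X := Nat.cast_nonneg _
  have k0' : 0 ≤ ι' * d.X := by
    have h1 : 0 ≤ ι * d.X := mul_nonneg hι0 hX
    by_contra hcon
    rw [not_le] at hcon
    have : p₀ * (ι' * d.X) < 0 := mul_neg_of_pos_of_neg hp₀ hcon
    linarith
  have k1 : ι * d.X + 3 ≤ Pr d.P G * (ι' * d.X) :=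
    hι.trans (mul_le_mul_of_nonneg_right hG k0')
  have k2 := Pool.DY1.ev_ge h.law G (fun ω => d.y (d.L ω) j) (fun ω => d.Z j (d.L ω))
    ((d.X + 2) * Real.log 2) hG0 (fun q hq _ => (Pool.KS3.CH_le_H hq _ _).trans
      (hmax (y := fun l => d.y l j) hq (fun l => h.hy l j)))
  show (1 - ι') * d.X * Real.log 2 ≤ CH (cond d.P (fun ω => ω ∈ G) True)
    (fun ω => d.y (d.L ω) j) (fun ω => d.Z j (d.L ω))
  refine le_trans ?_ k2
  rw [le_sub_iff_add_le, ← le_sub_iff_add_le', div_le_iff₀ hG0]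
  have k3 := hH j
  have k4 := mul_le_mul_of_nonneg_right k1 hl2.le
  have k5 : 0 ≤ 2 * Real.log 2 * Pr d.P G := by positivity
  linarith

/-- The first digits given an event. -/
theorem on_TC {G : Set d.Om} {A : ℕ} {c p₀ : ℝ} {i₁ : ℕ} {kk : ℕ → ℕ} (h : d.OK G A c)
    (hp₀ : 0 < p₀) (hG : p₀ ≤ Pr d.P G)
    (hT : ∀ i ≤ i₁, Pr (dbl d.P d.L) {w | |d.th (d.T w.2) - d.th (d.T w.1)| <
      (2 : ℝ) ^ (-(kk i : ℤ))} ≤ (1 / 2) ^ (2 * i + 2) * p₀ ^ 2) : (d.on G).TCp kk i₁ := by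
  intro i hi
  have hG0 : 0 < Pr d.P G := hp₀.trans_le hG
  have k1 := dbl_cond h.law d.L hG0 (δ := (1 / 2) ^ (i + 1) * p₀) (by positivity)
    {w | |d.th (d.T w.2) - d.th (d.T w.1)| < (2 : ℝ) ^ (-(kk i : ℤ))}
  refine k1.trans ?_
  have k2 : (1 / 2 : ℝ) ^ (i + 1) * p₀ / Pr d.P G ≤ (1 / 2) ^ (i + 1) := by
    rw [div_le_iff₀ hG0]
    exact mul_le_mul_of_nonneg_left hG (by positivity)
  have k3 : Pr (dbl d.P d.L) {w | |d.th (d.T w.2) - d.th (d.T w.1)| <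
      (2 : ℝ) ^ (-(kk i : ℤ))} / ((1 / 2) ^ (i + 1) * p₀ * Pr d.P G) ≤ (1 / 2) ^ (i + 1) := by
    rw [div_le_iff₀ (by positivity)]
    refine (hT i hi).trans ?_
    have l1 : (1 / 2 : ℝ) ^ (2 * i + 2) * p₀ ^ 2 =
        (1 / 2) ^ (i + 1) * ((1 / 2) ^ (i + 1) * p₀ * p₀) := by
      rw [show 2 * i + 2 = (i + 1) + (i + 1) by ring, pow_add]
      ring
    rw [l1]
    refine mul_le_mul_of_nonneg_left ?_ (by positivity)
    exact mul_le_mul_of_nonneg_left hG (by positivity)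
  have k4 : (1 / 2 : ℝ) ^ (i + 1) + (1 / 2) ^ (i + 1) = (1 / 2) ^ i := by
    rw [pow_succ]
    ring
  linarith

end EDat

/-- (H5) on events gives (H5) with weights. -/
theorem h5_wt (c κ' π₁ p₀ : ℝ) (hc : 0 < c) (hc1 : c ≤ 1) (hκ' : 0 < κ') (hκ'1 : κ' ≤ 1)
    (hπ₁ : 0 < π₁) (hp₀ : 0 < p₀) : ∃ (κ π₀ : ℝ) (X₀ : ℕ), 0 < κ ∧ κ ≤ 1 ∧ 0 < π₀ ∧
      ∀ (k n m : ℕ) (d : EDat k n m) (G : Set d.Om), IsLaw d.P → X₀ ≤ d.X → p₀ ≤ Pr d.P G →
        d.H5 c κ π₀ → (d.on G).H5w (c / 4) κ' π₁ := by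
  classical
  obtain ⟨π₀, M₀, h1, h2, h3, hw⟩ := wt_thm c (p₀ * π₁) hc (by positivity)
  have hl2 : 0 < Real.log 2 := Real.log_pos one_lt_two
  obtain ⟨X₀, hX₀⟩ := exists_nat_ge ((M₀ / Real.log 2 + 2) / (c * κ' / 8))
  refine ⟨c * κ' / 8, π₀, X₀, by positivity, by nlinarith, h1, ?_⟩
  intro k n m d G hp hX hG hH W hW hWπ r₁ r₂ hr hr2 hr3
  have hG0 : 0 < Pr d.P G := hp₀.trans_le hG
  have hXr : (M₀ / Real.log 2 + 2) / (c * κ' / 8) ≤ (d.X : ℝ) :=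
    hX₀.trans (by exact_mod_cast hX)
  rw [div_le_iff₀ (by positivity)] at hXr
  obtain ⟨h, hh⟩ : ∃ h : ℕ, h = ⌊c * κ' / 8 * d.X⌋₊ := ⟨_, rfl⟩
  have hh1 : (h : ℝ) ≤ c * κ' / 8 * d.X := by
    rw [hh]
    exact Nat.floor_le (by positivity)
  have hh2 : c * κ' / 8 * d.X < h + 1 := by
    rw [hh]
    exact Nat.lt_floor_add_one _
  have hh3 : M₀ / Real.log 2 ≤ h := by linarith
  have hh4 : 0 < h := by
    have : (0 : ℝ) < h := by
      have : 0 < M₀ / Real.log 2 := by positivity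
      linarith
    exact_mod_cast this
  have hMh : M₀ ≤ h * Real.log 2 := by
    rw [div_le_iff₀ hl2] at hh3
    exact hh3
  obtain ⟨e1, e2⟩ := wt_cond d.P G hG0 W
  have hWπ' : π₁ ≤ ∑ v, cond d.P (fun v => v ∈ G) True v * W v := hWπ
  rw [e2, le_div_iff₀ hG0] at hWπ'
  have hWm : p₀ * π₁ ≤ ∑ ω, d.P ω * (if ω ∈ G then W ω else 0) := by
    refine le_trans ?_ hWπ'
    rw [mul_comm]
    exact mul_le_mul_of_nonneg_left hG hπ₁.le
  have hsp : 0 < ∑ ω, d.P ω * (if ω ∈ G then W ω else 0) :=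
    lt_of_lt_of_le (by positivity) hWm
  have hW01 : ∀ ω, 0 ≤ (if ω ∈ G then W ω else 0) ∧ (if ω ∈ G then W ω else 0) ≤ 1 := by
    intro ω
    split_ifs
    · exact hW ω
    · exact ⟨le_rfl, zero_le_one⟩
  have hlw : IsLaw (wt d.P (fun ω => if ω ∈ G then W ω else 0)) :=
    wt_isLaw hp.nonneg (fun ω => (hW01 ω).1) hsp
  have hB : ∀ j : ℕ, (j + 1) * h ≤ d.X →
      CH (wt d.P (fun ω => if ω ∈ G then W ω else 0))
      (fun ω => d.N ω / 2 ^ (d.X - (j + 1) * h))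
      (fun ω => (d.N ω / 2 ^ (d.X - j * h), d.T ω)) ≤ (1 - c / 2) * h * Real.log 2 := by
    intro j hj
    have k1 := hw d.Om ℤ (ℤ × d.Tau) d.P (fun ω => d.N ω / 2 ^ (d.X - (j + 1) * h))
      (fun ω => (d.N ω / 2 ^ (d.X - j * h), d.T ω)) (h * Real.log 2) hp hMh
      (fun q hq _ => by
        have k2 := CH_dig hq d.N (show d.X - (j + 1) * h ≤ d.X - j * h from
          Nat.sub_le_sub_left (Nat.mul_le_mul_right h (Nat.le_succ _)) _) d.T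
        refine k2.trans (le_of_eq ?_)
        have e3 : ((d.X - j * h : ℕ) : ℝ) = d.X - j * h := by
          rw [Nat.cast_sub (le_trans (Nat.mul_le_mul_right h (Nat.le_succ _)) hj)]
          push_cast
          ring
        have e4 : ((d.X - (j + 1) * h : ℕ) : ℝ) = d.X - (j + 1) * h := by
          rw [Nat.cast_sub hj]
          push_cast
          ring
        rw [e3, e4]
        ring)
      (fun E hE => by
        have k2 := hH j (by rw [← hh]; exact hj) E hE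
        rw [← hh] at k2
        rw [← mul_assoc]
        exact k2)
      (fun ω => if ω ∈ G then W ω else 0) (fun ω => (hW01 ω).1) (fun ω => (hW01 ω).2) hWm
    rw [← mul_assoc] at k1
    exact k1
  have hfin := blocks_all hlw d.N d.T hh4 (by linarith) hB hr hr2
  show CH (wt (cond d.P (fun v => v ∈ G) True) W) (fun ω => d.N ω / 2 ^ (d.X - r₂))
    (fun ω => (d.N ω / 2 ^ (d.X - r₁), d.T ω)) ≤ _
  rw [e1]
  refine hfin.trans (mul_le_mul_of_nonneg_right ?_ hl2.le)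
  have hr3' : κ' * (d.X : ℝ) ≤ (r₂ : ℝ) - r₁ := hr3
  have k3 := mul_le_mul_of_nonneg_left hr3' (show (0 : ℝ) ≤ c / 4 by positivity)
  linarith

/-- A bound for finitely many thresholds. -/
theorem ex_min (e : ℕ → ℝ) (he : ∀ i, 0 < e i) (i₁ : ℕ) : ∃ x : ℝ, 0 < x ∧ ∀ i ≤ i₁, x ≤ e i := by
  induction i₁ with
  | zero => exact ⟨e 0, he 0, fun i hi => by rw [Nat.le_zero.1 hi]⟩
  | succ i₁ ih =>
    obtain ⟨x, h1, h2⟩ := ih
    refine ⟨min x (e (i₁ + 1)), lt_min h1 (he _), fun i hi => ?_⟩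
    rcases Nat.lt_or_ge i (i₁ + 1) with h3 | h3
    · exact (min_le_left _ _).trans (h2 i (by omega))
    · have : i = i₁ + 1 := by omega
      rw [this]
      exact min_le_right _ _

theorem ex_max (e : ℕ → ℕ) (i₁ : ℕ) : ∃ x : ℕ, ∀ i ≤ i₁, e i ≤ x := by
  induction i₁ with
  | zero => exact ⟨e 0, fun i hi => by rw [Nat.le_zero.1 hi]⟩
  | succ i₁ ih =>
    obtain ⟨x, h2⟩ := ih
    refine ⟨max x (e (i₁ + 1)), fun i hi => ?_⟩
    rcases Nat.lt_or_ge i (i₁ + 1) with h3 | h3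
    · exact (h2 i (by omega)).trans (le_max_left _ _)
    · have : i = i₁ + 1 := by omega
      rw [this]
      exact le_max_right _ _

/-- **L1 level by level.** -/
theorem l1lev : L1LevStmt := by
  intro k n m D A c p₀ ε hD hc hp₀ hε
  -- the profile of the first digits
  have hprof : ∀ i : ℕ, ∃ (a : ℕ) (ε₀ : ℝ), 0 < ε₀ ∧ ∀ (Ω Λ τ : Type) [Fintype Ω]
    (p : Ω → ℝ) (L : Ω → Λ) (T : Ω → τ) (th : τ → ℝ) (j₀ : ℕ), IsLaw p →
      (∀ t, 0 ≤ th t ∧ th t < 1) → a ≤ j₀ →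
      j₀ * Real.log 2 - ε₀ ≤ CH p (fun ω => ⌊(2 : ℝ) ^ j₀ * th (T ω)⌋) L →
      Pr (dbl p L) {w | |th (T w.2) - th (T w.1)| < (2 : ℝ) ^ (-(a : ℤ))} ≤
        (1 / 2) ^ (2 * i + 2) * p₀ ^ 2 := fun i => tic_raw _ (by positivity)
  choose kk e₀ he₀ hkk using hprof
  obtain ⟨c', hc'⟩ : ∃ c' : ℝ, c' = min c 1 := ⟨_, rfl⟩
  have hc'0 : 0 < c' := by
    rw [hc']
    exact lt_min hc one_pos
  have hc'1 : c' ≤ 1 := by
    rw [hc']
    exact min_le_right _ _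
  have hc'c : c' ≤ c := by
    rw [hc']
    exact min_le_left _ _
  obtain ⟨κ₂, κ', π₁, ι', i₁, k₀, X₁, a1, a2, a3, a4, a5, a6, hmain⟩ :=
    lev_all k n m D A (c' / 4) ε kk hD (by positivity) (by linarith) hε
  obtain ⟨κ, π₀, X₂, b1, b2, b3, hH5⟩ := h5_wt c' κ' π₁ p₀ hc'0 hc'1 a3 a4 a5 hp₀
  obtain ⟨ε₀, d1, d2⟩ := ex_min e₀ he₀ i₁
  obtain ⟨j₀, d3⟩ := ex_max kk i₁
  obtain ⟨X₃, hX₃⟩ := exists_nat_ge (6 / (p₀ * ι'))
  obtain ⟨ι, hι⟩ : ∃ ι : ℝ, ι = min ι' (p₀ * ι' / 2) := ⟨_, rfl⟩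
  have hι0 : 0 < ι := by
    rw [hι]
    exact lt_min a6 (by positivity)
  refine ⟨κ₂, κ, π₀, ι, ε₀, k₀, j₀, max (max X₁ X₂) X₃, a1, b1, b2, b3, hι0, d1, ?_⟩
  intro d G hok hX hG hH1 hH2 hH3 hH
  have hXX1 : X₁ ≤ d.X := ((le_max_left _ _).trans (le_max_left _ _)).trans hX
  have hXX2 : X₂ ≤ d.X := ((le_max_right _ _).trans (le_max_left _ _)).trans hX
  have hXX3 : 6 / (p₀ * ι') ≤ (d.X : ℝ) := hX₃.trans (by exact_mod_cast (le_max_right _ _).trans hX)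
  rw [div_le_iff₀ (by positivity)] at hXX3
  have hX0 : (0 : ℝ) ≤ d.X := Nat.cast_nonneg _
  have hG0 : 0 < Pr d.P G := hp₀.trans_le hG
  have i1 : ι * d.X ≤ ι' * d.X := by
    refine mul_le_mul_of_nonneg_right ?_ hX0
    rw [hι]
    exact min_le_left _ _
  have i2 : ι * d.X ≤ p₀ * ι' / 2 * d.X := by
    refine mul_le_mul_of_nonneg_right ?_ hX0
    rw [hι]
    exact min_le_right _ _
  have i3 : ι * d.X + 3 ≤ p₀ * (ι' * d.X) := by linarith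
  have i4 : ι * d.X + 1 ≤ p₀ * (ι' * d.X) := by linarith
  have hTC := EDat.on_TC (kk := kk) (i₁ := i₁) hok hp₀ hG (fun i hi => by
    refine hkk i d.Om d.Lam d.Tau d.P d.L d.T d.th j₀ hok.law hok.hth (d3 i hi) ?_
    have k1 := hH1.2.2
    have k2 := d2 i hi
    have k3 : CH d.P (d.Ti j₀) d.L = CH d.P (fun ω => ⌊(2 : ℝ) ^ j₀ * d.th (d.T ω)⌋) d.L := rfl
    rw [← k3]
    linarith)
  have hHc : d.H5 c' κ π₀ := by
    intro j hj E hE
    refine (hH j hj E hE).trans ?_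
    refine mul_le_mul_of_nonneg_right ?_ (Real.log_nonneg one_le_two)
    exact mul_le_mul_of_nonneg_right (by linarith) (Nat.cast_nonneg _)
  exact hmain (d.on G) ((EDat.on_ok hok hG0).mono i1) hXX1
    (EDat.on_H1a hok hp₀ hG i4 hH1) hTC (EDat.on_H2 hok hp₀ hG i4 hH2)
    (EDat.on_H3 hok hι0.le hp₀ hG i3 hH3) (hH5 k n m d G hok.law hXX2 hG hHc)

end Pool.LEV
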