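import Pool.Agent.H48.GEN.ShJ
import Pool.Agent.H48.GEN.L1Lev

/-!
# L1 level by level, sheets: the theorem
-/

set_option autoImplicit false

namespace Pool.LSH

open Finset Real
open Pool.Agent.H49.Ent Pool.Agent.H32.Dense Pool.STK Pool.KAF Pool.SLO Pool.LEV
open Pool.KVA (MI)

namespace SDat

variable {k n m K : ℕ} (d : SDat k n m K)

/-- The data given an event. -/
noncomputable def on (G : Set d.Om) : SDat k n m K :=
  { d with P := cond d.P (fun ω => ω ∈ G) True }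

/-- The part of the data in (H5). -/
def toE : EDat 0 0 0 where
  Om := d.Om
  Lam := d.Lam
  Tau := d.Tau
  Nu := Unit
  Ze := Unit
  Be := Unit
  P := d.P
  L := d.L
  T := d.T
  V := fun _ => ()
  Z := fun _ _ => ()
  B := fun _ => ()
  y := fun _ _ => 0
  p := fun _ _ _ => 0
  q := fun _ _ => 0
  N := d.N
  th := d.th
  s := fun _ => 0
  e := fun _ _ => 0
  X := d.X

variable {d}

theorem on_ok {G : Set d.Om} {c : ℝ} (h : d.OK G c) (hG : 0 < Pr d.P G) :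
    (d.on G).OK Set.univ c := by
  have hp0 := h.law.nonneg
  have hpos : ∀ ω, 0 < cond d.P (fun ω => ω ∈ G) True ω → ω ∈ G ∧ 0 < d.P ω := by
    intro ω a
    have k1 := (cond_pos_iff hp0 (fun ω => ω ∈ G) True ω).1 a
    exact ⟨of_eq_true k1.2, k1.1⟩
  refine ⟨condG_law hp0 hG, h.hth, h.hF, h.hFc, det_on hp0 G h.hN, det_on hp0 G h.hV,
    fun j => det_on hp0 G (h.hZB j), det_on hp0 G h.hTB, ?_, ?_, ?_, ?_, ?_, ?_, ?_, ?_⟩
  · exact fun ω a => h.hy ω (hpos ω a).2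
  · exact fun ω _ a => h.tri ω (hpos ω a).1 (hpos ω a).2
  · exact fun ω _ a => h.dia ω (hpos ω a).1 (hpos ω a).2
  · exact fun ω _ a => h.hq ω (hpos ω a).1 (hpos ω a).2
  · exact fun ω _ a => h.hx ω (hpos ω a).1 (hpos ω a).2
  · exact fun ω _ a => h.hs ω (hpos ω a).1 (hpos ω a).2
  · exact fun ω _ a => h.cc ω (hpos ω a).1 (hpos ω a).2
  · exact fun ω _ ω' _ a a' => h.hh ω (hpos ω a).1 ω' (hpos ω' a').1 (hpos ω a).2 (hpos ω' a').2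

theorem on_H1a {G : Set d.Om} {c ι ι' p₀ : ℝ} {j₀ : ℕ} {ε₀ : ℝ} (h : d.OK G c)
    (hp₀ : 0 < p₀) (hG : p₀ ≤ Pr d.P G) (hι : (ι * d.X + 1) ≤ p₀ * (ι' * d.X))
    (hH : d.H1 ι j₀ ε₀) : (d.on G).H1a ι' := by
  have hp0 := h.law.nonneg
  have hG0 : 0 < Pr d.P G := hp₀.trans_le hG
  have hl2 : 0 < Real.log 2 := Real.log_pos one_lt_two
  have hl1 : Real.log 2 ≤ 1 := by
    have := Real.log_two_lt_d9
    linarith
  have k0 : 0 ≤ MI d.P d.T d.L (fun ω => d.B (d.L ω)) := Pool.M5.MI_nonneg hp0 _ _ _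
  have k0' : 0 ≤ ι' * d.X := by
    have h1 : 0 ≤ ι * d.X := k0.trans hH.1
    by_contra hcon
    rw [not_le] at hcon
    have : p₀ * (ι' * d.X) < 0 := mul_neg_of_pos_of_neg hp₀ hcon
    linarith
  have k1 : ι * d.X + 1 ≤ Pr d.P G * (ι' * d.X) :=
    hι.trans (mul_le_mul_of_nonneg_right hG k0')
  constructor
  · refine (mi_ev h.law d.T d.L (fun ω => d.B (d.L ω)) G hG0).trans ?_
    rw [div_le_iff₀ hG0]
    have := hH.1
    show _ ≤ ι' * (d.X : ℝ) * _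
    linarith
  · have k2 := Pool.DY1.ev_ge h.law G (d.Ti d.X) d.L (d.X * Real.log 2) hG0
      (fun q hq _ => tmax (T := d.T) hq h.hth rfl)
    show (1 - ι') * d.X * Real.log 2 ≤ CH (cond d.P (fun ω => ω ∈ G) True) (d.Ti d.X) d.L
    refine le_trans ?_ k2
    rw [le_sub_iff_add_le, ← le_sub_iff_add_le', div_le_iff₀ hG0]
    have k3 := hH.2.1
    have k4 := mul_le_mul_of_nonneg_right k1 hl2.le
    linarith

theorem on_H2 {G : Set d.Om} {c ι ι' p₀ : ℝ} (h : d.OK G c)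
    (hp₀ : 0 < p₀) (hG : p₀ ≤ Pr d.P G) (hι : (ι * d.X + 1) ≤ p₀ * (ι' * d.X))
    (hH : d.H2 ι) : (d.on G).H2 ι' := by
  have hp0 := h.law.nonneg
  have hG0 : 0 < Pr d.P G := hp₀.trans_le hG
  have hl1 : Real.log 2 ≤ 1 := by
    have := Real.log_two_lt_d9
    linarith
  have k2 : MI d.P d.N (fun ω => d.V (d.L ω)) d.T ≤ ι * d.X := hH
  have k0 : 0 ≤ MI d.P d.N (fun ω => d.V (d.L ω)) d.T := Pool.M5.MI_nonneg hp0 _ _ _
  have k0' : 0 ≤ ι' * d.X := by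
    have h1 : 0 ≤ ι * d.X := k0.trans k2
    by_contra hcon
    rw [not_le] at hcon
    have : p₀ * (ι' * d.X) < 0 := mul_neg_of_pos_of_neg hp₀ hcon
    linarith
  have k1 : ι * d.X + 1 ≤ Pr d.P G * (ι' * d.X) :=
    hι.trans (mul_le_mul_of_nonneg_right hG k0')
  refine (mi_ev h.law d.N (fun ω => d.V (d.L ω)) d.T G hG0).trans ?_
  rw [div_le_iff₀ hG0]
  show _ ≤ ι' * (d.X : ℝ) * _
  linarith

theorem on_H3 {G : Set d.Om} {c ι ι' p₀ : ℝ} (h : d.OK G c) (hι0 : 0 ≤ ι)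
    (hp₀ : 0 < p₀) (hG : p₀ ≤ Pr d.P G) (hι : (ι * d.X + 3) ≤ p₀ * (ι' * d.X))
    (hH : d.H3 ι) : (d.on G).H3 ι' := by
  intro j
  have hp0 := h.law.nonneg
  have hG0 : 0 < Pr d.P G := hp₀.trans_le hG
  have hl2 : 0 < Real.log 2 := Real.log_pos one_lt_two
  have hX : (0 : ℝ) ≤ d.X := Nat.cast_nonneg _
  have k0' : 0 ≤ ι' * d.X := by
    have h1 : 0 ≤ ι * d.X := mul_nonneg hι0 hX
    by_contra hcon
    rw [not_le] at hcon
    have : p₀ * (ι' * d.X) < 0 := mul_neg_of_pos_of_neg hp₀ hcon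
    linarith
  have k1 : ι * d.X + 3 ≤ Pr d.P G * (ι' * d.X) :=
    hι.trans (mul_le_mul_of_nonneg_right hG k0')
  have k2 := Pool.DY1.ev_ge h.law G (fun ω => d.y (d.L ω) j) (fun ω => d.Z j (d.L ω))
    ((d.X + 2) * Real.log 2) hG0 (fun q hq hq' => (Pool.KS3.CH_le_H hq _ _).trans
      (hmax' (X := d.X) hq (fun ω hω => h.hy ω (hq' ω hω) j)))
  show (1 - ι') * d.X * Real.log 2 ≤ CH (cond d.P (fun ω => ω ∈ G) True)
    (fun ω => d.y (d.L ω) j) (fun ω => d.Z j (d.L ω))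
  refine le_trans ?_ k2
  rw [le_sub_iff_add_le, ← le_sub_iff_add_le', div_le_iff₀ hG0]
  have k3 := hH j
  have k4 := mul_le_mul_of_nonneg_right k1 hl2.le
  have k5 : 0 ≤ 2 * Real.log 2 * Pr d.P G := by positivity
  linarith

/-- The first digits given an event. -/
theorem on_TC {G : Set d.Om} {c p₀ : ℝ} {i₁ : ℕ} {kk : ℕ → ℕ} (h : d.OK G c)
    (hp₀ : 0 < p₀) (hG : p₀ ≤ Pr d.P G)
    (hT : ∀ i ≤ i₁, Pr (dbl d.P d.L) {w | |d.th (d.T w.2) - d.th (d.T w.1)| <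
      (2 : ℝ) ^ (-(kk i : ℤ))} ≤ (1 / 2) ^ (2 * i + 2) * p₀ ^ 2) : (d.on G).TCp kk i₁ := by
  intro i hi
  have hG0 : 0 < Pr d.P G := hp₀.trans_le hG
  have k1 := dbl_cond h.law d.L hG0 (δ := (1 / 2) ^ (i + 1) * p₀) (by positivity)
    {w | |d.th (d.T w.2) - d.th (d.T w.1)| < (2 : ℝ) ^ (-(kk i : ℤ))}
  refine k1.trans ?_
  have k2 : (1 / 2 : ℝ) ^ (i + 1) * p₀ / Pr d.P G ≤ (1 / 2) ^ (i + 1) := by
    rw [div_le_iff₀ hG0]
    exact mul_le_mul_of_nonneg_left hG (by positivity)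
  have k3 : Pr (dbl d.P d.L) {w | |d.th (d.T w.2) - d.th (d.T w.1)| <
      (2 : ℝ) ^ (-(kk i : ℤ))} / ((1 / 2) ^ (i + 1) * p₀ * Pr d.P G) ≤ (1 / 2) ^ (i + 1) := by
    rw [div_le_iff₀ (by positivity)]
    refine (hT i hi).trans ?_
    have l1 : (1 / 2 : ℝ) ^ (2 * i + 2) * p₀ ^ 2 =
        (1 / 2) ^ (i + 1) * ((1 / 2) ^ (i + 1) * p₀ * p₀) := by
      rw [show 2 * i + 2 = (i + 1) + (i + 1) by ring, pow_add]
      ring
    rw [l1]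
    refine mul_le_mul_of_nonneg_left ?_ (by positivity)
    exact mul_le_mul_of_nonneg_left hG (by positivity)
  have k4 : (1 / 2 : ℝ) ^ (i + 1) + (1 / 2) ^ (i + 1) = (1 / 2) ^ i := by
    rw [pow_succ]
    ring
  linarith

end SDat

/-- **L1 level by level, sheets, with the separation of the times instead of the first digits.** -/
theorem l1sh_tc (k n m K D : ℕ) (c p₀ ε : ℝ) (kk : ℕ → ℕ) (hD : m + k * (K * n * n) ≤ D)
    (hc : 0 < c) (hp₀ : 0 < p₀) (hε : 0 < ε) :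
    ∃ (κ₂ κ π₀ ι : ℝ) (i₁ k₀ X₀ : ℕ), 0 < κ₂ ∧ 0 < κ ∧ κ ≤ 1 ∧ 0 < π₀ ∧ 0 < ι ∧
      ∀ (d : SDat k n m K) (G : Set d.Om), d.OK G (ι * d.X) → X₀ ≤ d.X → p₀ ≤ Pr d.P G →
        d.H1 ι 0 0 → (∀ i ≤ i₁, Pr (dbl d.P d.L) {w | |d.th (d.T w.2) - d.th (d.T w.1)| <
          (2 : ℝ) ^ (-(kk i : ℤ))} ≤ (1 / 2) ^ (2 * i + 2) * p₀ ^ 2) →
        d.H2 ι → d.H3 ι → d.H5 c κ π₀ →
        Pr (tup (cond d.P (fun ω => ω ∈ G) True) d.L (D + 1))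
          (d.Bad D k₀ ((2 : ℝ) ^ (-(κ₂ * d.X)))) ≤ ε := by
  obtain ⟨c', hc'⟩ : ∃ c' : ℝ, c' = min c 1 := ⟨_, rfl⟩
  have hc'0 : 0 < c' := by
    rw [hc']
    exact lt_min hc one_pos
  have hc'1 : c' ≤ 1 := by
    rw [hc']
    exact min_le_right _ _
  have hc'c : c' ≤ c := by
    rw [hc']
    exact min_le_left _ _
  obtain ⟨κ₂, κ', π₁, ι', i₁, k₀, X₁, a1, a2, a3, a4, a5, a6, hmain⟩ :=
    sh_all k n m K D (c' / 4) ε kk hD (by positivity) (by linarith) hε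
  obtain ⟨κ, π₀, X₂, b1, b2, b3, hH5⟩ := h5_wt c' κ' π₁ p₀ hc'0 hc'1 a3 a4 a5 hp₀
  obtain ⟨X₃, hX₃⟩ := exists_nat_ge (6 / (p₀ * ι'))
  obtain ⟨ι, hι⟩ : ∃ ι : ℝ, ι = min ι' (p₀ * ι' / 2) := ⟨_, rfl⟩
  have hι0 : 0 < ι := by
    rw [hι]
    exact lt_min a6 (by positivity)
  refine ⟨κ₂, κ, π₀, ι, i₁, k₀, max (max X₁ X₂) X₃, a1, b1, b2, b3, hι0, ?_⟩
  intro d G hok hX hG hH1 hT hH2 hH3 hH
  have hXX1 : X₁ ≤ d.X := ((le_max_left _ _).trans (le_max_left _ _)).trans hX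
  have hXX2 : X₂ ≤ d.X := ((le_max_right _ _).trans (le_max_left _ _)).trans hX
  have hXX3 : 6 / (p₀ * ι') ≤ (d.X : ℝ) := hX₃.trans (by exact_mod_cast (le_max_right _ _).trans hX)
  rw [div_le_iff₀ (by positivity)] at hXX3
  have hX0 : (0 : ℝ) ≤ d.X := Nat.cast_nonneg _
  have hG0 : 0 < Pr d.P G := hp₀.trans_le hG
  have i1 : ι * d.X ≤ ι' * d.X := by
    refine mul_le_mul_of_nonneg_right ?_ hX0
    rw [hι]
    exact min_le_left _ _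
  have i2 : ι * d.X ≤ p₀ * ι' / 2 * d.X := by
    refine mul_le_mul_of_nonneg_right ?_ hX0
    rw [hι]
    exact min_le_right _ _
  have i3 : ι * d.X + 3 ≤ p₀ * (ι' * d.X) := by linarith
  have i4 : ι * d.X + 1 ≤ p₀ * (ι' * d.X) := by linarith
  have hHc : d.H5 c' κ π₀ := by
    intro j hj E hE
    refine (hH j hj E hE).trans ?_
    refine mul_le_mul_of_nonneg_right ?_ (Real.log_nonneg one_le_two)
    exact mul_le_mul_of_nonneg_right (by linarith) (Nat.cast_nonneg _)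
  exact hmain (d.on G) ((SDat.on_ok hok hG0).mono i1) hXX1
    (SDat.on_H1a hok hp₀ hG i4 hH1) (SDat.on_TC hok hp₀ hG hT) (SDat.on_H2 hok hp₀ hG i4 hH2)
    (SDat.on_H3 hok hι0.le hp₀ hG i3 hH3) (hH5 0 0 0 d.toE G hok.law hXX2 hG hHc)

/-- **L1 level by level, sheets.** -/
theorem l1sh : L1ShStmt := by
  intro k n m K D c p₀ ε hD hc hp₀ hε
  -- the profile of the first digits
  have hprof : ∀ i : ℕ, ∃ (a : ℕ) (ε₀ : ℝ), 0 < ε₀ ∧ ∀ (Ω Λ τ : Type) [Fintype Ω]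
    (p : Ω → ℝ) (L : Ω → Λ) (T : Ω → τ) (th : τ → ℝ) (j₀ : ℕ), IsLaw p →
      (∀ t, 0 ≤ th t ∧ th t < 1) → a ≤ j₀ →
      j₀ * Real.log 2 - ε₀ ≤ CH p (fun ω => ⌊(2 : ℝ) ^ j₀ * th (T ω)⌋) L →
      Pr (dbl p L) {w | |th (T w.2) - th (T w.1)| < (2 : ℝ) ^ (-(a : ℤ))} ≤
        (1 / 2) ^ (2 * i + 2) * p₀ ^ 2 := fun i => tic_raw _ (by positivity)
  choose kk e₀ he₀ hkk using hprof
  obtain ⟨κ₂, κ, π₀, ι, i₁, k₀, X₀, a1, a2, a3, a4, a5, hmain⟩ :=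
    l1sh_tc k n m K D c p₀ ε kk hD hc hp₀ hε
  obtain ⟨ε₀, d1, d2⟩ := ex_min e₀ he₀ i₁
  obtain ⟨j₀, d3⟩ := ex_max kk i₁
  refine ⟨κ₂, κ, π₀, ι, ε₀, k₀, j₀, X₀, a1, a2, a3, a4, a5, d1, ?_⟩
  intro d G hok hX hG hH1 hH2 hH3 hH
  have hTC : ∀ i ≤ i₁, Pr (dbl d.P d.L) {w | |d.th (d.T w.2) - d.th (d.T w.1)| <
      (2 : ℝ) ^ (-(kk i : ℤ))} ≤ (1 / 2) ^ (2 * i + 2) * p₀ ^ 2 := by
    intro i hi
    refine hkk i d.Om d.Lam d.Tau d.P d.L d.T d.th j₀ hok.law hok.hth (d3 i hi) ?_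
    have k1 := hH1.2.2
    have k2 := d2 i hi
    have k3 : CH d.P (d.Ti j₀) d.L = CH d.P (fun ω => ⌊(2 : ℝ) ^ j₀ * d.th (d.T ω)⌋) d.L := rfl
    rw [← k3]
    linarith
  have hH1' : d.H1 ι 0 0 := by
    refine ⟨hH1.1, hH1.2.1, ?_⟩
    rw [Nat.cast_zero, zero_mul, sub_zero]
    exact CH_nonneg hok.law.nonneg _ _
  exact hmain d G hok hX hG hH1' hTC hH2 hH3 hH

end Pool.LSH
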