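import Pool.Agent.H87.SLO.Tup
import Pool.Agent.H54.KVA.Defs2

/-!
# L1 level by level, sheets (target of weight one, curved base): definitions and statement

The base coordinates `j : Fin k` are ordered by increasing ratio. `x l t` is the path of the line `l`
in the base, `F T` the own shape of the sample with the (known) data `T`, any polynomial; the height
of the target is `∑ q i t ^ (i + 1) - s T - F T (x t)`.

`Z j` are the data given which the position `y j` of the coordinate `j` is full. They determine the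
sheet `sheet j (Z j) t y`, `y` real: a point of the base whose coordinates after `j` are zero, whose
coordinate `j` is `y` plus a function of the time (`frz`: its value at the time at which the
coordinate `j` is zero as well). The path `x` is the sheet of the last coordinate at its position;
the frozen sheet of the coordinate `j + 1` is the sheet of the coordinate `j` at its position (`cc`),
at the times of the samples and up to `2 ^ (c - X)`.

Conclusion: `F T (x t) - F T 0` is a polynomial in the time along the line (tuples of samples of one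
line).
-/

set_option autoImplicit false

namespace Pool.LSH

open Finset Real
open Pool.Agent.H49.Ent Pool.Agent.H32.Dense Pool.STK Pool.KAF

/-- The data of one context. -/
structure SDat (k n m K : ℕ) where
  Om : Type
  Lam : Type
  Tau : Type
  Nu : Type
  Ze : Type
  Be : Type
  [fin : Fintype Om]
  P : Om → ℝ
  L : Om → Lam
  T : Om → Tau
  V : Lam → Nu
  Z : Fin k → Lam → Ze
  B : Lam → Be
  y : Lam → Fin k → ℤ
  x : Lam → ℝ → Fin k → ℝ
  /-- the coefficient of `t ^ a y ^ b` in the coordinate `i` of the sheet of `j` -/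
  sg : Fin k → Ze → Fin k → Fin (n + 1) → Fin (n + 1) → ℝ
  q : Lam → Fin m → ℝ
  N : Om → ℤ
  th : Tau → ℝ
  s : Tau → ℝ
  F : Tau → MvPolynomial (Fin k) ℝ
  X : ℕ

attribute [instance] SDat.fin

namespace SDat

variable {k n m K : ℕ} (d : SDat k n m K)

/-- The sheet of the coordinate `j`. -/
noncomputable def sheet (j : Fin k) (z : d.Ze) (t y : ℝ) (i : Fin k) : ℝ :=
  ∑ a, ∑ b, d.sg j z i a b * t ^ a.val * y ^ b.val

/-- The sheet of the coordinate `j` where this coordinate is zero. -/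
noncomputable def frz (j : Fin k) (z : d.Ze) (t : ℝ) (i : Fin k) : ℝ :=
  d.sheet j z t (-d.sheet j z t 0 j) i

/-- The path above the coordinate `j`: the frozen sheet of the next coordinate, the path itself for
the last coordinate. -/
noncomputable def up (l : d.Lam) (j : Fin k) (t : ℝ) (i : Fin k) : ℝ :=
  if h : j.val + 1 < k then d.frz ⟨j.val + 1, h⟩ (d.Z ⟨j.val + 1, h⟩ l) t i else d.x l t i

/-- The value of the own shape along the path. -/
noncomputable def val (l : d.Lam) (t : d.Tau) : ℝ :=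
  MvPolynomial.eval (d.x l (d.th t)) (d.F t) - MvPolynomial.eval 0 (d.F t)

/-- The height of the target. -/
noncomputable def hgt (l : d.Lam) (t : d.Tau) : ℝ :=
  ∑ i, d.q l i * d.th t ^ (i.val + 1) - d.s t - MvPolynomial.eval (d.x l (d.th t)) (d.F t)

/-- The row `r` of the height. -/
def row (r : ℕ) (ω : d.Om) : ℤ := d.N ω / 2 ^ (d.X - r)

/-- The basic assumptions on the samples of an event `G`; `c` bounds the logarithm of the
coefficients and of the errors (in units `2 ^ (-X)`). -/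
structure OK (G : Set d.Om) (c : ℝ) : Prop where
  law : IsLaw d.P
  hth : ∀ t, 0 ≤ d.th t ∧ d.th t < 1
  hF : ∀ t, (d.F t).totalDegree ≤ K
  hFc : ∀ t α, |MvPolynomial.coeff α (d.F t)| ≤ (2 : ℝ) ^ c
  hN : Det d.P (fun ω => (d.L ω, d.T ω)) d.N
  hV : Det d.P (fun ω => d.V (d.L ω))
    (fun ω => (d.y (d.L ω), d.q (d.L ω), fun j => d.Z j (d.L ω)))
  hZB : ∀ j, Det d.P (fun ω => d.Z j (d.L ω)) (fun ω => d.B (d.L ω))
  hTB : Det d.P d.T (fun ω => d.B (d.L ω))
  hy : ∀ ω, 0 < d.P ω → ∀ j, |(d.y (d.L ω) j : ℝ) / 2 ^ d.X| ≤ 1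
  -- on the samples of `G`; the sheets: the coordinates after `j` vanish, the coordinate `j` is `y`
  -- plus a function of `t`
  tri : ∀ ω ∈ G, 0 < d.P ω → ∀ j i t y, j < i → d.sheet j (d.Z j (d.L ω)) t y i = 0
  dia : ∀ ω ∈ G, 0 < d.P ω → ∀ j t y, d.sheet j (d.Z j (d.L ω)) t y j =
    y + d.sheet j (d.Z j (d.L ω)) t 0 j
  hq : ∀ ω ∈ G, 0 < d.P ω → ∀ i, |d.q (d.L ω) i| ≤ (2 : ℝ) ^ c
  hx : ∀ ω ∈ G, 0 < d.P ω → ∀ i, |d.x (d.L ω) (d.th (d.T ω)) i| ≤ (2 : ℝ) ^ c
  hs : ∀ ω ∈ G, 0 < d.P ω → ∀ j i a b, |d.sg j (d.Z j (d.L ω)) i a b| ≤ (2 : ℝ) ^ c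
  cc : ∀ ω ∈ G, 0 < d.P ω → ∀ j i, i ≤ j →
    |d.up (d.L ω) j (d.th (d.T ω)) i -
      d.sheet j (d.Z j (d.L ω)) (d.th (d.T ω)) (d.y (d.L ω) j / 2 ^ d.X) i| ≤
        (2 : ℝ) ^ (c - d.X)
  hh : ∀ ω ∈ G, ∀ ω' ∈ G, 0 < d.P ω → 0 < d.P ω' → d.L ω = d.L ω' →
    |((d.N ω' : ℝ) - d.N ω) - 2 ^ d.X * (d.hgt (d.L ω) (d.T ω') - d.hgt (d.L ω) (d.T ω))| ≤
      (2 : ℝ) ^ c

/-- The first `i` digits of the time. -/
noncomputable def Ti (i : ℕ) (ω : d.Om) : ℤ := ⌊(2 : ℝ) ^ i * d.th (d.T ω)⌋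

/-- (H1) `T` is nearly independent of the line given the context, the digits of the time are full,
and the first `j₀` digits have a deficit at most `ε₀`. -/
def H1 (ι : ℝ) (j₀ : ℕ) (ε₀ : ℝ) : Prop :=
  Pool.KVA.MI d.P d.T d.L (fun ω => d.B (d.L ω)) ≤ ι * d.X ∧
  (1 - ι) * d.X * Real.log 2 ≤ CH d.P (d.Ti d.X) d.L ∧
  j₀ * Real.log 2 - ε₀ ≤ CH d.P (d.Ti j₀) d.L

/-- (H2) the height is nearly independent of the data of the line. -/
def H2 (ι : ℝ) : Prop := Pool.KVA.MI d.P d.N (fun ω => d.V (d.L ω)) d.T ≤ ι * d.X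

/-- (H3) every position is full given its lower data. -/
def H3 (ι : ℝ) : Prop := ∀ j, (1 - ι) * d.X * Real.log 2 ≤
  CH d.P (fun ω => d.y (d.L ω) j) (fun ω => d.Z j (d.L ω))

/-- (H5) the blocks of rows of the height are not full on any large event. -/
def H5 (c κ π₀ : ℝ) : Prop :=
  ∀ j : ℕ, (j + 1) * ⌊κ * d.X⌋₊ ≤ d.X → ∀ E : Set d.Om, π₀ ≤ Pr d.P E →
    CH (cond d.P (fun ω => ω ∈ E) True) (d.row ((j + 1) * ⌊κ * d.X⌋₊))
      (fun ω => (d.row (j * ⌊κ * d.X⌋₊) ω, d.T ω)) ≤ (1 - c) * ⌊κ * d.X⌋₊ * Real.log 2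

/-- The nodes are separated. -/
def sep {D : ℕ} (k₀ : ℕ) (v : Fin (D + 1) → d.Om) : Prop :=
  ∀ i i', i ≠ i' → (2 : ℝ) ^ (-(k₀ : ℤ)) ≤ |d.th (d.T (v i)) - d.th (d.T (v i'))|

/-- The interpolation of the values at the nodes, at the time `t`. -/
noncomputable def itp {D : ℕ} (v : Fin (D + 1) → d.Om) (t : ℝ) : ℝ :=
  (Lagrange.interpolate univ (fun i => d.th (d.T (v i)))
    (fun i => d.val (d.L (v i)) (d.T (v i)))).eval t

/-- The bad tuples: the value at the last sample is not given by the others. -/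
def Bad (D k₀ : ℕ) (δ : ℝ) : Set (Fin (D + 2) → d.Om) :=
  {v | ¬ d.sep k₀ (Fin.init v) ∨ δ < |d.val (d.L (v (Fin.last (D + 1)))) (d.T (v (Fin.last (D + 1)))) -
    d.itp (Fin.init v) (d.th (d.T (v (Fin.last (D + 1)))))|}

end SDat

/-- **L1 level by level, sheets.** -/
def L1ShStmt : Prop :=
  ∀ (k n m K D : ℕ) (c p₀ ε : ℝ), m + k * (K * n * n) ≤ D → 0 < c → 0 < p₀ → 0 < ε →
    ∃ (κ₂ κ π₀ ι ε₀ : ℝ) (k₀ j₀ X₀ : ℕ), 0 < κ₂ ∧ 0 < κ ∧ κ ≤ 1 ∧ 0 < π₀ ∧ 0 < ι ∧ 0 < ε₀ ∧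
      ∀ (d : SDat k n m K) (G : Set d.Om), d.OK G (ι * d.X) → X₀ ≤ d.X → p₀ ≤ Pr d.P G →
        d.H1 ι j₀ ε₀ → d.H2 ι → d.H3 ι → d.H5 c κ π₀ →
        Pr (Pool.SLO.tup (cond d.P (fun ω => ω ∈ G) True) d.L (D + 1))
          (d.Bad D k₀ ((2 : ℝ) ^ (-(κ₂ * d.X)))) ≤ ε

end Pool.LSH
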