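import Pool.Agent.H48.GEN.LevS
import Pool.Agent.H32.Dense.Split

/-!
# L1 level by level: weights, rows with an offset
-/

set_option autoImplicit false

namespace Pool.LEV

open Finset Real
open Pool.Agent.H49.Ent Pool.Agent.H32.Dense Pool.STK Pool.KAF

section

variable {Ω S U : Type} [Fintype Ω]

/-- The law `p` with the weight `W`. -/
noncomputable def wt (p W : Ω → ℝ) (ω : Ω) : ℝ := p ω * W ω / ∑ ω', p ω' * W ω'

theorem wt_isLaw {p W : Ω → ℝ} (hp : ∀ ω, 0 ≤ p ω) (hW : ∀ ω, 0 ≤ W ω)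
    (h : 0 < ∑ ω, p ω * W ω) : IsLaw (wt p W) := by
  refine ⟨fun ω => div_nonneg (mul_nonneg (hp ω) (hW ω)) h.le, ?_⟩
  unfold wt
  rw [← Finset.sum_div, div_self h.ne']

theorem wt_pos {p W : Ω → ℝ} (hp : ∀ ω, 0 ≤ p ω) (hW : ∀ ω, 0 ≤ W ω)
    {ω : Ω} (hω : 0 < wt p W ω) : 0 < p ω ∧ 0 < W ω := by
  unfold wt at hω
  have h1 : p ω * W ω ≠ 0 := by
    intro h0
    rw [h0, zero_div] at hω
    exact lt_irrefl _ hω
  refine ⟨lt_of_le_of_ne (hp ω) fun h0 => h1 ?_, lt_of_le_of_ne (hW ω) fun h0 => h1 ?_⟩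
  · rw [← h0, zero_mul]
  · rw [← h0, mul_zero]

open Classical in
/-- The weight of an event. -/
theorem wt_ind (p : Ω → ℝ) (E : Set Ω) :
    wt p (fun ω => if ω ∈ E then 1 else 0) = cond p (fun ω => ω ∈ E) True := by
  have h1 : ∑ ω, p ω * (if ω ∈ E then (1 : ℝ) else 0) = law p (fun ω => ω ∈ E) True := by
    unfold law
    refine Finset.sum_congr rfl fun ω _ => ?_
    by_cases h : ω ∈ E <;> simp [h]
  funext ω
  unfold wt
  rw [h1]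
  unfold Pool.Agent.H49.Ent.cond
  by_cases h : ω ∈ E <;> simp [h]

open Classical in
theorem sum_ind (p : Ω → ℝ) (E : Set Ω) :
    ∑ ω, p ω * (if ω ∈ E then (1 : ℝ) else 0) = Pr p E := by
  unfold Pr law
  refine Finset.sum_congr rfl fun ω _ => ?_
  by_cases h : ω ∈ E <;> simp [h]

/-- Entropy of some digits. -/
theorem CH_dig {q : Ω → ℝ} (hq : IsLaw q) (N : Ω → ℤ) {a b : ℕ} (h : a ≤ b) (Y : Ω → U) :
    CH q (fun ω => N ω / 2 ^ a) (fun ω => (N ω / 2 ^ b, Y ω)) ≤ ((b : ℝ) - a) * Real.log 2 := by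
  have h3 := CH_le_card hq.nonneg hq.sum_one (fun ω => N ω / 2 ^ a)
    (fun ω => (N ω / 2 ^ b, Y ω))
    (fun z => Finset.Ico (z.1 * 2 ^ (b - a)) ((z.1 + 1) * 2 ^ (b - a))) (by
      intro ω _
      have e1 : N ω / 2 ^ b = N ω / 2 ^ a / 2 ^ (b - a) := by
        rw [Int.ediv_ediv_of_nonneg (by positivity), ← pow_add]
        congr 2
        omega
      have e2 : (0 : ℤ) < 2 ^ (b - a) := by positivity
      rw [Finset.mem_Ico, e1]
      constructor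
      · have := Int.ediv_mul_le (N ω / 2 ^ a) e2.ne'
        exact this
      · exact Int.lt_ediv_add_one_mul_self _ e2)
  refine h3.trans (le_of_eq ?_)
  have e5 : ∀ z : ℤ, Real.log (((Finset.Ico (z * 2 ^ (b - a))
      ((z + 1) * 2 ^ (b - a))).card : ℕ) : ℝ) = ((b : ℝ) - a) * Real.log 2 := by
    intro z
    rw [Int.card_Ico]
    have e6 : (z + 1) * 2 ^ (b - a) - z * 2 ^ (b - a) = ((2 ^ (b - a) : ℕ) : ℤ) := by
      push_cast
      ring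
    rw [e6, Int.toNat_natCast]
    push_cast
    rw [Real.log_pow, Nat.cast_sub h]
  simp only [e5]
  exact Ex_const hq.sum_one _

/-- Rows with an offset `R`. -/
theorem row_off {q : Ω → ℝ} (hq : IsLaw q) (N : Ω → ℤ) (T : Ω → U) {X : ℕ} {c κ : ℝ}
    (hc : c ≤ 1)
    (hB : ∀ r₁ r₂ : ℕ, r₁ ≤ r₂ → r₂ ≤ X → κ * X ≤ (r₂ : ℝ) - r₁ →
      CH q (fun ω => N ω / 2 ^ (X - r₂)) (fun ω => (N ω / 2 ^ (X - r₁), T ω)) ≤
        (1 - c) * ((r₂ : ℝ) - r₁) * Real.log 2) {R r₁ r₂ : ℕ} (h1 : r₁ ≤ r₂) (h2 : r₂ ≤ X)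
    (h3 : κ * X + R ≤ (r₂ : ℝ) - r₁) (hκ : 0 ≤ κ) :
    CH q (fun ω => N ω / 2 ^ (X - r₂ + R)) (fun ω => (N ω / 2 ^ (X - r₁ + R), T ω)) ≤
      (1 - c) * ((r₂ : ℝ) - r₁) * Real.log 2 + R * Real.log 2 := by
  have hl2 : 0 ≤ Real.log 2 := Real.log_nonneg one_le_two
  have hR : (R : ℝ) ≤ (r₂ : ℝ) - r₁ := by
    have : 0 ≤ κ * X := by positivity
    linarith
  have hR' : R + r₁ ≤ r₂ := by
    have : ((R + r₁ : ℕ) : ℝ) ≤ r₂ := by
      push_cast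
      linarith
    exact_mod_cast this
  obtain ⟨a, ha⟩ : ∃ a : ℕ, a = r₁ - R := ⟨_, rfl⟩
  have e1 : X - r₂ + R = X - (r₂ - R) := by omega
  -- the two terms
  have k1 := CH_le_add hq.nonneg (fun ω => N ω / 2 ^ (X - r₂ + R)) (fun ω => N ω / 2 ^ (X - a))
    (fun ω => (N ω / 2 ^ (X - r₁ + R), T ω))
  have k2 : CH q (fun ω => N ω / 2 ^ (X - a)) (fun ω => (N ω / 2 ^ (X - r₁ + R), T ω)) ≤
      R * Real.log 2 := by
    have h4 : X - a ≤ X - r₁ + R := by omega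
    refine (CH_dig hq N h4 T).trans (mul_le_mul_of_nonneg_right ?_ hl2)
    have h5 : X - r₁ + R ≤ R + (X - a) := by omega
    have h6 : ((X - r₁ + R : ℕ) : ℝ) ≤ ((R + (X - a) : ℕ) : ℝ) := by exact_mod_cast h5
    push_cast [Nat.cast_sub] at h6 ⊢
    linarith
  have k3 : CH q (fun ω => N ω / 2 ^ (X - r₂ + R))
      (fun ω => (N ω / 2 ^ (X - a), (N ω / 2 ^ (X - r₁ + R), T ω))) ≤
      CH q (fun ω => N ω / 2 ^ (X - (r₂ - R))) (fun ω => (N ω / 2 ^ (X - a), T ω)) := by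
    rw [e1]
    refine CH_mono_cond hq.nonneg ?_
    intro ω ω' _ _ h
    simp only [Prod.mk.injEq] at h ⊢
    exact ⟨h.1, h.2.2⟩
  have h7 : (a : ℝ) ≤ r₁ := by exact_mod_cast (show a ≤ r₁ by omega)
  have h8 : ((r₂ - R : ℕ) : ℝ) = r₂ - R := by
    rw [Nat.cast_sub (by omega)]
  have h9 : (r₁ : ℝ) - R ≤ a := by
    have : ((r₁ : ℕ) : ℝ) ≤ ((a + R : ℕ) : ℝ) := by exact_mod_cast (show r₁ ≤ a + R by omega)
    push_cast at this
    linarith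
  have h10 : κ * X ≤ ((r₂ - R : ℕ) : ℝ) - a := by
    rw [h8]
    linarith
  have k4 := hB a (r₂ - R) (by omega) (by omega) h10
  have k5 : (1 - c) * (((r₂ - R : ℕ) : ℝ) - a) * Real.log 2 ≤
      (1 - c) * ((r₂ : ℝ) - r₁) * Real.log 2 := by
    refine mul_le_mul_of_nonneg_right ?_ hl2
    refine mul_le_mul_of_nonneg_left ?_ (by linarith)
    rw [h8]
    linarith
  linarith

end

namespace EDat

variable {k n m : ℕ} (d : EDat k n m)

/-- (H1), without the first digits. -/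
def H1a (ι : ℝ) : Prop :=
  Pool.KVA.MI d.P d.T d.L (fun ω => d.B (d.L ω)) ≤ ι * d.X ∧
  (1 - ι) * d.X * Real.log 2 ≤ CH d.P (d.Ti d.X) d.L

/-- Two samples of one line have `kk i` common digits of the time with probability at most
`2 ^ (-i)`. -/
def TCp (kk : ℕ → ℕ) (i₁ : ℕ) : Prop := ∀ i ≤ i₁,
  Pr (dbl d.P d.L) {w | |d.th (d.T w.2) - d.th (d.T w.1)| < (2 : ℝ) ^ (-(kk i : ℤ))} ≤ (1 / 2) ^ i

/-- (H5) with weights, for all blocks. -/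
def H5w (c κ π₀ : ℝ) : Prop :=
  ∀ W : d.Om → ℝ, (∀ ω, 0 ≤ W ω ∧ W ω ≤ 1) → π₀ ≤ ∑ ω, d.P ω * W ω → ∀ r₁ r₂ : ℕ, r₁ ≤ r₂ →
    r₂ ≤ d.X → κ * d.X ≤ (r₂ : ℝ) - r₁ →
    CH (wt d.P W) (d.row r₂) (fun ω => (d.row r₁ ω, d.T ω)) ≤
      (1 - c) * ((r₂ : ℝ) - r₁) * Real.log 2

end EDat

end Pool.LEV
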