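import Pool.Agent.H48.GEN.LevX
import Pool.Agent.H46.MIC.Ev
import Pool.Agent.H55.GEN.One

/-!
# L1 level by level: transport of the hypotheses to the nodes
-/

set_option autoImplicit false

namespace Pool.LEV

open Finset Real
open Pool.Agent.H49.Ent Pool.Agent.H32.Dense Pool.STK Pool.KAF Pool.SLO
open Pool.KVA (MI)

section

variable {Ω Ω' S T U : Type} [Fintype Ω] [Fintype Ω']

theorem mi_ev {p : Ω → ℝ} (hp : IsLaw p) (X : Ω → S) (Y : Ω → T) (Z : Ω → U) (G : Set Ω)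
    (hG : 0 < Pr p G) : MI (cond p (fun ω => ω ∈ G) True) X Y Z ≤
      (MI p X Y Z + Real.log 2) / Pr p G := by
  have hp0 := hp.nonneg
  have h1 := Pool.MIC.mi_event hp X Z (fun ω => (Y ω, Z ω))
    (fun ω ω' _ _ h => (Prod.ext_iff.1 h).2) (θ := MI p X Y Z)
    (by rw [Pool.M5.MI_eq hp0]; linarith) (fun ω => ω ∈ G)
  have h2 : Pool.BFL.Pb p (fun ω => ω ∈ G) = Pr p G := (Pool.MIC.law_True p _).symm
  rw [h2] at h1
  rw [Pool.M5.MI_eq (fun ω => cond_nonneg hp0 _ _ ω), le_div_iff₀ hG]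
  linarith

/-- Weights on an image. -/
theorem wt_marg {p' : Ω' → ℝ} {p : Ω → ℝ} {f : Ω' → Ω} (hp : ∀ ω, 0 ≤ p ω)
    (hp' : ∀ w, 0 ≤ p' w) (hm : Marg p' p f) {W : Ω' → ℝ} (hW : ∀ w, 0 ≤ W w ∧ W w ≤ 1) :
    ∃ V : Ω → ℝ, (∀ ω, 0 ≤ V ω ∧ V ω ≤ 1) ∧ ∑ ω, p ω * V ω = ∑ w, p' w * W w ∧
      Marg (wt p' W) (wt p V) f := by
  classical
  obtain ⟨V, hV⟩ : ∃ V : Ω → ℝ, V = fun ω => (∑ w, if f w = ω then p' w * W w else 0) / p ω :=
    ⟨_, rfl⟩
  have h1 : ∀ ω, p ω * V ω = ∑ w, if f w = ω then p' w * W w else 0 := by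
    intro ω
    rw [hV]
    rcases (hp ω).eq_or_lt with h0 | h0
    · rw [← h0, zero_mul]
      symm
      refine Finset.sum_eq_zero fun w _ => ?_
      have h2 := hm ω
      rw [← h0] at h2
      have h3 := (Finset.sum_eq_zero_iff_of_nonneg (fun w _ => by
        split_ifs
        · exact hp' w
        · exact le_rfl)).1 h2 w (Finset.mem_univ _)
      split_ifs with h4
      · rw [if_pos h4] at h3
        rw [h3, zero_mul]
      · rfl
    · rw [mul_div_cancel₀ _ h0.ne']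
  have h2 : ∑ ω, p ω * V ω = ∑ w, p' w * W w := by
    simp only [h1]
    rw [Finset.sum_comm]
    refine Finset.sum_congr rfl fun w _ => ?_
    rw [Finset.sum_ite_eq, if_pos (Finset.mem_univ _)]
  refine ⟨V, fun ω => ?_, h2, fun ω => ?_⟩
  · rw [hV]
    constructor
    · refine div_nonneg (Finset.sum_nonneg fun w _ => ?_) (hp ω)
      split_ifs
      · exact mul_nonneg (hp' w) (hW w).1
      · exact le_rfl
    · refine div_le_one_of_le₀ ?_ (hp ω)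
      rw [← hm ω]
      refine Finset.sum_le_sum fun w _ => ?_
      split_ifs
      · have := hp' w
        have := hW w
        nlinarith
      · exact le_rfl
  · unfold wt
    rw [h2, h1, Finset.sum_div]
    refine Finset.sum_congr rfl fun w _ => ?_
    split_ifs
    · rfl
    · rw [zero_div]

/-- A weight on a conditioned law. -/
theorem wt_cond (p : Ω → ℝ) (G : Set Ω) (hG : 0 < Pr p G) (W : Ω → ℝ) :
    (open Classical in wt (cond p (fun ω => ω ∈ G) True) W =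
      wt p (fun ω => if ω ∈ G then W ω else 0)) ∧
    ∑ ω, cond p (fun ω => ω ∈ G) True ω * W ω =
      (open Classical in (∑ ω, p ω * (if ω ∈ G then W ω else 0)) / Pr p G) := by
  classical
  have h1 : ∀ ω, cond p (fun ω => ω ∈ G) True ω * W ω =
      p ω * (if ω ∈ G then W ω else 0) / Pr p G := by
    intro ω
    rw [condG_eq]
    by_cases h : ω ∈ G
    · rw [if_pos h, if_pos h]
      ring
    · rw [if_neg h, if_neg h]
      simp
  have h2 : ∑ ω, cond p (fun ω => ω ∈ G) True ω * W ω =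
      (∑ ω, p ω * (if ω ∈ G then W ω else 0)) / Pr p G := by
    rw [Finset.sum_div]
    exact Finset.sum_congr rfl fun ω _ => h1 ω
  refine ⟨?_, h2⟩
  funext ω
  unfold wt
  rw [h2, h1, div_div_div_cancel_right₀ hG.ne']

/-- Digits, from below. -/
theorem CH_dig_ge {q : Ω → ℝ} (hq : IsLaw q) (N : Ω → ℤ) (a : ℕ) (Y : Ω → U) :
    CH q N Y - a * Real.log 2 ≤ CH q (fun ω => N ω / 2 ^ a) Y := by
  have h1 := CH_le_add hq.nonneg N (fun ω => N ω / 2 ^ a) Y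
  have h2 : CH q N (fun ω => (N ω / 2 ^ a, Y ω)) ≤ a * Real.log 2 := by
    have h3 := CH_dig hq N (Nat.zero_le a) Y
    rw [Nat.cast_zero, sub_zero] at h3
    have h4 : (fun ω => N ω / 2 ^ 0) = N := by
      funext ω
      rw [pow_zero, Int.ediv_one]
    rw [h4] at h3
    exact h3
  linarith

end

namespace EDat

variable {k n m : ℕ} {d : EDat (k + 1) n m}

/-- Digits of the time. -/
theorem Ti_div {X' : ℕ} (hX' : X' ≤ d.X) : d.Ti X' = fun ω => d.Ti d.X ω / 2 ^ (d.X - X') := by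
  funext ω
  unfold Ti
  have h1 : (2 : ℝ) ^ X' * d.th (d.T ω) = (2 : ℝ) ^ d.X * d.th (d.T ω) / ((2 ^ (d.X - X') : ℕ)) := by
    have : (2 : ℝ) ^ d.X = 2 ^ X' * 2 ^ (d.X - X') := by
      rw [← pow_add]
      congr 1
      omega
    rw [this]
    push_cast
    field_simp
  rw [h1, Int.floor_div_natCast]
  push_cast
  rfl

/-- Transport of (H1a). -/
theorem ext_H1a {A : ℕ} {c : ℝ} (h : d.OK Set.univ A c) {k₀ X' R : ℕ} {δ ι ι' : ℝ}
    (hX' : X' ≤ d.X) (hG : 1 / 2 ≤ Pr (tup d.P d.L (m + 1)) (d.good k₀ δ))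
    (hι : 2 + 2 * ι * d.X ≤ ι' * X') (hH : d.H1a ι) : (d.ext k₀ X' R δ).H1a ι' := by
  have hp0 := h.law.nonneg
  have ht0 := tup_nonneg hp0 d.L (m + 1)
  have htl : IsLaw (tup d.P d.L (m + 1)) := tup_isLaw h.law d.L (m + 1)
  have hl2 : 0 < Real.log 2 := Real.log_pos one_lt_two
  have hl1 : Real.log 2 ≤ 1 := by
    have := Real.log_two_lt_d9
    linarith
  have hG0 : 0 < Pr (tup d.P d.L (m + 1)) (d.good k₀ δ) := by linarith
  obtain ⟨g1, g2⟩ := hH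
  constructor
  · have k1 := mi_ev htl (fun v => d.T (sm v)) (Lx d.L d.T) (fun v => d.B (d.L (v 0)))
      (d.good k₀ δ) hG0
    rw [ext_time h.law d.L d.T d.B m d.T] at k1
    refine k1.trans ?_
    rw [div_le_iff₀ hG0]
    have k2 : 0 ≤ ι' * X' := by
      refine le_trans ?_ hι
      have : 0 ≤ MI d.P d.T d.L (fun ω => d.B (d.L ω)) := Pool.M5.MI_nonneg hp0 _ _ _
      linarith
    show _ ≤ ι' * (X' : ℝ) * _
    nlinarith
  · have k1 : CH d.P (d.Ti d.X) d.L - ((d.X - X' : ℕ) : ℝ) * Real.log 2 ≤ CH d.P (d.Ti X') d.L := by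
      rw [Ti_div hX']
      exact CH_dig_ge h.law (d.Ti d.X) (d.X - X') d.L
    have k2 := Pool.DY1.ev_ge htl (d.good k₀ δ) (fun v => d.Ti X' (sm v)) (Lx d.L d.T)
      (X' * Real.log 2) hG0 (fun q hq _ => tmax (T := fun v => d.T (sm v)) hq h.hth rfl)
    rw [ext_CH hp0 d.L d.T m (d.Ti X')] at k2
    show (1 - ι') * X' * Real.log 2 ≤ CH (cond (tup d.P d.L (m + 1)) (fun v => v ∈ d.good k₀ δ) True)
      (fun v => d.Ti X' (sm v)) (Lx d.L d.T)
    refine le_trans ?_ k2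
    rw [le_sub_iff_add_le, ← le_sub_iff_add_le', div_le_iff₀ hG0]
    have k3 : ((d.X - X' : ℕ) : ℝ) = d.X - X' := by
      rw [Nat.cast_sub hX']
    rw [k3] at k1
    have k4 : X' * Real.log 2 - CH d.P (d.Ti X') d.L + Real.log 2 ≤
        (1 + ι * d.X) * Real.log 2 := by linarith
    have k5 : (1 + ι * d.X) * Real.log 2 ≤ (ι' * X') * Real.log 2 * (1 / 2) := by nlinarith
    have k6 : 0 ≤ ι' * X' * Real.log 2 := by
      refine mul_nonneg (le_trans ?_ hι) hl2.le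
      have : 0 ≤ MI d.P d.T d.L (fun ω => d.B (d.L ω)) := Pool.M5.MI_nonneg hp0 _ _ _
      linarith
    have k7 : (ι' * X') * Real.log 2 * (1 / 2) ≤
        (ι' * X') * Real.log 2 * Pr (tup d.P d.L (m + 1)) (d.good k₀ δ) :=
      mul_le_mul_of_nonneg_left hG k6
    refine k4.trans (k5.trans (k7.trans (le_of_eq ?_)))
    ring

/-- Transport of (H2). -/
theorem ext_H2 {A : ℕ} {c : ℝ} (h : d.OK Set.univ A c) {k₀ X' R : ℕ} {δ ι ι' : ℝ}
    (hG : 1 / 2 ≤ Pr (tup d.P d.L (m + 1)) (d.good k₀ δ))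
    (hι : 2 + 2 * (m + 2) * ι * d.X ≤ ι' * X') (hH : d.H1a ι) (hH2 : d.H2 ι) :
    (d.ext k₀ X' R δ).H2 ι' := by
  have hp0 := h.law.nonneg
  have ht0 := tup_nonneg hp0 d.L (m + 1)
  have htl : IsLaw (tup d.P d.L (m + 1)) := tup_isLaw h.law d.L (m + 1)
  have hl1 : Real.log 2 ≤ 1 := by
    have := Real.log_two_lt_d9
    linarith
  have hG0 : 0 < Pr (tup d.P d.L (m + 1)) (d.good k₀ δ) := by linarith
  have k1 := mi_ev htl (fun v => d.N (sm v)) (fun v => (d.V (d.L (v 0)), Wn d.T v))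
    (fun v => d.T (sm v)) (d.good k₀ δ) hG0
  have k2 := ext_mi h.law d.L d.T d.B m d.N d.V h.hTB
  have k3 : MI (d.ext k₀ X' R δ).P (d.ext k₀ X' R δ).N
      (fun v => (d.ext k₀ X' R δ).V ((d.ext k₀ X' R δ).L v)) (d.ext k₀ X' R δ).T ≤
      MI (cond (tup d.P d.L (m + 1)) (fun v => v ∈ d.good k₀ δ) True) (fun v => d.N (sm v))
        (fun v => (d.V (d.L (v 0)), Wn d.T v)) (fun v => d.T (sm v)) :=
    Pool.OC.RS.mi_mono_left (fun v => cond_nonneg ht0 _ _ v) _ _ _ _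
      (fun v v' _ _ hl => by
        have k : d.N (sm v) = d.N (sm v') := (Prod.ext_iff.1 hl).1
        show d.N (sm v) / 2 ^ (d.X - X' + R) = d.N (sm v') / 2 ^ (d.X - X' + R)
        rw [k])
  refine k3.trans (k1.trans ?_)
  rw [div_le_iff₀ hG0]
  have g1 : MI d.P d.T d.L (fun ω => d.B (d.L ω)) ≤ ι * d.X := hH.1
  have g2 : MI d.P d.N (fun ω => d.V (d.L ω)) d.T ≤ ι * d.X := hH2
  have k4 : 0 ≤ MI d.P d.N (fun ω => d.V (d.L ω)) d.T := Pool.M5.MI_nonneg hp0 _ _ _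
  have k5 : 0 ≤ ι * d.X := k4.trans g2
  have hm : (0 : ℝ) ≤ m := Nat.cast_nonneg m
  have k6 : (m + 1) * MI d.P d.T d.L (fun ω => d.B (d.L ω)) ≤ (m + 1) * (ι * d.X) :=
    mul_le_mul_of_nonneg_left g1 (by linarith)
  have k7 : 0 ≤ ι' * X' := by
    refine le_trans ?_ hι
    have : 2 * (m + 2) * ι * d.X = 2 * (m + 2) * (ι * d.X) := by ring
    rw [this]
    positivity
  show _ ≤ ι' * (X' : ℝ) * _
  have k8 : ι' * (X' : ℝ) * (1 / 2) ≤ ι' * (X' : ℝ) *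
      Pr (tup d.P d.L (m + 1)) (d.good k₀ δ) := mul_le_mul_of_nonneg_left hG k7
  have k9 : 2 * (m + 2) * ι * d.X = 2 * ((m + 1) * (ι * d.X)) + 2 * (ι * d.X) := by ring
  linarith

/-- Transport of (H3). -/
theorem ext_H3 {A : ℕ} {c : ℝ} (h : d.OK Set.univ A c) {k₀ X' R : ℕ} {δ ι ι' : ℝ}
    (hX' : X' ≤ d.X) (hG : 1 / 2 ≤ Pr (tup d.P d.L (m + 1)) (d.good k₀ δ))
    (hι : 12 + 4 * (m + 2) * ι * d.X ≤ ι' * X') (hH : d.H1a ι) (hH3 : d.H3 ι) :
    (d.ext k₀ X' R δ).H3 ι' := by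
  intro j
  have hp0 := h.law.nonneg
  have htl : IsLaw (tup d.P d.L (m + 1)) := tup_isLaw h.law d.L (m + 1)
  have hl2 : 1 / 2 ≤ Real.log 2 := by
    have := Real.log_two_gt_d9
    linarith
  have hl1 : Real.log 2 ≤ 1 := by
    have := Real.log_two_lt_d9
    linarith
  have hG0 : 0 < Pr (tup d.P d.L (m + 1)) (d.good k₀ δ) := by linarith
  have g1 : MI d.P d.T d.L (fun ω => d.B (d.L ω)) ≤ ι * d.X := hH.1
  have g0 : 0 ≤ MI d.P d.T d.L (fun ω => d.B (d.L ω)) := Pool.M5.MI_nonneg hp0 _ _ _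
  have k5 : 0 ≤ ι * d.X := g0.trans g1
  have hm : (0 : ℝ) ≤ m := Nat.cast_nonneg m
  have k6 : (m + 1) * MI d.P d.T d.L (fun ω => d.B (d.L ω)) ≤ (m + 1) * (ι * d.X) :=
    mul_le_mul_of_nonneg_left g1 (by linarith)
  have k1 := ext_ch h.law d.L d.T d.B m (fun l => d.y l j.castSucc / 2 ^ (d.X - X'))
    (d.Z j.castSucc) (h.hZB j.castSucc)
  have k2 := CH_dig_ge h.law (fun ω => d.y (d.L ω) j.castSucc) (d.X - X')
    (fun ω => d.Z j.castSucc (d.L ω))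
  have k3 := hH3 j.castSucc
  have k4 := Pool.DY1.ev_ge htl (d.good k₀ δ)
    (fun v => d.y (d.L (v 0)) j.castSucc / 2 ^ (d.X - X'))
    (fun v => (d.Z j.castSucc (d.L (v 0)), Wn d.T v)) ((X' + 2) * Real.log 2) hG0
    (fun q hq _ => (Pool.KS3.CH_le_H hq _ _).trans
      (hmax (L := fun v : Fin (m + 2) → d.Om => d.L (v 0)) (X := X')
        (y := fun l => d.y l j.castSucc / 2 ^ (d.X - X')) hq
        (fun l => y_one hX' (h.hy l j.castSucc))))
  show (1 - ι') * X' * Real.log 2 ≤ CH (cond (tup d.P d.L (m + 1)) (fun v => v ∈ d.good k₀ δ) True)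
      (fun v => d.y (d.L (v 0)) j.castSucc / 2 ^ (d.X - X'))
      (fun v => (d.Z j.castSucc (d.L (v 0)), Wn d.T v))
  refine le_trans ?_ k4
  rw [le_sub_iff_add_le, ← le_sub_iff_add_le', div_le_iff₀ hG0]
  have k7 : ((d.X - X' : ℕ) : ℝ) = d.X - X' := by
    rw [Nat.cast_sub hX']
  rw [k7] at k2
  have k8 : (X' + 2) * Real.log 2 - CH (tup d.P d.L (m + 1))
      (fun v => d.y (d.L (v 0)) j.castSucc / 2 ^ (d.X - X'))
      (fun v => (d.Z j.castSucc (d.L (v 0)), Wn d.T v)) + Real.log 2 ≤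
        3 * Real.log 2 + ι * d.X * Real.log 2 + (m + 1) * (ι * d.X) := by linarith
  have k9 : 3 * Real.log 2 + ι * d.X * Real.log 2 + (m + 1) * (ι * d.X) ≤
      (ι' * X' * Real.log 2) * (1 / 2) := by
    have l1 : ι * d.X * Real.log 2 ≤ ι * d.X := by nlinarith
    have l2 : (12 + 4 * (m + 2) * ι * d.X) * (1 / 2) ≤ ι' * X' * Real.log 2 := by
      have : 0 ≤ 12 + 4 * (m + 2) * ι * d.X := by
        have : 4 * (m + 2) * ι * d.X = 4 * (m + 2) * (ι * d.X) := by ring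
        rw [this]
        positivity
      nlinarith
    nlinarith
  have k10 : 0 ≤ ι' * X' * Real.log 2 := by
    refine mul_nonneg (le_trans ?_ hι) (by linarith)
    have : 4 * (m + 2) * ι * d.X = 4 * (m + 2) * (ι * d.X) := by ring
    rw [this]
    positivity
  have k11 : (ι' * X' * Real.log 2) * (1 / 2) ≤
      (ι' * X' * Real.log 2) * Pr (tup d.P d.L (m + 1)) (d.good k₀ δ) :=
    mul_le_mul_of_nonneg_left hG k10
  refine k8.trans (k9.trans (k11.trans ?_))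
  refine mul_le_mul_of_nonneg_right ?_ hG0.le
  linarith

/-- Transport of the first digits. -/
theorem ext_TCp {A : ℕ} {c : ℝ} (h : d.OK Set.univ A c) {k₀ X' R : ℕ} {δ : ℝ} {kk : ℕ → ℕ}
    {i₁ i₂ : ℕ} (hG : 1 / 2 ≤ Pr (tup d.P d.L (m + 1)) (d.good k₀ δ)) (hi : 2 * i₂ + 4 ≤ i₁)
    (hT : d.TCp kk i₁) : (d.ext k₀ X' R δ).TCp (fun i => kk (2 * i + 4)) i₂ := by
  intro i hi2
  have hp0 := h.law.nonneg
  have htl : IsLaw (tup d.P d.L (m + 1)) := tup_isLaw h.law d.L (m + 1)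
  have hG0 : 0 < Pr (tup d.P d.L (m + 1)) (d.good k₀ δ) := by linarith
  have k1 := dbl_cond htl (Lx d.L d.T) hG0 (δ := (1 / 2) ^ (i + 2)) (by positivity)
    {w | |d.th (d.T (sm w.2)) - d.th (d.T (sm w.1))| < (2 : ℝ) ^ (-(kk (2 * i + 4) : ℤ))}
  have k2 := Pool.L1.Pr_marg (ext_dbl h.law d.L d.T m)
    {w | |d.th (d.T w.2) - d.th (d.T w.1)| < (2 : ℝ) ^ (-(kk (2 * i + 4) : ℤ))}
  have k3 := hT (2 * i + 4) (by omega)
  rw [← k2] at k3
  refine k1.trans ?_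
  have k4 : (1 / 2 : ℝ) ^ (i + 2) / Pr (tup d.P d.L (m + 1)) (d.good k₀ δ) ≤ (1 / 2) ^ (i + 1) := by
    rw [div_le_iff₀ hG0]
    have : (1 / 2 : ℝ) ^ (i + 2) = (1 / 2) ^ (i + 1) * (1 / 2) := pow_succ _ _
    rw [this]
    exact mul_le_mul_of_nonneg_left hG (by positivity)
  have k5 : Pr (dbl (tup d.P d.L (m + 1)) (Lx d.L d.T))
      {w | |d.th (d.T (sm w.2)) - d.th (d.T (sm w.1))| < (2 : ℝ) ^ (-(kk (2 * i + 4) : ℤ))} /
        ((1 / 2) ^ (i + 2) * Pr (tup d.P d.L (m + 1)) (d.good k₀ δ)) ≤ (1 / 2) ^ (i + 1) := by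
    rw [div_le_iff₀ (by positivity)]
    refine k3.trans ?_
    have l1 : (1 / 2 : ℝ) ^ (2 * i + 4) = (1 / 2) ^ (i + 1) * ((1 / 2) ^ (i + 2) * (1 / 2)) := by
      rw [← pow_succ, ← pow_add]
      congr 1
      ring
    rw [l1]
    refine mul_le_mul_of_nonneg_left ?_ (by positivity)
    exact mul_le_mul_of_nonneg_left hG (by positivity)
  have k6 : (1 / 2 : ℝ) ^ (i + 1) + (1 / 2) ^ (i + 1) = (1 / 2) ^ i := by
    rw [pow_succ]
    ring
  linarith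

/-- Transport of (H5). -/
theorem ext_H5w {A : ℕ} {c₁ : ℝ} (h : d.OK Set.univ A c₁) {k₀ X' R : ℕ}
    {δ c κ κ' π₀ π₁ : ℝ} (hc : c ≤ 1) (hκ0 : 0 ≤ κ) (hX' : X' ≤ d.X)
    (hG : 1 / 2 ≤ Pr (tup d.P d.L (m + 1)) (d.good k₀ δ)) (hκ : κ * d.X + R ≤ κ' * X')
    (hR : (R : ℝ) ≤ c / 2 * (κ' * X')) (hc0 : 0 ≤ c) (hπ1 : 0 ≤ π₁) (hπ : π₀ ≤ π₁ / 2)
    (hH : d.H5w c κ π₀) :
    (d.ext k₀ X' R δ).H5w (c / 2) κ' π₁ := by
  classical
  intro W hW hWπ r₁ r₂ hr hr2 hr3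
  have hp0 := h.law.nonneg
  have ht0 := tup_nonneg hp0 d.L (m + 1)
  have htl : IsLaw (tup d.P d.L (m + 1)) := tup_isLaw h.law d.L (m + 1)
  have hl2 : 0 < Real.log 2 := Real.log_pos one_lt_two
  have hG0 : 0 < Pr (tup d.P d.L (m + 1)) (d.good k₀ δ) := by linarith
  obtain ⟨e1, e2⟩ := wt_cond (tup d.P d.L (m + 1)) (d.good k₀ δ) hG0 W
  have hWπ' : π₁ ≤ ∑ v, cond (tup d.P d.L (m + 1)) (fun v => v ∈ d.good k₀ δ) True v * W v := hWπ
  rw [e2, le_div_iff₀ hG0] at hWπ'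
  obtain ⟨V, hV, hV2, hV3⟩ := wt_marg hp0 ht0 (tup_marg hp0 d.L (m + 1) (Fin.last (m + 1)))
    (W := fun v => if v ∈ d.good k₀ δ then W v else 0) (fun v => by
      show 0 ≤ (if v ∈ d.good k₀ δ then W v else 0) ∧ (if v ∈ d.good k₀ δ then W v else 0) ≤ 1
      split_ifs
      · exact hW v
      · exact ⟨le_rfl, zero_le_one⟩)
  have hVπ : π₀ ≤ ∑ ω, d.P ω * V ω := by
    rw [hV2]
    have : π₁ * (1 / 2) ≤ π₁ * Pr (tup d.P d.L (m + 1)) (d.good k₀ δ) :=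
      mul_le_mul_of_nonneg_left hG hπ1
    linarith
  have hrow : ∀ r : ℕ, r ≤ X' → (d.ext k₀ X' R δ).row r =
      fun v => d.N (sm v) / 2 ^ (d.X - r + R) := by
    intro r hr'
    funext (v : Fin (m + 2) → d.Om)
    show d.N (sm v) / 2 ^ (d.X - X' + R) / 2 ^ (X' - r) = _
    rw [Int.ediv_ediv_of_nonneg (by positivity), ← pow_add]
    congr 2
    omega
  show CH (wt (cond (tup d.P d.L (m + 1)) (fun v => v ∈ d.good k₀ δ) True) W)
    ((d.ext k₀ X' R δ).row r₂) (fun v => ((d.ext k₀ X' R δ).row r₁ v, d.T (sm v))) ≤ _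
  rw [hrow r₂ hr2, hrow r₁ (hr.trans hr2), e1]
  have e3 := hV3.CH (fun ω => d.N ω / 2 ^ (d.X - r₂ + R))
    (fun ω => (d.N ω / 2 ^ (d.X - r₁ + R), d.T ω))
  refine (le_of_eq e3).trans ?_
  have hX0 : (0 : ℝ) ≤ κ' * X' := by
    refine le_trans ?_ hκ
    positivity
  by_cases hs : 0 < ∑ ω, d.P ω * V ω
  · have hlw : IsLaw (wt d.P V) := wt_isLaw hp0 (fun ω => (hV ω).1) hs
    have k1 := row_off hlw d.N d.T (X := d.X) (c := c) (κ := κ) hc (hH V hV hVπ) (R := R)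
      (r₁ := r₁) (r₂ := r₂) hr (hr2.trans hX') (hκ.trans hr3) hκ0
    refine k1.trans ?_
    have k2 : (R : ℝ) ≤ c / 2 * ((r₂ : ℝ) - r₁) :=
      hR.trans (mul_le_mul_of_nonneg_left hr3 (by linarith))
    have k3 : (R : ℝ) * Real.log 2 ≤ c / 2 * ((r₂ : ℝ) - r₁) * Real.log 2 :=
      mul_le_mul_of_nonneg_right k2 hl2.le
    linarith
  · have k0 : ∑ ω, d.P ω * V ω = 0 :=
      le_antisymm (not_lt.1 hs) (Finset.sum_nonneg fun ω _ => mul_nonneg (hp0 ω) (hV ω).1)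
    have k1 : wt d.P V = fun _ => 0 := by
      funext ω
      unfold wt
      rw [k0, div_zero]
    rw [k1]
    have k2 : CH (fun _ : d.Om => (0 : ℝ)) (fun ω => d.N ω / 2 ^ (d.X - r₂ + R))
        (fun ω => (d.N ω / 2 ^ (d.X - r₁ + R), d.T ω)) = 0 := by
      unfold CH H
      simp
    rw [k2]
    have k3 : (r₁ : ℝ) ≤ r₂ := by exact_mod_cast hr
    have : 0 ≤ (1 - c / 2) := by linarith
    have : 0 ≤ (r₂ : ℝ) - r₁ := by linarith
    positivity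

end EDat

end Pool.LEV
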