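import Pool.Agent.H48.GEN.Top3
import Pool.Agent.H48.GEN.LevT

/-!
# L1 level by level: induction on the coordinates
-/

set_option autoImplicit false

namespace Pool.LEV

open Finset Real
open Pool.Agent.H49.Ent Pool.Agent.H32.Dense Pool.STK Pool.KAF Pool.SLO
open Pool.KVA (MI)

/-- The statement for laws without event, with weights. -/
def LevW (k : ℕ) : Prop :=
  ∀ (n m D A : ℕ) (c ε : ℝ) (kk : ℕ → ℕ), m + k * n ≤ D → 0 < c → c ≤ 1 → 0 < ε →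
    ∃ (κ₂ κ π₀ ι : ℝ) (i₁ k₀ X₀ : ℕ), 0 < κ₂ ∧ κ₂ ≤ 1 ∧ 0 < κ ∧ κ ≤ 1 ∧ 0 < π₀ ∧ 0 < ι ∧
      ∀ d : EDat k n m, d.OK Set.univ A (ι * d.X) → X₀ ≤ d.X → d.H1a ι → d.TCp kk i₁ → d.H2 ι →
        d.H3 ι → d.H5w c κ π₀ →
        Pr (tup d.P d.L (D + 1)) (d.Bad D k₀ ((2 : ℝ) ^ (-(κ₂ * d.X)))) ≤ ε

section

variable {Ω Λ τ : Type} [Fintype Ω]

/-- Two nodes are near. -/
theorem sep_bad {p : Ω → ℝ} (hp : ∀ ω, 0 ≤ p ω) (L : Ω → Λ) (T : Ω → τ) (th : τ → ℝ)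
    (D k₀ : ℕ) : Pr (tup p L (D + 1)) {v | ¬ sepN th T k₀ (Fin.init v : Fin (D + 1) → Ω)} ≤
      (D + 1) ^ 2 * Pr (dbl p L) {w | |th (T w.2) - th (T w.1)| < (2 : ℝ) ^ (-(k₀ : ℤ))} := by
  classical
  have ht0 := tup_nonneg hp L (D + 1)
  have hd0 : 0 ≤ Pr (dbl p L) {w | |th (T w.2) - th (T w.1)| < (2 : ℝ) ^ (-(k₀ : ℤ))} :=
    law_nonneg (dbl_nonneg hp) _ _
  obtain ⟨s, hs⟩ : ∃ s : Finset (Fin (D + 1) × Fin (D + 1)), s = univ.filter fun q => q.1 ≠ q.2 :=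
    ⟨_, rfl⟩
  have h1 := Pr_biUnion ht0 s (fun q => {v | |th (T (v q.2.castSucc)) - th (T (v q.1.castSucc))| <
    (2 : ℝ) ^ (-(k₀ : ℤ))})
  have h2 : ∀ q ∈ s, Pr (tup p L (D + 1)) {v | |th (T (v q.2.castSucc)) -
      th (T (v q.1.castSucc))| < (2 : ℝ) ^ (-(k₀ : ℤ))} =
      Pr (dbl p L) {w | |th (T w.2) - th (T w.1)| < (2 : ℝ) ^ (-(k₀ : ℤ))} := by
    intro q hq
    rw [hs, Finset.mem_filter] at hq
    exact Pool.L1.Pr_marg (tup_two hp L (N := D + 1) q.1.castSucc q.2.castSucc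
      (fun h => hq.2 (Fin.castSucc_injective _ h)))
      {w | |th (T w.2) - th (T w.1)| < (2 : ℝ) ^ (-(k₀ : ℤ))}
  rw [Finset.sum_congr rfl h2, Finset.sum_const, nsmul_eq_mul] at h1
  have h3 : ((s.card : ℕ) : ℝ) ≤ (D + 1) ^ 2 := by
    have : s.card ≤ (D + 1) ^ 2 := by
      rw [hs]
      refine (Finset.card_filter_le _ _).trans ?_
      rw [Finset.card_univ, Fintype.card_prod, Fintype.card_fin, sq]
    exact_mod_cast this
  refine le_trans (Pool.KAF.Pr_mono ht0 fun v _ hv => ?_)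
    (h1.trans (mul_le_mul_of_nonneg_right h3 hd0))
  have h4 : ¬ ∀ i i' : Fin (D + 1), i ≠ i' →
      (2 : ℝ) ^ (-(k₀ : ℤ)) ≤ |th (T (v i.castSucc)) - th (T (v i'.castSucc))| := hv
  push Not at h4
  obtain ⟨i, i', hne, h5⟩ := h4
  refine ⟨(i', i), ?_, h5⟩
  rw [hs, Finset.mem_filter]
  exact ⟨Finset.mem_univ _, fun h => hne h.symm⟩

end

theorem EDat.bad_mono {k n m : ℕ} (d : EDat k n m) {D k₀ k₁ : ℕ} {δ₀ δ₁ : ℝ} (hk : k₀ ≤ k₁)
    (hδ : δ₀ ≤ δ₁) : d.Bad D k₁ δ₁ ⊆ d.Bad D k₀ δ₀ := by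
  rintro v (h | ⟨j, h⟩)
  · refine Or.inl fun h2 => h fun i i' hne => ?_
    refine le_trans ?_ (h2 i i' hne)
    refine zpow_le_zpow_right₀ one_le_two ?_
    have : (k₀ : ℤ) ≤ k₁ := by exact_mod_cast hk
    linarith
  · exact Or.inr ⟨j, lt_of_le_of_lt hδ h⟩

theorem lev0 : LevW 0 := by
  intro n m D A c ε kk _ _ _ hε
  obtain ⟨i, hi⟩ := exists_pow_lt_of_lt_one (show (0 : ℝ) < ε / (D + 1) ^ 2 by positivity)
    (by norm_num : (1 / 2 : ℝ) < 1)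
  refine ⟨1, 1, 1, 1, i, kk i, 0, one_pos, le_rfl, one_pos, le_rfl, one_pos, one_pos, ?_⟩
  intro d hok _ _ hT _ _ _
  have hp0 := hok.law.nonneg
  have h1 := sep_bad hp0 d.L d.T d.th D (kk i)
  have h2 := hT i le_rfl
  refine le_trans (Pool.KAF.Pr_mono (tup_nonneg hp0 d.L (D + 1)) fun v _ hv => ?_)
    (h1.trans ?_)
  · rcases hv with h | ⟨j, _⟩
    · exact h
    · exact j.elim0
  · have h3 : (0 : ℝ) < (D + 1) ^ 2 := by positivity
    rw [lt_div_iff₀ h3] at hi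
    have h4 := mul_le_mul_of_nonneg_left h2 h3.le
    linarith

namespace EDat

variable {k n m : ℕ} (d : EDat (k + 1) n m)

open Classical in
/-- The known part of the height, as a function of the data of the last coordinate. -/
noncomputable def kn (z : d.Ze) (t : d.Tau) : ℝ :=
  if h : ∃ ω, 0 < d.P ω ∧ d.Z (Fin.last k) (d.L ω) = z then
    d.s t + ∑ j : Fin k, d.e t j.castSucc * d.path (d.L h.choose) j.castSucc (d.th t) +
      d.e t (Fin.last k) * ∑ i, d.p (d.L h.choose) (Fin.last k) i * d.th t ^ (i.val + 1)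
  else 0

variable {d}

theorem kn_eq {G : Set d.Om} {A : ℕ} {c : ℝ} (h : d.OK G A c) {ω : d.Om} (hω : 0 < d.P ω)
    (t : d.Tau) : d.kn (d.Z (Fin.last k) (d.L ω)) t =
      d.s t + ∑ j : Fin k, d.e t j.castSucc * d.path (d.L ω) j.castSucc (d.th t) +
      d.e t (Fin.last k) * ∑ i, d.p (d.L ω) (Fin.last k) i * d.th t ^ (i.val + 1) := by
  have h1 : ∃ ω', 0 < d.P ω' ∧ d.Z (Fin.last k) (d.L ω') = d.Z (Fin.last k) (d.L ω) :=
    ⟨ω, hω, rfl⟩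
  unfold kn
  rw [dif_pos h1]
  have h2 := h.hZ (Fin.last k) h1.choose ω h1.choose_spec.1 hω h1.choose_spec.2
  have h3 : ∀ j : Fin k, d.path (d.L h1.choose) j.castSucc (d.th t) =
      d.path (d.L ω) j.castSucc (d.th t) := by
    intro j
    have h4 := h.hZ' (Fin.last k) j.castSucc (Fin.castSucc_lt_last j) h1.choose ω
      h1.choose_spec.1 hω h1.choose_spec.2
    simp only [Prod.mk.injEq] at h4
    unfold path
    rw [h4.1, h4.2]
  have h2' : d.p (d.L h1.choose) (Fin.last k) = d.p (d.L ω) (Fin.last k) := h2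
  simp only [h3]
  rw [h2']

theorem hg1_eq {G : Set d.Om} {A : ℕ} {c : ℝ} (h : d.OK G A c) {D : ℕ} (hD : m ≤ D) {ω : d.Om}
    (hω : 0 < d.P ω) (t : d.Tau) :
    hg1 (fun l => d.y l (Fin.last k)) (fun l => qe D (d.q l)) d.th (fun t => d.e t (Fin.last k))
      (d.kn (d.Z (Fin.last k) (d.L ω))) d.X (d.L ω) t = d.hgt (d.L ω) t := by
  unfold hg1 hgt
  rw [sum_qe hD, kn_eq h hω, Fin.sum_univ_castSucc]
  have h1 : d.path (d.L ω) (Fin.last k) (d.th t) = d.y (d.L ω) (Fin.last k) / 2 ^ d.X +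
      ∑ i, d.p (d.L ω) (Fin.last k) i * d.th t ^ (i.val + 1) := rfl
  rw [h1]
  ring

end EDat

/-- The step `top_one` for the last coordinate. -/
theorem top_ev (k n m D A : ℕ) (hD : m ≤ D) (c ε : ℝ) (kk : ℕ → ℕ) (hc : 0 < c) (hc1 : c ≤ 1)
    (hε : 0 < ε) :
    ∃ (κ₂ κ π₀ ι : ℝ) (i₁ k₀ X₀ : ℕ), 0 < κ₂ ∧ κ₂ ≤ 1 ∧ 0 < κ ∧ κ ≤ 1 ∧ 0 < π₀ ∧ 0 < ι ∧
      ∀ d : EDat (k + 1) n m, d.OK Set.univ A (ι * d.X) → X₀ ≤ d.X → d.H1a ι → d.TCp kk i₁ →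
        d.H2 ι → d.H3 ι → d.H5w c κ π₀ →
        Pr (tup d.P d.L (D + 1)) (BadN d.th d.T (fun t => d.e t (Fin.last k)) D k₀
          ((2 : ℝ) ^ (-(κ₂ * d.X)))) ≤ ε := by
  obtain ⟨κ₂, κ, π₀, ι, i₁, k₀, X₀, h1, h2, h3, h4, h5, h6, hmain⟩ :=
    top_one D A c ε kk hc hc1 hε
  refine ⟨κ₂, κ, π₀, ι, i₁, k₀, X₀, h1, h2, h3, h4, h5, h6, ?_⟩
  intro d h hX hH1 hT hH2 hH3 hH5
  refine hmain d.Om d.Lam d.Tau d.Nu d.Ze d.Be d.P d.L d.T (fun ω => d.V (d.L ω))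
    (fun ω => d.Z (Fin.last k) (d.L ω)) (fun ω => d.B (d.L ω)) (fun l => d.y l (Fin.last k))
    (fun l => qe D (d.q l)) d.N d.th (fun t => d.e t (Fin.last k)) d.kn d.X h.law hX
    (fun l => h.hy l _) (fun l i => qe_le (by positivity) (fun i => h.hq l i) i)
    (fun t => h.he t _) h.hth h.hN ?_ (h.hZB _) ?_ ?_ hH1.1 hH1.2 hT hH2 (hH3 _) hH5
  · intro ω ω' _ _ hl
    show d.Z (Fin.last k) (d.L ω) = d.Z (Fin.last k) (d.L ω')
    rw [hl]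
  · intro ω ω' a a' hl
    have k1 := h.hV ω ω' a a' hl
    simp only [Prod.mk.injEq] at k1 ⊢
    obtain ⟨e1, e2, e3, e4⟩ := k1
    exact ⟨congrFun e1 _, by rw [e3], congrFun e4 _⟩
  · intro ω ω' a a' hl
    rw [EDat.hg1_eq h hD a, EDat.hg1_eq h hD a]
    exact h.hh ω (Set.mem_univ _) ω' (Set.mem_univ _) a a' hl

namespace EDat

variable {k n m : ℕ} {d : EDat k n m}

theorem OK.mono {G : Set d.Om} {A : ℕ} {c c' : ℝ} (h : d.OK G A c) (hc : c ≤ c') :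
    d.OK G A c' := by
  have h1 : (2 : ℝ) ^ c ≤ 2 ^ c' := Real.rpow_le_rpow_of_exponent_le one_le_two hc
  exact { h with
    hp := fun l j i => (h.hp l j i).trans h1
    hq := fun l i => (h.hq l i).trans h1
    he := fun t j => (h.he t j).trans h1 }

theorem H1a.mono {ι ι' : ℝ} (h : d.H1a ι) (hι : ι ≤ ι') : d.H1a ι' := by
  have hX : (0 : ℝ) ≤ d.X := Nat.cast_nonneg _
  have hl2 : 0 ≤ Real.log 2 := Real.log_nonneg one_le_two
  refine ⟨h.1.trans (mul_le_mul_of_nonneg_right hι hX), le_trans ?_ h.2⟩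
  refine mul_le_mul_of_nonneg_right ?_ hl2
  exact mul_le_mul_of_nonneg_right (by linarith) hX

theorem TCp.mono {kk : ℕ → ℕ} {i₁ i₂ : ℕ} (h : d.TCp kk i₁) (hi : i₂ ≤ i₁) : d.TCp kk i₂ :=
  fun i hi' => h i (hi'.trans hi)

theorem H2.mono {ι ι' : ℝ} (h : d.H2 ι) (hι : ι ≤ ι') : d.H2 ι' :=
  le_trans h (mul_le_mul_of_nonneg_right hι (Nat.cast_nonneg _))

theorem H3.mono {ι ι' : ℝ} (h : d.H3 ι) (hι : ι ≤ ι') : d.H3 ι' := by
  intro j
  have hX : (0 : ℝ) ≤ d.X := Nat.cast_nonneg _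
  have hl2 : 0 ≤ Real.log 2 := Real.log_nonneg one_le_two
  refine le_trans ?_ (h j)
  refine mul_le_mul_of_nonneg_right ?_ hl2
  exact mul_le_mul_of_nonneg_right (by linarith) hX

theorem H5w.mono {c κ κ' π₀ π₁ : ℝ} (h : d.H5w c κ π₀) (hκ : κ ≤ κ') (hπ : π₀ ≤ π₁) :
    d.H5w c κ' π₁ :=
  fun W hW hWπ r₁ r₂ a b e => h W hW (hπ.trans hWπ) r₁ r₂ a b
    ((mul_le_mul_of_nonneg_right hκ (Nat.cast_nonneg _)).trans e)

end EDat

/-- The bad tuples of all coordinates but the last. -/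
def BadE {k n m : ℕ} (d : EDat (k + 1) n m) (D k₀ : ℕ) (δ : ℝ) : Set (Fin (D + 2) → d.Om) :=
  {v | ¬ sepN d.th d.T k₀ (Fin.init v : Fin (D + 1) → d.Om) ∨ ∃ j : Fin k, δ <
    |d.e (d.T (v (Fin.last (D + 1)))) j.castSucc -
      itpN d.th d.T (fun t => d.e t j.castSucc) (Fin.init v : Fin (D + 1) → d.Om)
        (d.th (d.T (v (Fin.last (D + 1)))))|}

theorem bad_split {k n m : ℕ} (d : EDat (k + 1) n m) {D ka kc : ℕ} {δ δa : ℝ} (hδ : δa ≤ δ)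
    {v : Fin (D + 2) → d.Om} (hv : v ∈ d.Bad D (max ka kc) δ) :
    v ∈ BadN d.th d.T (fun t => d.e t (Fin.last k)) D ka δa ∨ v ∈ BadE d D kc δ := by
  rcases hv with h | ⟨j, h⟩
  · refine Or.inl (Or.inl fun h2 => h fun i i' hne => ?_)
    refine le_trans ?_ (h2 i i' hne)
    refine zpow_le_zpow_right₀ one_le_two ?_
    have : (ka : ℤ) ≤ ((max ka kc : ℕ) : ℤ) := by exact_mod_cast le_max_left ka kc
    linarith
  · rcases Fin.eq_castSucc_or_eq_last j with ⟨j, rfl⟩ | rfl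
    · exact Or.inr (Or.inr ⟨j, h⟩)
    · exact Or.inl (Or.inr (lt_of_le_of_lt hδ h))

/-- Back from the nodes. -/
theorem back {k n m A : ℕ} {c₁ : ℝ} {d : EDat (k + 1) n m} (h : d.OK Set.univ A c₁)
    {kb X' R D kc : ℕ} {δb δ δc ε : ℝ} (hG : 0 < Pr (tup d.P d.L (m + 1)) (d.good kb δb))
    (hδ : δc ≤ δ / 2 ^ R)
    (hmain : Pr (tup (d.ext kb X' R δb).P (d.ext kb X' R δb).L (D + 1))
      ((d.ext kb X' R δb).Bad D kc δc) ≤ ε) :
    Pr (tup d.P d.L (D + 1)) (BadE d D kc δ) ≤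
      (D + 2) * (1 - Pr (tup d.P d.L (m + 1)) (d.good kb δb)) + ε := by
  have hp0 := h.law.nonneg
  have htl : IsLaw (tup d.P d.L (m + 1)) := tup_isLaw h.law d.L (m + 1)
  have hR0 : (0 : ℝ) < 2 ^ R := by positivity
  have k1 := Pool.L1.Pr_marg (ext_tup h.law d.L d.T m (D + 1)) (BadE d D kc δ)
  have k2 := tup_cond htl (Lx d.L d.T) hG (D + 1) {u | (fun j => sm (u j)) ∈ BadE d D kc δ}
  rw [← k1]
  refine k2.trans ?_
  have k3 : (((D + 1 : ℕ) : ℝ) + 1) = D + 2 := by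
    push_cast
    ring
  rw [k3]
  refine add_le_add le_rfl (le_trans (Pool.KAF.Pr_mono ?_ fun u _ hu => ?_) hmain)
  · exact tup_nonneg (fun v => cond_nonneg htl.nonneg _ _ v) _ _
  · rcases hu with h1 | ⟨j, h1⟩
    · exact Or.inl h1
    · refine Or.inr ⟨j, lt_of_le_of_lt hδ ?_⟩
      have e1 := itpN_div d.th (fun v : Fin (m + 2) → d.Om => d.T (sm v))
        (fun t => d.e t j.castSucc) (Fin.init u : Fin (D + 1) → Fin (m + 2) → d.Om)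
        (d.th (d.T (sm (u (Fin.last (D + 1)))))) (2 ^ R)
      have e2 : (d.ext kb X' R δb).itp (Fin.init u) j
          (d.th (d.T (sm (u (Fin.last (D + 1)))))) =
          itpN d.th (fun v : Fin (m + 2) → d.Om => d.T (sm v))
          (fun t => d.e t j.castSucc / 2 ^ R) (Fin.init u : Fin (D + 1) → Fin (m + 2) → d.Om)
          (d.th (d.T (sm (u (Fin.last (D + 1)))))) := rfl
      show δ / 2 ^ R < |d.e (d.T (sm (u (Fin.last (D + 1))))) j.castSucc / 2 ^ R -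
        (d.ext kb X' R δb).itp (Fin.init u) j (d.th (d.T (sm (u (Fin.last (D + 1))))))|
      rw [e2, e1, ← sub_div, abs_div, abs_of_pos hR0]
      exact div_lt_div_of_pos_right h1 hR0

end Pool.LEV
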