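import Pool.Agent.H48.GEN.LevI

/-!
# L1 level by level: the induction step
-/

set_option autoImplicit false

namespace Pool.LEV

open Finset Real
open Pool.Agent.H49.Ent Pool.Agent.H32.Dense Pool.STK Pool.KAF Pool.SLO
open Pool.KVA (MI)

/-- The numbers of the step. -/
theorem nums {K ιc κc κ₂c c ι κ₂ κ X X' R m L0 : ℝ} (hK : 0 < K) (hιc : 0 < ιc) (hκc : 0 < κc)
    (hκ₂c : 0 < κ₂c) (hc : 0 < c) (hc1 : c ≤ 1) (hι0 : 0 < ι) (hX : 0 < X) (hm : 0 ≤ m)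
    (hL0 : 0 ≤ L0) (i3 : ι ≤ ιc * K / (32 * (m + 2))) (i4 : ι ≤ c * κc * K / 16)
    (i5 : ι ≤ κ₂c * K / 16) (i6 : κ ≤ κc * K / 4) (i7 : κ₂ ≤ κ₂c * K / 8)
    (x3 : (12 + L0) * 8 ≤ ιc * K * X) (x4 : 8 ≤ c * κc * K * X) (x5 : 8 ≤ κ₂c * K * X)
    (hX' : K * X / 2 ≤ X') (hR : R ≤ ι * X + 1) :
    ι * X ≤ ιc * X' ∧ L0 + ι * X ≤ ιc * X' ∧ 12 + 4 * (m + 2) * ι * X ≤ ιc * X' ∧
      2 + 2 * ι * X ≤ ιc * X' ∧ 2 + 2 * (m + 2) * ι * X ≤ ιc * X' ∧ κ * X + R ≤ κc * X' ∧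
      R ≤ c / 2 * (κc * X') ∧ -(κ₂c * X') + R ≤ -(κ₂ * X) := by
  have hιX : 0 < ι * X := by positivity
  have y3 : 4 * (m + 2) * ι * X ≤ ιc * K * X / 8 := by
    have h1 := mul_le_mul_of_nonneg_left i3 (show (0 : ℝ) ≤ 4 * (m + 2) * X by positivity)
    have h2 : 4 * (m + 2) * X * (ιc * K / (32 * (m + 2))) = ιc * K * X / 8 := by
      field_simp
      ring
    linarith
  have y3' : 4 * (m * (ι * X)) + 8 * (ι * X) = 4 * (m + 2) * ι * X := by ring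
  have y3'' : 0 ≤ m * (ι * X) := by positivity
  have y4 : ι * X ≤ c * κc * K * X / 16 := by
    have h1 := mul_le_mul_of_nonneg_right i4 hX.le
    linarith
  have y5 : ι * X ≤ κ₂c * K * X / 16 := by
    have h1 := mul_le_mul_of_nonneg_right i5 hX.le
    linarith
  have y6 : κ * X ≤ κc * K * X / 4 := by
    have h1 := mul_le_mul_of_nonneg_right i6 hX.le
    linarith
  have y7 : κ₂ * X ≤ κ₂c * K * X / 8 := by
    have h1 := mul_le_mul_of_nonneg_right i7 hX.le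
    linarith
  have z1 : ιc * K * X / 2 ≤ ιc * X' := by
    have := mul_le_mul_of_nonneg_left hX' hιc.le
    linarith
  have z2 : κc * K * X / 2 ≤ κc * X' := by
    have := mul_le_mul_of_nonneg_left hX' hκc.le
    linarith
  have z3 : κ₂c * K * X / 2 ≤ κ₂c * X' := by
    have := mul_le_mul_of_nonneg_left hX' hκ₂c.le
    linarith
  have z4 : c * κc * K * X ≤ κc * K * X := by
    have h1 : 0 ≤ κc * K * X := by positivity
    have h2 := mul_le_mul_of_nonneg_right hc1 h1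
    linarith
  refine ⟨by linarith, by linarith, by linarith, by linarith, by linarith, by linarith, ?_,
    by linarith⟩
  have h1 := mul_le_mul_of_nonneg_left z2 (show (0 : ℝ) ≤ c / 2 by positivity)
  have h2 : c / 2 * (κc * K * X / 2) = c * κc * K * X / 4 := by ring
  linarith

theorem lev_succ (k : ℕ) (ih : LevW k) : LevW (k + 1) := by
  intro n m D A c ε kk hD hc hc1 hε
  have hmD : m ≤ D := le_trans (Nat.le_add_right _ _) hD
  have hD' : (m + n) + k * n ≤ D := by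
    have : (k + 1) * n = k * n + n := by ring
    omega
  obtain ⟨κ₂a, κa, π₀a, ιa, i₁a, k₀a, X₀a, a1, a2, a3, a4, a5, a6, ha⟩ :=
    top_ev k n m D A hmD c (ε / 2) kk hc hc1 (by positivity)
  obtain ⟨η, hη⟩ : ∃ η : ℝ, η = min (ε / (4 * (D + 2))) (1 / 2) := ⟨_, rfl⟩
  have hη0 : 0 < η := by
    rw [hη]
    exact lt_min (by positivity) (by norm_num)
  have hη1 : η ≤ 1 / 2 := by
    rw [hη]
    exact min_le_right _ _
  have hη2 : (D + 2) * η ≤ ε / 4 := by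
    have h1 : η ≤ ε / (4 * (D + 2)) := by
      rw [hη]
      exact min_le_left _ _
    have h2 := mul_le_mul_of_nonneg_left h1 (show (0 : ℝ) ≤ D + 2 by positivity)
    refine h2.trans (le_of_eq ?_)
    field_simp
  obtain ⟨K, κb, π₀b, ιb, i₁b, k₀b, X₀b, b1, b2, b3, b4, b5, b6, hb⟩ :=
    top_ev k n m m A le_rfl c η kk hc hc1 hη0
  obtain ⟨κ₂c, κc, π₀c, ιc, i₁c, k₀c, X₀c, c1, c2, c3, c4, c5, c6, hcm⟩ :=
    ih n (m + n) D (A + n + k + 3) (c / 2) (ε / 4) (fun i => kk (2 * i + 4)) hD'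
      (by positivity) (by linarith) (by positivity)
  obtain ⟨L0, hL0⟩ : ∃ L0 : ℕ, (1 + (n + 1) * (m + 1) * 2 ^ ((k₀b + 1) * m) : ℝ) ≤ 2 ^ L0 :=
    pow_unbounded_of_one_lt _ one_lt_two |>.imp fun _ h => h.le
  obtain ⟨ι, hι⟩ : ∃ ι : ℝ, ι = min (min ιa ιb) (min (ιc * K / (32 * (m + 2)))
    (min (c * κc * K / 16) (κ₂c * K / 16))) := ⟨_, rfl⟩
  have hι0 : 0 < ι := by
    rw [hι]
    exact lt_min (lt_min a6 b6) (lt_min (by positivity) (lt_min (by positivity) (by positivity)))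
  have i1 : ι ≤ ιa := by
    rw [hι]
    exact (min_le_left _ _).trans (min_le_left _ _)
  have i2 : ι ≤ ιb := by
    rw [hι]
    exact (min_le_left _ _).trans (min_le_right _ _)
  have i3 : ι ≤ ιc * K / (32 * (m + 2)) := by
    rw [hι]
    exact (min_le_right _ _).trans (min_le_left _ _)
  have i4 : ι ≤ c * κc * K / 16 := by
    rw [hι]
    exact (min_le_right _ _).trans ((min_le_right _ _).trans (min_le_left _ _))
  have i5 : ι ≤ κ₂c * K / 16 := by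
    rw [hι]
    exact (min_le_right _ _).trans ((min_le_right _ _).trans (min_le_right _ _))
  obtain ⟨X₁, hX₁⟩ := exists_nat_ge (2 / K + (2 * X₀c / K + ((12 + L0) * 8 / (ιc * K) +
    (8 / (c * κc * K) + 8 / (κ₂c * K)))))
  refine ⟨min κ₂a (κ₂c * K / 8), min (min κa κb) (κc * K / 4), min (min π₀a π₀b) (π₀c / 2), ι,
    max (max i₁a i₁b) (2 * i₁c + 4), max k₀a k₀c, max (max X₀a X₀b) X₁,
    lt_min a1 (by positivity), (min_le_left _ _).trans a2,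
    lt_min (lt_min a3 b3) (by positivity), (min_le_left _ _).trans ((min_le_left _ _).trans a4),
    lt_min (lt_min a5 b5) (by positivity), hι0, ?_⟩
  intro d hok hX hH1 hT hH2 hH3 hH5
  have hXa : X₀a ≤ d.X := ((le_max_left _ _).trans (le_max_left _ _)).trans hX
  have hXb : X₀b ≤ d.X := ((le_max_right _ _).trans (le_max_left _ _)).trans hX
  have hXr : 2 / K + (2 * X₀c / K + ((12 + L0) * 8 / (ιc * K) +
    (8 / (c * κc * K) + 8 / (κ₂c * K)))) ≤ (d.X : ℝ) :=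
    hX₁.trans (by exact_mod_cast (le_max_right _ _).trans hX)
  have q1 : 0 < 2 / K := by positivity
  have q2 : 0 ≤ 2 * X₀c / K := by positivity
  have q3 : 0 < (12 + L0) * 8 / (ιc * K) := by positivity
  have q4 : 0 < 8 / (c * κc * K) := by positivity
  have q5 : 0 < 8 / (κ₂c * K) := by positivity
  have hX0 : (0 : ℝ) < d.X := by linarith
  have x1 : 2 ≤ K * d.X := by
    have : 2 / K ≤ d.X := by linarith
    rw [div_le_iff₀ b1] at this
    linarith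
  have x2 : 2 * X₀c ≤ K * d.X := by
    have : 2 * X₀c / K ≤ d.X := by linarith
    rw [div_le_iff₀ b1] at this
    linarith
  have x3 : (12 + L0) * 8 ≤ ιc * K * d.X := by
    have : (12 + L0) * 8 / (ιc * K) ≤ d.X := by linarith
    rw [div_le_iff₀ (by positivity)] at this
    linarith
  have x4 : 8 ≤ c * κc * K * d.X := by
    have : 8 / (c * κc * K) ≤ d.X := by linarith
    rw [div_le_iff₀ (by positivity)] at this
    linarith
  have x5 : 8 ≤ κ₂c * K * d.X := by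
    have : 8 / (κ₂c * K) ≤ d.X := by linarith
    rw [div_le_iff₀ (by positivity)] at this
    linarith
  -- the smaller scale
  obtain ⟨X', hX'⟩ : ∃ X' : ℕ, X' = ⌊K * d.X⌋₊ := ⟨_, rfl⟩
  have hX'1 : (X' : ℝ) ≤ K * d.X := by
    rw [hX']
    exact Nat.floor_le (by positivity)
  have hX'2 : K * d.X / 2 ≤ X' := by
    have := Nat.lt_floor_add_one (K * d.X)
    rw [← hX'] at this
    linarith
  have hX'3 : X' ≤ d.X := by
    have : (X' : ℝ) ≤ d.X := hX'1.trans (by nlinarith)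
    exact_mod_cast this
  have hX'c : X₀c ≤ X' := by
    have : (X₀c : ℝ) ≤ X' := by linarith
    exact_mod_cast this
  obtain ⟨R, hR⟩ : ∃ R : ℕ, R = ⌈ι * d.X⌉₊ := ⟨_, rfl⟩
  have hR1 : ι * d.X ≤ R := by
    rw [hR]
    exact Nat.le_ceil _
  have hR2 : (R : ℝ) ≤ ι * d.X + 1 := by
    rw [hR]
    exact (Nat.ceil_lt_add_one (by positivity)).le
  have hRp : (2 : ℝ) ^ (ι * d.X) ≤ 2 ^ R := by
    rw [← Real.rpow_natCast]
    exact Real.rpow_le_rpow_of_exponent_le one_le_two hR1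
  obtain ⟨δb, hδb⟩ : ∃ δb : ℝ, δb = (2 : ℝ) ^ (-(K * d.X)) := ⟨_, rfl⟩
  have hδ1 : 2 ^ X' * δb ≤ 1 := by
    rw [hδb, ← Real.rpow_natCast, ← Real.rpow_add two_pos]
    exact Real.rpow_le_one_of_one_le_of_nonpos one_le_two (by linarith)
  obtain ⟨κ₂, hκ₂⟩ : ∃ κ₂ : ℝ, κ₂ = min κ₂a (κ₂c * K / 8) := ⟨_, rfl⟩
  obtain ⟨κ, hκ⟩ : ∃ κ : ℝ, κ = min (min κa κb) (κc * K / 4) := ⟨_, rfl⟩
  obtain ⟨π₀, hπ₀⟩ : ∃ π₀ : ℝ, π₀ = min (min π₀a π₀b) (π₀c / 2) := ⟨_, rfl⟩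
  rw [← hκ₂]
  rw [← hκ, ← hπ₀] at hH5
  have k1 : κ₂ ≤ κ₂a := by
    rw [hκ₂]
    exact min_le_left _ _
  have k2 : κ ≤ κa ∧ κ ≤ κb ∧ κ ≤ κc * K / 4 := by
    rw [hκ]
    exact ⟨(min_le_left _ _).trans (min_le_left _ _), (min_le_left _ _).trans (min_le_right _ _),
      min_le_right _ _⟩
  have k3 : π₀ ≤ π₀a ∧ π₀ ≤ π₀b ∧ π₀ ≤ π₀c / 2 := by
    rw [hπ₀]
    exact ⟨(min_le_left _ _).trans (min_le_left _ _), (min_le_left _ _).trans (min_le_right _ _),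
      min_le_right _ _⟩
  have k4 : 0 ≤ κ := by
    rw [hκ]
    exact (lt_min (lt_min a3 b3) (by positivity)).le
  obtain ⟨o1, o2, o3, o4, o5, o6, o7, o8⟩ := nums (κ₂ := κ₂) (κ := κ) (X := (d.X : ℝ))
    (X' := (X' : ℝ)) (R := (R : ℝ)) (m := (m : ℝ)) (L0 := (L0 : ℝ)) b1 c6 c3 c1 hc hc1 hι0 hX0
    (Nat.cast_nonneg _) (Nat.cast_nonneg _) i3 i4 i5 k2.2.2 (by rw [hκ₂]; exact min_le_right _ _)
    x3 x4 x5 hX'2 hR2
  -- the good event
  have hGb := hb d (hok.mono (mul_le_mul_of_nonneg_right i2 hX0.le)) hXb (hH1.mono i2)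
    (hT.mono ((le_max_right _ _).trans (le_max_left _ _))) (hH2.mono i2) (hH3.mono i2)
    (hH5.mono k2.2.1 k3.2.1)
  rw [← hδb] at hGb
  have hlt := tup_isLaw hok.law d.L (m + 1)
  have hG1 : 1 - η ≤ Pr (tup d.P d.L (m + 1)) (d.good k₀b δb) := by
    have h1 := pr_compl_law hlt (BadN d.th d.T (fun t => d.e t (Fin.last k)) m k₀b δb)
    have h2 : Pr (tup d.P d.L (m + 1)) (d.good k₀b δb) =
        Pr (tup d.P d.L (m + 1)) (BadN d.th d.T (fun t => d.e t (Fin.last k)) m k₀b δb)ᶜ := rfl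
    rw [h2, h1]
    exact sub_le_sub_left hGb _
  have hG : 1 / 2 ≤ Pr (tup d.P d.L (m + 1)) (d.good k₀b δb) := le_trans (by linarith) hG1
  have hG0 : 0 < Pr (tup d.P d.L (m + 1)) (d.good k₀b δb) := lt_of_lt_of_le (by norm_num) hG
  -- the new data
  have hC : (1 + (n + 1) * (m + 1) * 2 ^ ((k₀b + 1) * m)) * (2 : ℝ) ^ (ι * d.X) ≤
      (2 : ℝ) ^ (ιc * X') := by
    calc (1 + (n + 1) * (m + 1) * 2 ^ ((k₀b + 1) * m)) * (2 : ℝ) ^ (ι * d.X)
        ≤ 2 ^ L0 * (2 : ℝ) ^ (ι * d.X) := mul_le_mul_of_nonneg_right hL0 (by positivity)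
      _ = (2 : ℝ) ^ (L0 + ι * d.X) := by
        rw [Real.rpow_add two_pos, Real.rpow_natCast]
      _ ≤ _ := Real.rpow_le_rpow_of_exponent_le one_le_two o2
  have hfin := hcm (d.ext k₀b X' R δb)
    (EDat.ext_ok hok (mul_nonneg hι0.le hX0.le) hX'3 hRp hδ1 o1 hC hG0) hX'c
    (EDat.ext_H1a hok hX'3 hG o4 hH1)
    (EDat.ext_TCp hok hG (le_max_right _ _) hT)
    (EDat.ext_H2 hok hG o5 hH1 hH2)
    (EDat.ext_H3 hok hX'3 hG o3 hH1 hH3)
    (EDat.ext_H5w hok hc1 k4 hX'3 hG o6 o7 hc.le c5.le k3.2.2 hH5)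
  -- back
  have hδc : (2 : ℝ) ^ (-(κ₂c * (d.ext k₀b X' R δb).X)) ≤ (2 : ℝ) ^ (-(κ₂ * d.X)) / 2 ^ R := by
    rw [le_div_iff₀ (by positivity), ← Real.rpow_natCast, ← Real.rpow_add two_pos]
    exact Real.rpow_le_rpow_of_exponent_le one_le_two o8
  have hback := back hok hG0 hδc hfin
  have hta := ha d (hok.mono (mul_le_mul_of_nonneg_right i1 hX0.le)) hXa (hH1.mono i1)
    (hT.mono ((le_max_left _ _).trans (le_max_left _ _))) (hH2.mono i1) (hH3.mono i1)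
    (hH5.mono k2.1 k3.1)
  have hδa : (2 : ℝ) ^ (-(κ₂a * d.X)) ≤ (2 : ℝ) ^ (-(κ₂ * d.X)) :=
    Real.rpow_le_rpow_of_exponent_le one_le_two
      (neg_le_neg (mul_le_mul_of_nonneg_right k1 hX0.le))
  have hsum : Pr (tup d.P d.L (D + 1)) (d.Bad D (max k₀a k₀c) ((2 : ℝ) ^ (-(κ₂ * d.X)))) ≤
      Pr (tup d.P d.L (D + 1)) (BadN d.th d.T (fun t => d.e t (Fin.last k)) D k₀a
        ((2 : ℝ) ^ (-(κ₂a * d.X)))) +
      Pr (tup d.P d.L (D + 1)) (BadE d D k₀c ((2 : ℝ) ^ (-(κ₂ * d.X)))) :=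
    Pool.M5T.Pr_or (tup_nonneg hok.law.nonneg d.L (D + 1)) fun v _ hv => bad_split d hδa hv
  have h9 : (D + 2) * (1 - Pr (tup d.P d.L (m + 1)) (d.good k₀b δb)) ≤ (D + 2) * η :=
    mul_le_mul_of_nonneg_left (by linarith) (by positivity)
  refine hsum.trans ((add_le_add hta (hback.trans (add_le_add (h9.trans hη2) le_rfl))).trans
    (le_of_eq ?_))
  ring

/-- **All numbers of coordinates.** -/
theorem lev_all (k : ℕ) : LevW k := by
  induction k with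
  | zero => exact lev0
  | succ k ih => exact lev_succ k ih

end Pool.LEV
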