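import Pool.Agent.H48.GEN.LevS
import Pool.Agent.H48.M5.Lag
import Pool.Agent.H31.M5.L1W

/-!
# L1 level by level: the product of the own slope and a path
-/

set_option autoImplicit false

namespace Pool.LEV

open Finset Real Polynomial

section

variable {n m : ℕ}

/-- A path as a polynomial. -/
noncomputable def ppol (y : ℝ) (p : Fin n → ℝ) : ℝ[X] := C y + ∑ i : Fin n, C (p i) * X ^ (i.val + 1)

theorem ppol_eval (y : ℝ) (p : Fin n → ℝ) (t : ℝ) :
    (ppol y p).eval t = y + ∑ i, p i * t ^ (i.val + 1) := by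
  unfold ppol
  rw [eval_add, eval_C, eval_finsetSum]
  congr 1
  refine Finset.sum_congr rfl fun i _ => ?_
  rw [eval_mul, eval_C, eval_pow, eval_X]

theorem ppol_deg (y : ℝ) (p : Fin n → ℝ) : (ppol y p).natDegree ≤ n := by
  unfold ppol
  refine (natDegree_add_le _ _).trans (max_le ?_ ?_)
  · rw [natDegree_C]
    exact Nat.zero_le _
  · refine natDegree_sum_le_of_forall_le _ _ fun i _ => ?_
    refine (natDegree_C_mul_X_pow_le _ _).trans ?_
    have := i.2
    omega

theorem prod_coeff {P : ℝ[X]} {B M y : ℝ} {p : Fin n → ℝ} (hB : ∀ a, |P.coeff a| ≤ B)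
    (hy : |y| ≤ M) (hp : ∀ i, |p i| ≤ M) (a : ℕ) :
    |(P * ppol y p).coeff a| ≤ (n + 1) * (B * M) := by
  have hB0 : 0 ≤ B := (abs_nonneg _).trans (hB 0)
  have hM0 : 0 ≤ M := (abs_nonneg _).trans hy
  unfold ppol
  rw [mul_add, coeff_add, coeff_mul_C, Finset.mul_sum, finsetSum_coeff]
  have h1 : |P.coeff a * y| ≤ B * M := by
    rw [abs_mul]
    exact mul_le_mul (hB a) hy (abs_nonneg _) hB0
  have h2 : |∑ i : Fin n, (P * (C (p i) * X ^ (i.val + 1))).coeff a| ≤ n * (B * M) := by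
    refine (Finset.abs_sum_le_sum_abs _ _).trans ?_
    have h3 : ∀ i ∈ (univ : Finset (Fin n)), |(P * (C (p i) * X ^ (i.val + 1))).coeff a| ≤
        B * M := by
      intro i _
      rw [← mul_assoc, coeff_mul_X_pow', coeff_mul_C]
      split_ifs
      · rw [abs_mul]
        exact mul_le_mul (hB _) (hp i) (abs_nonneg _) hB0
      · rw [abs_zero]
        positivity
    refine (Finset.sum_le_sum h3).trans (le_of_eq ?_)
    rw [Finset.sum_const, Finset.card_univ, Fintype.card_fin, nsmul_eq_mul]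
  refine (abs_add_le _ _).trans ?_
  linarith

/-- A polynomial without its constant coefficient. -/
theorem eval_tail {Q : ℝ[X]} {D : ℕ} (h : Q.natDegree ≤ D) (t : ℝ) :
    Q.eval t = Q.coeff 0 + ∑ i : Fin D, Q.coeff (i.val + 1) * t ^ (i.val + 1) := by
  rw [Polynomial.eval_eq_sum_range' (Nat.lt_succ_of_le h), Finset.sum_range_succ',
    Finset.sum_range (fun i => Q.coeff (i + 1) * t ^ (i + 1)), pow_zero, mul_one, add_comm]

theorem itp_deg (θ f : Fin (m + 1) → ℝ) (hθ : Function.Injective θ) :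
    (Lagrange.interpolate univ θ f).natDegree ≤ m := by
  have h2 : (Lagrange.interpolate univ θ f).degree < ((m + 1 : ℕ) : WithBot ℕ) := by
    have := Lagrange.degree_interpolate_lt (s := univ) (v := θ) f hθ.injOn
    simpa using this
  by_cases h0 : Lagrange.interpolate univ θ f = 0
  · rw [h0]; simp
  · exact Nat.le_of_lt_succ ((Polynomial.natDegree_lt_iff_degree_lt h0).2 h2)

/-- The own slope times the path, as a polynomial of degree at most `m + n`. -/
noncomputable def tprod (θ f : Fin (m + 1) → ℝ) (y : ℝ) (p : Fin n → ℝ) : ℝ[X] :=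
  Lagrange.interpolate univ θ f * ppol y p

theorem tprod_eval {θ f : Fin (m + 1) → ℝ} (hθ : Function.Injective θ) (y : ℝ) (p : Fin n → ℝ)
    (t : ℝ) : (Lagrange.interpolate univ θ f).eval t * (y + ∑ i, p i * t ^ (i.val + 1)) =
      (tprod θ f y p).coeff 0 +
        ∑ i : Fin (m + n), (tprod θ f y p).coeff (i.val + 1) * t ^ (i.val + 1) := by
  rw [← ppol_eval, ← eval_mul]
  refine eval_tail ?_ t
  refine natDegree_mul_le.trans ?_
  have h1 := itp_deg θ f hθ
  have h2 := ppol_deg y p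
  omega

theorem tprod_coeff {θ f : Fin (m + 1) → ℝ} {k₀ : ℕ} {F M y : ℝ} {p : Fin n → ℝ}
    (h1 : ∀ j, |θ j| ≤ 1) (hs : ∀ j j', j ≠ j' → (2 : ℝ) ^ (-(k₀ : ℤ)) ≤ |θ j - θ j'|)
    (hf : ∀ j, |f j| ≤ F) (hy : |y| ≤ M) (hp : ∀ i, |p i| ≤ M) (a : ℕ) :
    |(tprod θ f y p).coeff a| ≤ (n + 1) * ((m + 1) * 2 ^ ((k₀ + 1) * m) * F * M) :=
  prod_coeff (fun a => Pool.M5.L48.lag_le θ f h1 hs hf a) hy hp a

end

end Pool.LEV
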