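import Pool.Agent.H87.SLO.Tup
import Pool.Agent.H54.KVA.Defs2

/-!
# L1 level by level (target of weight one): definitions and statement

The data `B` of the line are the context, known to `T` and to all `Z j`. The line `l` has base coordinates `j : Fin k`, of position `y l j` (in units
`2 ^ (-X)`) at the time `0` and of path `y + ∑ i, p l j i t ^ (i + 1)`; the height of the target at
the time `t` is `∑ i, q l i t ^ (i + 1) - s t - ∑ j, e t j * path j`, where the own slope `e t` and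
`s t` are arbitrary functions of the known time `t : Tau` (the numbers `q` are unknown, with any
joint law, they may be locked with the positions). `V` are all the data of the line, `Z j` are the
data given which the position `y j` is full: they determine the coefficients `p j` and the paths of
the coordinates before `j`. The coordinates are ordered by increasing ratio.

If the height is nearly independent of `V` given the time and has no full rows on events, the own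
slope is a polynomial in the time on the lines.
-/

set_option autoImplicit false

namespace Pool.LEV

open Finset Real
open Pool.Agent.H49.Ent Pool.Agent.H32.Dense Pool.STK Pool.KAF

/-- The data of one context. -/
structure EDat (k n m : ℕ) where
  Om : Type
  Lam : Type
  Tau : Type
  Nu : Type
  Ze : Type
  Be : Type
  [fin : Fintype Om]
  P : Om → ℝ
  L : Om → Lam
  T : Om → Tau
  V : Lam → Nu
  Z : Fin k → Lam → Ze
  B : Lam → Be
  y : Lam → Fin k → ℤ
  p : Lam → Fin k → Fin n → ℝ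
  q : Lam → Fin m → ℝ
  N : Om → ℤ
  th : Tau → ℝ
  s : Tau → ℝ
  e : Tau → Fin k → ℝ
  X : ℕ

attribute [instance] EDat.fin

namespace EDat

variable {k n m : ℕ} (d : EDat k n m)

/-- The path of a base coordinate. -/
noncomputable def path (l : d.Lam) (j : Fin k) (t : ℝ) : ℝ :=
  d.y l j / 2 ^ d.X + ∑ i, d.p l j i * t ^ (i.val + 1)

/-- The height of the target. -/
noncomputable def hgt (l : d.Lam) (t : d.Tau) : ℝ :=
  ∑ i, d.q l i * d.th t ^ (i.val + 1) - d.s t - ∑ j, d.e t j * d.path l j (d.th t)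

/-- The row `r` of the height. -/
def row (r : ℕ) (ω : d.Om) : ℤ := d.N ω / 2 ^ (d.X - r)

/-- The basic assumptions; `G` is an event of samples, `c` bounds the logarithm of the
coefficients. -/
structure OK (G : Set d.Om) (A : ℕ) (c : ℝ) : Prop where
  law : IsLaw d.P
  hy : ∀ l j, |(d.y l j : ℝ) / 2 ^ d.X| ≤ 1
  hp : ∀ l j i, |d.p l j i| ≤ (2 : ℝ) ^ c
  hq : ∀ l i, |d.q l i| ≤ (2 : ℝ) ^ c
  he : ∀ t j, |d.e t j| ≤ (2 : ℝ) ^ c
  hth : ∀ t, 0 ≤ d.th t ∧ d.th t < 1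
  hN : Det d.P (fun ω => (d.L ω, d.T ω)) d.N
  hV : Det d.P (fun ω => d.V (d.L ω))
    (fun ω => (d.y (d.L ω), d.p (d.L ω), d.q (d.L ω), fun j => d.Z j (d.L ω)))
  hZ : ∀ j, Det d.P (fun ω => d.Z j (d.L ω)) (fun ω => d.p (d.L ω) j)
  hZ' : ∀ j j', j' < j →
    Det d.P (fun ω => d.Z j (d.L ω)) (fun ω => (d.y (d.L ω) j', d.p (d.L ω) j'))
  hZB : ∀ j, Det d.P (fun ω => d.Z j (d.L ω)) (fun ω => d.B (d.L ω))
  hTB : Det d.P d.T (fun ω => d.B (d.L ω))
  hh : ∀ ω ∈ G, ∀ ω' ∈ G, 0 < d.P ω → 0 < d.P ω' → d.L ω = d.L ω' →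
    |((d.N ω' : ℝ) - d.N ω) - 2 ^ d.X * (d.hgt (d.L ω) (d.T ω') - d.hgt (d.L ω) (d.T ω))| ≤ 2 ^ A

/-- The first `i` digits of the time. -/
noncomputable def Ti (i : ℕ) (ω : d.Om) : ℤ := ⌊(2 : ℝ) ^ i * d.th (d.T ω)⌋

/-- (H1) `T` is nearly independent of the line given the context, the digits of the time are full, and the first
`j₀` digits have a deficit at most `ε₀`. -/
def H1 (ι : ℝ) (j₀ : ℕ) (ε₀ : ℝ) : Prop :=
  Pool.KVA.MI d.P d.T d.L (fun ω => d.B (d.L ω)) ≤ ι * d.X ∧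
  (1 - ι) * d.X * Real.log 2 ≤ CH d.P (d.Ti d.X) d.L ∧
  j₀ * Real.log 2 - ε₀ ≤ CH d.P (d.Ti j₀) d.L

/-- (H2) the height is nearly independent of the data of the line. -/
def H2 (ι : ℝ) : Prop := Pool.KVA.MI d.P d.N (fun ω => d.V (d.L ω)) d.T ≤ ι * d.X

/-- (H3) every position is full given its lower data. -/
def H3 (ι : ℝ) : Prop := ∀ j, (1 - ι) * d.X * Real.log 2 ≤
  CH d.P (fun ω => d.y (d.L ω) j) (fun ω => d.Z j (d.L ω))

/-- (H5) the blocks of rows of the height are not full on any large event. -/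
def H5 (c κ π₀ : ℝ) : Prop :=
  ∀ j : ℕ, (j + 1) * ⌊κ * d.X⌋₊ ≤ d.X → ∀ E : Set d.Om, π₀ ≤ Pr d.P E →
    CH (cond d.P (fun ω => ω ∈ E) True) (d.row ((j + 1) * ⌊κ * d.X⌋₊))
      (fun ω => (d.row (j * ⌊κ * d.X⌋₊) ω, d.T ω)) ≤ (1 - c) * ⌊κ * d.X⌋₊ * Real.log 2

/-- The nodes are separated. -/
def sep {D : ℕ} (k₀ : ℕ) (v : Fin (D + 1) → d.Om) : Prop :=
  ∀ i i', i ≠ i' → (2 : ℝ) ^ (-(k₀ : ℤ)) ≤ |d.th (d.T (v i)) - d.th (d.T (v i'))|

/-- The interpolation of the own slope at the nodes, at the time `t`. -/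
noncomputable def itp {D : ℕ} (v : Fin (D + 1) → d.Om) (j : Fin k) (t : ℝ) : ℝ :=
  (Lagrange.interpolate univ (fun i => d.th (d.T (v i))) (fun i => d.e (d.T (v i)) j)).eval t

/-- The bad tuples: the last sample does not have the own slope of the others. -/
def Bad (D k₀ : ℕ) (δ : ℝ) : Set (Fin (D + 2) → d.Om) :=
  {v | ¬ d.sep k₀ (Fin.init v) ∨ ∃ j, δ <
    |d.e (d.T (v (Fin.last (D + 1)))) j - d.itp (Fin.init v) j (d.th (d.T (v (Fin.last (D + 1)))))|}

end EDat

/-- **L1 level by level**: the own slope is a polynomial in the time (tuples of samples of one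
line, in the event `G`). -/
def L1LevStmt : Prop :=
  ∀ (k n m D A : ℕ) (c p₀ ε : ℝ), m + k * n ≤ D → 0 < c → 0 < p₀ → 0 < ε →
    ∃ (κ₂ κ π₀ ι ε₀ : ℝ) (k₀ j₀ X₀ : ℕ), 0 < κ₂ ∧ 0 < κ ∧ κ ≤ 1 ∧ 0 < π₀ ∧ 0 < ι ∧ 0 < ε₀ ∧
      ∀ (d : EDat k n m) (G : Set d.Om), d.OK G A (ι * d.X) → X₀ ≤ d.X → p₀ ≤ Pr d.P G →
        d.H1 ι j₀ ε₀ → d.H2 ι → d.H3 ι → d.H5 c κ π₀ →
        Pr (Pool.SLO.tup (cond d.P (fun ω => ω ∈ G) True) d.L (D + 1))
          (d.Bad D k₀ ((2 : ℝ) ^ (-(κ₂ * d.X)))) ≤ ε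

end Pool.LEV
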