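import Pool.Agent.H48.GEN.Top2
import Pool.Agent.H48.GEN.LevP
import Pool.Agent.H55.GEN.Ext

/-!
# L1 level by level: the data with the nodes of the last coordinate
-/

set_option autoImplicit false

namespace Pool.LEV

open Finset Real
open Pool.Agent.H49.Ent Pool.Agent.H32.Dense Pool.STK Pool.KAF Pool.M5 Pool.SLO
open Pool.KVA (MI)

/-- The coefficients, with zeros. -/
noncomputable def qe {m : ℕ} (D : ℕ) (q : Fin m → ℝ) (i : Fin D) : ℝ :=
  if h : i.val < m then q ⟨i, h⟩ else 0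

theorem sum_qe {m D : ℕ} (h : m ≤ D) (q : Fin m → ℝ) (t : ℝ) :
    ∑ i : Fin D, qe D q i * t ^ (i.val + 1) = ∑ i, q i * t ^ (i.val + 1) := by
  obtain ⟨r, rfl⟩ := Nat.exists_eq_add_of_le h
  rw [Fin.sum_univ_add]
  have h1 : ∑ i : Fin r, qe (m + r) q (Fin.natAdd m i) * t ^ ((Fin.natAdd m i).val + 1) = 0 := by
    refine Finset.sum_eq_zero fun i _ => ?_
    unfold qe
    rw [dif_neg (by simp), zero_mul]
  rw [h1, add_zero]
  refine Finset.sum_congr rfl fun i _ => ?_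
  unfold qe
  rw [dif_pos (show (Fin.castAdd r i).val < m from i.2)]
  rfl

theorem qe_le {m D : ℕ} {q : Fin m → ℝ} {M : ℝ} (hM : 0 ≤ M) (h : ∀ i, |q i| ≤ M) (i : Fin D) :
    |qe D q i| ≤ M := by
  unfold qe
  split_ifs
  · exact h _
  · rw [abs_zero]
    exact hM

namespace EDat

variable {k n m : ℕ} (d : EDat (k + 1) n m)

/-- The good tuples: the nodes are separated and the last coordinate of the own slope of the
last sample is the interpolation. -/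
def good (k₀ : ℕ) (δ : ℝ) : Set (Fin (m + 2) → d.Om) :=
  (BadN d.th d.T (fun t => d.e t (Fin.last k)) m k₀ δ)ᶜ

/-- The product of the interpolation and of the path of the last coordinate. -/
noncomputable def tp (l : d.Lam) (w : Fin (m + 1) → d.Tau) : Polynomial ℝ :=
  tprod (fun j => d.th (w j)) (fun j => d.e (w j) (Fin.last k)) (d.y l (Fin.last k) / 2 ^ d.X)
    (d.p l (Fin.last k))

open Classical in
/-- The new coefficients. -/
noncomputable def qx (k₀ : ℕ) (l : d.Lam) (w : Fin (m + 1) → d.Tau) (i : Fin (m + n)) : ℝ :=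
  qe (m + n) (d.q l) i -
    if ∀ j j', j ≠ j' → (2 : ℝ) ^ (-(k₀ : ℤ)) ≤ |d.th (w j) - d.th (w j')| then
      (d.tp l w).coeff (i.val + 1) else 0

/-- The data with the nodes of the last coordinate. -/
noncomputable def ext (k₀ X' R : ℕ) (δ : ℝ) : EDat k n (m + n) where
  Om := Fin (m + 2) → d.Om
  Lam := d.Lam × (Fin (m + 1) → d.Tau)
  Tau := d.Tau
  Nu := d.Nu × (Fin (m + 1) → d.Tau)
  Ze := d.Ze × (Fin (m + 1) → d.Tau)
  Be := d.Be
  P := cond (tup d.P d.L (m + 1)) (fun v => v ∈ d.good k₀ δ) True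
  L := Lx d.L d.T
  T := fun v => d.T (sm v)
  V := fun l => (d.V l.1, l.2)
  Z := fun j l => (d.Z j.castSucc l.1, l.2)
  B := fun l => d.B l.1
  y := fun l j => d.y l.1 j.castSucc / 2 ^ (d.X - X')
  p := fun l j => d.p l.1 j.castSucc
  q := fun l i => d.qx k₀ l.1 l.2 i / 2 ^ R
  N := fun v => d.N (sm v) / 2 ^ (d.X - X' + R)
  th := d.th
  s := fun t => d.s t / 2 ^ R
  e := fun t j => d.e t j.castSucc / 2 ^ R
  X := X'

variable {d}

theorem y_near {X' : ℕ} (hX' : X' ≤ d.X) (a : ℤ) :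
    |((a / 2 ^ (d.X - X') : ℤ) : ℝ) / 2 ^ X' - (a : ℝ) / 2 ^ d.X| ≤ 1 / 2 ^ X' := by
  have h1 := ediv_near a (d.X - X')
  have hX : (0 : ℝ) < 2 ^ X' := by positivity
  have h2 : (2 : ℝ) ^ d.X = 2 ^ (d.X - X') * 2 ^ X' := by
    rw [← pow_add]
    congr 1
    omega
  have h3 : ((a / 2 ^ (d.X - X') : ℤ) : ℝ) / 2 ^ X' - (a : ℝ) / 2 ^ d.X =
      (((a / 2 ^ (d.X - X') : ℤ) : ℝ) - (a : ℝ) / 2 ^ (d.X - X')) / 2 ^ X' := by
    rw [h2]
    field_simp
  rw [h3, abs_div, abs_of_pos hX]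
  exact div_le_div_of_nonneg_right h1 hX.le

theorem y_one {X' : ℕ} (hX' : X' ≤ d.X) {a : ℤ} (h : |(a : ℝ) / 2 ^ d.X| ≤ 1) :
    |((a / 2 ^ (d.X - X') : ℤ) : ℝ) / 2 ^ X'| ≤ 1 := by
  have hX : (0 : ℝ) < 2 ^ X' := by positivity
  have hX0 : (0 : ℝ) < 2 ^ d.X := by positivity
  have hz : (0 : ℤ) < 2 ^ (d.X - X') := by positivity
  have h2 : (2 : ℤ) ^ d.X = 2 ^ X' * 2 ^ (d.X - X') := by
    rw [← pow_add]
    congr 1
    omega
  rw [abs_div, abs_of_pos hX0, div_le_one hX0, abs_le] at h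
  have h3 : -(2 : ℤ) ^ d.X ≤ a := by exact_mod_cast h.1
  have h4 : a ≤ (2 : ℤ) ^ d.X := by exact_mod_cast h.2
  rw [abs_div, abs_of_pos hX, div_le_one hX, abs_le]
  constructor
  · have h5 : -(2 : ℤ) ^ X' ≤ a / 2 ^ (d.X - X') := by
      rw [Int.le_ediv_iff_mul_le hz]
      rw [h2] at h3
      linarith
    exact_mod_cast h5
  · have h5 : a / 2 ^ (d.X - X') ≤ (2 : ℤ) ^ X' := by
      refine Int.ediv_le_of_le_mul hz ?_
      rw [h2] at h4
      linarith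
    exact_mod_cast h5

/-- The new height. -/
theorem ext_hgt {A : ℕ} {c : ℝ} (h : d.OK Set.univ A c) {k₀ X' R : ℕ} {δ : ℝ}
    (hX' : X' ≤ d.X) (l : d.Lam) (w : Fin (m + 1) → d.Tau) (t : d.Tau)
    (hs : ∀ j j', j ≠ j' → (2 : ℝ) ^ (-(k₀ : ℤ)) ≤ |d.th (w j) - d.th (w j')|)
    (ht : |d.e t (Fin.last k) - (Lagrange.interpolate univ (fun j => d.th (w j))
      (fun j => d.e (w j) (Fin.last k))).eval (d.th t)| ≤ δ) :
    |2 ^ R * (d.ext k₀ X' R δ).hgt (l, w) t - (d.hgt l t + (d.tp l w).coeff 0)| ≤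
      δ * (1 + n * 2 ^ c) + k * (2 ^ c / 2 ^ X') := by
  have hR : (0 : ℝ) < 2 ^ R := by positivity
  have hinj : Function.Injective fun j => d.th (w j) := Pool.M5.L48.sep_injective hs
  have e1 : 2 ^ R * (d.ext k₀ X' R δ).hgt (l, w) t =
      ∑ i, d.qx k₀ l w i * d.th t ^ (i.val + 1) - d.s t -
        ∑ j : Fin k, d.e t j.castSucc *
          (((d.y l j.castSucc / 2 ^ (d.X - X') : ℤ) : ℝ) / 2 ^ X' +
            ∑ i, d.p l j.castSucc i * d.th t ^ (i.val + 1)) := by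
    show 2 ^ R * (∑ i : Fin (m + n), d.qx k₀ l w i / 2 ^ R * d.th t ^ (i.val + 1) -
      d.s t / 2 ^ R - ∑ j : Fin k, d.e t j.castSucc / 2 ^ R *
        (((d.y l j.castSucc / 2 ^ (d.X - X') : ℤ) : ℝ) / 2 ^ X' +
            ∑ i, d.p l j.castSucc i * d.th t ^ (i.val + 1))) = _
    rw [mul_sub, mul_sub, Finset.mul_sum, Finset.mul_sum]
    congr 1
    · congr 1
      · refine Finset.sum_congr rfl fun i _ => ?_
        field_simp
      · field_simp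
    · refine Finset.sum_congr rfl fun j _ => ?_
      field_simp
  have e2 : ∑ i, d.qx k₀ l w i * d.th t ^ (i.val + 1) =
      ∑ i, d.q l i * d.th t ^ (i.val + 1) -
        ((Lagrange.interpolate univ (fun j => d.th (w j))
          (fun j => d.e (w j) (Fin.last k))).eval (d.th t) * d.path l (Fin.last k) (d.th t) -
          (d.tp l w).coeff 0) := by
    have k1 : d.path l (Fin.last k) (d.th t) = (d.y l (Fin.last k) : ℝ) / 2 ^ d.X +
        ∑ i, d.p l (Fin.last k) i * d.th t ^ (i.val + 1) := rfl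
    have k2 := tprod_eval hinj (f := fun j => d.e (w j) (Fin.last k))
      ((d.y l (Fin.last k) : ℝ) / 2 ^ d.X) (d.p l (Fin.last k)) (d.th t)
    rw [← k1] at k2
    rw [k2, ← sum_qe (Nat.le_add_right m n)]
    have k3 : (tprod (fun j => d.th (w j)) (fun j => d.e (w j) (Fin.last k))
        ((d.y l (Fin.last k) : ℝ) / 2 ^ d.X) (d.p l (Fin.last k))) = d.tp l w := rfl
    rw [k3, add_sub_cancel_left, ← Finset.sum_sub_distrib]
    refine Finset.sum_congr rfl fun i _ => ?_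
    unfold qx
    rw [if_pos hs, sub_mul]
  have e3 : d.hgt l t = ∑ i, d.q l i * d.th t ^ (i.val + 1) - d.s t -
      (∑ j : Fin k, d.e t j.castSucc * d.path l j.castSucc (d.th t) +
        d.e t (Fin.last k) * d.path l (Fin.last k) (d.th t)) := by
    unfold hgt
    rw [Fin.sum_univ_castSucc]
  have hy := h.hy l
  have hp := h.hp l
  have he := h.he t
  have hth := h.hth t
  have hpath : |d.path l (Fin.last k) (d.th t)| ≤ 1 + n * 2 ^ c := by
    unfold path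
    refine (abs_add_le _ _).trans (add_le_add (hy _) ?_)
    refine (Finset.abs_sum_le_sum_abs _ _).trans ?_
    have k1 : ∀ i ∈ (univ : Finset (Fin n)),
        |d.p l (Fin.last k) i * d.th t ^ (i.val + 1)| ≤ 2 ^ c := by
      intro i _
      rw [abs_mul]
      have k2 : |d.th t ^ (i.val + 1)| ≤ 1 := by
        rw [abs_of_nonneg (pow_nonneg hth.1 _)]
        exact pow_le_one₀ hth.1 hth.2.le
      calc |d.p l (Fin.last k) i| * |d.th t ^ (i.val + 1)| ≤ 2 ^ c * 1 :=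
            mul_le_mul (hp _ _) k2 (abs_nonneg _) (by positivity)
        _ = 2 ^ c := mul_one _
    refine (Finset.sum_le_sum k1).trans (le_of_eq ?_)
    rw [Finset.sum_const, Finset.card_univ, Fintype.card_fin, nsmul_eq_mul]
  have e4 : ∑ j : Fin k, d.e t j.castSucc *
          (((d.y l j.castSucc / 2 ^ (d.X - X') : ℤ) : ℝ) / 2 ^ X' +
            ∑ i, d.p l j.castSucc i * d.th t ^ (i.val + 1)) =
      ∑ j : Fin k, d.e t j.castSucc * d.path l j.castSucc (d.th t) +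
      ∑ j : Fin k, d.e t j.castSucc * (((d.y l j.castSucc / 2 ^ (d.X - X') : ℤ) : ℝ) / 2 ^ X' -
        (d.y l j.castSucc : ℝ) / 2 ^ d.X) := by
    rw [← Finset.sum_add_distrib]
    refine Finset.sum_congr rfl fun j _ => ?_
    unfold path
    ring
  have e5 : |∑ j : Fin k, d.e t j.castSucc *
      (((d.y l j.castSucc / 2 ^ (d.X - X') : ℤ) : ℝ) / 2 ^ X' -
        (d.y l j.castSucc : ℝ) / 2 ^ d.X)| ≤ k * (2 ^ c / 2 ^ X') := by
    refine (Finset.abs_sum_le_sum_abs _ _).trans ?_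
    have k1 : ∀ j ∈ (univ : Finset (Fin k)), |d.e t j.castSucc *
        (((d.y l j.castSucc / 2 ^ (d.X - X') : ℤ) : ℝ) / 2 ^ X' -
        (d.y l j.castSucc : ℝ) / 2 ^ d.X)| ≤ 2 ^ c / 2 ^ X' := by
      intro j _
      rw [abs_mul, div_eq_mul_one_div ((2 : ℝ) ^ c)]
      exact mul_le_mul (he _) (y_near hX' _) (abs_nonneg _) (by positivity)
    refine (Finset.sum_le_sum k1).trans (le_of_eq ?_)
    rw [Finset.sum_const, Finset.card_univ, Fintype.card_fin, nsmul_eq_mul]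
  have hδ : 0 ≤ δ := (abs_nonneg _).trans ht
  rw [e1, e2, e3, e4]
  have e6 : |(d.e t (Fin.last k) - (Lagrange.interpolate univ (fun j => d.th (w j))
      (fun j => d.e (w j) (Fin.last k))).eval (d.th t)) * d.path l (Fin.last k) (d.th t)| ≤
      δ * (1 + n * 2 ^ c) := by
    rw [abs_mul]
    exact mul_le_mul ht hpath (abs_nonneg _) hδ
  have e7 := abs_sub ((d.e t (Fin.last k) - (Lagrange.interpolate univ (fun j => d.th (w j))
      (fun j => d.e (w j) (Fin.last k))).eval (d.th t)) * d.path l (Fin.last k) (d.th t))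
      (∑ j : Fin k, d.e t j.castSucc *
      (((d.y l j.castSucc / 2 ^ (d.X - X') : ℤ) : ℝ) / 2 ^ X' -
        (d.y l j.castSucc : ℝ) / 2 ^ d.X))
  refine le_trans (le_of_eq ?_) (e7.trans (add_le_add e6 e5))
  congr 1
  ring

/-- Positive mass. -/
theorem ext_pos {A : ℕ} {c : ℝ} (h : d.OK Set.univ A c) {k₀ X' R : ℕ} {δ : ℝ}
    {v : Fin (m + 2) → d.Om} (hv : 0 < (d.ext k₀ X' R δ).P v) :
    v ∈ d.good k₀ δ ∧ 0 < tup d.P d.L (m + 1) v := by
  have k1 := (cond_pos_iff (tup_nonneg h.law.nonneg d.L (m + 1)) (fun v => v ∈ d.good k₀ δ)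
    True v).1 hv
  exact ⟨of_eq_true k1.2, k1.1⟩

/-- The good tuples. -/
theorem good_iff {k₀ : ℕ} {δ : ℝ} {v : Fin (m + 2) → d.Om} (hv : v ∈ d.good k₀ δ) :
    (∀ j j', j ≠ j' → (2 : ℝ) ^ (-(k₀ : ℤ)) ≤ |d.th (Wn d.T v j) - d.th (Wn d.T v j')|) ∧
    |d.e (d.T (sm v)) (Fin.last k) - (Lagrange.interpolate univ (fun j => d.th (Wn d.T v j))
      (fun j => d.e (Wn d.T v j) (Fin.last k))).eval (d.th (d.T (sm v)))| ≤ δ := by
  have k1 : ¬ (¬ sepN d.th d.T k₀ (Fin.init v : Fin (m + 1) → d.Om) ∨ δ <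
    |d.e (d.T (v (Fin.last (m + 1)))) (Fin.last k) -
      itpN d.th d.T (fun t => d.e t (Fin.last k)) (Fin.init v : Fin (m + 1) → d.Om)
        (d.th (d.T (v (Fin.last (m + 1)))))|) := hv
  rw [not_or, not_not, not_lt] at k1
  exact k1

theorem ext_ok {A : ℕ} {c c' : ℝ} (h : d.OK Set.univ A c) (hc : 0 ≤ c) {k₀ X' R : ℕ} {δ : ℝ}
    (hX' : X' ≤ d.X) (hR : (2 : ℝ) ^ c ≤ 2 ^ R) (hδ : 2 ^ X' * δ ≤ 1) (hcc : c ≤ c')
    (hC : (1 + (n + 1) * (m + 1) * 2 ^ ((k₀ + 1) * m)) * (2 : ℝ) ^ c ≤ (2 : ℝ) ^ c')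
    (hG : 0 < Pr (tup d.P d.L (m + 1)) (d.good k₀ δ)) :
    (d.ext k₀ X' R δ).OK Set.univ (A + n + k + 3) c' := by
  have hp0 := h.law.nonneg
  have ht0 := tup_nonneg hp0 d.L (m + 1)
  have hR0 : (0 : ℝ) < 2 ^ R := by positivity
  have hc1 : (1 : ℝ) ≤ 2 ^ c := Real.one_le_rpow one_le_two hc
  have hcc' : (2 : ℝ) ^ c ≤ 2 ^ c' := Real.rpow_le_rpow_of_exponent_le one_le_two hcc
  have hcR : (2 : ℝ) ^ c / 2 ^ R ≤ 1 := (div_le_one hR0).2 hR
  have hc'1 : (1 : ℝ) ≤ 2 ^ c' := hc1.trans hcc'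
  have hpos : ∀ v : Fin (m + 2) → d.Om, 0 < (d.ext k₀ X' R δ).P v →
      (∀ j, 0 < d.P (v j) ∧ d.L (v j) = d.L (v 0)) ∧ v ∈ d.good k₀ δ := fun v hv =>
    ⟨fun j => tup_pos' hp0 d.L (ext_pos h hv).2 j, (ext_pos h hv).1⟩
  refine ⟨condG_law ht0 hG, fun l j => y_one hX' (h.hy l.1 _), fun l j i =>
    (h.hp l.1 _ _).trans hcc', ?_, ?_, h.hth, ?_, ?_, ?_, ?_, ?_, ?_, ?_⟩
  · -- coefficients
    intro l i
    show |d.qx k₀ l.1 l.2 i / 2 ^ R| ≤ _
    have k1 : |qe (m + n) (d.q l.1) i| ≤ 2 ^ c := qe_le (by positivity) (fun i => h.hq l.1 i) i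
    have k2 : |d.qx k₀ l.1 l.2 i| ≤
        2 ^ c + (n + 1) * ((m + 1) * 2 ^ ((k₀ + 1) * m) * 2 ^ c * 2 ^ c) := by
      unfold qx
      refine (abs_sub _ _).trans (add_le_add k1 ?_)
      split_ifs with hs
      · refine tprod_coeff (fun j => ?_) hs (fun j => h.he _ _) ((h.hy l.1 _).trans hc1)
          (fun i => h.hp l.1 _ i) _
        have := h.hth (l.2 j)
        rw [abs_of_nonneg this.1]
        exact this.2.le
      · rw [abs_zero]
        positivity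
    rw [abs_div, abs_of_pos hR0, div_le_iff₀ hR0]
    have k3 : (2 : ℝ) ^ c * ((1 + (n + 1) * (m + 1) * 2 ^ ((k₀ + 1) * m)) * (2 : ℝ) ^ c) ≤
        2 ^ R * 2 ^ c' := mul_le_mul hR hC (by positivity) hR0.le
    have k4 : (2 : ℝ) ^ c ≤ 2 ^ c * 2 ^ c := by nlinarith
    calc |d.qx k₀ l.1 l.2 i| ≤ _ := k2
      _ ≤ 2 ^ c * 2 ^ c + (n + 1) * ((m + 1) * 2 ^ ((k₀ + 1) * m) * 2 ^ c * 2 ^ c) := by linarith
      _ = (2 : ℝ) ^ c * ((1 + (n + 1) * (m + 1) * 2 ^ ((k₀ + 1) * m)) * (2 : ℝ) ^ c) := by ring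
      _ ≤ _ := k3
      _ = _ := mul_comm _ _
  · intro t j
    show |d.e t j.castSucc / 2 ^ R| ≤ _
    rw [abs_div, abs_of_pos hR0]
    refine le_trans (div_le_div_of_nonneg_right (h.he _ _) hR0.le) (hcR.trans hc'1)
  · -- the height
    intro v v' hv hv' hl
    obtain ⟨a1, -⟩ := hpos v hv
    obtain ⟨b1, -⟩ := hpos v' hv'
    have k1 : d.L (v 0) = d.L (v' 0) := (Prod.ext_iff.1 (Prod.ext_iff.1 hl).1).1
    have k2 : d.T (sm v) = d.T (sm v') := (Prod.ext_iff.1 hl).2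
    have k3 := h.hN (sm v) (sm v') (a1 _).1 (b1 _).1
      (Prod.ext (((a1 _).2.trans k1).trans (b1 _).2.symm) k2)
    show d.N (sm v) / 2 ^ (d.X - X' + R) = d.N (sm v') / 2 ^ (d.X - X' + R)
    rw [k3]
  · -- the data of the line
    intro v v' hv hv' hl
    obtain ⟨a1, -⟩ := hpos v hv
    obtain ⟨b1, -⟩ := hpos v' hv'
    have k1 : d.V (d.L (v 0)) = d.V (d.L (v' 0)) := (Prod.ext_iff.1 hl).1
    have k2 : Wn d.T v = Wn d.T v' := (Prod.ext_iff.1 hl).2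
    have k3 := h.hV (v 0) (v' 0) (a1 _).1 (b1 _).1 k1
    simp only [Prod.mk.injEq] at k3
    obtain ⟨e1, e2, e3, e4⟩ := k3
    have e5 : ∀ j, d.Z j (d.L (v 0)) = d.Z j (d.L (v' 0)) := fun j => congrFun e4 j
    have e6 : d.qx k₀ (d.L (v 0)) (Wn d.T v) = d.qx k₀ (d.L (v' 0)) (Wn d.T v') := by
      funext i
      unfold qx tp
      rw [e1, e2, e3, k2]
    show ((fun j : Fin k => d.y (d.L (v 0)) j.castSucc / 2 ^ (d.X - X')),
      (fun j : Fin k => d.p (d.L (v 0)) j.castSucc),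
      (fun i => d.qx k₀ (d.L (v 0)) (Wn d.T v) i / 2 ^ R),
      (fun j : Fin k => (d.Z j.castSucc (d.L (v 0)), Wn d.T v))) =
      ((fun j : Fin k => d.y (d.L (v' 0)) j.castSucc / 2 ^ (d.X - X')),
      (fun j : Fin k => d.p (d.L (v' 0)) j.castSucc),
      (fun i => d.qx k₀ (d.L (v' 0)) (Wn d.T v') i / 2 ^ R),
      (fun j : Fin k => (d.Z j.castSucc (d.L (v' 0)), Wn d.T v')))
    rw [e1, e2, e6, k2]
    simp only [e5]
  · intro j v v' hv hv' hl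
    obtain ⟨a1, -⟩ := hpos v hv
    obtain ⟨b1, -⟩ := hpos v' hv'
    have k1 : d.Z j.castSucc (d.L (v 0)) = d.Z j.castSucc (d.L (v' 0)) := (Prod.ext_iff.1 hl).1
    exact h.hZ j.castSucc (v 0) (v' 0) (a1 _).1 (b1 _).1 k1
  · intro j j' hj v v' hv hv' hl
    obtain ⟨a1, -⟩ := hpos v hv
    obtain ⟨b1, -⟩ := hpos v' hv'
    have k1 : d.Z j.castSucc (d.L (v 0)) = d.Z j.castSucc (d.L (v' 0)) := (Prod.ext_iff.1 hl).1
    have k2 := h.hZ' j.castSucc j'.castSucc (by simpa using hj) (v 0) (v' 0) (a1 _).1 (b1 _).1 k1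
    simp only [Prod.mk.injEq] at k2
    show (d.y (d.L (v 0)) j'.castSucc / 2 ^ (d.X - X'), d.p (d.L (v 0)) j'.castSucc) =
      (d.y (d.L (v' 0)) j'.castSucc / 2 ^ (d.X - X'), d.p (d.L (v' 0)) j'.castSucc)
    rw [k2.1, k2.2]
  · intro j v v' hv hv' hl
    obtain ⟨a1, -⟩ := hpos v hv
    obtain ⟨b1, -⟩ := hpos v' hv'
    have k1 : d.Z j.castSucc (d.L (v 0)) = d.Z j.castSucc (d.L (v' 0)) := (Prod.ext_iff.1 hl).1
    exact h.hZB j.castSucc (v 0) (v' 0) (a1 _).1 (b1 _).1 k1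
  · intro v v' hv hv' hl
    obtain ⟨a1, -⟩ := hpos v hv
    obtain ⟨b1, -⟩ := hpos v' hv'
    have k1 := h.hTB (sm v) (sm v') (a1 _).1 (b1 _).1 hl
    show d.B (d.L (v 0)) = d.B (d.L (v' 0))
    have k2 : d.L (sm v) = d.L (v 0) := (a1 _).2
    have k3 : d.L (sm v') = d.L (v' 0) := (b1 _).2
    rw [← k2, ← k3]
    exact k1
  · -- the height is near
    intro v _ v' _ hv hv' hl
    obtain ⟨a1, a2⟩ := hpos v hv
    obtain ⟨b1, b2⟩ := hpos v' hv'
    have k1 : d.L (v 0) = d.L (v' 0) := (Prod.ext_iff.1 hl).1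
    have k2 : Wn d.T v = Wn d.T v' := (Prod.ext_iff.1 hl).2
    obtain ⟨g1, g2⟩ := good_iff a2
    obtain ⟨g3, g4⟩ := good_iff b2
    have l1 : d.L (sm v) = d.L (v 0) := (a1 _).2
    have l2 : d.L (sm v') = d.L (v 0) := (b1 _).2.trans k1.symm
    have m1 := ext_hgt h (R := R) hX' (d.L (v 0)) (Wn d.T v) (d.T (sm v)) g1 g2
    rw [← k2] at g3 g4
    have m2 := ext_hgt h (R := R) hX' (d.L (v 0)) (Wn d.T v) (d.T (sm v')) g3 g4
    have m3 := h.hh (sm v) (Set.mem_univ _) (sm v') (Set.mem_univ _) (a1 _).1 (b1 _).1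
      (l1.trans l2.symm)
    rw [l1] at m3
    have m4 := ediv_near (d.N (sm v)) (d.X - X' + R)
    have m5 := ediv_near (d.N (sm v')) (d.X - X' + R)
    show |(((d.N (sm v') / 2 ^ (d.X - X' + R) : ℤ) : ℝ) -
        ((d.N (sm v) / 2 ^ (d.X - X' + R) : ℤ) : ℝ)) -
      2 ^ X' * ((d.ext k₀ X' R δ).hgt (d.L (v 0), Wn d.T v) (d.T (sm v')) -
        (d.ext k₀ X' R δ).hgt (d.L (v 0), Wn d.T v) (d.T (sm v)))| ≤ 2 ^ (A + n + k + 3)
    obtain ⟨u, hu⟩ : ∃ u : ℝ, u = (d.ext k₀ X' R δ).hgt (d.L (v 0), Wn d.T v) (d.T (sm v)) :=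
      ⟨_, rfl⟩
    obtain ⟨u', hu'⟩ : ∃ u : ℝ, u = (d.ext k₀ X' R δ).hgt (d.L (v 0), Wn d.T v) (d.T (sm v')) :=
      ⟨_, rfl⟩
    obtain ⟨K, hK⟩ : ∃ K : ℝ, K = (d.tp (d.L (v 0)) (Wn d.T v)).coeff 0 := ⟨_, rfl⟩
    obtain ⟨a, ha⟩ : ∃ a : ℝ, a = d.hgt (d.L (v 0)) (d.T (sm v)) := ⟨_, rfl⟩
    obtain ⟨a', ha'⟩ : ∃ a : ℝ, a = d.hgt (d.L (v 0)) (d.T (sm v')) := ⟨_, rfl⟩
    rw [← hu, ← ha, ← hK] at m1
    rw [← hu', ← ha', ← hK] at m2
    rw [← ha, ← ha'] at m3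
    rw [← hu, ← hu']
    obtain ⟨E, hE⟩ : ∃ E : ℝ, E = δ * (1 + n * 2 ^ c) + k * (2 ^ c / 2 ^ X') := ⟨_, rfl⟩
    rw [← hE] at m1 m2
    have hX0 : (0 : ℝ) < 2 ^ X' := by positivity
    have hδ0 : 0 ≤ δ := (abs_nonneg _).trans g2
    -- the error
    have n1 : 2 ^ X' / 2 ^ R * E ≤ 1 + n + k := by
      have i1 : 2 ^ X' / 2 ^ R * E = 2 ^ X' * δ * ((1 + n * 2 ^ c) / 2 ^ R) +
          k * (2 ^ c / 2 ^ R) := by
        rw [hE]
        field_simp
      have i2 : (1 + n * (2 : ℝ) ^ c) / 2 ^ R ≤ 1 + n := by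
        rw [div_le_iff₀ hR0]
        have : (1 : ℝ) ≤ 2 ^ R := one_le_pow₀ one_le_two
        have hn : (0 : ℝ) ≤ n := Nat.cast_nonneg _
        nlinarith [mul_le_mul_of_nonneg_left hR hn]
      have i3 : 0 ≤ (1 + n * (2 : ℝ) ^ c) / 2 ^ R := by positivity
      have i4 : 2 ^ X' * δ * ((1 + n * (2 : ℝ) ^ c) / 2 ^ R) ≤ 1 * (1 + n) :=
        mul_le_mul hδ i2 i3 zero_le_one
      have i5 : k * ((2 : ℝ) ^ c / 2 ^ R) ≤ k * 1 :=
        mul_le_mul_of_nonneg_left hcR (Nat.cast_nonneg _)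
      rw [i1]
      linarith
    have hXX : (2 : ℝ) ^ (d.X - X' + R) * (2 ^ X' / 2 ^ R) = 2 ^ d.X := by
      rw [pow_add, mul_assoc, mul_div_cancel₀ _ hR0.ne', ← pow_add]
      congr 1
      omega
    have hF : (0 : ℝ) < 2 ^ (d.X - X' + R) := by positivity
    have n2 : |2 ^ X' * (u' - u) - 2 ^ X' / 2 ^ R * (a' - a)| ≤ 2 * (1 + n + k) := by
      have i1 : 2 ^ X' * (u' - u) - 2 ^ X' / 2 ^ R * (a' - a) =
          2 ^ X' / 2 ^ R * ((2 ^ R * u' - (a' + K)) - (2 ^ R * u - (a + K))) := by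
        field_simp
        ring
      rw [i1, abs_mul, abs_of_pos (show (0 : ℝ) < 2 ^ X' / 2 ^ R by positivity)]
      have i2 := (abs_sub (2 ^ R * u' - (a' + K)) (2 ^ R * u - (a + K))).trans
        (add_le_add m2 m1)
      have i3 := mul_le_mul_of_nonneg_left i2 (show (0 : ℝ) ≤ 2 ^ X' / 2 ^ R by positivity)
      linarith
    have n3 : |((d.N (sm v') : ℝ) - d.N (sm v)) / 2 ^ (d.X - X' + R) -
        2 ^ X' / 2 ^ R * (a' - a)| ≤ 2 ^ A := by
      have i1 : ((d.N (sm v') : ℝ) - d.N (sm v)) / 2 ^ (d.X - X' + R) -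
        2 ^ X' / 2 ^ R * (a' - a) = (((d.N (sm v') : ℝ) - d.N (sm v)) -
          2 ^ d.X * (a' - a)) / 2 ^ (d.X - X' + R) := by
        rw [← hXX]
        field_simp
      rw [i1, abs_div, abs_of_pos hF, div_le_iff₀ hF]
      have i2 : (1 : ℝ) ≤ 2 ^ (d.X - X' + R) := one_le_pow₀ one_le_two
      have i3 : (0 : ℝ) < 2 ^ A := by positivity
      nlinarith
    have n4 : (2 : ℝ) ^ A + 2 + 2 * (1 + n + k) ≤ 2 ^ (A + n + k + 3) := by
      have i1 : (1 : ℝ) ≤ 2 ^ A := one_le_pow₀ one_le_two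
      have i2 : (1 : ℝ) + (n + k) ≤ 2 ^ (n + k) := by
        have := one_add_mul_le_pow (show (-2 : ℝ) ≤ 1 by norm_num) (n + k)
        push_cast at this
        norm_num at this
        linarith
      have i3 : (2 : ℝ) ^ (A + n + k + 3) = 8 * (2 ^ A * 2 ^ (n + k)) := by
        rw [← pow_add]
        rw [show A + n + k + 3 = A + (n + k) + 3 by ring, pow_add _ _ 3]
        ring
      have i4 : (1 : ℝ) * 2 ^ (n + k) ≤ 2 ^ A * 2 ^ (n + k) :=
        mul_le_mul_of_nonneg_right i1 (by positivity)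
      have i5 : (2 : ℝ) ^ A * 1 ≤ 2 ^ A * 2 ^ (n + k) :=
        mul_le_mul_of_nonneg_left (one_le_pow₀ one_le_two) (by positivity)
      rw [i3]
      linarith
    have n5 := abs_le.1 n2
    have n6 := abs_le.1 n3
    have n7 := abs_le.1 m4
    have n8 := abs_le.1 m5
    have n9 : ((d.N (sm v') : ℝ) - d.N (sm v)) / 2 ^ (d.X - X' + R) =
        (d.N (sm v') : ℝ) / 2 ^ (d.X - X' + R) - (d.N (sm v) : ℝ) / 2 ^ (d.X - X' + R) :=
      sub_div _ _ _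
    rw [n9] at n6
    rw [abs_le]
    constructor <;> linarith [n5.1, n5.2, n6.1, n6.2, n7.1, n7.2, n8.1, n8.2]

end EDat

end Pool.LEV
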