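import Pool.Agent.H48.GEN.ShT
import Pool.Agent.H48.GEN.LevI

/-!
# L1 level by level, sheets: the top coordinate, back from the nodes
-/

set_option autoImplicit false

namespace Pool.LSH

open Finset Real
open Pool.Agent.H49.Ent Pool.Agent.H32.Dense Pool.STK Pool.KAF Pool.SLO Pool.LEV
open Pool.KVA (MI)
open Pool.LBL

/-- The statement for laws without event, with weights. -/
def ShW (k : ℕ) : Prop :=
  ∀ (n m K D : ℕ) (c ε : ℝ) (kk : ℕ → ℕ), m + k * (K * n * n) ≤ D → 0 < c → c ≤ 1 → 0 < ε →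
    ∃ (κ₂ κ π₀ ι : ℝ) (i₁ k₀ X₀ : ℕ), 0 < κ₂ ∧ κ₂ ≤ 1 ∧ 0 < κ ∧ κ ≤ 1 ∧ 0 < π₀ ∧ 0 < ι ∧
      ∀ d : SDat k n m K, d.OK Set.univ (ι * d.X) → X₀ ≤ d.X → d.H1a ι → d.TCp kk i₁ → d.H2 ι →
        d.H3 ι → d.H5w c κ π₀ →
        Pr (tup d.P d.L (D + 1)) (d.Bad D k₀ ((2 : ℝ) ^ (-(κ₂ * d.X)))) ≤ ε

theorem sh0 : ShW 0 := by
  intro n m K D c ε kk _ _ _ hε
  obtain ⟨i, hi⟩ := exists_pow_lt_of_lt_one (show (0 : ℝ) < ε / (D + 1) ^ 2 by positivity)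
    (by norm_num : (1 / 2 : ℝ) < 1)
  refine ⟨1, 1, 1, 1, i, kk i, 0, one_pos, le_rfl, one_pos, le_rfl, one_pos, one_pos, ?_⟩
  intro d hok _ _ hT _ _ _
  have hp0 := hok.law.nonneg
  have h1 := sep_bad hp0 d.L d.T d.th D (kk i)
  have h2 := hT i le_rfl
  have hval : ∀ l t, d.val l t = 0 := by
    intro l t
    unfold SDat.val
    have : d.x l (d.th t) = 0 := Subsingleton.elim _ _
    rw [this, sub_self]
  refine le_trans (Pool.KAF.Pr_mono (tup_nonneg hp0 d.L (D + 1)) fun v _ hv => ?_)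
    (h1.trans ?_)
  · rcases hv with h | h
    · exact h
    · exfalso
      unfold SDat.itp at h
      simp only [hval] at h
      have e0 : (fun _ : Fin (D + 1) => (0 : ℝ)) = 0 := rfl
      rw [e0, map_zero, Polynomial.eval_zero, sub_zero, abs_zero] at h
      have : (0 : ℝ) < (2 : ℝ) ^ (-(1 * (d.X : ℝ))) := by positivity
      linarith
  · have h3 : (0 : ℝ) < (D + 1) ^ 2 := by positivity
    rw [lt_div_iff₀ h3] at hi
    have h4 := mul_le_mul_of_nonneg_left h2 h3.le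
    linarith

/-- Powers of the bound of the coefficients. -/
theorem pow_bd {C W : ℝ} {e L0 : ℕ} {x y : ℝ} (hW : W = (2 : ℝ) ^ x) (hC : C ≤ 2 ^ L0)
    (h : L0 + e * x ≤ y) : C * W ^ e ≤ (2 : ℝ) ^ y := by
  have hW0 : 0 ≤ W ^ e := by
    rw [hW]
    positivity
  calc C * W ^ e ≤ 2 ^ L0 * W ^ e := mul_le_mul_of_nonneg_right hC hW0
    _ = (2 : ℝ) ^ ((L0 : ℝ) + e * x) := by
      rw [hW, Real.rpow_add two_pos, Real.rpow_natCast, ← Real.rpow_natCast ((2 : ℝ) ^ x) e,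
        ← Real.rpow_mul two_pos.le, mul_comm x]
    _ ≤ _ := Real.rpow_le_rpow_of_exponent_le one_le_two h

namespace SDat

variable {k n m K : ℕ} {d : SDat k n m K}

theorem OK.mono {G : Set d.Om} {c c' : ℝ} (h : d.OK G c) (hc : c ≤ c') : d.OK G c' := by
  have h1 : (2 : ℝ) ^ c ≤ 2 ^ c' := Real.rpow_le_rpow_of_exponent_le one_le_two hc
  have h2 : (2 : ℝ) ^ (c - (d.X : ℝ)) ≤ 2 ^ (c' - (d.X : ℝ)) :=
    Real.rpow_le_rpow_of_exponent_le one_le_two (by linarith)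
  exact { h with
    hFc := fun t α => (h.hFc t α).trans h1
    hq := fun ω a b i => (h.hq ω a b i).trans h1
    hx := fun ω a b i => (h.hx ω a b i).trans h1
    hs := fun ω a b j i x y => (h.hs ω a b j i x y).trans h1
    cc := fun ω a b j i x => (h.cc ω a b j i x).trans h2
    hh := fun ω a ω' a' b b' e => (h.hh ω a ω' a' b b' e).trans h1 }

theorem H1a.mono {ι ι' : ℝ} (h : d.H1a ι) (hι : ι ≤ ι') : d.H1a ι' := by
  have hX : (0 : ℝ) ≤ d.X := Nat.cast_nonneg _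
  have hl2 : 0 ≤ Real.log 2 := Real.log_nonneg one_le_two
  refine ⟨h.1.trans (mul_le_mul_of_nonneg_right hι hX), le_trans ?_ h.2⟩
  refine mul_le_mul_of_nonneg_right ?_ hl2
  exact mul_le_mul_of_nonneg_right (by linarith) hX

theorem TCp.mono {kk : ℕ → ℕ} {i₁ i₂ : ℕ} (h : d.TCp kk i₁) (hi : i₂ ≤ i₁) : d.TCp kk i₂ :=
  fun i hi' => h i (hi'.trans hi)

theorem H2.mono {ι ι' : ℝ} (h : d.H2 ι) (hι : ι ≤ ι') : d.H2 ι' :=
  le_trans h (mul_le_mul_of_nonneg_right hι (Nat.cast_nonneg _))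

theorem H3.mono {ι ι' : ℝ} (h : d.H3 ι) (hι : ι ≤ ι') : d.H3 ι' := by
  intro j
  have hX : (0 : ℝ) ≤ d.X := Nat.cast_nonneg _
  have hl2 : 0 ≤ Real.log 2 := Real.log_nonneg one_le_two
  refine le_trans ?_ (h j)
  refine mul_le_mul_of_nonneg_right ?_ hl2
  exact mul_le_mul_of_nonneg_right (by linarith) hX

theorem H5w.mono {c κ κ' π₀ π₁ : ℝ} (h : d.H5w c κ π₀) (hκ : κ ≤ κ') (hπ : π₀ ≤ π₁) :
    d.H5w c κ' π₁ :=
  fun W hW hWπ r₁ r₂ a b e => h W hW (hπ.trans hWπ) r₁ r₂ a b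
    ((mul_le_mul_of_nonneg_right hκ (Nat.cast_nonneg _)).trans e)

end SDat

open Classical in
/-- **The top coordinate.** -/
theorem top_sh (k n m K : ℕ) (c ε : ℝ) (kk : ℕ → ℕ) (hc : 0 < c) (hc1 : c ≤ 1) (hε : 0 < ε) :
    ∃ (κ₂ κ π₀ ι : ℝ) (i₁ k₀ X₀ : ℕ), 0 < κ₂ ∧ κ₂ ≤ 1 ∧ 0 < κ ∧ κ ≤ 1 ∧ 0 < π₀ ∧ 0 < ι ∧
      ∀ d : SDat (k + 1) n m K, d.OK Set.univ (ι * d.X) → X₀ ≤ d.X → d.H1a ι → d.TCp kk i₁ →
        d.H2 ι → d.H3 ι → d.H5w c κ π₀ →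
        Pr (tup d.P d.L (m + 1)) (BadZ d.th d.T d.Zl d.Ec (K * n) m k₀
          ((2 : ℝ) ^ (-(κ₂ * d.X)))) ≤ ε := by
  obtain ⟨κ₂, κ, π₀, ιt, i₁, k₀, X₀, h1, h2, h3, h4, h5, h6, hmain⟩ :=
    top_all m (K * n) c ε kk hc hc1 hε
  obtain ⟨C, hC1, hC⟩ := bA_le (k + 1) n m K 0
  obtain ⟨L0, hL0⟩ : ∃ L0 : ℕ, C ≤ 2 ^ L0 :=
    pow_unbounded_of_one_lt _ one_lt_two |>.imp fun _ h => h.le
  obtain ⟨e, he⟩ : ∃ e : ℕ, e = K + K * n + n + 3 := ⟨_, rfl⟩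
  rw [← he] at hC
  have he1 : (1 : ℝ) ≤ e := by
    rw [he]
    push_cast
    have : (0 : ℝ) ≤ K + K * n + n := by positivity
    linarith
  obtain ⟨X₁, hX₁⟩ := exists_nat_ge (2 * L0 / ιt)
  refine ⟨κ₂, κ, π₀, ιt / (2 * e), i₁, k₀, max X₀ X₁, h1, h2, h3, h4, h5, by positivity, ?_⟩
  intro d h hX hH1 hT hH2 hH3 hH5
  have hXX0 : X₀ ≤ d.X := (le_max_left _ _).trans hX
  have hXX1 : 2 * L0 / ιt ≤ (d.X : ℝ) := hX₁.trans (by exact_mod_cast (le_max_right _ _).trans hX)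
  rw [div_le_iff₀ h6] at hXX1
  have hX0 : (0 : ℝ) ≤ d.X := Nat.cast_nonneg _
  have hιι : ιt / (2 * e) ≤ ιt := by
    rw [div_le_iff₀ (by positivity)]
    nlinarith
  have hc0 : 0 ≤ ιt / (2 * e) * d.X := by positivity
  obtain ⟨W, hW⟩ : ∃ W : ℝ, W = (2 : ℝ) ^ (ιt / (2 * e) * d.X) := ⟨_, rfl⟩
  have hW1 : 1 ≤ W := by
    rw [hW]
    exact Real.one_le_rpow one_le_two hc0
  have hW0 : 0 ≤ W := by linarith
  have hbd : bA (k + 1) n m K 0 W ≤ (2 : ℝ) ^ (ιt * d.X) := by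
    refine (hC W hW1).trans (pow_bd hW hL0 ?_)
    have e1 : (e : ℝ) * (ιt / (2 * e) * d.X) = ιt * d.X / 2 := by
      field_simp
    rw [e1]
    linarith
  obtain ⟨p1, p2, p3, p4, p5, p6, -⟩ := bA_parts (k + 1) n m K 0 hW0
  have hA : bA (k + 1) n m K 0 W = bE (k + 1) n K W + 2 * (e1 (k + 1) n K W + e2 n K W) +
    bQ (k + 1) n m K 0 W + bF n W + bC n W + W + 2 := rfl
  rw [hA] at hbd
  have hXd : (0 : ℝ) < 2 ^ d.X := by positivity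
  -- the truncated data
  obtain ⟨yt, hyt⟩ : ∃ yt : d.Lam → ℤ, yt = fun l =>
      if |(d.y l (Fin.last k) : ℝ) / 2 ^ d.X| ≤ 1 then d.y l (Fin.last k) else 0 := ⟨_, rfl⟩
  obtain ⟨qt, hqt⟩ : ∃ qt : d.Lam → Fin m → ℝ, qt = fun l i =>
      if ∀ i, |d.q l i| ≤ (2 : ℝ) ^ (ιt * d.X) then d.q l i else 0 := ⟨_, rfl⟩
  have hyt1 : ∀ ω, 0 < d.P ω → yt (d.L ω) = d.y (d.L ω) (Fin.last k) := by
    intro ω hω
    rw [hyt]
    exact if_pos (h.hy ω hω _)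
  have hqt1 : ∀ ω, 0 < d.P ω → qt (d.L ω) = d.q (d.L ω) := by
    intro ω hω
    rw [hqt]
    funext i
    refine if_pos fun i => (h.hq ω (Set.mem_univ _) hω i).trans ?_
    rw [← hW]
    linarith
  have hgm1 : ∀ ω, 0 < d.P ω → ∀ t, hgm (K * n) yt qt d.th (d.Ec (d.Zl ω))
      (fun t => d.s t + d.Ec (d.Zl ω) t 0) d.X (d.L ω) t =
      ∑ i, d.q (d.L ω) i * d.th t ^ (i.val + 1) - d.s t -
        (d.Ep (d.Zl ω) t).eval ((d.y (d.L ω) (Fin.last k) : ℝ) / 2 ^ d.X) := by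
    intro ω hω t
    unfold hgm
    rw [hyt1 ω hω, hqt1 ω hω, SDat.Ep_sum h]
    ring
  have hgd : ∀ ω, 0 < d.P ω → |hgm (K * n) yt qt d.th (d.Ec (d.Zl ω))
      (fun t => d.s t + d.Ec (d.Zl ω) t 0) d.X (d.L ω) (d.T ω) - d.hgt (d.L ω) (d.T ω)| ≤
        e1 (k + 1) n K W / 2 ^ d.X := by
    intro ω hω
    rw [hgm1 ω hω]
    have k1 := SDat.F_near h hc0 (Set.mem_univ ω) hω
    rw [← hW] at k1
    refine le_trans (le_of_eq ?_) k1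
    unfold SDat.hgt
    congr 1
    ring
  refine hmain d.Om d.Lam d.Tau d.Nu d.Ze d.Be d.P d.L d.T (fun ω => d.V (d.L ω))
    d.Zl (fun ω => d.B (d.L ω)) yt qt d.N d.th d.Ec (fun z t => d.s t + d.Ec z t 0) d.X h.law
    hXX0 ?_ ?_ ?_ h.hth h.hN ?_ (h.hZB _) ?_ ?_ (hH1.mono hιι).1 (hH1.mono hιι).2 hT
    (hH2.mono hιι) ?_ hH5
  · intro l
    rw [hyt]
    show |((if |(d.y l (Fin.last k) : ℝ) / 2 ^ d.X| ≤ 1 then d.y l (Fin.last k) else 0 : ℤ) : ℝ) /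
      2 ^ d.X| ≤ 1
    split_ifs with h0
    · exact h0
    · simp
  · intro l i
    rw [hqt]
    show |if ∀ i, |d.q l i| ≤ (2 : ℝ) ^ (ιt * d.X) then d.q l i else 0| ≤ _
    split_ifs with h0
    · exact h0 i
    · rw [abs_zero]
      positivity
  · intro ω hω t a
    refine (SDat.Ec_le h hc0 (Set.mem_univ _) hω t a).trans ?_
    rw [← hW]
    linarith
  · intro ω ω' _ _ hl
    show d.Z (Fin.last k) (d.L ω) = d.Z (Fin.last k) (d.L ω')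
    rw [hl]
  · intro ω ω' a a' hl
    have k1 := h.hV ω ω' a a' hl
    simp only [Prod.mk.injEq] at k1 ⊢
    obtain ⟨e1, e3, e4⟩ := k1
    refine ⟨?_, ?_, congrFun e4 _⟩
    · rw [hyt1 ω a, hyt1 ω' a', e1]
    · rw [hqt1 ω a, hqt1 ω' a', e3]
  · intro ω ω' a a' hl
    have k1 := hgd ω a
    have k2 := hgd ω' a'
    have k3 := h.hh ω (Set.mem_univ _) ω' (Set.mem_univ _) a a' hl
    rw [← hW] at k3
    have e0 : d.Zl ω' = d.Zl ω := by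
      show d.Z (Fin.last k) (d.L ω') = d.Z (Fin.last k) (d.L ω)
      rw [hl]
    rw [e0, ← hl] at k2
    obtain ⟨u, hu⟩ : ∃ u : ℝ, u = Pool.LSH.hgm (K * n) yt qt d.th (d.Ec (d.Zl ω))
      (fun t => d.s t + d.Ec (d.Zl ω) t 0) d.X (d.L ω) (d.T ω) := ⟨_, rfl⟩
    obtain ⟨u', hu'⟩ : ∃ u : ℝ, u = Pool.LSH.hgm (K * n) yt qt d.th (d.Ec (d.Zl ω))
      (fun t => d.s t + d.Ec (d.Zl ω) t 0) d.X (d.L ω) (d.T ω') := ⟨_, rfl⟩
    rw [← hu] at k1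
    rw [← hu'] at k2
    show |((d.N ω' : ℝ) - d.N ω) - 2 ^ d.X * (Pool.LSH.hgm (K * n) yt qt d.th (d.Ec (d.Zl ω))
      (fun t => d.s t + d.Ec (d.Zl ω) t 0) d.X (d.L ω) (d.T ω') -
      Pool.LSH.hgm (K * n) yt qt d.th (d.Ec (d.Zl ω))
      (fun t => d.s t + d.Ec (d.Zl ω) t 0) d.X (d.L ω) (d.T ω))| ≤ _
    rw [← hu, ← hu']
    have k4 : |2 ^ d.X * (u' - d.hgt (d.L ω) (d.T ω')) -
        2 ^ d.X * (u - d.hgt (d.L ω) (d.T ω))| ≤ 2 * e1 (k + 1) n K W := by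
      rw [← mul_sub, abs_mul, abs_of_pos hXd]
      have k5 := (abs_sub (u' - d.hgt (d.L ω) (d.T ω')) (u - d.hgt (d.L ω) (d.T ω))).trans
        (add_le_add k2 k1)
      have k6 := mul_le_mul_of_nonneg_left k5 hXd.le
      refine k6.trans (le_of_eq ?_)
      field_simp
      ring
    have e7 : ((d.N ω' : ℝ) - d.N ω) - 2 ^ d.X * (u' - u) =
        (((d.N ω' : ℝ) - d.N ω) - 2 ^ d.X * (d.hgt (d.L ω) (d.T ω') -
          d.hgt (d.L ω) (d.T ω))) - (2 ^ d.X * (u' - d.hgt (d.L ω) (d.T ω')) -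
        2 ^ d.X * (u - d.hgt (d.L ω) (d.T ω))) := by ring
    rw [e7]
    have k8 := (abs_sub (((d.N ω' : ℝ) - d.N ω) - 2 ^ d.X * (d.hgt (d.L ω) (d.T ω') -
          d.hgt (d.L ω) (d.T ω))) (2 ^ d.X * (u' - d.hgt (d.L ω) (d.T ω')) -
        2 ^ d.X * (u - d.hgt (d.L ω) (d.T ω)))).trans (add_le_add k3 k4)
    linarith
  · have k1 := (hH3.mono hιι) (Fin.last k)
    have k2 : CH d.P (fun ω => yt (d.L ω)) d.Zl =
        CH d.P (fun ω => d.y (d.L ω) (Fin.last k)) (fun ω => d.Z (Fin.last k) (d.L ω)) := by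
      refine CH_congr h.law.nonneg ?_ ?_ (fun _ _ _ _ hl => hl) (fun _ _ _ _ hl => hl)
      · intro ω ω' a a' hl
        show d.y (d.L ω) (Fin.last k) = d.y (d.L ω') (Fin.last k)
        rw [← hyt1 ω a, ← hyt1 ω' a']
        exact (Prod.ext_iff.1 hl).1
      · intro ω ω' a a' hl
        show yt (d.L ω) = yt (d.L ω')
        rw [hyt1 ω a, hyt1 ω' a']
        exact (Prod.ext_iff.1 hl).1
    rw [k2]
    exact k1

end Pool.LSH
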