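import Pool.Agent.H48.GEN.ShI

/-!
# L1 level by level, sheets: back from the nodes, the induction step
-/

set_option autoImplicit false

namespace Pool.LSH

open Finset Real
open Pool.Agent.H49.Ent Pool.Agent.H32.Dense Pool.STK Pool.KAF Pool.SLO Pool.LEV
open Pool.KVA (MI)
open Pool.LBL

/-- The interpolation of near values. -/
theorem itp_close {D k₀ : ℕ} {θ f g : Fin (D + 1) → ℝ} {t f₁ g₁ err δc : ℝ}
    {Q : Polynomial ℝ} (hQ : Q.natDegree ≤ D) (hθ : ∀ j, |θ j| ≤ 1)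
    (hs : ∀ j j', j ≠ j' → (2 : ℝ) ^ (-(k₀ : ℤ)) ≤ |θ j - θ j'|) (ht : |t| ≤ 1)
    (h : ∀ j, |f j - g j - Q.eval (θ j)| ≤ err) (h1 : |f₁ - g₁ - Q.eval t| ≤ err)
    (hg : |g₁ - (Lagrange.interpolate univ θ g).eval t| ≤ δc) :
    |f₁ - (Lagrange.interpolate univ θ f).eval t| ≤
      δc + (1 + (D + 1) * ((D + 1) * 2 ^ ((k₀ + 1) * D))) * err := by
  have hinj := Pool.M5.L48.sep_injective hs
  obtain ⟨r, hr⟩ : ∃ r : Fin (D + 1) → ℝ, r = fun j => f j - g j - Q.eval (θ j) := ⟨_, rfl⟩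
  have e1 : f = g + ((fun j => Q.eval (θ j)) + r) := by
    funext j
    rw [Pi.add_apply, Pi.add_apply, hr]
    ring
  have e2 : Lagrange.interpolate univ θ (fun j => Q.eval (θ j)) = Q := by
    symm
    refine Lagrange.eq_interpolate_of_eval_eq _ hinj.injOn ?_ (fun i _ => rfl)
    rw [Finset.card_univ, Fintype.card_fin]
    refine lt_of_le_of_lt Polynomial.degree_le_natDegree ?_
    exact_mod_cast Nat.lt_succ_of_le hQ
  have e3 : (Lagrange.interpolate univ θ f).eval t = (Lagrange.interpolate univ θ g).eval t +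
      (Q.eval t + (Lagrange.interpolate univ θ r).eval t) := by
    rw [e1, map_add, map_add, Polynomial.eval_add, Polynomial.eval_add, e2]
  have e4 : |(Lagrange.interpolate univ θ r).eval t| ≤
      (D + 1) * ((D + 1) * 2 ^ ((k₀ + 1) * D) * err) := by
    refine (eval_l1 _ ht).trans (l1_itp θ r hθ hs fun j => ?_)
    rw [hr]
    exact h j
  rw [e3]
  have e5 : f₁ - ((Lagrange.interpolate univ θ g).eval t +
      (Q.eval t + (Lagrange.interpolate univ θ r).eval t)) =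
      (g₁ - (Lagrange.interpolate univ θ g).eval t) + ((f₁ - g₁ - Q.eval t) -
        (Lagrange.interpolate univ θ r).eval t) := by ring
  rw [e5]
  have e6 := (abs_add_le (g₁ - (Lagrange.interpolate univ θ g).eval t) ((f₁ - g₁ - Q.eval t) -
        (Lagrange.interpolate univ θ r).eval t)).trans (add_le_add hg
          ((abs_sub (f₁ - g₁ - Q.eval t) ((Lagrange.interpolate univ θ r).eval t)).trans
            (add_le_add h1 e4)))
  refine e6.trans (le_of_eq ?_)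
  ring

/-- **Back from the nodes.** -/
theorem back_sh {k n m K : ℕ} {c₁ : ℝ} {d : SDat (k + 1) n m K} (h : d.OK Set.univ c₁)
    (hc₁ : 0 ≤ c₁) {kb X' D kc : ℕ} {δb δ δc ε : ℝ}
    (hG : 0 < Pr (tup d.P d.L (m + 1)) (d.good kb δb)) (hD : m + K * n * n ≤ D)
    (hδ : δc + (1 + (D + 1) * ((D + 1) * 2 ^ ((kc + 1) * D))) *
      (e1 (k + 1) n K ((2 : ℝ) ^ c₁) / 2 ^ d.X + e2 n K ((2 : ℝ) ^ c₁) * δb) ≤ δ)
    (hmain : Pr (tup (d.ext kb X' δb).P (d.ext kb X' δb).L (D + 1))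
      ((d.ext kb X' δb).Bad D kc δc) ≤ ε) :
    Pr (tup d.P d.L (D + 1)) (d.Bad D kc δ) ≤
      (D + 2) * (1 - Pr (tup d.P d.L (m + 1)) (d.good kb δb)) + ε := by
  have hp0 := h.law.nonneg
  have htl : IsLaw (tup d.P d.L (m + 1)) := tup_isLaw h.law d.L (m + 1)
  have ht0 := tup_nonneg hp0 d.L (m + 1)
  have k1 := Pool.L1.Pr_marg (ext_tup h.law d.L d.T m (D + 1)) (d.Bad D kc δ)
  have k2 := tup_cond htl (Lx d.L d.T) hG (D + 1) {u | (fun j => sm (u j)) ∈ d.Bad D kc δ}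
  rw [← k1]
  refine k2.trans ?_
  have k3 : (((D + 1 : ℕ) : ℝ) + 1) = D + 2 := by
    push_cast
    ring
  rw [k3]
  have hc0 : ∀ v, 0 ≤ cond (tup d.P d.L (m + 1)) (fun v => v ∈ d.good kb δb) True v :=
    fun v => cond_nonneg htl.nonneg _ _ v
  refine add_le_add le_rfl (le_trans (Pool.KAF.Pr_mono ?_ fun u hu hbad => ?_) hmain)
  · exact tup_nonneg hc0 _ _
  · by_contra hcon
    have hcon' : ¬ (¬ (d.ext kb X' δb).sep kc (Fin.init u) ∨ δc <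
      |(d.ext kb X' δb).val ((d.ext kb X' δb).L (u (Fin.last (D + 1))))
        ((d.ext kb X' δb).T (u (Fin.last (D + 1)))) -
      (d.ext kb X' δb).itp (Fin.init u) ((d.ext kb X' δb).th
        ((d.ext kb X' δb).T (u (Fin.last (D + 1)))))|) := hcon
    rw [not_or, not_not, not_lt] at hcon'
    obtain ⟨hs, hg⟩ := hcon'
    -- the samples
    have hu' : ∀ j, 0 < cond (tup d.P d.L (m + 1)) (fun v => v ∈ d.good kb δb) True (u j) ∧
        Lx d.L d.T (u j) = Lx d.L d.T (u 0) := fun j => tup_pos' hc0 _ hu j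
    have hgood : ∀ j, u j ∈ d.good kb δb ∧ 0 < tup d.P d.L (m + 1) (u j) := fun j =>
      SDat.ext_pos (X' := X') hp0 (hu' j).1
    obtain ⟨l, hl⟩ : ∃ l : d.Lam, l = d.L (u 0 0) := ⟨_, rfl⟩
    obtain ⟨w, hw⟩ : ∃ w : Fin (m + 1) → d.Tau, w = Wn d.T (u 0) := ⟨_, rfl⟩
    have hL0 : ∀ j, d.L (u j 0) = l := fun j => by
      rw [hl]
      exact (Prod.ext_iff.1 (hu' j).2).1
    have hW0 : ∀ j, Wn d.T (u j) = w := fun j => by
      rw [hw]
      exact (Prod.ext_iff.1 (hu' j).2).2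
    have hsmL : ∀ j, d.L (sm (u j)) = l := fun j =>
      (tup_pos' hp0 d.L (hgood j).2 (Fin.last (m + 1))).2.trans (hL0 j)
    have hsmP : ∀ j, 0 < d.P (sm (u j)) := fun j =>
      (tup_pos' hp0 d.L (hgood j).2 (Fin.last (m + 1))).1
    have hsep := (SDat.good_iff (hgood 0).1).1
    rw [← hw] at hsep
    obtain ⟨err, herr⟩ : ∃ err : ℝ, err = e1 (k + 1) n K ((2 : ℝ) ^ c₁) / 2 ^ d.X +
      e2 n K ((2 : ℝ) ^ c₁) * δb := ⟨_, rfl⟩
    rw [← herr] at hδ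
    -- the values
    have hval : ∀ j, |d.val (d.L (sm (u j))) (d.T (sm (u j))) -
        (d.ext kb X' δb).val ((d.ext kb X' δb).L (u j)) ((d.ext kb X' δb).T (u j)) -
        (d.Qp l w).eval (d.th (d.T (sm (u j))))| ≤ err := by
      intro j
      have a1 := (SDat.good_iff (hgood j).1).2
      have a2 : ∀ a ∈ Finset.Icc 1 (K * n), |d.Ec (d.Zl (sm (u j))) (d.T (sm (u j))) a -
          (d.Gp (d.Zl (sm (u j))) w a).eval (d.th (d.T (sm (u j))))| ≤ δb := by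
        intro a ha
        have e0 : d.Zl (sm (u j)) = d.Z (Fin.last k) (d.L (u j 0)) := by
          unfold SDat.Zl
          rw [hsmL j, hL0 j]
        rw [e0, ← hW0 j]
        exact a1 a ha
      have a3 := SDat.core h hc₁ (Set.mem_univ _) (hsmP j) a2
      rw [← herr] at a3
      have e1 : (d.ext kb X' δb).val ((d.ext kb X' δb).L (u j)) ((d.ext kb X' δb).T (u j)) =
          MvPolynomial.eval (fun i : Fin k => d.frz (Fin.last k) (d.Zl (sm (u j)))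
            (d.th (d.T (sm (u j)))) i.castSucc) (kill (d.F (d.T (sm (u j))))) -
          MvPolynomial.eval 0 (d.F (d.T (sm (u j)))) := by
        have e2 : MvPolynomial.eval (0 : Fin k → ℝ) (kill (d.F (d.T (sm (u j))))) =
            MvPolynomial.eval 0 (d.F (d.T (sm (u j)))) := eval_kill _ 0 rfl
        rw [← e2]
        show MvPolynomial.eval (fun i : Fin k => d.frz (Fin.last k) (d.Z (Fin.last k) (d.L (u j 0)))
            (d.th (d.T (sm (u j)))) i.castSucc) (kill (d.F (d.T (sm (u j))))) - _ = _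
        have e3 : d.Z (Fin.last k) (d.L (u j 0)) = d.Zl (sm (u j)) := by
          unfold SDat.Zl
          rw [hsmL j, hL0 j]
        rw [e3]
        rfl
      rw [e1]
      unfold SDat.val
      rw [hsmL j] at a3 ⊢
      refine le_trans (le_of_eq ?_) a3
      congr 1
      ring
    have hfin := itp_close (D := D) (k₀ := kc)
      (θ := fun i : Fin (D + 1) => d.th (d.T (sm (u i.castSucc))))
      (f := fun i : Fin (D + 1) => d.val (d.L (sm (u i.castSucc))) (d.T (sm (u i.castSucc))))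
      (g := fun i : Fin (D + 1) => (d.ext kb X' δb).val ((d.ext kb X' δb).L (u i.castSucc))
        ((d.ext kb X' δb).T (u i.castSucc)))
      (t := d.th (d.T (sm (u (Fin.last (D + 1))))))
      (Q := d.Qp l w) ((SDat.Qp_deg l hsep).trans hD)
      (fun j => by
        have := h.hth (d.T (sm (u j.castSucc)))
        rw [abs_of_nonneg this.1]
        exact this.2.le)
      (fun j j' hne => hs j j' hne)
      (by
        have := h.hth (d.T (sm (u (Fin.last (D + 1)))))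
        rw [abs_of_nonneg this.1]
        exact this.2.le)
      (fun j => hval j.castSucc) (hval (Fin.last (D + 1))) hg
    rcases hbad with h1 | h1
    · exact h1 fun i i' hne => hs i i' hne
    · have h2 : |d.val (d.L (sm (u (Fin.last (D + 1))))) (d.T (sm (u (Fin.last (D + 1))))) -
          (Lagrange.interpolate univ (fun i : Fin (D + 1) => d.th (d.T (sm (u i.castSucc))))
            (fun i : Fin (D + 1) => d.val (d.L (sm (u i.castSucc)))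
              (d.T (sm (u i.castSucc))))).eval (d.th (d.T (sm (u (Fin.last (D + 1))))))| ≤ δ :=
        hfin.trans hδ
      exact absurd h1 (not_lt.2 h2)

/-- The numbers of the step. -/
theorem nums_sh {K₂ ιc κc κ₂c ι κ κ₂ X X' m e L0 L1 : ℝ} (hK : 0 < K₂) (hιc : 0 < ιc)
    (hκc : 0 < κc) (hκ₂c : 0 < κ₂c) (hι0 : 0 < ι) (hX : 0 < X) (hm : 0 ≤ m) (he : 0 ≤ e)
    (hL0 : 0 ≤ L0) (hL1 : 0 ≤ L1) (i1 : ι ≤ ιc * K₂ / (32 * (m + 2 + e)))
    (i2 : ι ≤ K₂ / (8 * (m + 2 + e))) (i3 : κ ≤ κc * K₂ / 2) (i4 : κ₂ ≤ κ₂c * K₂ / 8)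
    (i5 : κ₂ ≤ K₂ / 8) (x1 : (12 + L0) * 8 ≤ ιc * K₂ * X) (x2 : 8 ≤ κ₂c * K₂ * X)
    (x3 : (1 + L1 + L0) * 4 ≤ K₂ * X) (hX' : K₂ * X / 2 ≤ X') :
    L0 + e * (ι * X) ≤ ιc * X' ∧ 12 + 4 * (m + 2) * ι * X ≤ ιc * X' ∧
      2 + 2 * ι * X ≤ ιc * X' ∧ 2 + 2 * (m + 2) * ι * X ≤ ιc * X' ∧ κ * X ≤ κc * X' ∧
      κ₂ * X + 1 ≤ κ₂c * X' ∧ κ₂ * X + 1 + L1 + (L0 + e * (ι * X)) ≤ K₂ * X := by
  have hs : 0 < m + 2 + e := by linarith
  have hιX : 0 < ι * X := by positivity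
  have y1 : (m + 2 + e) * (ι * X) ≤ ιc * K₂ * X / 32 := by
    have h1 := mul_le_mul_of_nonneg_left i1 (show (0 : ℝ) ≤ (m + 2 + e) * X by positivity)
    have h2 : (m + 2 + e) * X * (ιc * K₂ / (32 * (m + 2 + e))) = ιc * K₂ * X / 32 := by
      field_simp
    linarith
  have y2 : (m + 2 + e) * (ι * X) ≤ K₂ * X / 8 := by
    have h1 := mul_le_mul_of_nonneg_left i2 (show (0 : ℝ) ≤ (m + 2 + e) * X by positivity)
    have h2 : (m + 2 + e) * X * (K₂ / (8 * (m + 2 + e))) = K₂ * X / 8 := by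
      field_simp
    linarith
  have y3 : 0 ≤ m * (ι * X) := by positivity
  have y4 : 0 ≤ e * (ι * X) := by positivity
  have y5 : (m + 2 + e) * (ι * X) = m * (ι * X) + 2 * (ι * X) + e * (ι * X) := by ring
  have z1 : ιc * K₂ * X / 2 ≤ ιc * X' := by
    have := mul_le_mul_of_nonneg_left hX' hιc.le
    linarith
  have z2 : κc * K₂ * X / 2 ≤ κc * X' := by
    have := mul_le_mul_of_nonneg_left hX' hκc.le
    linarith
  have z3 : κ₂c * K₂ * X / 2 ≤ κ₂c * X' := by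
    have := mul_le_mul_of_nonneg_left hX' hκ₂c.le
    linarith
  have z4 : κ * X ≤ κc * K₂ / 2 * X := mul_le_mul_of_nonneg_right i3 hX.le
  have z5 : κ₂ * X ≤ κ₂c * K₂ / 8 * X := mul_le_mul_of_nonneg_right i4 hX.le
  have z6 : κ₂ * X ≤ K₂ / 8 * X := mul_le_mul_of_nonneg_right i5 hX.le
  have w1 : 4 * (m + 2) * ι * X = 4 * (m * (ι * X)) + 8 * (ι * X) := by ring
  have w2 : 2 * (m + 2) * ι * X = 2 * (m * (ι * X)) + 4 * (ι * X) := by ring
  refine ⟨?_, ?_, ?_, ?_, ?_, ?_, ?_⟩ <;> linarith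

/-- The error of the step. -/
theorem err_sh {u₁ u₂ A δb r κ₂ X κ₂c X' L1 y K₂ B : ℝ} (h1 : r ≤ δb) (hδ0 : 0 ≤ δb)
    (hu1 : 0 ≤ u₁) (hu2 : 0 ≤ u₂) (hr : 0 ≤ r) (hA : u₁ + u₂ ≤ A) (hA' : A ≤ (2 : ℝ) ^ y)
    (hB : B ≤ (2 : ℝ) ^ L1) (hδb : δb = (2 : ℝ) ^ (-(K₂ * X)))
    (o6 : κ₂ * X + 1 ≤ κ₂c * X') (o7 : κ₂ * X + 1 + L1 + y ≤ K₂ * X) :
    (2 : ℝ) ^ (-(κ₂c * X')) + B * (u₁ * r + u₂ * δb) ≤ (2 : ℝ) ^ (-(κ₂ * X)) := by
  have s2 : u₁ * r ≤ u₁ * δb := mul_le_mul_of_nonneg_left h1 hu1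
  have s3 : (u₁ + u₂) * δb ≤ A * δb := mul_le_mul_of_nonneg_right hA hδ0
  have s4 : A * δb ≤ (2 : ℝ) ^ y * δb := mul_le_mul_of_nonneg_right hA' hδ0
  have s5 : u₁ * r + u₂ * δb ≤ (2 : ℝ) ^ y * δb := by linarith
  have s6 : B * (u₁ * r + u₂ * δb) ≤ (2 : ℝ) ^ L1 * ((2 : ℝ) ^ y * δb) :=
    mul_le_mul hB s5 (by positivity) (by positivity)
  have s7 : (2 : ℝ) ^ L1 * ((2 : ℝ) ^ y * δb) = (2 : ℝ) ^ (L1 + (y + -(K₂ * X))) := by
    rw [hδb, Real.rpow_add two_pos, Real.rpow_add two_pos]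
  have s8 : (2 : ℝ) ^ (L1 + (y + -(K₂ * X))) ≤ (2 : ℝ) ^ (-(κ₂ * X) - 1) :=
    Real.rpow_le_rpow_of_exponent_le one_le_two (by linarith)
  have s9 : (2 : ℝ) ^ (-(κ₂c * X')) ≤ (2 : ℝ) ^ (-(κ₂ * X) - 1) :=
    Real.rpow_le_rpow_of_exponent_le one_le_two (by linarith)
  have s10 : (2 : ℝ) ^ (-(κ₂ * X) - 1) + (2 : ℝ) ^ (-(κ₂ * X) - 1) = (2 : ℝ) ^ (-(κ₂ * X)) := by
    rw [Real.rpow_sub two_pos, Real.rpow_one]
    ring
  rw [s7] at s6
  linarith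

/-- **The induction step.** -/
theorem sh_succ (k : ℕ) (ih : ShW k) : ShW (k + 1) := by
  intro n m K D c ε kk hD hc hc1 hε
  have hD' : (m + K * n * n) + k * (K * n * n) ≤ D := by
    have : (k + 1) * (K * n * n) = k * (K * n * n) + K * n * n := by ring
    omega
  have hmD : m + K * n * n ≤ D := le_trans (Nat.le_add_right _ _) hD'
  obtain ⟨η, hη⟩ : ∃ η : ℝ, η = min (ε / (2 * (D + 2))) (1 / 2) := ⟨_, rfl⟩
  have hη0 : 0 < η := by
    rw [hη]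
    exact lt_min (by positivity) (by norm_num)
  have hη1 : η ≤ 1 / 2 := by
    rw [hη]
    exact min_le_right _ _
  have hη2 : (D + 2) * η ≤ ε / 2 := by
    have h1 : η ≤ ε / (2 * (D + 2)) := by
      rw [hη]
      exact min_le_left _ _
    have h2 := mul_le_mul_of_nonneg_left h1 (show (0 : ℝ) ≤ D + 2 by positivity)
    refine h2.trans (le_of_eq ?_)
    field_simp
  obtain ⟨K₂, κb, π₀b, ιb, i₁b, k₀b, X₀b, b1, b2, b3, b4, b5, b6, hb⟩ :=
    top_sh k n m K c η kk hc hc1 hη0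
  obtain ⟨κ₂c, κc, π₀c, ιc, i₁c, k₀c, X₀c, c1, c2, c3, c4, c5, c6, hcm⟩ :=
    ih n (m + K * n * n) K D c (ε / 2) (fun i => kk (2 * i + 4)) hD' hc hc1 (by positivity)
  obtain ⟨C, hC1, hC⟩ := bA_le (k + 1) n m K k₀b
  obtain ⟨L0, hL0⟩ : ∃ L0 : ℕ, C ≤ 2 ^ L0 :=
    pow_unbounded_of_one_lt _ one_lt_two |>.imp fun _ h => h.le
  obtain ⟨L1, hL1⟩ : ∃ L1 : ℕ, (1 + (D + 1) * ((D + 1) * 2 ^ ((k₀c + 1) * D)) : ℝ) ≤ 2 ^ L1 :=
    pow_unbounded_of_one_lt _ one_lt_two |>.imp fun _ h => h.le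
  obtain ⟨e, he⟩ : ∃ e : ℕ, e = K + K * n + n + 3 := ⟨_, rfl⟩
  rw [← he] at hC
  have hs : (0 : ℝ) < m + 2 + e := by positivity
  obtain ⟨ι, hι⟩ : ∃ ι : ℝ, ι = min ιb (min (ιc * K₂ / (32 * (m + 2 + e)))
    (K₂ / (8 * (m + 2 + e)))) := ⟨_, rfl⟩
  have hι0 : 0 < ι := by
    rw [hι]
    exact lt_min b6 (lt_min (by positivity) (by positivity))
  have i0 : ι ≤ ιb := by
    rw [hι]
    exact min_le_left _ _
  have i1 : ι ≤ ιc * K₂ / (32 * (m + 2 + e)) := by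
    rw [hι]
    exact (min_le_right _ _).trans (min_le_left _ _)
  have i2 : ι ≤ K₂ / (8 * (m + 2 + e)) := by
    rw [hι]
    exact (min_le_right _ _).trans (min_le_right _ _)
  obtain ⟨X₁, hX₁⟩ := exists_nat_ge (2 / K₂ + (2 * X₀c / K₂ + ((12 + L0) * 8 / (ιc * K₂) +
    (8 / (κ₂c * K₂) + (1 + L1 + L0) * 4 / K₂))))
  refine ⟨min (κ₂c * K₂ / 8) (K₂ / 8), min κb (κc * K₂ / 2), min π₀b (π₀c / 2), ι,
    max i₁b (2 * i₁c + 4), k₀c, max X₀b X₁,
    lt_min (by positivity) (by positivity), (min_le_right _ _).trans (by linarith),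
    lt_min b3 (by positivity), (min_le_left _ _).trans b4,
    lt_min b5 (by positivity), hι0, ?_⟩
  intro d hok hX hH1 hT hH2 hH3 hH5
  have hXb : X₀b ≤ d.X := (le_max_left _ _).trans hX
  have hXr : 2 / K₂ + (2 * X₀c / K₂ + ((12 + L0) * 8 / (ιc * K₂) +
    (8 / (κ₂c * K₂) + (1 + L1 + L0) * 4 / K₂))) ≤ (d.X : ℝ) :=
    hX₁.trans (by exact_mod_cast (le_max_right _ _).trans hX)
  have q1 : 0 < 2 / K₂ := by positivity
  have q2 : 0 ≤ 2 * X₀c / K₂ := by positivity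
  have q3 : 0 < (12 + L0) * 8 / (ιc * K₂) := by positivity
  have q4 : 0 < 8 / (κ₂c * K₂) := by positivity
  have q5 : 0 < (1 + L1 + L0) * 4 / K₂ := by positivity
  have hX0 : (0 : ℝ) < d.X := by linarith
  have x0 : 2 ≤ K₂ * d.X := by
    have : 2 / K₂ ≤ d.X := by linarith
    rw [div_le_iff₀ b1] at this
    linarith
  have x0' : 2 * X₀c ≤ K₂ * d.X := by
    have : 2 * X₀c / K₂ ≤ d.X := by linarith
    rw [div_le_iff₀ b1] at this
    linarith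
  have x1 : (12 + L0) * 8 ≤ ιc * K₂ * d.X := by
    have : (12 + L0) * 8 / (ιc * K₂) ≤ d.X := by linarith
    rw [div_le_iff₀ (by positivity)] at this
    linarith
  have x2 : 8 ≤ κ₂c * K₂ * d.X := by
    have : 8 / (κ₂c * K₂) ≤ d.X := by linarith
    rw [div_le_iff₀ (by positivity)] at this
    linarith
  have x3 : (1 + L1 + L0) * 4 ≤ K₂ * d.X := by
    have : (1 + L1 + L0) * 4 / K₂ ≤ d.X := by linarith
    rw [div_le_iff₀ (by positivity)] at this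
    linarith
  -- the smaller scale
  obtain ⟨X', hX'⟩ : ∃ X' : ℕ, X' = ⌊K₂ * d.X⌋₊ := ⟨_, rfl⟩
  have hX'1 : (X' : ℝ) ≤ K₂ * d.X := by
    rw [hX']
    exact Nat.floor_le (by positivity)
  have hX'2 : K₂ * d.X / 2 ≤ X' := by
    have := Nat.lt_floor_add_one (K₂ * d.X)
    rw [← hX'] at this
    linarith
  have hX'3 : X' ≤ d.X := by
    have : (X' : ℝ) ≤ d.X := hX'1.trans (mul_le_of_le_one_left hX0.le b2)
    exact_mod_cast this
  have hX'c : X₀c ≤ X' := by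
    have : (X₀c : ℝ) ≤ X' := by linarith
    exact_mod_cast this
  obtain ⟨δb, hδb⟩ : ∃ δb : ℝ, δb = (2 : ℝ) ^ (-(K₂ * d.X)) := ⟨_, rfl⟩
  have hδb0 : 0 ≤ δb := by
    rw [hδb]
    positivity
  have hδ1 : 2 ^ X' * δb ≤ 1 := by
    rw [hδb, ← Real.rpow_natCast, ← Real.rpow_add two_pos]
    exact Real.rpow_le_one_of_one_le_of_nonpos one_le_two (by linarith)
  obtain ⟨κ₂, hκ₂⟩ : ∃ κ₂ : ℝ, κ₂ = min (κ₂c * K₂ / 8) (K₂ / 8) := ⟨_, rfl⟩
  obtain ⟨κ, hκ⟩ : ∃ κ : ℝ, κ = min κb (κc * K₂ / 2) := ⟨_, rfl⟩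
  obtain ⟨π₀, hπ₀⟩ : ∃ π₀ : ℝ, π₀ = min π₀b (π₀c / 2) := ⟨_, rfl⟩
  rw [← hκ₂]
  rw [← hκ, ← hπ₀] at hH5
  have k2 : κ ≤ κb ∧ κ ≤ κc * K₂ / 2 := by
    rw [hκ]
    exact ⟨min_le_left _ _, min_le_right _ _⟩
  have k3 : π₀ ≤ π₀b ∧ π₀ ≤ π₀c / 2 := by
    rw [hπ₀]
    exact ⟨min_le_left _ _, min_le_right _ _⟩
  obtain ⟨o1, o2, o3, o4, o5, o6, o7⟩ := nums_sh (κ₂ := κ₂) (κ := κ) (X := (d.X : ℝ))
    (X' := (X' : ℝ)) (m := (m : ℝ)) (e := (e : ℝ)) (L0 := (L0 : ℝ)) (L1 := (L1 : ℝ)) b1 c6 c3 c1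
    hι0 hX0 (Nat.cast_nonneg _) (Nat.cast_nonneg _) (Nat.cast_nonneg _) (Nat.cast_nonneg _) i1 i2
    k2.2 (by rw [hκ₂]; exact min_le_left _ _) (by rw [hκ₂]; exact min_le_right _ _)
    x1 x2 x3 hX'2
  -- the good event
  have hGb := hb d (hok.mono (mul_le_mul_of_nonneg_right i0 hX0.le)) hXb (hH1.mono i0)
    (hT.mono (le_max_left _ _)) (hH2.mono i0) (hH3.mono i0) (hH5.mono k2.1 k3.1)
  rw [← hδb] at hGb
  have hlt := tup_isLaw hok.law d.L (m + 1)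
  have hG1 : 1 - η ≤ Pr (tup d.P d.L (m + 1)) (d.good k₀b δb) := by
    have h1 := pr_compl_law hlt (BadZ d.th d.T d.Zl d.Ec (K * n) m k₀b δb)
    have h2 : Pr (tup d.P d.L (m + 1)) (d.good k₀b δb) =
        Pr (tup d.P d.L (m + 1)) (BadZ d.th d.T d.Zl d.Ec (K * n) m k₀b δb)ᶜ := rfl
    rw [h2, h1]
    exact sub_le_sub_left hGb _
  have hG : 1 / 2 ≤ Pr (tup d.P d.L (m + 1)) (d.good k₀b δb) := le_trans (by linarith) hG1
  have hG0 : 0 < Pr (tup d.P d.L (m + 1)) (d.good k₀b δb) := lt_of_lt_of_le (by norm_num) hG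
  -- the new data
  obtain ⟨W, hW⟩ : ∃ W : ℝ, W = (2 : ℝ) ^ (ι * d.X) := ⟨_, rfl⟩
  have hιX : 0 ≤ ι * d.X := by positivity
  have hW1 : 1 ≤ W := by
    rw [hW]
    exact Real.one_le_rpow one_le_two hιX
  have hW0 : 0 ≤ W := by linarith
  have hCc : bA (k + 1) n m K k₀b ((2 : ℝ) ^ (ι * d.X)) ≤ (2 : ℝ) ^ (ιc * X') := by
    rw [← hW]
    exact (hC W hW1).trans (pow_bd hW hL0 o1)
  have hfin := hcm (d.ext k₀b X' δb)
    (SDat.ext_ok hok hιX hX'3 hδ1 hCc hG0) hX'c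
    (SDat.ext_H1a hok hX'3 hG o3 hH1)
    (SDat.ext_TCp hok hG (le_max_right _ _) hT)
    (SDat.ext_H2 hok hG o4 hH1 hH2)
    (SDat.ext_H3 hok hX'3 hG o2 hH1 hH3)
    (SDat.ext_H5w hok hc1 hX'3 hG o5 c5.le k3.2 hH5)
  -- back
  have hδ : (2 : ℝ) ^ (-(κ₂c * (d.ext k₀b X' δb).X)) +
      (1 + (D + 1) * ((D + 1) * 2 ^ ((k₀c + 1) * D))) *
      (e1 (k + 1) n K ((2 : ℝ) ^ (ι * d.X)) / 2 ^ d.X + e2 n K ((2 : ℝ) ^ (ι * d.X)) * δb) ≤
      (2 : ℝ) ^ (-(κ₂ * d.X)) := by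
    rw [← hW]
    obtain ⟨p1, p2, p3, p4, p5, p6, -⟩ := bA_parts (k + 1) n m K k₀b hW0
    have hA : bA (k + 1) n m K k₀b W = bE (k + 1) n K W + 2 * (e1 (k + 1) n K W + e2 n K W) +
      bQ (k + 1) n m K k₀b W + bF n W + bC n W + W + 2 := rfl
    have r1 : (1 : ℝ) / 2 ^ d.X ≤ δb := by
      rw [hδb, one_div, ← Real.rpow_natCast, ← Real.rpow_neg two_pos.le]
      exact Real.rpow_le_rpow_of_exponent_le one_le_two
        (neg_le_neg (mul_le_of_le_one_left hX0.le b2))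
    have r3 : bA (k + 1) n m K k₀b W ≤ (2 : ℝ) ^ ((L0 : ℝ) + e * (ι * d.X)) :=
      (hC W hW1).trans (pow_bd hW hL0 le_rfl)
    have r4 := err_sh (B := (1 + (D + 1) * ((D + 1) * 2 ^ ((k₀c + 1) * D)) : ℝ))
      (A := bA (k + 1) n m K k₀b W) (L1 := (L1 : ℝ)) r1 hδb0 p2 p3 (by positivity) (by linarith)
      r3 (by rw [Real.rpow_natCast]; exact hL1) hδb o6 o7
    rw [mul_one_div] at r4
    exact r4
  have hback := back_sh hok hιX hG0 hmD hδ hfin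
  have h9 : (D + 2) * (1 - Pr (tup d.P d.L (m + 1)) (d.good k₀b δb)) ≤ (D + 2) * η :=
    mul_le_mul_of_nonneg_left (by linarith) (by positivity)
  refine hback.trans ((add_le_add (h9.trans hη2) le_rfl).trans (le_of_eq ?_))
  ring

/-- **All numbers of coordinates.** -/
theorem sh_all (k : ℕ) : ShW k := by
  induction k with
  | zero => exact sh0
  | succ k ih => exact sh_succ k ih

end Pool.LSH
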