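import Pool.Agent.H48.GEN.Top3

/-!
# L1 level by level, sheets: one coordinate, all powers

As `Top`, `Top3`, with the functions `y ^ a`, `1 ≤ a ≤ K`, whose coefficients may depend on the
label of the line, and with a larger tolerance.
-/

set_option autoImplicit false

namespace Pool.LSH

open Finset Real
open Pool.Agent.H49.Ent Pool.Agent.H32.Dense Pool.STK Pool.KAF Pool.M5 Pool.SLO Pool.LEV
open Pool.KVA (MI)

section

/-- Sums over the powers. -/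
theorem sum_mon (K : ℕ) (f : ℕ → ℝ) :
    ∑ i : Mon 1 K, f ((i : Fin 1 → ℕ) 0) = ∑ a ∈ Finset.Icc 1 K, f a := by
  rw [Finset.sum_coe_sort (Mon 1 K) (fun x => f (x 0))]
  refine Finset.sum_nbij' (fun x => x 0) (fun a _ => a) ?_ ?_ ?_ ?_ ?_
  · intro x hx
    unfold Mon at hx
    rw [Finset.mem_filter] at hx
    have h1 := hx.2
    simp only [Finset.univ_unique, Fin.default_eq_zero, Fin.isValue, Finset.sum_singleton] at h1
    rw [Finset.mem_Icc]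
    exact h1
  · intro a ha
    rw [Finset.mem_Icc] at ha
    unfold Mon
    rw [Finset.mem_filter, Fintype.mem_piFinset]
    refine ⟨fun _ => ?_, ?_⟩
    · rw [Finset.mem_range]
      omega
    · simpa using ha
  · intro x _
    funext j
    rw [Subsingleton.elim j 0]
  · intro a _
    rfl
  · intro x _
    rfl

theorem pol1 {K : ℕ} (b : Bas 1 (Mon 1 K)) (hg : ∀ i, b.g i = mono (i : Fin 1 → ℕ)) (f : ℕ → ℝ)
    (x : ℝ) : pol b (fun i => f ((i : Fin 1 → ℕ) 0)) (fun _ => x) =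
      ∑ a ∈ Finset.Icc 1 K, f a * x ^ a := by
  rw [← sum_mon K (fun a => f a * x ^ a)]
  unfold pol
  refine Finset.sum_congr rfl fun i _ => ?_
  rw [hg]
  unfold mono
  simp

variable {Ω Λ τ ν ζ : Type} [Fintype Ω] {D : ℕ}

/-- The data of L1 for a law `p` and a known part `S` of the height. -/
noncomputable def ldm (K : ℕ) (p : Ω → ℝ) (L : Ω → Λ) (T : Ω → τ) (y : Λ → ℤ)
    (q : Λ → Fin D → ℝ) (N : Ω → ℤ) (th : τ → ℝ) (E : τ → ℕ → ℝ) (S : τ → ℝ) (X R : ℕ) :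
    LDat 1 D (Mon 1 K) where
  Om := Ω
  Lam := Λ
  Tau := τ
  P := p
  L := L
  T := T
  y := fun l _ => y l
  c := fun l a => ⌊(2 : ℝ) ^ X * (q l a / 2 ^ R)⌋
  N := fun ω => N ω / 2 ^ R
  th := th
  s := fun t => S t / 2 ^ R
  co := fun t i => E t ((i : Fin 1 → ℕ) 0) / 2 ^ R
  X := X

/-- The height of the sample, one coordinate. -/
noncomputable def hgm (K : ℕ) (y : Λ → ℤ) (q : Λ → Fin D → ℝ) (th : τ → ℝ) (E : τ → ℕ → ℝ)
    (S : τ → ℝ) (X : ℕ) (l : Λ) (t : τ) : ℝ :=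
  ∑ i, q l i * th t ^ (i.val + 1) - S t - ∑ a ∈ Finset.Icc 1 K, E t a * (y l / 2 ^ X) ^ a

theorem ldm_ok {K : ℕ} (b : Bas 1 (Mon 1 K)) (hg : ∀ i, b.g i = mono (i : Fin 1 → ℕ))
    {p : Ω → ℝ} (hp : IsLaw p) {L : Ω → Λ} {T : Ω → τ} {y : Λ → ℤ} {q : Λ → Fin D → ℝ}
    {N : Ω → ℤ} {th S : τ → ℝ} {E : τ → ℕ → ℝ} {X R : ℕ} {c c' : ℝ} (hc : 0 ≤ c)
    (hR : (2 : ℝ) ^ c' ≤ 2 ^ R) (hy : ∀ l, |(y l : ℝ) / 2 ^ X| ≤ 1)
    (hq : ∀ l i, |q l i| ≤ (2 : ℝ) ^ c') (hE : ∀ t a, |E t a| ≤ (2 : ℝ) ^ c')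
    (hth : ∀ t, 0 ≤ th t ∧ th t < 1) (hN : Det p (fun ω => (L ω, T ω)) N)
    (hh : ∀ ω ω', 0 < p ω → 0 < p ω' → L ω = L ω' →
      |((N ω' : ℝ) - N ω) - 2 ^ X * (hgm K y q th E S X (L ω) (T ω') -
        hgm K y q th E S X (L ω) (T ω))| ≤ (2 : ℝ) ^ c') :
    (ldm K p L T y q N th E S X R).OK b (D + 2) c := by
  have hX : (0 : ℝ) < 2 ^ X := by positivity
  have hR0 : (0 : ℝ) < 2 ^ R := by positivity
  have h1c : (1 : ℝ) ≤ (2 : ℝ) ^ c := Real.one_le_rpow one_le_two hc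
  refine ⟨hp, fun l j => hy l, fun l a => ?_, ?_, hth, fun t i => ?_, ?_⟩
  · refine Pool.LEV.floor_div_le ?_
    rw [abs_div, abs_of_pos hR0, div_le_one hR0]
    exact (hq l a).trans hR
  · intro ω ω' h h' e'
    show N ω / 2 ^ R = N ω' / 2 ^ R
    rw [hN ω ω' h h' e']
  · refine le_trans ?_ h1c
    show |E t ((i : Fin 1 → ℕ) 0) / 2 ^ R| ≤ 1
    rw [abs_div, abs_of_pos hR0, div_le_one hR0]
    exact (hE t _).trans hR
  · intro (ω : Ω) (ω' : Ω) h h' hL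
    have h1 := hh ω ω' h h' hL
    have n1 := ediv_near (N ω) R
    have n2 := ediv_near (N ω') R
    -- the rounded coefficients
    have hcr : ∀ a : Fin D, |(((⌊(2 : ℝ) ^ X * (q (L ω) a / 2 ^ R)⌋ : ℤ) : ℝ) / 2 ^ X) -
        q (L ω) a / 2 ^ R| ≤ 1 / 2 ^ X := fun a => by
      have k1 := Int.floor_le ((2 : ℝ) ^ X * (q (L ω) a / 2 ^ R))
      have k2 := Int.lt_floor_add_one ((2 : ℝ) ^ X * (q (L ω) a / 2 ^ R))
      rw [abs_le]
      constructor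
      · rw [le_sub_iff_add_le, le_div_iff₀ hX]
        have : (-(1 / 2 ^ X) + q (L ω) a / 2 ^ R) * (2 : ℝ) ^ X =
          2 ^ X * (q (L ω) a / 2 ^ R) - 1 := by field_simp; ring
        rw [this]
        linarith
      · rw [sub_le_iff_le_add, div_le_iff₀ hX]
        have : (1 / 2 ^ X + q (L ω) a / 2 ^ R) * (2 : ℝ) ^ X =
          2 ^ X * (q (L ω) a / 2 ^ R) + 1 := by field_simp; ring
        rw [this]
        linarith
    obtain ⟨ZZ, hZZ⟩ : ∃ ZZ : ℝ, ZZ = (ldm K p L T y q N th E S X R).Z b (T ω) (T ω')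
      (fun _ => y (L ω), fun a => ⌊(2 : ℝ) ^ X * (q (L ω) a / 2 ^ R)⌋) := ⟨_, rfl⟩
    have hZ : ZZ =
        ∑ a : Fin D, (th (T ω') ^ (a.val + 1) - th (T ω) ^ (a.val + 1)) *
          (((⌊(2 : ℝ) ^ X * (q (L ω) a / 2 ^ R)⌋ : ℤ) : ℝ) / 2 ^ X) -
        (S (T ω') / 2 ^ R - S (T ω) / 2 ^ R) -
        ((∑ a ∈ Finset.Icc 1 K, E (T ω') a * (y (L ω) / 2 ^ X) ^ a) / 2 ^ R -
          (∑ a ∈ Finset.Icc 1 K, E (T ω) a * (y (L ω) / 2 ^ X) ^ a) / 2 ^ R) := by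
      rw [hZZ]
      unfold LDat.Z
      have e0 : ∀ t : τ, (∑ a ∈ Finset.Icc 1 K, E t a / 2 ^ R * (((y (L ω) : ℤ) : ℝ) / 2 ^ X) ^ a) =
          (∑ a ∈ Finset.Icc 1 K, E t a * (y (L ω) / 2 ^ X) ^ a) / 2 ^ R := by
        intro t
        rw [Finset.sum_div]
        refine Finset.sum_congr rfl fun a _ => ?_
        ring
      have e1 := pol1 b hg (fun a => E (T ω') a / 2 ^ R) (((y (L ω) : ℤ) : ℝ) / 2 ^ X)
      have e2 := pol1 b hg (fun a => E (T ω) a / 2 ^ R) (((y (L ω) : ℤ) : ℝ) / 2 ^ X)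
      rw [e0] at e1 e2
      show _ - _ - (pol b (fun i => E (T ω') ((i : Fin 1 → ℕ) 0) / 2 ^ R)
          (fun j => ((y (L ω) : ℤ) : ℝ) / 2 ^ X) -
        pol b (fun i => E (T ω) ((i : Fin 1 → ℕ) 0) / 2 ^ R)
          (fun j => ((y (L ω) : ℤ) : ℝ) / 2 ^ X)) = _
      rw [e1, e2]
      rfl
    have hdiff : |ZZ -
        (hgm K y q th E S X (L ω) (T ω') - hgm K y q th E S X (L ω) (T ω)) / 2 ^ R| ≤
        D * (1 / 2 ^ X) := by
      rw [hZ]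
      have e3 : ∑ a : Fin D, (th (T ω') ^ (a.val + 1) - th (T ω) ^ (a.val + 1)) *
          (((⌊(2 : ℝ) ^ X * (q (L ω) a / 2 ^ R)⌋ : ℤ) : ℝ) / 2 ^ X) -
        (S (T ω') / 2 ^ R - S (T ω) / 2 ^ R) -
        ((∑ a ∈ Finset.Icc 1 K, E (T ω') a * (y (L ω) / 2 ^ X) ^ a) / 2 ^ R -
          (∑ a ∈ Finset.Icc 1 K, E (T ω) a * (y (L ω) / 2 ^ X) ^ a) / 2 ^ R) -
        (hgm K y q th E S X (L ω) (T ω') - hgm K y q th E S X (L ω) (T ω)) / 2 ^ R =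
        ∑ a : Fin D, (th (T ω') ^ (a.val + 1) - th (T ω) ^ (a.val + 1)) *
          ((((⌊(2 : ℝ) ^ X * (q (L ω) a / 2 ^ R)⌋ : ℤ) : ℝ) / 2 ^ X) - q (L ω) a / 2 ^ R) := by
        unfold hgm
        have e4 : ∑ a : Fin D, (th (T ω') ^ (a.val + 1) - th (T ω) ^ (a.val + 1)) *
          ((((⌊(2 : ℝ) ^ X * (q (L ω) a / 2 ^ R)⌋ : ℤ) : ℝ) / 2 ^ X) - q (L ω) a / 2 ^ R) =
          ∑ a : Fin D, (th (T ω') ^ (a.val + 1) - th (T ω) ^ (a.val + 1)) *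
          (((⌊(2 : ℝ) ^ X * (q (L ω) a / 2 ^ R)⌋ : ℤ) : ℝ) / 2 ^ X) -
          (∑ a : Fin D, q (L ω) a * th (T ω') ^ (a.val + 1) -
            ∑ a : Fin D, q (L ω) a * th (T ω) ^ (a.val + 1)) / 2 ^ R := by
          rw [← Finset.sum_sub_distrib, Finset.sum_div, ← Finset.sum_sub_distrib]
          refine Finset.sum_congr rfl fun a _ => ?_
          ring
        rw [e4]
        ring
      rw [e3]
      refine (Finset.abs_sum_le_sum_abs _ _).trans ?_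
      refine (Finset.sum_le_card_nsmul _ _ (1 / 2 ^ X) fun a _ => ?_).trans (le_of_eq (by simp))
      rw [abs_mul]
      have t1 := hth (T ω)
      have t2 := hth (T ω')
      have k3 : |th (T ω') ^ (a.val + 1) - th (T ω) ^ (a.val + 1)| ≤ 1 := by
        rw [abs_le]
        have a1 : th (T ω') ^ (a.val + 1) ≤ 1 := pow_le_one₀ t2.1 t2.2.le
        have a2 : th (T ω) ^ (a.val + 1) ≤ 1 := pow_le_one₀ t1.1 t1.2.le
        have a3 : 0 ≤ th (T ω') ^ (a.val + 1) := pow_nonneg t2.1 _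
        have a4 : 0 ≤ th (T ω) ^ (a.val + 1) := pow_nonneg t1.1 _
        constructor <;> linarith
      calc _ ≤ 1 * (1 / 2 ^ X) := mul_le_mul k3 (hcr a) (abs_nonneg _) zero_le_one
        _ = 1 / 2 ^ X := one_mul _
    have e6 : ((N ω' : ℝ) - N ω) / 2 ^ R -
        2 ^ X * ((hgm K y q th E S X (L ω) (T ω') - hgm K y q th E S X (L ω) (T ω)) / 2 ^ R) =
        (((N ω' : ℝ) - N ω) - 2 ^ X * (hgm K y q th E S X (L ω) (T ω') -
        hgm K y q th E S X (L ω) (T ω))) / 2 ^ R := by ring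
    have k5 : |((N ω' : ℝ) - N ω) / 2 ^ R -
        2 ^ X * ((hgm K y q th E S X (L ω) (T ω') - hgm K y q th E S X (L ω) (T ω)) / 2 ^ R)| ≤
        1 := by
      rw [e6, abs_div, abs_of_pos hR0, div_le_one hR0]
      exact h1.trans hR
    have k6 : |(2 : ℝ) ^ X * ZZ -
        2 ^ X * ((hgm K y q th E S X (L ω) (T ω') - hgm K y q th E S X (L ω) (T ω)) / 2 ^ R)| ≤
          D := by
      rw [← mul_sub, abs_mul, abs_of_pos hX]
      refine (mul_le_mul_of_nonneg_left hdiff hX.le).trans (le_of_eq ?_)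
      field_simp
    have k7 : ((3 : ℝ) + D) ≤ 2 ^ (D + 2) := by
      have d1 : ((D : ℝ) + 1) ≤ 2 ^ D := by
        have : D + 1 ≤ 2 ^ D := Nat.lt_two_pow_self
        exact_mod_cast this
      rw [pow_add]
      have d0 : (0 : ℝ) ≤ D := Nat.cast_nonneg _
      linarith
    show |(((N ω' / 2 ^ R : ℤ) : ℝ) - ((N ω / 2 ^ R : ℤ) : ℝ)) - 2 ^ X *
      (ldm K p L T y q N th E S X R).Z b (T ω) (T ω')
      (fun _ => y (L ω), fun a => ⌊(2 : ℝ) ^ X * (q (L ω) a / 2 ^ R)⌋)| ≤ _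
    rw [← hZZ]
    have e7 : (((N ω' / 2 ^ R : ℤ) : ℝ) - ((N ω / 2 ^ R : ℤ) : ℝ)) - 2 ^ X * ZZ =
      (((N ω' / 2 ^ R : ℤ) : ℝ) - (N ω' : ℝ) / 2 ^ R) - (((N ω / 2 ^ R : ℤ) : ℝ) - (N ω : ℝ) / 2 ^ R)
      + (((N ω' : ℝ) - N ω) / 2 ^ R -
        2 ^ X * ((hgm K y q th E S X (L ω) (T ω') - hgm K y q th E S X (L ω) (T ω)) / 2 ^ R))
      - ((2 : ℝ) ^ X * ZZ -
        2 ^ X * ((hgm K y q th E S X (L ω) (T ω') - hgm K y q th E S X (L ω) (T ω)) / 2 ^ R)) := by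
      ring
    rw [e7]
    rw [abs_le] at n1 n2 k5 k6 ⊢
    constructor <;> linarith

theorem ldm_Q1 (K : ℕ) (p : Ω → ℝ) (L : Ω → Λ) (T : Ω → τ) (y : Λ → ℤ) (q : Λ → Fin D → ℝ)
    (N : Ω → ℤ) (th : τ → ℝ) (E : τ → ℕ → ℝ) (S : τ → ℝ) (X R : ℕ) :
    (ldm K p L T y q N th E S X R).Q1 = q1 p L D := by
  unfold LDat.Q1 q1
  rw [Pool.M5.RWA.Qr_tup]
  rfl

end

end Pool.LSH
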