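import Pool.Agent.H48.GEN.LevP
import Pool.Agent.H50.LBL.Pl1
import Pool.Agent.H36.KBX.Coef

/-!
# L1 level by level, sheets: polynomials
-/

set_option autoImplicit false

namespace Pool.LSH

open Finset Real Polynomial
open Pool.LBL Pool.LEV
open Pool.Agent.H36.KBX (bx mem_bx support_bx)

section

theorem coeff_l1 (q : ℝ[X]) (a : ℕ) : |q.coeff a| ≤ l1 q := by
  unfold l1
  by_cases h : a ∈ q.support
  · exact Finset.single_le_sum (f := fun i => |q.coeff i|) (fun i _ => abs_nonneg _) h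
  · rw [Polynomial.notMem_support_iff.mp h, abs_zero]
    exact Finset.sum_nonneg fun _ _ => abs_nonneg _

theorem l1_X_pow (a : ℕ) : l1 (X ^ a : ℝ[X]) = 1 := by
  have : (X ^ a : ℝ[X]) = monomial a 1 := by rw [← Polynomial.monomial_one_right_eq_X_pow]
  rw [this, l1_monomial, abs_one]

theorem l1_pow {q : ℝ[X]} {b : ℝ} (h : l1 q ≤ b) (a : ℕ) : l1 (q ^ a) ≤ b ^ a := by
  have h1 := l1_prod (Finset.range a) (fun _ => q) b ((l1_nn q).trans h) (fun _ _ => h)
  rw [Finset.prod_const, Finset.card_range] at h1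
  exact h1

/-! ### Polynomials in several variables -/

variable {k K n : ℕ}

theorem deg_le_sum (F : MvPolynomial (Fin k) ℝ) (hF : F.totalDegree ≤ K) {α : Fin k →₀ ℕ}
    (hα : α ∈ F.support) : ∑ i, α i ≤ K := by
  have h1 := (MvPolynomial.le_totalDegree hα).trans hF
  rwa [Finsupp.sum_fintype _ _ (fun _ => rfl)] at h1

/-- The power of a bounded number. -/
theorem pow_near {B ε x x' : ℝ} (hB : 1 ≤ B) (hx : |x| ≤ B) (hx' : |x'| ≤ B)
    (h : |x - x'| ≤ ε) (a : ℕ) : |x ^ a - x' ^ a| ≤ a * B ^ a * ε := by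
  have hB0 : 0 ≤ B := by linarith
  have hε : 0 ≤ ε := (abs_nonneg _).trans h
  induction a with
  | zero => simp
  | succ a ih =>
    have e : x ^ (a + 1) - x' ^ (a + 1) = x ^ a * (x - x') + (x ^ a - x' ^ a) * x' := by ring
    rw [e]
    refine (abs_add_le _ _).trans ?_
    rw [abs_mul, abs_mul, abs_pow]
    have h1 : |x| ^ a * |x - x'| ≤ B ^ a * ε :=
      mul_le_mul (pow_le_pow_left₀ (abs_nonneg _) hx a) h (abs_nonneg _) (by positivity)
    have h2 : |x ^ a - x' ^ a| * |x'| ≤ (a * B ^ a * ε) * B :=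
      mul_le_mul ih hx' (abs_nonneg _) (by positivity)
    have h3 : B ^ a * ε ≤ B ^ (a + 1) * ε :=
      mul_le_mul_of_nonneg_right (pow_le_pow_right₀ hB (Nat.le_succ a)) hε
    push_cast
    calc |x| ^ a * |x - x'| + |x ^ a - x' ^ a| * |x'|
        ≤ B ^ (a + 1) * ε + (a * B ^ a * ε) * B := by linarith
      _ = (a + 1) * B ^ (a + 1) * ε := by ring

/-- A monomial at near points. -/
theorem prod_near {ι : Type} (s : Finset ι) (α : ι → ℕ) {B ε : ℝ} (hB : 1 ≤ B) (hε : 0 ≤ ε)
    {x x' : ι → ℝ} (hx : ∀ i, |x i| ≤ B) (hx' : ∀ i, |x' i| ≤ B) (h : ∀ i, |x i - x' i| ≤ ε) :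
    |∏ i ∈ s, x i ^ α i - ∏ i ∈ s, x' i ^ α i| ≤
      (∑ i ∈ s, α i : ℕ) * B ^ (∑ i ∈ s, α i) * ε := by
  classical
  have hB0 : 0 ≤ B := by linarith
  induction s using Finset.induction_on with
  | empty => simp
  | insert i s hi ih =>
    rw [Finset.prod_insert hi, Finset.prod_insert hi, Finset.sum_insert hi]
    have e : x i ^ α i * ∏ j ∈ s, x j ^ α j - x' i ^ α i * ∏ j ∈ s, x' j ^ α j =
        x i ^ α i * (∏ j ∈ s, x j ^ α j - ∏ j ∈ s, x' j ^ α j) +
          (x i ^ α i - x' i ^ α i) * ∏ j ∈ s, x' j ^ α j := by ring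
    rw [e]
    refine (abs_add_le _ _).trans ?_
    rw [abs_mul, abs_mul, abs_pow]
    have h2 : |∏ j ∈ s, x' j ^ α j| ≤ B ^ (∑ i ∈ s, α i) := by
      rw [Finset.abs_prod, ← Finset.prod_pow_eq_pow_sum]
      refine Finset.prod_le_prod (fun _ _ => abs_nonneg _) fun j _ => ?_
      rw [abs_pow]
      exact pow_le_pow_left₀ (abs_nonneg _) (hx' j) _
    have h3 : |x i| ^ α i * |∏ j ∈ s, x j ^ α j - ∏ j ∈ s, x' j ^ α j| ≤
        B ^ α i * ((∑ i ∈ s, α i : ℕ) * B ^ (∑ i ∈ s, α i) * ε) :=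
      mul_le_mul (pow_le_pow_left₀ (abs_nonneg _) (hx i) _) ih (abs_nonneg _) (by positivity)
    have h4 : |x i ^ α i - x' i ^ α i| * |∏ j ∈ s, x' j ^ α j| ≤
        (α i * B ^ α i * ε) * B ^ (∑ i ∈ s, α i) :=
      mul_le_mul (pow_near hB (hx i) (hx' i) (h i) _) h2 (abs_nonneg _) (by positivity)
    refine (add_le_add h3 h4).trans (le_of_eq ?_)
    rw [pow_add]
    push_cast
    ring

/-- The number of monomials. -/
noncomputable def nk (k K : ℕ) : ℝ := (bx k K).card

theorem nk_nn (k K : ℕ) : 0 ≤ nk k K := Nat.cast_nonneg _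

theorem card_nk (F : MvPolynomial (Fin k) ℝ) (hF : F.totalDegree ≤ K) :
    ((F.support.card : ℕ) : ℝ) ≤ nk k K := by
  unfold nk
  exact_mod_cast Finset.card_le_card (support_bx F hF)

/-- A polynomial at near points. -/
theorem poly_near (F : MvPolynomial (Fin k) ℝ) (hF : F.totalDegree ≤ K) {M B ε : ℝ}
    (hM : ∀ α, |MvPolynomial.coeff α F| ≤ M) (hB : 1 ≤ B) (hε : 0 ≤ ε) {x x' : Fin k → ℝ}
    (hx : ∀ i, |x i| ≤ B) (hx' : ∀ i, |x' i| ≤ B) (h : ∀ i, |x i - x' i| ≤ ε) :
    |MvPolynomial.eval x F - MvPolynomial.eval x' F| ≤ nk k K * (M * (K * B ^ K * ε)) := by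
  classical
  have hB0 : 0 ≤ B := by linarith
  have hM0 : 0 ≤ M := (abs_nonneg _).trans (hM 0)
  rw [MvPolynomial.eval_eq', MvPolynomial.eval_eq', ← Finset.sum_sub_distrib]
  refine (Finset.abs_sum_le_sum_abs _ _).trans ?_
  have h1 : ∀ α ∈ F.support, |MvPolynomial.coeff α F * ∏ i, x i ^ α i -
      MvPolynomial.coeff α F * ∏ i, x' i ^ α i| ≤ M * (K * B ^ K * ε) := by
    intro α hα
    rw [← mul_sub, abs_mul]
    have h2 := prod_near univ (fun i => α i) hB hε hx hx' h
    have h3 := deg_le_sum F hF hα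
    refine mul_le_mul (hM α) (h2.trans ?_) (abs_nonneg _) hM0
    refine mul_le_mul_of_nonneg_right ?_ hε
    exact mul_le_mul (by exact_mod_cast h3) (pow_le_pow_right₀ hB h3) (by positivity)
      (by positivity)
  refine (Finset.sum_le_sum h1).trans ?_
  rw [Finset.sum_const, nsmul_eq_mul]
  refine mul_le_mul_of_nonneg_right ?_ (by positivity)
  exact card_nk F hF

/-- The size of a composition. -/
theorem l1_aeval (F : MvPolynomial (Fin k) ℝ) (hF : F.totalDegree ≤ K) {M B : ℝ}
    (hM : ∀ α, |MvPolynomial.coeff α F| ≤ M) (hB : 1 ≤ B) {f : Fin k → ℝ[X]}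
    (hf : ∀ i, l1 (f i) ≤ B) : l1 (MvPolynomial.aeval f F) ≤ nk k K * (M * B ^ K) := by
  classical
  have hB0 : 0 ≤ B := by linarith
  have hM0 : 0 ≤ M := (abs_nonneg _).trans (hM 0)
  rw [MvPolynomial.aeval_def, MvPolynomial.eval₂_eq']
  refine (l1_sum_le _ _ (M * B ^ K) fun α hα => ?_).trans ?_
  · refine l1_mul_le ?_ ?_
    · rw [Polynomial.algebraMap_eq, l1_C]
      exact hM α
    · have h1 : ∀ s : Finset (Fin k), l1 (∏ i ∈ s, f i ^ α i) ≤ B ^ (∑ i ∈ s, α i) := by
        intro s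
        induction s using Finset.induction_on with
        | empty =>
          rw [Finset.prod_empty, Finset.sum_empty, pow_zero]
          have : (1 : ℝ[X]) = C 1 := by simp
          rw [this, l1_C, abs_one]
        | insert i s hi ih =>
          rw [Finset.prod_insert hi, Finset.sum_insert hi, pow_add]
          exact l1_mul_le (l1_pow (hf i) _) ih
      exact (h1 univ).trans (pow_le_pow_right₀ hB (deg_le_sum F hF hα))
  · exact mul_le_mul_of_nonneg_right (card_nk F hF) (by positivity)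

theorem deg_aeval (F : MvPolynomial (Fin k) ℝ) (hF : F.totalDegree ≤ K) {f : Fin k → ℝ[X]}
    (hf : ∀ i, (f i).natDegree ≤ n) : (MvPolynomial.aeval f F).natDegree ≤ K * n := by
  rw [MvPolynomial.aeval_def, MvPolynomial.eval₂_eq']
  refine Polynomial.natDegree_sum_le_of_forall_le _ _ fun α hα => ?_
  refine Polynomial.natDegree_mul_le.trans ?_
  have h0 : (algebraMap ℝ ℝ[X] (MvPolynomial.coeff α F)).natDegree = 0 := by
    rw [Polynomial.algebraMap_eq, Polynomial.natDegree_C]
  rw [h0, zero_add]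
  refine (Polynomial.natDegree_prod_le _ _).trans ?_
  refine (Finset.sum_le_sum (g := fun j => α j * n) fun j _ => ?_).trans ?_
  · exact Polynomial.natDegree_pow_le.trans (Nat.mul_le_mul_left _ (hf j))
  · rw [← Finset.sum_mul]
    exact Nat.mul_le_mul_right _ (deg_le_sum F hF hα)

theorem eval_aev (f : Fin k → ℝ[X]) (F : MvPolynomial (Fin k) ℝ) (y : ℝ) :
    (MvPolynomial.aeval f F).eval y = MvPolynomial.eval (fun i => (f i).eval y) F := by
  rw [MvPolynomial.aeval_def, MvPolynomial.eval₂_eq', Polynomial.eval_finsetSum,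
    MvPolynomial.eval_eq']
  refine Finset.sum_congr rfl fun d _ => ?_
  rw [Polynomial.eval_mul, Polynomial.eval_prod, Polynomial.algebraMap_eq, Polynomial.eval_C]
  congr 1
  refine Finset.prod_congr rfl fun j _ => ?_
  rw [Polynomial.eval_pow]

/-- Killing the last variable. -/
noncomputable def kill (F : MvPolynomial (Fin (k + 1)) ℝ) : MvPolynomial (Fin k) ℝ :=
  MvPolynomial.killCompl (Fin.castSucc_injective k) F

theorem eval_kill (F : MvPolynomial (Fin (k + 1)) ℝ) (x : Fin (k + 1) → ℝ)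
    (h : x (Fin.last k) = 0) :
    MvPolynomial.eval (fun i : Fin k => x i.castSucc) (kill F) = MvPolynomial.eval x F := by
  classical
  have key : ((MvPolynomial.eval (fun i : Fin k => x i.castSucc)).comp
      (MvPolynomial.killCompl (R := ℝ) (Fin.castSucc_injective k)).toRingHom) =
      MvPolynomial.eval x := by
    refine MvPolynomial.ringHom_ext (fun r => ?_) fun i => ?_
    · show MvPolynomial.eval (fun i : Fin k => x i.castSucc)
        (MvPolynomial.killCompl (Fin.castSucc_injective k) (MvPolynomial.C r)) = _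
      rw [MvPolynomial.killCompl_C, MvPolynomial.eval_C, MvPolynomial.eval_C]
    · show MvPolynomial.eval (fun i : Fin k => x i.castSucc)
        (MvPolynomial.killCompl (Fin.castSucc_injective k) (MvPolynomial.X i)) = _
      rcases Fin.eq_castSucc_or_eq_last i with ⟨j, rfl⟩ | rfl
      · have h1 : (MvPolynomial.X j.castSucc : MvPolynomial (Fin (k + 1)) ℝ) =
            MvPolynomial.rename Fin.castSucc (MvPolynomial.X j) := by
          rw [MvPolynomial.rename_X]
        rw [h1, MvPolynomial.killCompl_rename_app, MvPolynomial.rename_X, MvPolynomial.eval_X,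
          MvPolynomial.eval_X]
      · rw [MvPolynomial.killCompl, MvPolynomial.aeval_X, dif_neg, map_zero, MvPolynomial.eval_X,
          h]
        rintro ⟨j, hj⟩
        exact absurd hj (Fin.castSucc_lt_last j).ne
  exact congrArg (fun φ => φ F) key

theorem coeff_kill (F : MvPolynomial (Fin (k + 1)) ℝ) {M : ℝ}
    (h : ∀ α, |MvPolynomial.coeff α F| ≤ M) (α : Fin k →₀ ℕ) :
    |MvPolynomial.coeff α (kill F)| ≤ M := by
  unfold kill
  rw [MvPolynomial.coeff_killCompl]
  exact h _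

theorem deg_kill (F : MvPolynomial (Fin (k + 1)) ℝ) (h : F.totalDegree ≤ K) :
    (kill F).totalDegree ≤ K := by
  refine Finset.sup_le fun α hα => ?_
  rw [MvPolynomial.mem_support_iff] at hα
  unfold kill at hα
  rw [MvPolynomial.coeff_killCompl] at hα
  have h1 := (MvPolynomial.le_totalDegree (MvPolynomial.mem_support_iff.2 hα)).trans h
  refine le_trans (le_of_eq ?_) h1
  rw [Finsupp.sum_mapDomain_index_inj (Fin.castSucc_injective k)]

end

end Pool.LSH
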