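import Pool.Agent.H48.GEN.ShP

/-!
# L1 level by level, sheets: the sheet as a polynomial, bounds
-/

set_option autoImplicit false

namespace Pool.LSH

open Finset Real Polynomial
open Pool.LBL Pool.LEV

section

variable {n m K k : ℕ}

/-- A coordinate of the sheet as a polynomial in the position. -/
noncomputable def spy (g : Fin (n + 1) → Fin (n + 1) → ℝ) (t : ℝ) : ℝ[X] :=
  ∑ b : Fin (n + 1), C (∑ a, g a b * t ^ a.val) * X ^ b.val

theorem spy_eval (g : Fin (n + 1) → Fin (n + 1) → ℝ) (t y : ℝ) :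
    (spy g t).eval y = ∑ a, ∑ b, g a b * t ^ a.val * y ^ b.val := by
  unfold spy
  rw [Polynomial.eval_finsetSum, Finset.sum_comm]
  refine Finset.sum_congr rfl fun b _ => ?_
  rw [eval_mul, eval_C, eval_pow, eval_X, Finset.sum_mul]

theorem spy_deg (g : Fin (n + 1) → Fin (n + 1) → ℝ) (t : ℝ) : (spy g t).natDegree ≤ n := by
  unfold spy
  refine natDegree_sum_le_of_forall_le _ _ fun b _ => ?_
  refine (natDegree_C_mul_X_pow_le _ _).trans ?_
  have := b.2
  omega

theorem spy_l1 {g : Fin (n + 1) → Fin (n + 1) → ℝ} {M t : ℝ} (hg : ∀ a b, |g a b| ≤ M)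
    (ht : |t| ≤ 1) : l1 (spy g t) ≤ (n + 1) ^ 2 * M := by
  have hM : 0 ≤ M := (abs_nonneg _).trans (hg 0 0)
  unfold spy
  refine (l1_sum_le _ _ ((n + 1) * M) fun b _ => ?_).trans (le_of_eq ?_)
  · have h1 : |∑ a, g a b * t ^ a.val| ≤ (n + 1) * M := by
      refine (Finset.abs_sum_le_sum_abs _ _).trans ?_
      refine (Finset.sum_le_card_nsmul _ _ M fun a _ => ?_).trans (le_of_eq ?_)
      · rw [abs_mul, abs_pow]
        calc |g a b| * |t| ^ a.val ≤ M * 1 :=
              mul_le_mul (hg a b) (pow_le_one₀ (abs_nonneg _) ht) (by positivity) hM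
          _ = M := mul_one _
      · rw [Finset.card_univ, Fintype.card_fin, nsmul_eq_mul]
        push_cast
        ring
    have h2 := l1_mul_le (p := C (∑ a, g a b * t ^ a.val)) (q := X ^ b.val) (a := (n + 1) * M)
      (b := 1) (by rw [l1_C]; exact h1) (l1_X_pow _).le
    rwa [mul_one] at h2
  · rw [Finset.card_univ, Fintype.card_fin]
    push_cast
    ring

/-- A coordinate of the sheet at the position zero, as a polynomial in the time. -/
noncomputable def st0 (g : Fin (n + 1) → Fin (n + 1) → ℝ) : ℝ[X] :=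
  ∑ a : Fin (n + 1), C (g a 0) * X ^ a.val

theorem st0_eval (g : Fin (n + 1) → Fin (n + 1) → ℝ) (t : ℝ) :
    (st0 g).eval t = ∑ a, ∑ b, g a b * t ^ a.val * (0 : ℝ) ^ b.val := by
  unfold st0
  rw [Polynomial.eval_finsetSum]
  refine Finset.sum_congr rfl fun a _ => ?_
  rw [eval_mul, eval_C, eval_pow, eval_X, Finset.sum_eq_single (0 : Fin (n + 1))]
  · simp
  · intro b _ hb
    have : b.val ≠ 0 := fun h => hb (Fin.ext h)
    rw [zero_pow this, mul_zero]
  · intro h
    exact absurd (Finset.mem_univ _) h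

theorem st0_deg (g : Fin (n + 1) → Fin (n + 1) → ℝ) : (st0 g).natDegree ≤ n := by
  unfold st0
  refine natDegree_sum_le_of_forall_le _ _ fun b _ => ?_
  refine (natDegree_C_mul_X_pow_le _ _).trans ?_
  have := b.2
  omega

theorem st0_l1 {g : Fin (n + 1) → Fin (n + 1) → ℝ} {M : ℝ} (hg : ∀ a b, |g a b| ≤ M) :
    l1 (st0 g) ≤ (n + 1) * M := by
  unfold st0
  refine (l1_sum_le _ _ M fun b _ => ?_).trans (le_of_eq ?_)
  · have h2 := l1_mul_le (p := C (g b 0)) (q := X ^ b.val) (a := M)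
      (b := 1) (by rw [l1_C]; exact hg _ _) (l1_X_pow _).le
    rwa [mul_one] at h2
  · rw [Finset.card_univ, Fintype.card_fin]
    push_cast
    ring

/-- The interpolation polynomial with separated nodes. -/
theorem l1_itp (θ f : Fin (m + 1) → ℝ) {k₀ : ℕ} {F : ℝ} (h1 : ∀ j, |θ j| ≤ 1)
    (hs : ∀ j j', j ≠ j' → (2 : ℝ) ^ (-(k₀ : ℤ)) ≤ |θ j - θ j'|) (hf : ∀ j, |f j| ≤ F) :
    l1 (Lagrange.interpolate univ θ f) ≤ (m + 1) * ((m + 1) * 2 ^ ((k₀ + 1) * m) * F) := by
  have hθ := Pool.M5.L48.sep_injective hs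
  rw [l1_eq (S := range (m + 1)) (by
    intro a ha
    rw [Finset.mem_range]
    have h2 := Polynomial.le_natDegree_of_mem_supp a ha
    have h3 := itp_deg θ f hθ
    omega)]
  refine (Finset.sum_le_card_nsmul _ _ _ fun a _ =>
    Pool.M5.L48.lag_le θ f h1 hs hf a).trans (le_of_eq ?_)
  rw [Finset.card_range, nsmul_eq_mul]
  push_cast
  ring

/-! ### The product of the coefficients and of the powers -/

/-- The value on the sheet minus the value where the coordinate is zero. -/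
noncomputable def qpol (N : ℕ) (G : ℕ → ℝ[X]) (y : ℝ) (p : ℝ[X]) : ℝ[X] :=
  ∑ a ∈ Finset.Icc 1 N, G a * (C (y ^ a) - (-p) ^ a)

theorem qpol_eval (N : ℕ) (G : ℕ → ℝ[X]) (y : ℝ) (p : ℝ[X]) (t : ℝ) :
    (qpol N G y p).eval t = ∑ a ∈ Finset.Icc 1 N, (G a).eval t * (y ^ a - (-p.eval t) ^ a) := by
  unfold qpol
  rw [Polynomial.eval_finsetSum]
  refine Finset.sum_congr rfl fun a _ => ?_
  rw [eval_mul, eval_sub, eval_C, eval_pow, eval_neg]

theorem qpol_deg {N : ℕ} {G : ℕ → ℝ[X]} {y : ℝ} {p : ℝ[X]} (hG : ∀ a, (G a).natDegree ≤ m)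
    (hp : p.natDegree ≤ n) : (qpol N G y p).natDegree ≤ m + N * n := by
  unfold qpol
  refine natDegree_sum_le_of_forall_le _ _ fun a ha => ?_
  rw [Finset.mem_Icc] at ha
  refine natDegree_mul_le.trans (add_le_add (hG a) ?_)
  refine (natDegree_sub_le _ _).trans (max_le ?_ ?_)
  · rw [natDegree_C]
    exact Nat.zero_le _
  · refine natDegree_pow_le.trans ?_
    rw [natDegree_neg]
    exact Nat.mul_le_mul ha.2 hp

theorem yp_le {N a : ℕ} {y p P : ℝ} (hy : |y| ≤ 1) (hp : |p| ≤ P) (hP : 1 ≤ P) (ha : a ≤ N) :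
    |y ^ a - (-p) ^ a| ≤ 2 * P ^ N := by
  have h1 : |y ^ a| ≤ P ^ N := by
    rw [abs_pow]
    exact (pow_le_one₀ (abs_nonneg _) hy).trans (one_le_pow₀ hP)
  have h2 : |(-p) ^ a| ≤ P ^ N := by
    rw [abs_pow, abs_neg]
    exact (pow_le_pow_left₀ (abs_nonneg _) hp a).trans (pow_le_pow_right₀ hP ha)
  have := abs_sub (y ^ a) ((-p) ^ a)
  linarith

theorem qpol_l1 {N : ℕ} {G : ℕ → ℝ[X]} {y g P : ℝ} {p : ℝ[X]} (hG : ∀ a, l1 (G a) ≤ g)
    (hy : |y| ≤ 1) (hp : l1 p ≤ P) (hP : 1 ≤ P) :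
    l1 (qpol N G y p) ≤ N * (g * (2 * P ^ N)) := by
  unfold qpol
  refine (l1_sum_le _ _ (g * (2 * P ^ N)) fun a ha => ?_).trans (le_of_eq ?_)
  · rw [Finset.mem_Icc] at ha
    refine l1_mul_le (hG a) ((l1_sub _ _).trans ?_)
    have h1 : l1 (C (y ^ a)) ≤ P ^ N := by
      rw [l1_C, abs_pow]
      exact (pow_le_one₀ (abs_nonneg _) hy).trans (one_le_pow₀ hP)
    have h2 : l1 ((-p) ^ a) ≤ P ^ N := by
      refine (l1_pow (b := P) (by rw [l1_neg]; exact hp) a).trans ?_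
      exact pow_le_pow_right₀ hP ha.2
    linarith
  · rw [Nat.card_Icc]
    simp

/-! ### The constants -/

/-- The coefficients of the shape on the sheet. -/
noncomputable def bE (k n K : ℕ) (W : ℝ) : ℝ := nk k K * (W * ((n + 1) ^ 2 * W) ^ K)

/-- The error of the position. -/
noncomputable def e1 (k n K : ℕ) (W : ℝ) : ℝ := nk k K * (W * (K * ((n + 1) ^ 2 * W) ^ K * W))

/-- The powers. -/
noncomputable def bP (n K : ℕ) (W : ℝ) : ℝ := 2 * ((n + 1) * W) ^ (K * n)

/-- The error of the interpolation. -/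
noncomputable def e2 (n K : ℕ) (W : ℝ) : ℝ := (K * n : ℕ) * bP n K W

/-- The coefficients of the product. -/
noncomputable def bQ (k n m K k₀ : ℕ) (W : ℝ) : ℝ :=
  (K * n : ℕ) * ((m + 1) * ((m + 1) * 2 ^ ((k₀ + 1) * m) * bE k n K W) * bP n K W)

/-- The frozen sheet. -/
noncomputable def bF (n : ℕ) (W : ℝ) : ℝ := (n + 1) ^ 2 * W * ((n + 1) * W) ^ n

/-- The rounding of the position. -/
noncomputable def bC (n : ℕ) (W : ℝ) : ℝ := n * ((n + 1) ^ 2 * W)

/-- The sum of all the bounds. -/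
noncomputable def bA (k n m K k₀ : ℕ) (W : ℝ) : ℝ :=
  bE k n K W + 2 * (e1 k n K W + e2 n K W) + bQ k n m K k₀ W + bF n W + bC n W + W + 2

theorem bA_parts (k n m K k₀ : ℕ) {W : ℝ} (hW : 0 ≤ W) : 0 ≤ bE k n K W ∧ 0 ≤ e1 k n K W ∧
    0 ≤ e2 n K W ∧ 0 ≤ bQ k n m K k₀ W ∧ 0 ≤ bF n W ∧ 0 ≤ bC n W ∧ 0 ≤ bP n K W := by
  have hnk := nk_nn k K
  have p1 : 0 ≤ bE k n K W := by unfold bE; positivity
  have p3 : 0 ≤ bP n K W := by unfold bP; positivity
  refine ⟨p1, ?_, ?_, ?_, ?_, ?_, p3⟩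
  · unfold e1; positivity
  · unfold e2; positivity
  · unfold bQ; positivity
  · unfold bF; positivity
  · unfold bC; positivity

theorem bA_le (k n m K k₀ : ℕ) : ∃ C : ℝ, 1 ≤ C ∧ ∀ W : ℝ, 1 ≤ W →
    bA k n m K k₀ W ≤ C * W ^ (K + K * n + n + 3) := by
  refine ⟨bA k n m K k₀ 1, ?_, ?_⟩
  · obtain ⟨p1, p2, p3, p4, p5, p6, -⟩ := bA_parts k n m K k₀ (W := 1) zero_le_one
    unfold bA
    linarith
  · intro W hW
    have hW0 : 0 ≤ W := by linarith
    have hnk := nk_nn k K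
    have hpow : ∀ e : ℕ, e ≤ K + K * n + n + 3 → W ^ e ≤ W ^ (K + K * n + n + 3) :=
      fun e he => pow_le_pow_right₀ hW he
    have hom : ∀ (A : ℝ) (e : ℕ), 0 ≤ A → e ≤ K + K * n + n + 3 →
        A * W ^ e ≤ A * W ^ (K + K * n + n + 3) := fun A e hA he =>
      mul_le_mul_of_nonneg_left (hpow e he) hA
    have a1 : bE k n K W = bE k n K 1 * W ^ (K + 1) := by
      unfold bE
      rw [mul_pow, mul_pow, one_pow, pow_succ]
      ring
    have a2 : e1 k n K W = e1 k n K 1 * W ^ (K + 2) := by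
      unfold e1
      rw [mul_pow, mul_pow, one_pow, pow_succ, pow_succ]
      ring
    have a3 : bP n K W = bP n K 1 * W ^ (K * n) := by
      unfold bP
      rw [mul_pow, mul_pow, one_pow]
      ring
    have a4 : e2 n K W = e2 n K 1 * W ^ (K * n) := by
      unfold e2
      rw [a3]
      ring
    have a5 : bQ k n m K k₀ W = bQ k n m K k₀ 1 * W ^ (K + 1 + K * n) := by
      unfold bQ
      rw [a1, a3, pow_add W (K + 1)]
      ring
    have a6 : bF n W = bF n 1 * W ^ (n + 1) := by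
      unfold bF
      rw [mul_pow, mul_pow, one_pow, pow_succ]
      ring
    have a7 : bC n W = bC n 1 * W ^ 1 := by
      unfold bC
      ring
    have p1 : 0 ≤ bE k n K 1 := by unfold bE; positivity
    have p2 : 0 ≤ e1 k n K 1 := by unfold e1; positivity
    have p3 : 0 ≤ bP n K 1 := by unfold bP; positivity
    have p4 : 0 ≤ e2 n K 1 := by unfold e2; positivity
    have p5 : 0 ≤ bQ k n m K k₀ 1 := by unfold bQ; positivity
    have p6 : 0 ≤ bF n 1 := by unfold bF; positivity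
    have p7 : 0 ≤ bC n 1 := by unfold bC; positivity
    have b1 := hom _ _ p1 (show K + 1 ≤ K + K * n + n + 3 by omega)
    have b2 := hom _ _ p2 (show K + 2 ≤ K + K * n + n + 3 by omega)
    have b4 := hom _ _ p4 (show K * n ≤ K + K * n + n + 3 by omega)
    have b5 := hom _ _ p5 (show K + 1 + K * n ≤ K + K * n + n + 3 by omega)
    have b6 := hom _ _ p6 (show n + 1 ≤ K + K * n + n + 3 by omega)
    have b7 := hom _ _ p7 (show 1 ≤ K + K * n + n + 3 by omega)
    have b8 := hom 1 1 zero_le_one (show 1 ≤ K + K * n + n + 3 by omega)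
    have b9 := hom 2 0 (by norm_num) (show 0 ≤ K + K * n + n + 3 by omega)
    unfold bA
    rw [a1, a2, a4, a5, a6, a7]
    rw [pow_one, one_mul] at b8
    rw [pow_zero, mul_one] at b9
    linarith

end

end Pool.LSH
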