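import Pool.Agent.H48.GEN.ShY
import Pool.Agent.H48.GEN.LevT

/-!
# L1 level by level, sheets: transport of the hypotheses to the nodes
-/

set_option autoImplicit false

namespace Pool.LSH

open Finset Real
open Pool.Agent.H49.Ent Pool.Agent.H32.Dense Pool.STK Pool.KAF Pool.SLO Pool.LEV
open Pool.KVA (MI)

/-- The entropy of a bounded position. -/
theorem hmax' {Ω : Type} [Fintype Ω] {q : Ω → ℝ} (hq : IsLaw q) {Y : Ω → ℤ} {X : ℕ}
    (hy : ∀ ω, 0 < q ω → |(Y ω : ℝ) / 2 ^ X| ≤ 1) : H q Y ≤ (X + 2) * Real.log 2 := by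
  have k1 := H_le_log_card hq.nonneg hq.sum_one Y
    (F := Finset.Icc (-(2 : ℤ) ^ X) (2 ^ X)) (fun ω hω => by
      have k2 := hy ω hω
      have k3 : (0 : ℝ) < 2 ^ X := by positivity
      rw [abs_div, abs_of_pos k3, div_le_one k3, abs_le] at k2
      rw [Finset.mem_Icc]
      constructor
      · have : ((-(2 : ℤ) ^ X : ℤ) : ℝ) ≤ ((Y ω : ℤ) : ℝ) := by
          push_cast
          exact k2.1
        exact_mod_cast this
      · have : ((Y ω : ℤ) : ℝ) ≤ (((2 : ℤ) ^ X : ℤ) : ℝ) := by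
          push_cast
          exact k2.2
        exact_mod_cast this)
  refine k1.trans ?_
  rw [Int.card_Icc]
  have e1 : ((2 : ℤ) ^ X + 1 - -(2 : ℤ) ^ X).toNat = 2 * 2 ^ X + 1 := by
    have : (2 : ℤ) ^ X + 1 - -(2 : ℤ) ^ X = ((2 * 2 ^ X + 1 : ℕ) : ℤ) := by
      push_cast
      ring
    rw [this, Int.toNat_natCast]
  rw [e1]
  have e2 : (((2 * 2 ^ X + 1 : ℕ)) : ℝ) ≤ 2 ^ (X + 2) := by
    push_cast
    have : (1 : ℝ) ≤ 2 ^ X := one_le_pow₀ one_le_two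
    rw [pow_add]
    linarith
  refine (Real.log_le_log (by positivity) e2).trans (le_of_eq ?_)
  rw [Real.log_pow]
  push_cast
  ring

namespace SDat

section

variable {k n m K : ℕ} (d : SDat k n m K)

/-- (H1), without the first digits. -/
def H1a (ι : ℝ) : Prop :=
  Pool.KVA.MI d.P d.T d.L (fun ω => d.B (d.L ω)) ≤ ι * d.X ∧
  (1 - ι) * d.X * Real.log 2 ≤ CH d.P (d.Ti d.X) d.L

/-- Two samples of one line have `kk i` common digits of the time with probability at most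
`2 ^ (-i)`. -/
def TCp (kk : ℕ → ℕ) (i₁ : ℕ) : Prop := ∀ i ≤ i₁,
  Pr (dbl d.P d.L) {w | |d.th (d.T w.2) - d.th (d.T w.1)| < (2 : ℝ) ^ (-(kk i : ℤ))} ≤ (1 / 2) ^ i

/-- (H5) with weights, for all blocks. -/
def H5w (c κ π₀ : ℝ) : Prop :=
  ∀ W : d.Om → ℝ, (∀ ω, 0 ≤ W ω ∧ W ω ≤ 1) → π₀ ≤ ∑ ω, d.P ω * W ω → ∀ r₁ r₂ : ℕ, r₁ ≤ r₂ →
    r₂ ≤ d.X → κ * d.X ≤ (r₂ : ℝ) - r₁ →
    CH (wt d.P W) (d.row r₂) (fun ω => (d.row r₁ ω, d.T ω)) ≤
      (1 - c) * ((r₂ : ℝ) - r₁) * Real.log 2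

end

variable {k n m K : ℕ} {d : SDat (k + 1) n m K}

/-- Digits of the time. -/
theorem Ti_div {X' : ℕ} (hX' : X' ≤ d.X) : d.Ti X' = fun ω => d.Ti d.X ω / 2 ^ (d.X - X') := by
  funext ω
  unfold Ti
  have h1 : (2 : ℝ) ^ X' * d.th (d.T ω) = (2 : ℝ) ^ d.X * d.th (d.T ω) / ((2 ^ (d.X - X') : ℕ)) := by
    have : (2 : ℝ) ^ d.X = 2 ^ X' * 2 ^ (d.X - X') := by
      rw [← pow_add]
      congr 1
      omega
    rw [this]
    push_cast
    field_simp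
  rw [h1, Int.floor_div_natCast]
  push_cast
  rfl

/-- Transport of (H1a). -/
theorem ext_H1a {c : ℝ} (h : d.OK Set.univ c) {k₀ X' : ℕ} {δ ι ι' : ℝ}
    (hX' : X' ≤ d.X) (hG : 1 / 2 ≤ Pr (tup d.P d.L (m + 1)) (d.good k₀ δ))
    (hι : 2 + 2 * ι * d.X ≤ ι' * X') (hH : d.H1a ι) : (d.ext k₀ X' δ).H1a ι' := by
  have hp0 := h.law.nonneg
  have ht0 := tup_nonneg hp0 d.L (m + 1)
  have htl : IsLaw (tup d.P d.L (m + 1)) := tup_isLaw h.law d.L (m + 1)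
  have hl2 : 0 < Real.log 2 := Real.log_pos one_lt_two
  have hl1 : Real.log 2 ≤ 1 := by
    have := Real.log_two_lt_d9
    linarith
  have hG0 : 0 < Pr (tup d.P d.L (m + 1)) (d.good k₀ δ) := by linarith
  obtain ⟨g1, g2⟩ := hH
  constructor
  · have k1 := mi_ev htl (fun v => d.T (sm v)) (Lx d.L d.T) (fun v => d.B (d.L (v 0)))
      (d.good k₀ δ) hG0
    rw [ext_time h.law d.L d.T d.B m d.T] at k1
    refine k1.trans ?_
    rw [div_le_iff₀ hG0]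
    have k2 : 0 ≤ ι' * X' := by
      refine le_trans ?_ hι
      have : 0 ≤ MI d.P d.T d.L (fun ω => d.B (d.L ω)) := Pool.M5.MI_nonneg hp0 _ _ _
      linarith
    show _ ≤ ι' * (X' : ℝ) * _
    nlinarith
  · have k1 : CH d.P (d.Ti d.X) d.L - ((d.X - X' : ℕ) : ℝ) * Real.log 2 ≤ CH d.P (d.Ti X') d.L := by
      rw [Ti_div hX']
      exact CH_dig_ge h.law (d.Ti d.X) (d.X - X') d.L
    have k2 := Pool.DY1.ev_ge htl (d.good k₀ δ) (fun v => d.Ti X' (sm v)) (Lx d.L d.T)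
      (X' * Real.log 2) hG0 (fun q hq _ => tmax (T := fun v => d.T (sm v)) hq h.hth rfl)
    rw [ext_CH hp0 d.L d.T m (d.Ti X')] at k2
    show (1 - ι') * X' * Real.log 2 ≤ CH (cond (tup d.P d.L (m + 1)) (fun v => v ∈ d.good k₀ δ) True)
      (fun v => d.Ti X' (sm v)) (Lx d.L d.T)
    refine le_trans ?_ k2
    rw [le_sub_iff_add_le, ← le_sub_iff_add_le', div_le_iff₀ hG0]
    have k3 : ((d.X - X' : ℕ) : ℝ) = d.X - X' := by
      rw [Nat.cast_sub hX']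
    rw [k3] at k1
    have k4 : X' * Real.log 2 - CH d.P (d.Ti X') d.L + Real.log 2 ≤
        (1 + ι * d.X) * Real.log 2 := by linarith
    have k5 : (1 + ι * d.X) * Real.log 2 ≤ (ι' * X') * Real.log 2 * (1 / 2) := by nlinarith
    have k6 : 0 ≤ ι' * X' * Real.log 2 := by
      refine mul_nonneg (le_trans ?_ hι) hl2.le
      have : 0 ≤ MI d.P d.T d.L (fun ω => d.B (d.L ω)) := Pool.M5.MI_nonneg hp0 _ _ _
      linarith
    have k7 : (ι' * X') * Real.log 2 * (1 / 2) ≤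
        (ι' * X') * Real.log 2 * Pr (tup d.P d.L (m + 1)) (d.good k₀ δ) :=
      mul_le_mul_of_nonneg_left hG k6
    refine k4.trans (k5.trans (k7.trans (le_of_eq ?_)))
    ring

/-- Transport of (H2). -/
theorem ext_H2 {c : ℝ} (h : d.OK Set.univ c) {k₀ X' : ℕ} {δ ι ι' : ℝ}
    (hG : 1 / 2 ≤ Pr (tup d.P d.L (m + 1)) (d.good k₀ δ))
    (hι : 2 + 2 * (m + 2) * ι * d.X ≤ ι' * X') (hH : d.H1a ι) (hH2 : d.H2 ι) :
    (d.ext k₀ X' δ).H2 ι' := by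
  have hp0 := h.law.nonneg
  have ht0 := tup_nonneg hp0 d.L (m + 1)
  have htl : IsLaw (tup d.P d.L (m + 1)) := tup_isLaw h.law d.L (m + 1)
  have hl1 : Real.log 2 ≤ 1 := by
    have := Real.log_two_lt_d9
    linarith
  have hG0 : 0 < Pr (tup d.P d.L (m + 1)) (d.good k₀ δ) := by linarith
  have k1 := mi_ev htl (fun v => d.N (sm v)) (fun v => (d.V (d.L (v 0)), Wn d.T v))
    (fun v => d.T (sm v)) (d.good k₀ δ) hG0
  have k2 := ext_mi h.law d.L d.T d.B m d.N d.V h.hTB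
  have k3 : MI (d.ext k₀ X' δ).P (d.ext k₀ X' δ).N
      (fun v => (d.ext k₀ X' δ).V ((d.ext k₀ X' δ).L v)) (d.ext k₀ X' δ).T ≤
      MI (cond (tup d.P d.L (m + 1)) (fun v => v ∈ d.good k₀ δ) True) (fun v => d.N (sm v))
        (fun v => (d.V (d.L (v 0)), Wn d.T v)) (fun v => d.T (sm v)) :=
    Pool.OC.RS.mi_mono_left (fun v => cond_nonneg ht0 _ _ v) _ _ _ _
      (fun v v' _ _ hl => by
        have k : d.N (sm v) = d.N (sm v') := (Prod.ext_iff.1 hl).1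
        show d.N (sm v) / 2 ^ (d.X - X') = d.N (sm v') / 2 ^ (d.X - X')
        rw [k])
  refine k3.trans (k1.trans ?_)
  rw [div_le_iff₀ hG0]
  have g1 : MI d.P d.T d.L (fun ω => d.B (d.L ω)) ≤ ι * d.X := hH.1
  have g2 : MI d.P d.N (fun ω => d.V (d.L ω)) d.T ≤ ι * d.X := hH2
  have k4 : 0 ≤ MI d.P d.N (fun ω => d.V (d.L ω)) d.T := Pool.M5.MI_nonneg hp0 _ _ _
  have k5 : 0 ≤ ι * d.X := k4.trans g2
  have hm : (0 : ℝ) ≤ m := Nat.cast_nonneg m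
  have k6 : (m + 1) * MI d.P d.T d.L (fun ω => d.B (d.L ω)) ≤ (m + 1) * (ι * d.X) :=
    mul_le_mul_of_nonneg_left g1 (by linarith)
  have k7 : 0 ≤ ι' * X' := by
    refine le_trans ?_ hι
    have : 2 * (m + 2) * ι * d.X = 2 * (m + 2) * (ι * d.X) := by ring
    rw [this]
    positivity
  show _ ≤ ι' * (X' : ℝ) * _
  have k8 : ι' * (X' : ℝ) * (1 / 2) ≤ ι' * (X' : ℝ) *
      Pr (tup d.P d.L (m + 1)) (d.good k₀ δ) := mul_le_mul_of_nonneg_left hG k7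
  have k9 : 2 * (m + 2) * ι * d.X = 2 * ((m + 1) * (ι * d.X)) + 2 * (ι * d.X) := by ring
  linarith

/-- Transport of (H3). -/
theorem ext_H3 {c : ℝ} (h : d.OK Set.univ c) {k₀ X' : ℕ} {δ ι ι' : ℝ}
    (hX' : X' ≤ d.X) (hG : 1 / 2 ≤ Pr (tup d.P d.L (m + 1)) (d.good k₀ δ))
    (hι : 12 + 4 * (m + 2) * ι * d.X ≤ ι' * X') (hH : d.H1a ι) (hH3 : d.H3 ι) :
    (d.ext k₀ X' δ).H3 ι' := by
  intro j
  have hp0 := h.law.nonneg
  have htl : IsLaw (tup d.P d.L (m + 1)) := tup_isLaw h.law d.L (m + 1)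
  have hl2 : 1 / 2 ≤ Real.log 2 := by
    have := Real.log_two_gt_d9
    linarith
  have hl1 : Real.log 2 ≤ 1 := by
    have := Real.log_two_lt_d9
    linarith
  have hG0 : 0 < Pr (tup d.P d.L (m + 1)) (d.good k₀ δ) := by linarith
  have g1 : MI d.P d.T d.L (fun ω => d.B (d.L ω)) ≤ ι * d.X := hH.1
  have g0 : 0 ≤ MI d.P d.T d.L (fun ω => d.B (d.L ω)) := Pool.M5.MI_nonneg hp0 _ _ _
  have k5 : 0 ≤ ι * d.X := g0.trans g1
  have hm : (0 : ℝ) ≤ m := Nat.cast_nonneg m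
  have k6 : (m + 1) * MI d.P d.T d.L (fun ω => d.B (d.L ω)) ≤ (m + 1) * (ι * d.X) :=
    mul_le_mul_of_nonneg_left g1 (by linarith)
  have k1 := ext_ch h.law d.L d.T d.B m (fun l => d.y l j.castSucc / 2 ^ (d.X - X'))
    (d.Z j.castSucc) (h.hZB j.castSucc)
  have k2 := CH_dig_ge h.law (fun ω => d.y (d.L ω) j.castSucc) (d.X - X')
    (fun ω => d.Z j.castSucc (d.L ω))
  have k3 := hH3 j.castSucc
  have k4 := Pool.DY1.ev_ge htl (d.good k₀ δ)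
    (fun v => d.y (d.L (v 0)) j.castSucc / 2 ^ (d.X - X'))
    (fun v => (d.Z j.castSucc (d.L (v 0)), Wn d.T v)) ((X' + 2) * Real.log 2) hG0
    (fun q hq hq' => (Pool.KS3.CH_le_H hq _ _).trans
      (hmax' (X := X') hq (fun v hv => pos_one hX' (h.hy (v 0)
        (tup_pos' hp0 d.L (hq' v hv) 0).1 j.castSucc))))
  show (1 - ι') * X' * Real.log 2 ≤ CH (cond (tup d.P d.L (m + 1)) (fun v => v ∈ d.good k₀ δ) True)
      (fun v => d.y (d.L (v 0)) j.castSucc / 2 ^ (d.X - X'))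
      (fun v => (d.Z j.castSucc (d.L (v 0)), Wn d.T v))
  refine le_trans ?_ k4
  rw [le_sub_iff_add_le, ← le_sub_iff_add_le', div_le_iff₀ hG0]
  have k7 : ((d.X - X' : ℕ) : ℝ) = d.X - X' := by
    rw [Nat.cast_sub hX']
  rw [k7] at k2
  have k8 : (X' + 2) * Real.log 2 - CH (tup d.P d.L (m + 1))
      (fun v => d.y (d.L (v 0)) j.castSucc / 2 ^ (d.X - X'))
      (fun v => (d.Z j.castSucc (d.L (v 0)), Wn d.T v)) + Real.log 2 ≤
        3 * Real.log 2 + ι * d.X * Real.log 2 + (m + 1) * (ι * d.X) := by linarith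
  have k9 : 3 * Real.log 2 + ι * d.X * Real.log 2 + (m + 1) * (ι * d.X) ≤
      (ι' * X' * Real.log 2) * (1 / 2) := by
    have l1 : ι * d.X * Real.log 2 ≤ ι * d.X := by nlinarith
    have l2 : (12 + 4 * (m + 2) * ι * d.X) * (1 / 2) ≤ ι' * X' * Real.log 2 := by
      have : 0 ≤ 12 + 4 * (m + 2) * ι * d.X := by
        have : 4 * (m + 2) * ι * d.X = 4 * (m + 2) * (ι * d.X) := by ring
        rw [this]
        positivity
      nlinarith
    nlinarith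
  have k10 : 0 ≤ ι' * X' * Real.log 2 := by
    refine mul_nonneg (le_trans ?_ hι) (by linarith)
    have : 4 * (m + 2) * ι * d.X = 4 * (m + 2) * (ι * d.X) := by ring
    rw [this]
    positivity
  have k11 : (ι' * X' * Real.log 2) * (1 / 2) ≤
      (ι' * X' * Real.log 2) * Pr (tup d.P d.L (m + 1)) (d.good k₀ δ) :=
    mul_le_mul_of_nonneg_left hG k10
  refine k8.trans (k9.trans (k11.trans ?_))
  refine mul_le_mul_of_nonneg_right ?_ hG0.le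
  linarith

/-- Transport of the first digits. -/
theorem ext_TCp {c : ℝ} (h : d.OK Set.univ c) {k₀ X' : ℕ} {δ : ℝ} {kk : ℕ → ℕ}
    {i₁ i₂ : ℕ} (hG : 1 / 2 ≤ Pr (tup d.P d.L (m + 1)) (d.good k₀ δ)) (hi : 2 * i₂ + 4 ≤ i₁)
    (hT : d.TCp kk i₁) : (d.ext k₀ X' δ).TCp (fun i => kk (2 * i + 4)) i₂ := by
  intro i hi2
  have hp0 := h.law.nonneg
  have htl : IsLaw (tup d.P d.L (m + 1)) := tup_isLaw h.law d.L (m + 1)
  have hG0 : 0 < Pr (tup d.P d.L (m + 1)) (d.good k₀ δ) := by linarith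
  have k1 := dbl_cond htl (Lx d.L d.T) hG0 (δ := (1 / 2) ^ (i + 2)) (by positivity)
    {w | |d.th (d.T (sm w.2)) - d.th (d.T (sm w.1))| < (2 : ℝ) ^ (-(kk (2 * i + 4) : ℤ))}
  have k2 := Pool.L1.Pr_marg (ext_dbl h.law d.L d.T m)
    {w | |d.th (d.T w.2) - d.th (d.T w.1)| < (2 : ℝ) ^ (-(kk (2 * i + 4) : ℤ))}
  have k3 := hT (2 * i + 4) (by omega)
  rw [← k2] at k3
  refine k1.trans ?_
  have k4 : (1 / 2 : ℝ) ^ (i + 2) / Pr (tup d.P d.L (m + 1)) (d.good k₀ δ) ≤ (1 / 2) ^ (i + 1) := by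
    rw [div_le_iff₀ hG0]
    have : (1 / 2 : ℝ) ^ (i + 2) = (1 / 2) ^ (i + 1) * (1 / 2) := pow_succ _ _
    rw [this]
    exact mul_le_mul_of_nonneg_left hG (by positivity)
  have k5 : Pr (dbl (tup d.P d.L (m + 1)) (Lx d.L d.T))
      {w | |d.th (d.T (sm w.2)) - d.th (d.T (sm w.1))| < (2 : ℝ) ^ (-(kk (2 * i + 4) : ℤ))} /
        ((1 / 2) ^ (i + 2) * Pr (tup d.P d.L (m + 1)) (d.good k₀ δ)) ≤ (1 / 2) ^ (i + 1) := by
    rw [div_le_iff₀ (by positivity)]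
    refine k3.trans ?_
    have l1 : (1 / 2 : ℝ) ^ (2 * i + 4) = (1 / 2) ^ (i + 1) * ((1 / 2) ^ (i + 2) * (1 / 2)) := by
      rw [← pow_succ, ← pow_add]
      congr 1
      ring
    rw [l1]
    refine mul_le_mul_of_nonneg_left ?_ (by positivity)
    exact mul_le_mul_of_nonneg_left hG (by positivity)
  have k6 : (1 / 2 : ℝ) ^ (i + 1) + (1 / 2) ^ (i + 1) = (1 / 2) ^ i := by
    rw [pow_succ]
    ring
  linarith

/-- Transport of (H5). -/
theorem ext_H5w {c₁ : ℝ} (h : d.OK Set.univ c₁) {k₀ X' : ℕ}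
    {δ c κ κ' π₀ π₁ : ℝ} (hc : c ≤ 1) (hX' : X' ≤ d.X)
    (hG : 1 / 2 ≤ Pr (tup d.P d.L (m + 1)) (d.good k₀ δ)) (hκ : κ * d.X ≤ κ' * X')
    (hπ1 : 0 ≤ π₁) (hπ : π₀ ≤ π₁ / 2)
    (hH : d.H5w c κ π₀) :
    (d.ext k₀ X' δ).H5w c κ' π₁ := by
  classical
  intro W hW hWπ r₁ r₂ hr hr2 hr3
  have hp0 := h.law.nonneg
  have ht0 := tup_nonneg hp0 d.L (m + 1)
  have htl : IsLaw (tup d.P d.L (m + 1)) := tup_isLaw h.law d.L (m + 1)
  have hl2 : 0 < Real.log 2 := Real.log_pos one_lt_two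
  have hG0 : 0 < Pr (tup d.P d.L (m + 1)) (d.good k₀ δ) := by linarith
  obtain ⟨e1, e2⟩ := wt_cond (tup d.P d.L (m + 1)) (d.good k₀ δ) hG0 W
  have hWπ' : π₁ ≤ ∑ v, cond (tup d.P d.L (m + 1)) (fun v => v ∈ d.good k₀ δ) True v * W v := hWπ
  rw [e2, le_div_iff₀ hG0] at hWπ'
  obtain ⟨V, hV, hV2, hV3⟩ := wt_marg hp0 ht0 (tup_marg hp0 d.L (m + 1) (Fin.last (m + 1)))
    (W := fun v => if v ∈ d.good k₀ δ then W v else 0) (fun v => by
      show 0 ≤ (if v ∈ d.good k₀ δ then W v else 0) ∧ (if v ∈ d.good k₀ δ then W v else 0) ≤ 1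
      split_ifs
      · exact hW v
      · exact ⟨le_rfl, zero_le_one⟩)
  have hVπ : π₀ ≤ ∑ ω, d.P ω * V ω := by
    rw [hV2]
    have : π₁ * (1 / 2) ≤ π₁ * Pr (tup d.P d.L (m + 1)) (d.good k₀ δ) :=
      mul_le_mul_of_nonneg_left hG hπ1
    linarith
  have hrow : ∀ r : ℕ, r ≤ X' → (d.ext k₀ X' δ).row r =
      fun v => d.N (sm v) / 2 ^ (d.X - r) := by
    intro r hr'
    funext (v : Fin (m + 2) → d.Om)
    show d.N (sm v) / 2 ^ (d.X - X') / 2 ^ (X' - r) = _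
    rw [Int.ediv_ediv_of_nonneg (by positivity), ← pow_add]
    congr 2
    omega
  show CH (wt (cond (tup d.P d.L (m + 1)) (fun v => v ∈ d.good k₀ δ) True) W)
    ((d.ext k₀ X' δ).row r₂) (fun v => ((d.ext k₀ X' δ).row r₁ v, d.T (sm v))) ≤ _
  rw [hrow r₂ hr2, hrow r₁ (hr.trans hr2), e1]
  have e3 := hV3.CH (fun ω => d.N ω / 2 ^ (d.X - r₂))
    (fun ω => (d.N ω / 2 ^ (d.X - r₁), d.T ω))
  refine (le_of_eq e3).trans ?_
  by_cases hs : 0 < ∑ ω, d.P ω * V ω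
  · exact hH V hV hVπ r₁ r₂ hr (hr2.trans hX') (hκ.trans hr3)
  · have k0 : ∑ ω, d.P ω * V ω = 0 :=
      le_antisymm (not_lt.1 hs) (Finset.sum_nonneg fun ω _ => mul_nonneg (hp0 ω) (hV ω).1)
    have k1 : wt d.P V = fun _ => 0 := by
      funext ω
      unfold wt
      rw [k0, div_zero]
    rw [k1]
    have k2 : CH (fun _ : d.Om => (0 : ℝ)) (fun ω => d.N ω / 2 ^ (d.X - r₂))
        (fun ω => (d.N ω / 2 ^ (d.X - r₁), d.T ω)) = 0 := by
      unfold CH H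
      simp
    rw [k2]
    have k3 : (r₁ : ℝ) ≤ r₂ := by exact_mod_cast hr
    have : 0 ≤ (1 - c) := by linarith
    have : 0 ≤ (r₂ : ℝ) - r₁ := by linarith
    positivity

end SDat

end Pool.LSH
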