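import Pool.Agent.H48.GEN.ShS
import Pool.Agent.H48.GEN.ShN
import Pool.Agent.H48.GEN.ShQ
import Pool.Agent.H48.GEN.LevX

/-!
# L1 level by level, sheets: the data with the nodes of the last coordinate
-/

set_option autoImplicit false

namespace Pool.LSH

open Finset Real
open Pool.Agent.H49.Ent Pool.Agent.H32.Dense Pool.STK Pool.KAF Pool.M5 Pool.SLO Pool.LEV
open Pool.KVA (MI)
open Pool.LBL

/-- The rounded position. -/
theorem pos_near {X X' : ℕ} (hX' : X' ≤ X) (a : ℤ) :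
    |((a / 2 ^ (X - X') : ℤ) : ℝ) / 2 ^ X' - (a : ℝ) / 2 ^ X| ≤ 1 / 2 ^ X' := by
  have h1 := Pool.LEV.ediv_near a (X - X')
  have hX : (0 : ℝ) < 2 ^ X' := by positivity
  have h2 : (2 : ℝ) ^ X = 2 ^ (X - X') * 2 ^ X' := by
    rw [← pow_add]
    congr 1
    omega
  have h3 : ((a / 2 ^ (X - X') : ℤ) : ℝ) / 2 ^ X' - (a : ℝ) / 2 ^ X =
      (((a / 2 ^ (X - X') : ℤ) : ℝ) - (a : ℝ) / 2 ^ (X - X')) / 2 ^ X' := by
    rw [h2]
    field_simp
  rw [h3, abs_div, abs_of_pos hX]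
  exact div_le_div_of_nonneg_right h1 hX.le

theorem pos_one {X X' : ℕ} (hX' : X' ≤ X) {a : ℤ} (h : |(a : ℝ) / 2 ^ X| ≤ 1) :
    |((a / 2 ^ (X - X') : ℤ) : ℝ) / 2 ^ X'| ≤ 1 := by
  have hX : (0 : ℝ) < 2 ^ X' := by positivity
  have hX0 : (0 : ℝ) < 2 ^ X := by positivity
  have hz : (0 : ℤ) < 2 ^ (X - X') := by positivity
  have h2 : (2 : ℤ) ^ X = 2 ^ X' * 2 ^ (X - X') := by
    rw [← pow_add]
    congr 1
    omega
  rw [abs_div, abs_of_pos hX0, div_le_one hX0, abs_le] at h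
  have h3 : -(2 : ℤ) ^ X ≤ a := by exact_mod_cast h.1
  have h4 : a ≤ (2 : ℤ) ^ X := by exact_mod_cast h.2
  rw [abs_div, abs_of_pos hX, div_le_one hX, abs_le]
  constructor
  · have h5 : -(2 : ℤ) ^ X' ≤ a / 2 ^ (X - X') := by
      rw [Int.le_ediv_iff_mul_le hz]
      rw [h2] at h3
      linarith
    exact_mod_cast h5
  · have h5 : a / 2 ^ (X - X') ≤ (2 : ℤ) ^ X' := by
      refine Int.ediv_le_of_le_mul hz ?_
      rw [h2] at h4
      linarith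
    exact_mod_cast h5

namespace SDat

variable {k n m K : ℕ} (d : SDat (k + 1) n m K)

/-- The own shape on the sheet of the last coordinate, a polynomial in the position. -/
noncomputable def Ep (z : d.Ze) (t : d.Tau) : Polynomial ℝ :=
  MvPolynomial.aeval (fun i => spy (d.sg (Fin.last k) z i) (d.th t)) (d.F t)

/-- Its coefficients. -/
noncomputable def Ec (z : d.Ze) (t : d.Tau) (a : ℕ) : ℝ := (d.Ep z t).coeff a

/-- The data of the last coordinate. -/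
def Zl (ω : d.Om) : d.Ze := d.Z (Fin.last k) (d.L ω)

/-- The good tuples: the nodes are separated and the coefficients at the last sample are given by
the interpolation. -/
def good (k₀ : ℕ) (δ : ℝ) : Set (Fin (m + 2) → d.Om) :=
  (BadZ d.th d.T d.Zl d.Ec (K * n) m k₀ δ)ᶜ

/-- The function of the time in the last coordinate. -/
noncomputable def pz (z : d.Ze) : Polynomial ℝ := st0 (d.sg (Fin.last k) z (Fin.last k))

/-- The interpolation of the coefficients. -/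
noncomputable def Gp (z : d.Ze) (w : Fin (m + 1) → d.Tau) (a : ℕ) : Polynomial ℝ :=
  Lagrange.interpolate univ (fun j => d.th (w j)) (fun j => d.Ec z (w j) a)

/-- The difference of the values on the sheet and on the frozen sheet. -/
noncomputable def Qp (l : d.Lam) (w : Fin (m + 1) → d.Tau) : Polynomial ℝ :=
  qpol (K * n) (d.Gp (d.Z (Fin.last k) l) w) (d.y l (Fin.last k) / 2 ^ d.X)
    (d.pz (d.Z (Fin.last k) l))

open Classical in
/-- The new coefficients. -/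
noncomputable def qx (k₀ : ℕ) (l : d.Lam) (w : Fin (m + 1) → d.Tau) (i : Fin (m + K * n * n)) :
    ℝ :=
  qe (m + K * n * n) (d.q l) i -
    if ∀ j j', j ≠ j' → (2 : ℝ) ^ (-(k₀ : ℤ)) ≤ |d.th (w j) - d.th (w j')| then
      (d.Qp l w).coeff (i.val + 1) else 0

/-- The data with the nodes of the last coordinate. -/
noncomputable def ext (k₀ X' : ℕ) (δ : ℝ) : SDat k n (m + K * n * n) K where
  Om := Fin (m + 2) → d.Om
  Lam := d.Lam × (Fin (m + 1) → d.Tau)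
  Tau := d.Tau
  Nu := d.Nu × (Fin (m + 1) → d.Tau)
  Ze := d.Ze × (Fin (m + 1) → d.Tau)
  Be := d.Be
  P := cond (tup d.P d.L (m + 1)) (fun v => v ∈ d.good k₀ δ) True
  L := Lx d.L d.T
  T := fun v => d.T (sm v)
  V := fun l => (d.V l.1, l.2)
  Z := fun j l => (d.Z j.castSucc l.1, l.2)
  B := fun l => d.B l.1
  y := fun l j => d.y l.1 j.castSucc / 2 ^ (d.X - X')
  x := fun l t i => d.frz (Fin.last k) (d.Z (Fin.last k) l.1) t i.castSucc
  sg := fun j z i a b => d.sg j.castSucc z.1 i.castSucc a b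
  q := fun l i => d.qx k₀ l.1 l.2 i
  N := fun v => d.N (sm v) / 2 ^ (d.X - X')
  th := d.th
  s := d.s
  F := fun t => kill (d.F t)
  X := X'

variable {d}

theorem sheet_eq {k' : ℕ} (d : SDat k' n m K) (j : Fin k') (z : d.Ze) (t y : ℝ) (i : Fin k') :
    d.sheet j z t y i = (spy (d.sg j z i) t).eval y := (spy_eval _ _ _).symm

theorem pz_eval (z : d.Ze) (t : ℝ) :
    (d.pz z).eval t = d.sheet (Fin.last k) z t 0 (Fin.last k) := st0_eval _ _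

theorem Ep_eval (z : d.Ze) (t : d.Tau) (y : ℝ) : (d.Ep z t).eval y =
    MvPolynomial.eval (d.sheet (Fin.last k) z (d.th t) y) (d.F t) := by
  unfold Ep
  rw [eval_aev]
  congr 1
  congr 1
  funext i
  exact (sheet_eq d _ _ _ _ _).symm

theorem Ep_deg {G : Set d.Om} {c : ℝ} (h : d.OK G c) (z : d.Ze) (t : d.Tau) :
    (d.Ep z t).natDegree ≤ K * n :=
  deg_aeval (d.F t) (h.hF t) fun _ => spy_deg _ _

theorem Ec_le {G : Set d.Om} {c : ℝ} (h : d.OK G c) (hc : 0 ≤ c) {ω : d.Om} (hG : ω ∈ G)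
    (hω : 0 < d.P ω) (t : d.Tau) (a : ℕ) : |d.Ec (d.Zl ω) t a| ≤ bE (k + 1) n K ((2 : ℝ) ^ c) := by
  have h1 : (1 : ℝ) ≤ 2 ^ c := Real.one_le_rpow one_le_two hc
  have hth := h.hth t
  have hn : (1 : ℝ) ≤ (n + 1) ^ 2 := one_le_pow₀ (by
    have : (0 : ℝ) ≤ n := Nat.cast_nonneg _
    linarith)
  refine (coeff_l1 _ a).trans ?_
  exact l1_aeval (d.F t) (h.hF t) (h.hFc t) (one_le_mul_of_one_le_of_one_le hn h1) fun i =>
    spy_l1 (fun a b => h.hs ω hG hω _ _ _ _) (by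
      rw [abs_of_nonneg hth.1]
      exact hth.2.le)

/-- The value on the sheet as a sum of powers. -/
theorem Ep_sum {G : Set d.Om} {c : ℝ} (h : d.OK G c) (z : d.Ze) (t : d.Tau) (y : ℝ) :
    (d.Ep z t).eval y = d.Ec z t 0 + ∑ a ∈ Finset.Icc 1 (K * n), d.Ec z t a * y ^ a := by
  rw [Polynomial.eval_eq_sum_range' (Nat.lt_succ_of_le (Ep_deg h z t)), Finset.range_eq_Ico,
    Finset.sum_eq_sum_Ico_succ_bot (Nat.succ_pos _), pow_zero, mul_one]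
  rfl

/-- The position on the sheet. -/
theorem x_near {G : Set d.Om} {c : ℝ} (h : d.OK G c) {ω : d.Om} (hG : ω ∈ G) (hω : 0 < d.P ω)
    (i : Fin (k + 1)) : |d.x (d.L ω) (d.th (d.T ω)) i - d.sheet (Fin.last k) (d.Zl ω)
      (d.th (d.T ω)) (d.y (d.L ω) (Fin.last k) / 2 ^ d.X) i| ≤ (2 : ℝ) ^ c / 2 ^ d.X := by
  have h1 := h.cc ω hG hω (Fin.last k) i (Fin.le_last i)
  have h2 : d.up (d.L ω) (Fin.last k) (d.th (d.T ω)) i = d.x (d.L ω) (d.th (d.T ω)) i := by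
    unfold up
    rw [dif_neg (by simp)]
  rw [h2] at h1
  refine h1.trans (le_of_eq ?_)
  rw [Real.rpow_sub two_pos, Real.rpow_natCast]

/-- The shape on the sheet. -/
theorem F_near {G : Set d.Om} {c : ℝ} (h : d.OK G c) (hc : 0 ≤ c) {ω : d.Om} (hG : ω ∈ G)
    (hω : 0 < d.P ω) :
    |MvPolynomial.eval (d.x (d.L ω) (d.th (d.T ω))) (d.F (d.T ω)) -
      (d.Ep (d.Zl ω) (d.T ω)).eval ((d.y (d.L ω) (Fin.last k) : ℝ) / 2 ^ d.X)| ≤
        e1 (k + 1) n K ((2 : ℝ) ^ c) / 2 ^ d.X := by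
  have h1 : (1 : ℝ) ≤ 2 ^ c := Real.one_le_rpow one_le_two hc
  have hth := h.hth (d.T ω)
  have hn : (1 : ℝ) ≤ (n + 1) ^ 2 := one_le_pow₀ (by
    have : (0 : ℝ) ≤ n := Nat.cast_nonneg _
    linarith)
  rw [Ep_eval]
  have h2 := poly_near (d.F (d.T ω)) (h.hF _) (h.hFc _) (one_le_mul_of_one_le_of_one_le hn h1)
    (ε := (2 : ℝ) ^ c / 2 ^ d.X) (by positivity)
    (x := d.x (d.L ω) (d.th (d.T ω))) (x' := d.sheet (Fin.last k) (d.Zl ω) (d.th (d.T ω))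
      (d.y (d.L ω) (Fin.last k) / 2 ^ d.X)) (fun i => ?_) (fun i => ?_)
    (fun i => x_near h hG hω i)
  · refine h2.trans (le_of_eq ?_)
    unfold e1
    ring
  · refine (h.hx ω hG hω i).trans ?_
    nlinarith
  · rw [sheet_eq]
    refine (eval_l1 _ (h.hy ω hω _)).trans ?_
    exact spy_l1 (fun a b => h.hs ω hG hω _ _ _ _) (by
      rw [abs_of_nonneg hth.1]
      exact hth.2.le)

theorem pz_le {G : Set d.Om} {c : ℝ} (h : d.OK G c) {ω : d.Om} (hG : ω ∈ G)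
    (hω : 0 < d.P ω) : l1 (d.pz (d.Zl ω)) ≤ (n + 1) * (2 : ℝ) ^ c :=
  st0_l1 fun _ _ => h.hs ω hG hω _ _ _ _

/-- The shape on the frozen sheet. -/
theorem F_frz {G : Set d.Om} {c : ℝ} (h : d.OK G c) {ω : d.Om} (hG : ω ∈ G)
    (hω : 0 < d.P ω) (t : d.Tau) :
    MvPolynomial.eval (fun i : Fin k => d.frz (Fin.last k) (d.Zl ω) (d.th t) i.castSucc)
      (kill (d.F t)) = (d.Ep (d.Zl ω) t).eval (-(d.pz (d.Zl ω)).eval (d.th t)) := by
  have h1 : d.frz (Fin.last k) (d.Zl ω) (d.th t) (Fin.last k) = 0 := by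
    unfold frz
    have h2 := h.dia ω hG hω (Fin.last k) (d.th t)
      (-d.sheet (Fin.last k) (d.Zl ω) (d.th t) 0 (Fin.last k))
    refine h2.trans ?_
    show -d.sheet (Fin.last k) (d.Zl ω) (d.th t) 0 (Fin.last k) +
      d.sheet (Fin.last k) (d.Zl ω) (d.th t) 0 (Fin.last k) = 0
    ring
  rw [eval_kill (d.F t) (fun i => d.frz (Fin.last k) (d.Zl ω) (d.th t) i) h1, Ep_eval, pz_eval]
  rfl

/-- **The value along the path.** -/
theorem core {G : Set d.Om} {c : ℝ} (h : d.OK G c) (hc : 0 ≤ c) {ω : d.Om} (hG : ω ∈ G)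
    (hω : 0 < d.P ω) {δ : ℝ} {w : Fin (m + 1) → d.Tau}
    (ha : ∀ a ∈ Finset.Icc 1 (K * n), |d.Ec (d.Zl ω) (d.T ω) a -
      (d.Gp (d.Zl ω) w a).eval (d.th (d.T ω))| ≤ δ) :
    |MvPolynomial.eval (d.x (d.L ω) (d.th (d.T ω))) (d.F (d.T ω)) -
      MvPolynomial.eval (fun i : Fin k => d.frz (Fin.last k) (d.Zl ω) (d.th (d.T ω)) i.castSucc)
        (kill (d.F (d.T ω))) - (d.Qp (d.L ω) w).eval (d.th (d.T ω))| ≤
      e1 (k + 1) n K ((2 : ℝ) ^ c) / 2 ^ d.X + e2 n K ((2 : ℝ) ^ c) * δ := by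
  have h1 : (1 : ℝ) ≤ 2 ^ c := Real.one_le_rpow one_le_two hc
  have hn : (1 : ℝ) ≤ (n : ℝ) + 1 := by
    have : (0 : ℝ) ≤ n := Nat.cast_nonneg _
    linarith
  have hth := h.hth (d.T ω)
  have hP : (1 : ℝ) ≤ (n + 1) * 2 ^ c := one_le_mul_of_one_le_of_one_le hn h1
  have k1 := F_near h hc hG hω
  rw [F_frz h hG hω]
  obtain ⟨y, hy⟩ : ∃ y : ℝ, y = d.y (d.L ω) (Fin.last k) / 2 ^ d.X := ⟨_, rfl⟩
  obtain ⟨p, hp⟩ : ∃ p : ℝ, p = (d.pz (d.Zl ω)).eval (d.th (d.T ω)) := ⟨_, rfl⟩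
  have hy1 : |y| ≤ 1 := by
    rw [hy]
    exact h.hy ω hω _
  have hp1 : |p| ≤ (n + 1) * 2 ^ c := by
    rw [hp]
    refine (eval_l1 _ ?_).trans (pz_le h hG hω)
    rw [abs_of_nonneg hth.1]
    exact hth.2.le
  rw [← hy] at k1
  rw [← hp]
  have k2 : (d.Qp (d.L ω) w).eval (d.th (d.T ω)) = ∑ a ∈ Finset.Icc 1 (K * n),
      (d.Gp (d.Zl ω) w a).eval (d.th (d.T ω)) * (y ^ a - (-p) ^ a) := by
    unfold Qp
    rw [qpol_eval, ← hy]
    have : (d.pz (d.Z (Fin.last k) (d.L ω))).eval (d.th (d.T ω)) = p := hp.symm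
    rw [this]
    rfl
  have k3 : (d.Ep (d.Zl ω) (d.T ω)).eval y - (d.Ep (d.Zl ω) (d.T ω)).eval (-p) -
      (d.Qp (d.L ω) w).eval (d.th (d.T ω)) = ∑ a ∈ Finset.Icc 1 (K * n),
      (d.Ec (d.Zl ω) (d.T ω) a - (d.Gp (d.Zl ω) w a).eval (d.th (d.T ω))) *
        (y ^ a - (-p) ^ a) := by
    rw [Ep_sum h, Ep_sum h, k2, add_sub_add_left_eq_sub, ← Finset.sum_sub_distrib,
      ← Finset.sum_sub_distrib]
    refine Finset.sum_congr rfl fun a _ => ?_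
    ring
  have k4 : |∑ a ∈ Finset.Icc 1 (K * n),
      (d.Ec (d.Zl ω) (d.T ω) a - (d.Gp (d.Zl ω) w a).eval (d.th (d.T ω))) *
        (y ^ a - (-p) ^ a)| ≤ e2 n K ((2 : ℝ) ^ c) * δ := by
    refine (Finset.abs_sum_le_sum_abs _ _).trans ?_
    refine (Finset.sum_le_card_nsmul _ _ (δ * bP n K ((2 : ℝ) ^ c)) fun a hmem => ?_).trans
      (le_of_eq ?_)
    · rw [abs_mul]
      have hδ : 0 ≤ δ := (abs_nonneg _).trans (ha a hmem)
      refine mul_le_mul (ha a hmem) ?_ (abs_nonneg _) hδ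
      rw [Finset.mem_Icc] at hmem
      exact yp_le hy1 hp1 hP hmem.2
    · rw [Nat.card_Icc, nsmul_eq_mul]
      unfold e2
      simp only [add_tsub_cancel_right]
      ring
  have e : MvPolynomial.eval (d.x (d.L ω) (d.th (d.T ω))) (d.F (d.T ω)) -
      (d.Ep (d.Zl ω) (d.T ω)).eval (-p) - (d.Qp (d.L ω) w).eval (d.th (d.T ω)) =
      (MvPolynomial.eval (d.x (d.L ω) (d.th (d.T ω))) (d.F (d.T ω)) -
        (d.Ep (d.Zl ω) (d.T ω)).eval y) +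
      ((d.Ep (d.Zl ω) (d.T ω)).eval y - (d.Ep (d.Zl ω) (d.T ω)).eval (-p) -
      (d.Qp (d.L ω) w).eval (d.th (d.T ω))) := by ring
  rw [e, k3]
  exact (abs_add_le _ _).trans (add_le_add k1 k4)

/-- The degree and the size of the product. -/
theorem Qp_deg (l : d.Lam) {w : Fin (m + 1) → d.Tau} {k₀ : ℕ}
    (hs : ∀ j j', j ≠ j' → (2 : ℝ) ^ (-(k₀ : ℤ)) ≤ |d.th (w j) - d.th (w j')|) :
    (d.Qp l w).natDegree ≤ m + K * n * n :=
  qpol_deg (fun _ => itp_deg _ _ (Pool.M5.L48.sep_injective hs)) (st0_deg _)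

theorem Qp_l1 {G : Set d.Om} {c : ℝ} (h : d.OK G c) (hc : 0 ≤ c) {ω : d.Om} (hG : ω ∈ G)
    (hω : 0 < d.P ω) {w : Fin (m + 1) → d.Tau} {k₀ : ℕ}
    (hs : ∀ j j', j ≠ j' → (2 : ℝ) ^ (-(k₀ : ℤ)) ≤ |d.th (w j) - d.th (w j')|) :
    l1 (d.Qp (d.L ω) w) ≤ bQ (k + 1) n m K k₀ ((2 : ℝ) ^ c) := by
  have h1 : (1 : ℝ) ≤ 2 ^ c := Real.one_le_rpow one_le_two hc
  have hn : (1 : ℝ) ≤ (n : ℝ) + 1 := by
    have : (0 : ℝ) ≤ n := Nat.cast_nonneg _
    linarith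
  have hP : (1 : ℝ) ≤ (n + 1) * 2 ^ c := one_le_mul_of_one_le_of_one_le hn h1
  exact qpol_l1 (fun a => l1_itp _ _ (fun j => by
    have := h.hth (w j)
    rw [abs_of_nonneg this.1]
    exact this.2.le) hs (fun j => Ec_le h hc hG hω (w j) a)) (h.hy ω hω _) (pz_le h hG hω) hP

/-- The new height. -/
theorem ext_hgt {G : Set d.Om} {c : ℝ} (h : d.OK G c) (hc : 0 ≤ c) {k₀ X' : ℕ} {δ : ℝ}
    {ω : d.Om} (hG : ω ∈ G) (hω : 0 < d.P ω) {w : Fin (m + 1) → d.Tau}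
    (hs : ∀ j j', j ≠ j' → (2 : ℝ) ^ (-(k₀ : ℤ)) ≤ |d.th (w j) - d.th (w j')|)
    (ha : ∀ a ∈ Finset.Icc 1 (K * n), |d.Ec (d.Zl ω) (d.T ω) a -
      (d.Gp (d.Zl ω) w a).eval (d.th (d.T ω))| ≤ δ) :
    |(d.ext k₀ X' δ).hgt (d.L ω, w) (d.T ω) - (d.hgt (d.L ω) (d.T ω) + (d.Qp (d.L ω) w).coeff 0)| ≤
      e1 (k + 1) n K ((2 : ℝ) ^ c) / 2 ^ d.X + e2 n K ((2 : ℝ) ^ c) * δ := by
  have k1 := core h hc hG hω ha
  have k2 : ∑ i, d.qx k₀ (d.L ω) w i * d.th (d.T ω) ^ (i.val + 1) =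
      ∑ i, d.q (d.L ω) i * d.th (d.T ω) ^ (i.val + 1) -
        ((d.Qp (d.L ω) w).eval (d.th (d.T ω)) - (d.Qp (d.L ω) w).coeff 0) := by
    rw [eval_tail (Qp_deg (d.L ω) hs), ← sum_qe (Nat.le_add_right m (K * n * n)),
      add_sub_cancel_left, ← Finset.sum_sub_distrib]
    refine Finset.sum_congr rfl fun i _ => ?_
    unfold qx
    rw [if_pos hs, sub_mul]
  have e0 : (d.ext k₀ X' δ).hgt (d.L ω, w) (d.T ω) =
      ∑ i, d.qx k₀ (d.L ω) w i * d.th (d.T ω) ^ (i.val + 1) - d.s (d.T ω) -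
        MvPolynomial.eval (fun i : Fin k => d.frz (Fin.last k) (d.Zl ω) (d.th (d.T ω)) i.castSucc)
        (kill (d.F (d.T ω))) := rfl
  have e1 : d.hgt (d.L ω) (d.T ω) = ∑ i, d.q (d.L ω) i * d.th (d.T ω) ^ (i.val + 1) -
      d.s (d.T ω) - MvPolynomial.eval (d.x (d.L ω) (d.th (d.T ω))) (d.F (d.T ω)) := rfl
  rw [e0, k2, e1]
  refine le_trans (le_of_eq ?_) k1
  congr 1
  ring

end SDat

end Pool.LSH
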