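import Pool.Agent.H48.GEN.ShX

/-!
# L1 level by level, sheets: the basic assumptions for the data with the nodes
-/

set_option autoImplicit false

namespace Pool.LSH

open Finset Real
open Pool.Agent.H49.Ent Pool.Agent.H32.Dense Pool.STK Pool.KAF Pool.M5 Pool.SLO Pool.LEV
open Pool.KVA (MI)
open Pool.LBL

theorem eval_big {q : Polynomial ℝ} {n : ℕ} (hq : q.natDegree ≤ n) {x P : ℝ} (hx : |x| ≤ P)
    (hP : 1 ≤ P) : |q.eval x| ≤ l1 q * P ^ n := by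
  rw [Polynomial.eval_eq_sum, Polynomial.sum_def]
  refine (Finset.abs_sum_le_sum_abs _ _).trans ?_
  unfold l1
  rw [Finset.sum_mul]
  refine Finset.sum_le_sum fun i hi => ?_
  rw [abs_mul, abs_pow]
  refine mul_le_mul_of_nonneg_left ?_ (abs_nonneg _)
  refine (pow_le_pow_left₀ (abs_nonneg _) hx i).trans (pow_le_pow_right₀ hP ?_)
  exact (Polynomial.le_natDegree_of_mem_supp i hi).trans hq

namespace SDat

variable {k n m K : ℕ} {d : SDat (k + 1) n m K}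

/-- Positive mass. -/
theorem ext_pos (hp : ∀ ω, 0 ≤ d.P ω) {k₀ X' : ℕ} {δ : ℝ}
    {v : Fin (m + 2) → d.Om} (hv : 0 < (d.ext k₀ X' δ).P v) :
    v ∈ d.good k₀ δ ∧ 0 < tup d.P d.L (m + 1) v := by
  have k1 := (cond_pos_iff (tup_nonneg hp d.L (m + 1)) (fun v => v ∈ d.good k₀ δ)
    True v).1 hv
  exact ⟨of_eq_true k1.2, k1.1⟩

/-- The good tuples. -/
theorem good_iff {k₀ : ℕ} {δ : ℝ} {v : Fin (m + 2) → d.Om} (hv : v ∈ d.good k₀ δ) :
    (∀ j j', j ≠ j' → (2 : ℝ) ^ (-(k₀ : ℤ)) ≤ |d.th (Wn d.T v j) - d.th (Wn d.T v j')|) ∧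
    ∀ a ∈ Finset.Icc 1 (K * n), |d.Ec (d.Z (Fin.last k) (d.L (v 0))) (d.T (sm v)) a -
      (d.Gp (d.Z (Fin.last k) (d.L (v 0))) (Wn d.T v) a).eval (d.th (d.T (sm v)))| ≤ δ := by
  have k1 : ¬ (¬ sepN d.th d.T k₀ (Fin.init v : Fin (m + 1) → d.Om) ∨
    ∃ a ∈ Finset.Icc 1 (K * n), δ <
    |d.Ec (d.Zl (v 0)) (d.T (v (Fin.last (m + 1)))) a -
      itpN d.th d.T (fun t => d.Ec (d.Zl (v 0)) t a) (Fin.init v : Fin (m + 1) → d.Om)
        (d.th (d.T (v (Fin.last (m + 1)))))|) := hv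
  rw [not_or, not_not] at k1
  refine ⟨k1.1, fun a ha => ?_⟩
  by_contra hcon
  exact k1.2 ⟨a, ha, not_le.1 hcon⟩

/-- The path above the coordinate is the same. -/
theorem up_ext {k₀ X' : ℕ} {δ : ℝ} (l : d.Lam) (w : Fin (m + 1) → d.Tau) (j : Fin k) (t : ℝ)
    (i : Fin k) : (d.ext k₀ X' δ).up (l, w) j t i = d.up l j.castSucc t i.castSucc := by
  unfold up
  have h' : j.castSucc.val + 1 < k + 1 := by
    have := j.2
    simp
  rw [dif_pos h']
  by_cases h : j.val + 1 < k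
  · rw [dif_pos h]
    rfl
  · rw [dif_neg h]
    have e1 : (⟨j.castSucc.val + 1, h'⟩ : Fin (k + 1)) = Fin.last k := by
      refine Fin.ext ?_
      have := j.2
      show j.val + 1 = k
      omega
    rw [e1]
    rfl

theorem ext_ok {c c' : ℝ} (h : d.OK Set.univ c) (hc : 0 ≤ c) {k₀ X' : ℕ} {δ : ℝ}
    (hX' : X' ≤ d.X) (hδ : 2 ^ X' * δ ≤ 1)
    (hC : bA (k + 1) n m K k₀ ((2 : ℝ) ^ c) ≤ (2 : ℝ) ^ c')
    (hG : 0 < Pr (tup d.P d.L (m + 1)) (d.good k₀ δ)) :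
    (d.ext k₀ X' δ).OK Set.univ c' := by
  have hp0 := h.law.nonneg
  have ht0 := tup_nonneg hp0 d.L (m + 1)
  have hc1 : (1 : ℝ) ≤ 2 ^ c := Real.one_le_rpow one_le_two hc
  have hX0 : (0 : ℝ) < 2 ^ X' := by positivity
  have hXd : (0 : ℝ) < 2 ^ d.X := by positivity
  have hXX : (2 : ℝ) ^ X' ≤ 2 ^ d.X := pow_le_pow_right₀ one_le_two hX'
  obtain ⟨W, hW⟩ : ∃ W : ℝ, W = (2 : ℝ) ^ c := ⟨_, rfl⟩
  rw [← hW] at hC hc1
  have hW0 : 0 ≤ W := by linarith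
  obtain ⟨p1, p2, p3, p4, p5, p6, -⟩ := bA_parts (k + 1) n m K k₀ hW0
  have hA : bA (k + 1) n m K k₀ W = bE (k + 1) n K W + 2 * (e1 (k + 1) n K W + e2 n K W) +
    bQ (k + 1) n m K k₀ W + bF n W + bC n W + W + 2 := rfl
  rw [hA] at hC
  have hcc' : W ≤ 2 ^ c' := by linarith
  have hn0 : (0 : ℝ) ≤ n := Nat.cast_nonneg _
  have hpos : ∀ v : Fin (m + 2) → d.Om, 0 < (d.ext k₀ X' δ).P v →
      (∀ j, 0 < d.P (v j) ∧ d.L (v j) = d.L (v 0)) ∧ v ∈ d.good k₀ δ := fun v hv =>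
    ⟨fun j => tup_pos' hp0 d.L (ext_pos hp0 hv).2 j, (ext_pos hp0 hv).1⟩
  refine ⟨condG_law ht0 hG, h.hth, fun t => deg_kill _ (h.hF t), fun t α => ?_, ?_, ?_, ?_, ?_,
    ?_, ?_, ?_, ?_, ?_, ?_, ?_, ?_⟩
  · refine le_trans ?_ hcc'
    rw [hW]
    exact coeff_kill _ (h.hFc t) α
  · -- the height
    intro v v' hv hv' hl
    obtain ⟨a1, -⟩ := hpos v hv
    obtain ⟨b1, -⟩ := hpos v' hv'
    have k1 : d.L (v 0) = d.L (v' 0) := (Prod.ext_iff.1 (Prod.ext_iff.1 hl).1).1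
    have k2 : d.T (sm v) = d.T (sm v') := (Prod.ext_iff.1 hl).2
    have k3 := h.hN (sm v) (sm v') (a1 _).1 (b1 _).1
      (Prod.ext (((a1 _).2.trans k1).trans (b1 _).2.symm) k2)
    show d.N (sm v) / 2 ^ (d.X - X') = d.N (sm v') / 2 ^ (d.X - X')
    rw [k3]
  · -- the data of the line
    intro v v' hv hv' hl
    obtain ⟨a1, -⟩ := hpos v hv
    obtain ⟨b1, -⟩ := hpos v' hv'
    have k1 : d.V (d.L (v 0)) = d.V (d.L (v' 0)) := (Prod.ext_iff.1 hl).1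
    have k2 : Wn d.T v = Wn d.T v' := (Prod.ext_iff.1 hl).2
    have k3 := h.hV (v 0) (v' 0) (a1 _).1 (b1 _).1 k1
    simp only [Prod.mk.injEq] at k3
    obtain ⟨e1, e3, e4⟩ := k3
    have e5 : ∀ j, d.Z j (d.L (v 0)) = d.Z j (d.L (v' 0)) := fun j => congrFun e4 j
    have e6 : d.qx k₀ (d.L (v 0)) (Wn d.T v) = d.qx k₀ (d.L (v' 0)) (Wn d.T v') := by
      funext i
      unfold qx Qp
      rw [e1, e3, e5, k2]
    show ((fun j : Fin k => d.y (d.L (v 0)) j.castSucc / 2 ^ (d.X - X')),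
      (fun i => d.qx k₀ (d.L (v 0)) (Wn d.T v) i),
      (fun j : Fin k => (d.Z j.castSucc (d.L (v 0)), Wn d.T v))) =
      ((fun j : Fin k => d.y (d.L (v' 0)) j.castSucc / 2 ^ (d.X - X')),
      (fun i => d.qx k₀ (d.L (v' 0)) (Wn d.T v') i),
      (fun j : Fin k => (d.Z j.castSucc (d.L (v' 0)), Wn d.T v')))
    rw [e1, e6, k2]
    simp only [e5]
  · intro j v v' hv hv' hl
    obtain ⟨a1, -⟩ := hpos v hv
    obtain ⟨b1, -⟩ := hpos v' hv'
    have k1 : d.Z j.castSucc (d.L (v 0)) = d.Z j.castSucc (d.L (v' 0)) := (Prod.ext_iff.1 hl).1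
    exact h.hZB j.castSucc (v 0) (v' 0) (a1 _).1 (b1 _).1 k1
  · intro v v' hv hv' hl
    obtain ⟨a1, -⟩ := hpos v hv
    obtain ⟨b1, -⟩ := hpos v' hv'
    have k1 := h.hTB (sm v) (sm v') (a1 _).1 (b1 _).1 hl
    show d.B (d.L (v 0)) = d.B (d.L (v' 0))
    have k2 : d.L (sm v) = d.L (v 0) := (a1 _).2
    have k3 : d.L (sm v') = d.L (v' 0) := (b1 _).2
    rw [← k2, ← k3]
    exact k1
  · intro v hv j
    obtain ⟨a1, -⟩ := hpos v hv
    exact pos_one hX' (h.hy (v 0) (a1 0).1 j.castSucc)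
  · -- tri
    intro v _ hv j i t y hji
    obtain ⟨a1, -⟩ := hpos v hv
    exact h.tri (v 0) (Set.mem_univ _) (a1 0).1 j.castSucc i.castSucc t y (by simpa using hji)
  · intro v _ hv j t y
    obtain ⟨a1, -⟩ := hpos v hv
    exact h.dia (v 0) (Set.mem_univ _) (a1 0).1 j.castSucc t y
  · -- coefficients
    intro v _ hv i
    obtain ⟨a1, a2⟩ := hpos v hv
    obtain ⟨g1, -⟩ := good_iff a2
    show |d.qx k₀ (d.L (v 0)) (Wn d.T v) i| ≤ _
    have k1 : |qe (m + K * n * n) (d.q (d.L (v 0))) i| ≤ W := by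
      rw [hW]
      exact qe_le (by positivity) (fun i => h.hq (v 0) (Set.mem_univ _) (a1 0).1 i) i
    have k2 : |(d.Qp (d.L (v 0)) (Wn d.T v)).coeff (i.val + 1)| ≤ bQ (k + 1) n m K k₀ W := by
      rw [hW]
      exact (coeff_l1 _ _).trans (Qp_l1 h hc (Set.mem_univ _) (a1 0).1 g1)
    unfold qx
    rw [if_pos g1]
    refine (abs_sub _ _).trans ?_
    linarith
  · -- the frozen sheet
    intro v _ hv i
    obtain ⟨a1, -⟩ := hpos v hv
    have hth := h.hth (d.T (sm v))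
    have hth1 : |d.th (d.T (sm v))| ≤ 1 := by
      rw [abs_of_nonneg hth.1]
      exact hth.2.le
    have hP : (1 : ℝ) ≤ (n + 1) * W := one_le_mul_of_one_le_of_one_le (by linarith) hc1
    show |d.frz (Fin.last k) (d.Z (Fin.last k) (d.L (v 0))) (d.th (d.T (sm v))) i.castSucc| ≤ _
    have k1 : |-d.sheet (Fin.last k) (d.Z (Fin.last k) (d.L (v 0))) (d.th (d.T (sm v))) 0
        (Fin.last k)| ≤ (n + 1) * W := by
      rw [abs_neg, ← pz_eval, hW]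
      exact (eval_l1 _ hth1).trans (pz_le h (Set.mem_univ _) (a1 0).1)
    unfold frz
    rw [sheet_eq]
    refine (eval_big (spy_deg _ _) k1 hP).trans ?_
    have k2 : l1 (spy (d.sg (Fin.last k) (d.Z (Fin.last k) (d.L (v 0))) i.castSucc)
        (d.th (d.T (sm v)))) ≤ (n + 1) ^ 2 * W := by
      rw [hW]
      exact spy_l1 (fun a b => h.hs (v 0) (Set.mem_univ _) (a1 0).1 _ _ _ _) hth1
    have k3 := mul_le_mul_of_nonneg_right k2 (show 0 ≤ ((n + 1) * W) ^ n by positivity)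
    have k4 : bF n W = (n + 1) ^ 2 * W * ((n + 1) * W) ^ n := rfl
    rw [← k4] at k3
    linarith
  · intro v _ hv j i a b
    obtain ⟨a1, -⟩ := hpos v hv
    refine le_trans ?_ hcc'
    rw [hW]
    exact h.hs (v 0) (Set.mem_univ _) (a1 0).1 j.castSucc i.castSucc a b
  · -- the sheets
    intro v _ hv j i hij
    obtain ⟨a1, -⟩ := hpos v hv
    have hth := h.hth (d.T (sm v))
    have hth1 : |d.th (d.T (sm v))| ≤ 1 := by
      rw [abs_of_nonneg hth.1]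
      exact hth.2.le
    have l1' : d.L (sm v) = d.L (v 0) := (a1 _).2
    have k1 := h.cc (sm v) (Set.mem_univ _) (a1 _).1 j.castSucc i.castSucc (by simpa using hij)
    rw [l1'] at k1
    have k2 : (d.ext k₀ X' δ).up ((d.ext k₀ X' δ).L v) j ((d.ext k₀ X' δ).th
        ((d.ext k₀ X' δ).T v)) i = d.up (d.L (v 0)) j.castSucc (d.th (d.T (sm v))) i.castSucc :=
      up_ext _ _ _ _ _
    rw [k2]
    show |d.up (d.L (v 0)) j.castSucc (d.th (d.T (sm v))) i.castSucc -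
      d.sheet j.castSucc (d.Z j.castSucc (d.L (v 0))) (d.th (d.T (sm v)))
        (((d.y (d.L (v 0)) j.castSucc / 2 ^ (d.X - X') : ℤ) : ℝ) / 2 ^ X') i.castSucc| ≤
          (2 : ℝ) ^ (c' - (X' : ℝ))
    have k3 : |d.sheet j.castSucc (d.Z j.castSucc (d.L (v 0))) (d.th (d.T (sm v)))
        (((d.y (d.L (v 0)) j.castSucc / 2 ^ (d.X - X') : ℤ) : ℝ) / 2 ^ X') i.castSucc -
        d.sheet j.castSucc (d.Z j.castSucc (d.L (v 0))) (d.th (d.T (sm v)))
        ((d.y (d.L (v 0)) j.castSucc : ℝ) / 2 ^ d.X) i.castSucc| ≤ bC n W * (1 / 2 ^ X') := by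
      rw [sheet_eq, sheet_eq]
      have hy := h.hy (v 0) (a1 0).1 j.castSucc
      refine (lip_l1 _ (pos_one hX' hy) hy).trans ?_
      have k4 : l1 (spy (d.sg j.castSucc (d.Z j.castSucc (d.L (v 0))) i.castSucc)
          (d.th (d.T (sm v)))) ≤ (n + 1) ^ 2 * W := by
        rw [hW]
        exact spy_l1 (fun a b => h.hs (v 0) (Set.mem_univ _) (a1 0).1 _ _ _ _) hth1
      have k5 : ((spy (d.sg j.castSucc (d.Z j.castSucc (d.L (v 0))) i.castSucc)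
          (d.th (d.T (sm v)))).natDegree : ℝ) ≤ n := by
        exact_mod_cast spy_deg _ _
      unfold bC
      exact mul_le_mul (mul_le_mul k5 k4 (l1_nn _) hn0) (pos_near hX' _) (abs_nonneg _)
        (by positivity)
    have k6 : (2 : ℝ) ^ (c - (d.X : ℝ)) = W / 2 ^ d.X := by
      rw [Real.rpow_sub two_pos, Real.rpow_natCast, hW]
    have k7 : (2 : ℝ) ^ (c' - (X' : ℝ)) = 2 ^ c' / 2 ^ X' := by
      rw [Real.rpow_sub two_pos, Real.rpow_natCast]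
    rw [k6] at k1
    rw [k7]
    have k8 : W / 2 ^ d.X ≤ W / 2 ^ X' := div_le_div_of_nonneg_left hW0 hX0 hXX
    have k9 : W / 2 ^ X' + bC n W * (1 / 2 ^ X') ≤ 2 ^ c' / 2 ^ X' := by
      rw [mul_one_div, ← add_div]
      exact div_le_div_of_nonneg_right (by linarith) hX0.le
    have k10 := abs_sub_le (d.up (d.L (v 0)) j.castSucc (d.th (d.T (sm v))) i.castSucc)
      (d.sheet j.castSucc (d.Z j.castSucc (d.L (v 0))) (d.th (d.T (sm v)))
        ((d.y (d.L (v 0)) j.castSucc : ℝ) / 2 ^ d.X) i.castSucc)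
      (d.sheet j.castSucc (d.Z j.castSucc (d.L (v 0))) (d.th (d.T (sm v)))
        (((d.y (d.L (v 0)) j.castSucc / 2 ^ (d.X - X') : ℤ) : ℝ) / 2 ^ X') i.castSucc)
    rw [abs_sub_comm] at k3
    linarith
  · -- the height is near
    intro v _ v' _ hv hv' hl
    obtain ⟨a1, a2⟩ := hpos v hv
    obtain ⟨b1, b2⟩ := hpos v' hv'
    have k1 : d.L (v 0) = d.L (v' 0) := (Prod.ext_iff.1 hl).1
    have k2 : Wn d.T v = Wn d.T v' := (Prod.ext_iff.1 hl).2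
    obtain ⟨g1, g2⟩ := good_iff a2
    obtain ⟨g3, g4⟩ := good_iff b2
    have l1' : d.L (sm v) = d.L (v 0) := (a1 _).2
    have l3' : d.L (sm v') = d.L (v' 0) := (b1 _).2
    have l2' : d.L (sm v') = d.L (v 0) := l3'.trans k1.symm
    have hδ0 : 0 ≤ 2 ^ X' * max δ 0 ∧ 2 ^ X' * max δ 0 ≤ 1 := by
      refine ⟨mul_nonneg hX0.le (le_max_right _ _), ?_⟩
      rcases le_total δ 0 with h0 | h0
      · rw [max_eq_right h0, mul_zero]
        exact zero_le_one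
      · rw [max_eq_left h0]
        exact hδ
    have g2' : ∀ a ∈ Finset.Icc 1 (K * n), |d.Ec (d.Zl (sm v)) (d.T (sm v)) a -
        (d.Gp (d.Zl (sm v)) (Wn d.T v) a).eval (d.th (d.T (sm v)))| ≤ max δ 0 := by
      intro a ha
      have e0 : d.Zl (sm v) = d.Z (Fin.last k) (d.L (v 0)) := by
        unfold Zl
        rw [l1']
      rw [e0]
      exact (g2 a ha).trans (le_max_left _ _)
    have g4' : ∀ a ∈ Finset.Icc 1 (K * n), |d.Ec (d.Zl (sm v')) (d.T (sm v')) a -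
        (d.Gp (d.Zl (sm v')) (Wn d.T v) a).eval (d.th (d.T (sm v')))| ≤ max δ 0 := by
      intro a ha
      have e0 : d.Zl (sm v') = d.Z (Fin.last k) (d.L (v' 0)) := by
        unfold Zl
        rw [l3']
      rw [e0, k2]
      exact (g4 a ha).trans (le_max_left _ _)
    have m1 := ext_hgt h hc (k₀ := k₀) (X' := X') (Set.mem_univ (sm v)) (a1 _).1 g1 g2'
    rw [← k2] at g3
    have m2 := ext_hgt h hc (k₀ := k₀) (X' := X') (Set.mem_univ (sm v')) (b1 _).1 g3 g4'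
    rw [l1'] at m1
    rw [l2'] at m2
    have m3 := h.hh (sm v) (Set.mem_univ _) (sm v') (Set.mem_univ _) (a1 _).1 (b1 _).1
      (l1'.trans l2'.symm)
    rw [l1'] at m3
    have m4 := Pool.LEV.ediv_near (d.N (sm v)) (d.X - X')
    have m5 := Pool.LEV.ediv_near (d.N (sm v')) (d.X - X')
    show |(((d.N (sm v') / 2 ^ (d.X - X') : ℤ) : ℝ) -
        ((d.N (sm v) / 2 ^ (d.X - X') : ℤ) : ℝ)) -
      2 ^ X' * ((d.ext k₀ X' δ).hgt (d.L (v 0), Wn d.T v) (d.T (sm v')) -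
        (d.ext k₀ X' δ).hgt (d.L (v 0), Wn d.T v) (d.T (sm v)))| ≤ 2 ^ c'
    obtain ⟨u, hu⟩ : ∃ u : ℝ, u = (d.ext k₀ X' δ).hgt (d.L (v 0), Wn d.T v) (d.T (sm v)) :=
      ⟨_, rfl⟩
    obtain ⟨u', hu'⟩ : ∃ u : ℝ, u = (d.ext k₀ X' δ).hgt (d.L (v 0), Wn d.T v) (d.T (sm v')) :=
      ⟨_, rfl⟩
    obtain ⟨Q, hQ⟩ : ∃ Q : ℝ, Q = (d.Qp (d.L (v 0)) (Wn d.T v)).coeff 0 := ⟨_, rfl⟩
    obtain ⟨a, ha⟩ : ∃ a : ℝ, a = d.hgt (d.L (v 0)) (d.T (sm v)) := ⟨_, rfl⟩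
    obtain ⟨a', ha'⟩ : ∃ a : ℝ, a = d.hgt (d.L (v 0)) (d.T (sm v')) := ⟨_, rfl⟩
    obtain ⟨E, hE⟩ : ∃ E : ℝ, E = e1 (k + 1) n K W / 2 ^ d.X + e2 n K W * max δ 0 := ⟨_, rfl⟩
    have m1' : |u - (a + Q)| ≤ E := by
      rw [hu, ha, hQ, hE, hW]
      exact m1
    have m2' : |u' - (a' + Q)| ≤ E := by
      rw [hu', ha', hQ, hE, hW]
      exact m2
    rw [← ha, ← ha', ← hW] at m3
    rw [← hu, ← hu']
    have n1 : 2 ^ X' * E ≤ e1 (k + 1) n K W + e2 n K W := by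
      rw [hE, mul_add]
      refine add_le_add ?_ ?_
      · rw [mul_div_assoc']
        rw [div_le_iff₀ hXd, mul_comm]
        exact mul_le_mul_of_nonneg_left hXX p2
      · calc 2 ^ X' * (e2 n K W * max δ 0) = e2 n K W * (2 ^ X' * max δ 0) := by ring
          _ ≤ e2 n K W * 1 := mul_le_mul_of_nonneg_left hδ0.2 p3
          _ = e2 n K W := mul_one _
    have n2 : |2 ^ X' * (u' - u) - 2 ^ X' * (a' - a)| ≤
        2 * (e1 (k + 1) n K W + e2 n K W) := by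
      have i1 : 2 ^ X' * (u' - u) - 2 ^ X' * (a' - a) =
          2 ^ X' * ((u' - (a' + Q)) - (u - (a + Q))) := by ring
      rw [i1, abs_mul, abs_of_pos hX0]
      have i2 := (abs_sub (u' - (a' + Q)) (u - (a + Q))).trans (add_le_add m2' m1')
      have i3 := mul_le_mul_of_nonneg_left i2 hX0.le
      linarith
    have hF : (1 : ℝ) ≤ 2 ^ (d.X - X') := one_le_pow₀ one_le_two
    have hF0 : (0 : ℝ) < 2 ^ (d.X - X') := by positivity
    have n3 : |((d.N (sm v') : ℝ) - d.N (sm v)) / 2 ^ (d.X - X') - 2 ^ X' * (a' - a)| ≤ W := by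
      have i0 : (2 : ℝ) ^ d.X = 2 ^ (d.X - X') * 2 ^ X' := by
        rw [← pow_add]
        congr 1
        omega
      have i1 : ((d.N (sm v') : ℝ) - d.N (sm v)) / 2 ^ (d.X - X') -
        2 ^ X' * (a' - a) = (((d.N (sm v') : ℝ) - d.N (sm v)) -
          2 ^ d.X * (a' - a)) / 2 ^ (d.X - X') := by
        rw [i0]
        field_simp
      rw [i1, abs_div, abs_of_pos hF0, div_le_iff₀ hF0]
      nlinarith
    have n5 := abs_le.1 n2
    have n6 := abs_le.1 n3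
    have n7 := abs_le.1 m4
    have n8 := abs_le.1 m5
    have n9 : ((d.N (sm v') : ℝ) - d.N (sm v)) / 2 ^ (d.X - X') =
        (d.N (sm v') : ℝ) / 2 ^ (d.X - X') - (d.N (sm v) : ℝ) / 2 ^ (d.X - X') :=
      sub_div _ _ _
    rw [n9] at n6
    rw [abs_le]
    constructor <;> linarith [n5.1, n5.2, n6.1, n6.2, n7.1, n7.2, n8.1, n8.2]

end SDat

end Pool.LSH
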