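import Pool.Agent.H48.M5.L1

/-!
# Lemma L1, the spread of the first digits of the time as a hypothesis

`kk i` is a number of digits at which two samples of one line agree with probability at most
`2 ^ (-i)`. This form passes to events and to conditioned laws.
-/

set_option autoImplicit false

namespace Pool.M5

open Finset Real
open Pool.Agent.H49.Ent Pool.Agent.H32.Dense Pool.STK Pool.KAF Pool.KVA

/-- **Lemma L1**, the spread of the first digits of the time is a hypothesis. -/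
def L1TStmt : Prop :=
  ∀ (k n K A : ℕ) (b : Bas k (Mon k K)) (c ε : ℝ) (kk : ℕ → ℕ),
    (∀ i, b.g i = mono (i : Fin k → ℕ)) →
    (∀ i, b.D i = dmono (i : Fin k → ℕ)) → 0 < c → 0 < ε →
    ∃ (κ₂ κ π₀ ι : ℝ) (i₁ X₀ : ℕ), 0 < κ₂ ∧ 0 < κ ∧ κ ≤ 1 ∧ 0 < π₀ ∧ 0 < ι ∧
      ∀ d : LDat k n (Mon k K), d.OK b A (ι * d.X) → X₀ ≤ d.X → d.H1 ι 0 0 →
        (∀ i ≤ i₁, TC d (kk i) ((1 / 2) ^ i)) →
        (d.toR b).H2 ι → d.H3 ι → (d.toR b).H5 c κ π₀ ∅ →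
        Pr (d.Q4 0) {u | ∃ i, (2 : ℝ) ^ (-(κ₂ * d.X)) < |d.rs u i|} ≤ ε

namespace T48

open Pool.M5.S48

/-- One set of data. -/
theorem l1_oneT {k n K A : ℕ} (b : Bas k (Mon k K)) (hD : ∀ i, b.D i = dmono (i : Fin k → ℕ))
    {c₅ u ε₄ ε₇ ε₈S ε₈ ε₈A ε₉ η ν e δ κ₂ κ₂S e₀S e₀A π₁ π₀ ι ιT ι' C ε : ℝ}
    {k₀S k₂ a k'' k₅ k₁₀S k₁₀A k' k₁ n₀S n₀A n₀N n₀Q X₀T X₀R X₁ : ℕ}
    (hRem : RemAt k K C (ε / 4) X₁) (hRw : RWAStmt)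
    (hu : 0 < u) (hη : 0 < η) (hε₈ : 0 < ε₈) (hδ : 0 < δ) (hκ₂ : 0 < κ₂) (hι : 0 ≤ ι)
    (hι' : 0 < ι')
    (hTim : ∀ (d : LDat k n (Mon k K)) (b : Bas k (Mon k K)) (A j₀ : ℕ) (c ε₀ : ℝ),
      d.OK b A c → X₀T ≤ d.X → d.H1 ιT j₀ ε₀ → TA d ⌊κ₂ * d.X⌋₊ ε₈ ∧ TB d ⌊κ₂ * d.X⌋₊ k'' ε₈)
    (hQnt : ∀ (I : Type) [Fintype I] (b : Bas k I) (d : LDat k n I) (A ns : ℕ)
      (c d₁ ε : ℝ), d.OK b A c → n₀Q ≤ ns → 0 < d₁ → 0 ≤ c →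
      (2 : ℝ) ^ c * (b.C * (Fintype.card I + 1)) ≤ (2 : ℝ) ^ ((ns : ℝ) / 2) → TC d k₂ ε →
      (∀ i < ns, Pr (d.Qp i) {w | |d.ta w| < (2 : ℝ) ^ (-(2 * ns : ℤ))} ≤ ε) →
      ∃ m : (Fin (n + 1) → d.Om) → ℤ, (∀ v, -(4 * ns : ℤ) ≤ m v ∧ m v ≤ 2 * ns) ∧ d.Lab m ∧
        Pr d.Qr {v | d₁ * ns < d.fq b (8 * ns) ns v ((2 : ℝ) ^ (1 - m v))} ≤
          2 * (n + 1) ^ 2 * ε / d₁ ∧
        ∀ v, 0 < d.Qr v → m v < 2 * ns → d₁ * ns < d.fq b (8 * ns) ns v ((2 : ℝ) ^ (-m v)))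
    (hRow : ∀ (d : RDat) (Bd : Set ℕ), d.OK A → X₀R ≤ d.X → d.H2 δ →
      d.H5 c₅ (κ₂ / 128) π₀ Bd → ∃ J : d.Om → Set ℕ, d.J1 J ⌊κ₂ / 128 * d.X⌋₊ u π₁ Bd ∧
        d.RowOK J k' k₁ (2 ^ (k + n)) e δ)
    (hSpr : ∀ (I : Type) [Fintype I] (b : Bas k I) (d : LDat k n I) (J : d.Om → Set ℕ)
      (m : (Fin (n + 1) → d.Om) → ℤ) (ns h k' k₁ j₀ : ℕ) (e c ε₀ : ℝ), d.OK b A c →
      Siz b d ns h m c → n₀S ≤ ns → (ns : ℝ) ≤ κ₂S * d.X → k + 2 * n + 6 ≤ k' → k₁₀S ≤ k₁ →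
      k₁ ≤ ns → e ≤ e₀S → RowA b d J m ns k' k₁ e → (d.toR b).J1 J h u ε₈S ∅ →
      Pr d.Qr {v | u / 32 * ns < d.fq b (8 * ns) ns v ((2 : ℝ) ^ (1 - m v))} ≤ ε₈S →
      TA d ns ε₈S → TB d ns k'' ε₈S → TC d k₀S ε₇ → d.H1 ε₈S j₀ ε₀ → d.H3 ε₈S →
      SPR b d m ns a ε₄)
    (hNlc : ∀ (I : Type) [Fintype I] (b : Bas k I) (d : LDat k n I) (J : d.Om → Set ℕ)
      (m : (Fin (n + 1) → d.Om) → ℤ) (A ns h k' k₁ a : ℕ) (e u π₁ ε₄ c : ℝ), d.OK b A c →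
      Siz b d ns h m c → n₀N ≤ ns → a ≤ ns → 0 < u → k + 2 * n + 6 ≤ k' → a + 4 ≤ k₁ →
      RowA b d J m ns k' k₁ e → (d.toR b).J1 J h u π₁ ∅ → SPR b d m ns a ε₄ →
      NLC b d m ns a k₂ (π₁ + 4 / u * (e + ε₄)))
    (hAls : ∀ (I : Type) [Fintype I]
      (b : Bas k I) (d : LDat k n I) (J : d.Om → Set ℕ) (m : (Fin (n + 1) → d.Om) → ℤ)
      (ns h k' k₁ : ℕ) (e c : ℝ), d.OK b A c → Siz b d ns h m c → n₀A ≤ ns →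
      a + k + 2 * n + 10 ≤ k' → k₁₀A ≤ k₁ → k₁ ≤ ns → e ≤ e₀A → RowA b d J m ns k' k₁ e →
      (d.toR b).J1 J h u ε₈A ∅ → SPR b d m ns a ε₈A → NLC b d m ns a k₂ ε₈A → TA d ns ε₈A →
      TB d ns k'' ε₈A → TC d k₂ ε₈A →
      ∃ Λ : (Fin (n + 1) → d.Om) → Fin n → Fin k → ℝ, AGR b d m ns k₅ Λ ε₉)
    (hLam : ∀ (k : ℕ) (I : Type) [Fintype I] (b : Bas k I) (d : LDat k n I) (A ns : ℕ)
      (m : (Fin (n + 1) → d.Om) → ℤ) (Λ : (Fin (n + 1) → d.Om) → Fin n → Fin k → ℝ) (c : ℝ),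
      d.OK b A c → 1 ≤ ns → AGR b d m ns k₅ Λ ε₉ → TC d k₂ ε₉ →
      (∀ i < ns, Pr (d.Qp i) {w | d.ta w = 0} ≤ ε₉) →
      (∀ v, 0 < d.Qr v → m v < 2 * ns →
        u / 32 * ns < d.fq b (8 * ns) ns v ((2 : ℝ) ^ (-m v))) →
      Pr d.Qr {v | m v < 2 * ns} ≤ η)
    -- relations of the constants
    (r1 : ε₈ ≤ ε₈S) (r2 : ε₈ ≤ ε₈A) (r3 : ε₈ ≤ ε₉) (r4 : (n + 1) ^ 2 * ε₈ ≤ η)
    (r5 : 2 * (n + 1) ^ 2 * ε₈ / (u / 32) ≤ ε₈S) (r6 : π₁ ≤ ε₈S) (r7 : π₁ ≤ ε₈A)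
    (r8 : π₁ + 4 / u * (e + ε₄) ≤ ν) (r9 : ν ≤ ε₈A) (r10 : ν ≤ η) (r11 : ε₄ ≤ ε₈A)
    (r12 : κ₂ ≤ κ₂S) (r13 : κ₂ ≤ 1 / 64) (r14 : ι ≤ ιT) (r15 : (n + 3) * ι ≤ δ) (r16 : ι ≤ δ)
    (r17 : ι ≤ ε₈S) (r18 : ι * Real.log 2 + (n + 3) * ι ≤ ι' * Real.log 2)
    (r19 : ι ≤ κ₂ / 8) (r20 : ι ≤ ι' / 2) (r25 : e ≤ e₀S) (r26 : e ≤ e₀A)
    (r27 : k' = a + k + 2 * n + 10) (r28 : k₁ = k₁₀S + k₁₀A + a + 4)
    (r29 : C * Real.sqrt ι' ≤ κ₂ / 4) (r30 : C * Real.sqrt ι' ≤ ε / 8) (r31 : η = ε / 16)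
    (d : LDat k n (Mon k K)) (hd : d.OK b A (ι * d.X)) (hX₀T : X₀T ≤ d.X) (hX₀R : X₀R ≤ d.X)
    (hX₁ : X₁ ≤ d.X)
    (hsz : (n₀S + n₀A + n₀N + n₀Q + k₁ + a + 2 * n + 8 ≤ ⌊κ₂ * d.X⌋₊ ∧
      1 ≤ ⌊κ₂ / 128 * d.X⌋₊ ∧ 64 * ⌊κ₂ / 128 * d.X⌋₊ ≤ ⌊κ₂ * d.X⌋₊ ∧
      Real.log (6 * ⌊κ₂ * d.X⌋₊ + 1) ≤ δ * ⌊κ₂ * d.X⌋₊ ∧ 1 ≤ ι' * d.X ∧
      2 + (n + 1) ^ 2 * CA n k₂ ≤ (2 : ℝ) ^ (ι' / 2 * d.X) ∧
      b.C * (Fintype.card (Mon k K) + 1) * 2 ≤ (2 : ℝ) ^ (κ₂ / 8 * d.X)))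
    (hXb : 2 * (a + 2 * n + 8 : ℝ) ≤ κ₂ * d.X)
    (hH1 : d.H1 ι 0 0) (hTCS : TC d k₀S ε₇) (hTCT : TC d k₂ ε₈) (hH2 : (d.toR b).H2 ι)
    (hH3 : d.H3 ι)
    (hH5 : (d.toR b).H5 c₅ (κ₂ / 128) π₀ ∅) :
    Pr (d.Q4 0) {u | ∃ i, (2 : ℝ) ^ (-(κ₂ * d.X)) < |d.rs u i|} ≤ ε := by
  classical
  set X := d.X with hX
  set ns := ⌊κ₂ * X⌋₊ with hns
  set h := ⌊κ₂ / 128 * X⌋₊ with hh
  set c := ι * X with hc
  obtain ⟨s1, s2, s3, s4, s5, s6, s7⟩ := hsz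
  have hX0 : (0 : ℝ) ≤ X := Nat.cast_nonneg _
  have hc0 : 0 ≤ c := mul_nonneg hι hX0
  have hfl : (κ₂ * X : ℝ) < ns + 1 := Nat.lt_floor_add_one _
  have hfl' : (ns : ℝ) ≤ κ₂ * X := Nat.floor_le (by positivity)
  have hQ : IsLaw d.Qr := Pool.L1.Qr_isLaw d hd.law
  have hn64 : 64 * ns ≤ X := by
    have h1 : ((64 * ns : ℕ) : ℝ) ≤ X := by
      push_cast
      have h2 : κ₂ * X ≤ 1 / 64 * X := mul_le_mul_of_nonneg_right r13 hX0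
      linarith
    exact_mod_cast h1
  have hcn : (2 : ℝ) ^ c * (b.C * (Fintype.card (Mon k K) + 1)) ≤ (2 : ℝ) ^ ((ns : ℝ) / 2) := by
    have h1 : b.C * (Fintype.card (Mon k K) + 1) ≤ (2 : ℝ) ^ (κ₂ / 8 * X) / 2 := by
      rw [le_div_iff₀ two_pos]
      exact s7
    have h2 : (2 : ℝ) ^ c ≤ (2 : ℝ) ^ (κ₂ / 8 * X) :=
      Real.rpow_le_rpow_of_exponent_le one_le_two (mul_le_mul_of_nonneg_right r19 hX0)
    have hb0 : 0 ≤ b.C * (Fintype.card (Mon k K) + 1) :=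
      mul_nonneg (zero_le_one.trans b.hC) (by positivity)
    calc (2 : ℝ) ^ c * (b.C * (Fintype.card (Mon k K) + 1))
        ≤ (2 : ℝ) ^ (κ₂ / 8 * X) * ((2 : ℝ) ^ (κ₂ / 8 * X) / 2) :=
          mul_le_mul h2 h1 hb0 (by positivity)
      _ = (2 : ℝ) ^ (κ₂ / 8 * X + κ₂ / 8 * X - 1) := by
          rw [Real.rpow_sub two_pos, Real.rpow_add two_pos, Real.rpow_one]
          ring
      _ ≤ (2 : ℝ) ^ ((ns : ℝ) / 2) := by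
          refine Real.rpow_le_rpow_of_exponent_le one_le_two ?_
          have : 0 ≤ κ₂ * X := by positivity
          linarith
  have hTT : TA d ns ε₈ ∧ TB d ns k'' ε₈ :=
    hTim d b A 0 c 0 hd hX₀T (H1_mono r14 le_rfl hH1)
  obtain ⟨hTA, hTB⟩ := hTT
  have hTA2 : ∀ i < ns, Pr (d.Qp i) {w | |d.ta w| < (2 : ℝ) ^ (-(2 * ns : ℤ))} ≤ ε₈ := by
    intro i hi
    have h1 := hTA i (2 * ns) (by omega) (by omega)
    push_cast at h1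
    exact h1
  obtain ⟨m, hm, hLab, hm1, hm2⟩ := hQnt (Mon k K) b d A ns c (u / 32) ε₈ hd (by omega)
    (by positivity) hc0 hcn hTCT hTA2
  have hS : Siz b d ns h m c := ⟨s2, s3, hn64, fun v => (hm v).1, fun v => (hm v).2, hLab, hc0, hcn⟩
  obtain ⟨J, hJ1, hJ2⟩ := hRow (d.toR b) ∅ ⟨hd.law, hd.hN, hd.hZ⟩ hX₀R (H2_mono r16 hH2) hH5
  have hHm : H d.Qr m ≤ δ * X := by
    refine (H_lab hQ hm).trans (s4.trans (mul_le_mul_of_nonneg_left ?_ hδ.le))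
    have : (64 * ns : ℝ) ≤ X := by exact_mod_cast hn64
    have h0 : (0 : ℝ) ≤ ns := Nat.cast_nonneg _
    linarith
  have hRowA : RowA b d J m ns k' k₁ e :=
    hRw k n (Mon k K) b d J m A 0 ns k' k₁ e δ ι 0 c hd hH1 r15 hLab hHm hJ2
  have hSPR : SPR b d m ns a ε₄ :=
    hSpr (Mon k K) b d J m ns h k' k₁ 0 e c 0 hd hS (by omega)
      (hfl'.trans (mul_le_mul_of_nonneg_right r12 hX0)) (by omega) (by omega) (by omega) r25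
      hRowA (J1_mono r6 hJ1) (hm1.trans r5) (TA_mono r1 hTA) (TB_mono r1 hTB) hTCS
      (H1_mono r17 le_rfl hH1) (H3_mono r17 hH3)
  have hNLC := hNlc (Mon k K) b d J m A ns h k' k₁ a e u π₁ ε₄ c hd hS (by omega) (by omega) hu
    (by omega) (by omega) hRowA hJ1 hSPR
  obtain ⟨Λ, hAGR⟩ := hAls (Mon k K) b d J m ns h k' k₁ e c hd hS (by omega) (by omega)
    (by omega) (by omega) r26 hRowA (J1_mono r7 hJ1) (SPR_mono r11 hSPR)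
    (NLC_mono (r8.trans r9) hNLC) (TA_mono r2 hTA) (TB_mono r2 hTB) (TC_mono r2 hTCT)
  have hta0 : ∀ i < ns, Pr (d.Qp i) {w | d.ta w = 0} ≤ ε₉ := by
    intro i hi
    refine le_trans (Pool.KAF.Pr_mono (Pool.L1.Qp_nonneg d hd.law.nonneg i) fun w _ hw => ?_)
      ((hTA2 i hi).trans r3)
    show |d.ta w| < _
    have hw' : d.ta w = 0 := hw
    rw [hw', abs_zero]
    positivity
  have hmm := hLam k (Mon k K) b d A ns m Λ c hd (by omega) hAGR (TC_mono r3 hTCT) hta0 hm2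
  -- the last step
  have hsep := (Pool.L1.sep_prob b d hd hTCT).trans r4
  have hta4 : Pr (d.Qp 0) {w | |d.ta w| < (2 : ℝ) ^ (-(4 * ns : ℤ))} ≤ η := by
    have h1 := hTA 0 (4 * ns) (by omega) (by omega)
    push_cast at h1
    refine h1.trans (le_trans (le_mul_of_one_le_left hε₈.le ?_) r4)
    exact one_le_pow₀ (by linarith [(Nat.cast_nonneg n : (0 : ℝ) ≤ n)])
  have hco : (2 + (n + 1) ^ 2 * CA n k₂) * (2 : ℝ) ^ c ≤ (2 : ℝ) ^ (ι' * X) := by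
    have h1 : (2 : ℝ) ^ c ≤ (2 : ℝ) ^ (ι' / 2 * X) :=
      Real.rpow_le_rpow_of_exponent_le one_le_two (mul_le_mul_of_nonneg_right r20 hX0)
    calc (2 + (n + 1) ^ 2 * CA n k₂) * (2 : ℝ) ^ c
        ≤ (2 : ℝ) ^ (ι' / 2 * X) * (2 : ℝ) ^ (ι' / 2 * X) :=
          mul_le_mul s6 h1 (by positivity) (by positivity)
      _ = (2 : ℝ) ^ (ι' * X) := by
          rw [← Real.rpow_add two_pos]
          congr 1
          ring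
  set M : ℝ := 2 * ns - (a + 2 * n + 6) with hM
  have hnsR : ((n₀S + n₀A + n₀N + n₀Q + k₁ + a + 2 * n + 8 : ℕ) : ℝ) ≤ ns := by exact_mod_cast s1
  have hnsR' : (a + 2 * n + 8 : ℝ) ≤ ns := by
    refine le_trans ?_ hnsR
    push_cast
    have q1 : (0 : ℝ) ≤ n₀S := Nat.cast_nonneg _
    have q2 : (0 : ℝ) ≤ n₀A := Nat.cast_nonneg _
    have q3 : (0 : ℝ) ≤ n₀N := Nat.cast_nonneg _
    have q4 : (0 : ℝ) ≤ n₀Q := Nat.cast_nonneg _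
    have q5 : (0 : ℝ) ≤ k₁ := Nat.cast_nonneg _
    linarith
  have ha0 : (0 : ℝ) ≤ a := Nat.cast_nonneg a
  have hn0 : (0 : ℝ) ≤ n := Nat.cast_nonneg n
  have hM0 : 0 ≤ M := by rw [hM]; linarith
  have hM8 : M ≤ (8 * ns : ℕ) := by
    rw [hM]
    push_cast
    linarith
  have hMb : ((n : ℝ) + 1) ^ 2 * (2 : ℝ) ^ ((a : ℤ) + 4 - 2 * ns) ≤ (2 : ℝ) ^ (-M) := by
    have h1 : ((n : ℝ) + 1) ^ 2 ≤ (2 : ℝ) ^ ((2 * n + 2 : ℝ)) := by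
      have h2 : ((n : ℝ) + 1) ≤ (2 : ℝ) ^ ((n : ℝ) + 1) := by
        have h3 : (n + 1 : ℕ) < 2 ^ (n + 1) := Nat.lt_two_pow_self
        have h4 : ((n + 1 : ℕ) : ℝ) ≤ ((2 ^ (n + 1) : ℕ) : ℝ) := by exact_mod_cast h3.le
        have h5 : (2 : ℝ) ^ ((n : ℝ) + 1) = (2 : ℝ) ^ (n + 1) := by
          rw [← Real.rpow_natCast]
          push_cast
          rfl
        rw [h5]
        push_cast at h4
        exact h4
      calc ((n : ℝ) + 1) ^ 2 ≤ ((2 : ℝ) ^ ((n : ℝ) + 1)) ^ 2 := pow_le_pow_left₀ (by positivity) h2 2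
        _ = (2 : ℝ) ^ ((2 * n + 2 : ℝ)) := by
            rw [← Real.rpow_natCast, ← Real.rpow_mul two_pos.le]
            congr 1
            push_cast
            ring
    have h6 : (2 : ℝ) ^ ((a : ℤ) + 4 - 2 * ns) = (2 : ℝ) ^ ((a : ℝ) + 4 - 2 * ns) := by
      rw [← Real.rpow_intCast]
      push_cast
      rfl
    rw [h6]
    calc ((n : ℝ) + 1) ^ 2 * (2 : ℝ) ^ ((a : ℝ) + 4 - 2 * ns)
        ≤ (2 : ℝ) ^ ((2 * n + 2 : ℝ)) * (2 : ℝ) ^ ((a : ℝ) + 4 - 2 * ns) :=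
          mul_le_mul_of_nonneg_right h1 (by positivity)
      _ = (2 : ℝ) ^ (-M) := by
          rw [← Real.rpow_add two_pos, hM]
          congr 1
          ring
  have hfin := fin_one hRem b hD d m hd hS hX₁ hH1 hH3 r18 hι'.le s5 hco hM0 hM8 hMb
    ((hNLC 0 (by omega)).trans (r8.trans r10)) hsep hta4 hmm (by rw [r31]; linarith)
  refine le_trans (Pool.KAF.Pr_mono (Pool.L1.Q4_nonneg d hd.law 0) fun w _ hw => ?_)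
    (hfin.trans (by rw [r31]; linarith))
  obtain ⟨i, hi⟩ := hw
  refine ⟨i, lt_of_le_of_lt ?_ hi⟩
  refine Real.rpow_le_rpow_of_exponent_le one_le_two ?_
  have h7 : C * Real.sqrt ι' * X ≤ κ₂ / 4 * X := mul_le_mul_of_nonneg_right r29 hX0
  show C * Real.sqrt ι' * X - M ≤ -(κ₂ * X)
  rw [hM]
  linarith
/-- **L1** from its rows, the spread of the first digits of the time is a hypothesis. -/
theorem l1t_of_rows (hR : RROWStmt) (hTim : TIMStmt) (hQ : QNTStmt)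
    (hRw : RWAStmt) (hSp : SPRAStmt) (hN : NLCStmt) (hA : ALSStmt) (hL : LAMStmt)
    (hRem : REMStmt) : L1TStmt := by
  classical
  intro k n K A b c ε kk hg hD hc hε
  obtain ⟨u, hu, hu1, hR1⟩ := hR A c hc
  obtain ⟨C, hC, hRem1⟩ := hRem k K
  obtain ⟨X₁, hRem2⟩ := hRem1 (ε / 4) (by positivity)
  set η : ℝ := ε / 16 with hη
  have hη0 : 0 < η := by positivity
  obtain ⟨ε₉, hε₉, hL1⟩ := hL n u η hu hη0
  obtain ⟨ε₈A, hε₈A, hA1⟩ := hA k n u ε₉ hu hu1 hε₉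
  set ν : ℝ := min ε₈A η with hν
  have hν0 : 0 < ν := lt_min hε₈A hη0
  set ε₄ : ℝ := min ε₈A (u * ν / 16) with hε₄
  have hε₄0 : 0 < ε₄ := lt_min hε₈A (by positivity)
  obtain ⟨ε₇, hε₇, hS1⟩ := hSp k n u ε₄ hu hu1 hε₄0
  obtain ⟨iS, hiS⟩ := exists_pow_lt_of_lt_one hε₇ (by norm_num : (1 / 2 : ℝ) < 1)
  obtain ⟨k₀S, hk₀S⟩ : ∃ k₀S : ℕ, k₀S = kk iS := ⟨_, rfl⟩
  obtain ⟨a, κ₂S, ε₈S, e₀S, ha1, hκ₂S, hε₈S, he₀S, hS2⟩ := hS1 k₀S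
  have hn0 : (0 : ℝ) ≤ n := Nat.cast_nonneg n
  have hn1 : (0 : ℝ) < (n + 1) ^ 2 := by positivity
  set ε₈ : ℝ := min (min ε₈S ε₈A) (min ε₉ (min (η / (n + 1) ^ 2)
    (ε₈S * (u / 32) / (2 * (n + 1) ^ 2)))) with hε₈
  have hε₈0 : 0 < ε₈ :=
    lt_min (lt_min hε₈S hε₈A) (lt_min hε₉ (lt_min (by positivity) (by positivity)))
  have m1 : ε₈ ≤ ε₈S := (min_le_left _ _).trans (min_le_left _ _)
  have m2 : ε₈ ≤ ε₈A := (min_le_left _ _).trans (min_le_right _ _)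
  have m3 : ε₈ ≤ ε₉ := (min_le_right _ _).trans (min_le_left _ _)
  have m4 : ε₈ ≤ η / (n + 1) ^ 2 :=
    (min_le_right _ _).trans ((min_le_right _ _).trans (min_le_left _ _))
  have m5 : ε₈ ≤ ε₈S * (u / 32) / (2 * (n + 1) ^ 2) :=
    (min_le_right _ _).trans ((min_le_right _ _).trans (min_le_right _ _))
  obtain ⟨iT, hiT⟩ := exists_pow_lt_of_lt_one hε₈0 (by norm_num : (1 / 2 : ℝ) < 1)
  obtain ⟨k₂, hk₂⟩ : ∃ k₂ : ℕ, k₂ = kk iT := ⟨_, rfl⟩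
  obtain ⟨k'', hTim1⟩ := hTim k n (Mon k K) ε₈ hε₈0
  obtain ⟨k₁₀S, n₀S, hS3⟩ := hS2 k'' A
  obtain ⟨k₅, hL2⟩ := hL1 k₂
  obtain ⟨k₁₀A, n₀A, e₀A, he₀A, hA2⟩ := hA1 k₂ a k'' k₅ A
  obtain ⟨n₀N, hN1⟩ := hN k n k₂
  obtain ⟨n₀Q, hQ1⟩ := hQ k n k₂
  set κ₂ : ℝ := min κ₂S (1 / 64) with hκ₂
  have hκ₂0 : 0 < κ₂ := lt_min hκ₂S (by norm_num)
  obtain ⟨ιT, X₀T, hιT, hTim2⟩ := hTim1 κ₂ hκ₂0
  set k' : ℕ := a + k + 2 * n + 10 with hk'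
  set k₁ : ℕ := k₁₀S + k₁₀A + a + 4 with hk₁
  set e : ℝ := min (min e₀S e₀A) (u * ν / 16) with he
  have he0 : 0 < e := lt_min (lt_min he₀S he₀A) (by positivity)
  obtain ⟨δ, hδ, hR2⟩ := hR1 k' k₁ (2 ^ (k + n)) e he0
  set π₁ : ℝ := min (min ε₈S ε₈A) (ν / 2) with hπ₁
  have hπ₁0 : 0 < π₁ := lt_min (lt_min hε₈S hε₈A) (by positivity)
  obtain ⟨π₀, X₀R, hπ₀, hR3⟩ := hR2 (κ₂ / 128) π₁ (by positivity)
    (by have := min_le_right κ₂S (1 / 64 : ℝ); linarith) hπ₁0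
  set ρ : ℝ := min (ε / 8) (κ₂ / 4) with hρ
  have hρ0 : 0 < ρ := lt_min (by positivity) (by positivity)
  set ι' : ℝ := (ρ / C) ^ 2 with hι'
  have hι'0 : 0 < ι' := by positivity
  have hsq : C * Real.sqrt ι' = ρ := by
    rw [hι', Real.sqrt_sq (by positivity)]
    field_simp
  have hl2 : 0 < Real.log 2 := Real.log_pos one_lt_two
  set ι : ℝ := min (min (min ιT (δ / (n + 3))) (min ε₈S (ι' * Real.log 2 / (Real.log 2 + n + 3))))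
    (min (κ₂ / 8) (ι' / 2)) with hι
  have hι0 : 0 < ι := by
    refine lt_min (lt_min (lt_min hιT (by positivity)) (lt_min hε₈S (by positivity)))
      (lt_min (by positivity) (by positivity))
  have i1 : ι ≤ ιT := (min_le_left _ _).trans ((min_le_left _ _).trans (min_le_left _ _))
  have i2 : ι ≤ δ / (n + 3) :=
    (min_le_left _ _).trans ((min_le_left _ _).trans (min_le_right _ _))
  have i3 : ι ≤ ε₈S := (min_le_left _ _).trans ((min_le_right _ _).trans (min_le_left _ _))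
  have i4 : ι ≤ ι' * Real.log 2 / (Real.log 2 + n + 3) :=
    (min_le_left _ _).trans ((min_le_right _ _).trans (min_le_right _ _))
  have i5 : ι ≤ κ₂ / 8 := (min_le_right _ _).trans (min_le_left _ _)
  have i6 : ι ≤ ι' / 2 := (min_le_right _ _).trans (min_le_right _ _)
  have hb0 : 0 < b.C * (Fintype.card (Mon k K) + 1) * 2 := by
    have := lt_of_lt_of_le one_pos b.hC
    positivity
  obtain ⟨X₂, hX₂⟩ := sizes (κ₂ := κ₂) (δ := δ) (ι' := ι')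
    (B₁ := 2 + (n + 1) ^ 2 * CA n k₂) (B₂ := b.C * (Fintype.card (Mon k K) + 1) * 2)
    hκ₂0 hδ hι'0 (by have := CA_pos n k₂; positivity) hb0
    (n₀S + n₀A + n₀N + n₀Q + k₁ + a + 2 * n + 8)
  obtain ⟨X₃, hX₃⟩ := exists_nat_ge (2 * (a + 2 * n + 8 : ℝ) / κ₂)
  refine ⟨κ₂, κ₂ / 128, π₀, ι, max iS iT, X₀T + X₀R + X₁ + X₂ + X₃, hκ₂0,
    by positivity, by have := min_le_right κ₂S (1 / 64 : ℝ); linarith, hπ₀, hι0, ?_⟩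
  intro d hd hX hH1 hTC hH2 hH3 hH5
  have hTCS : TC d k₀S ε₇ := by
    have h1 := hTC iS (le_max_left _ _)
    rw [← hk₀S] at h1
    exact h1.trans hiS.le
  have hTCT : TC d k₂ ε₈ := by
    have h1 := hTC iT (le_max_right _ _)
    rw [← hk₂] at h1
    exact h1.trans hiT.le
  have hXb : 2 * (a + 2 * n + 8 : ℝ) ≤ κ₂ * d.X := by
    have h1 : (X₃ : ℝ) ≤ d.X := by exact_mod_cast (show X₃ ≤ d.X by omega)
    have h2 : 2 * (a + 2 * n + 8 : ℝ) / κ₂ ≤ d.X := hX₃.trans h1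
    rw [div_le_iff₀ hκ₂0] at h2
    linarith
  have r4 : ((n : ℝ) + 1) ^ 2 * ε₈ ≤ η := by
    have h1 := mul_le_mul_of_nonneg_left m4 hn1.le
    have h2 : ((n : ℝ) + 1) ^ 2 * (η / (n + 1) ^ 2) = η := by field_simp
    linarith
  have r5 : 2 * ((n : ℝ) + 1) ^ 2 * ε₈ / (u / 32) ≤ ε₈S := by
    rw [div_le_iff₀ (by positivity)]
    have h1 := mul_le_mul_of_nonneg_left m5 (show (0 : ℝ) ≤ 2 * (n + 1) ^ 2 by positivity)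
    have h2 : 2 * ((n : ℝ) + 1) ^ 2 * (ε₈S * (u / 32) / (2 * (n + 1) ^ 2)) = ε₈S * (u / 32) := by
      field_simp
    linarith
  have r8 : π₁ + 4 / u * (e + ε₄) ≤ ν := by
    have h1 : e ≤ u * ν / 16 := min_le_right _ _
    have h2 : ε₄ ≤ u * ν / 16 := min_le_right _ _
    have h3 : π₁ ≤ ν / 2 := min_le_right _ _
    have h4 : 4 / u * (e + ε₄) ≤ 4 / u * (u * ν / 16 + u * ν / 16) :=
      mul_le_mul_of_nonneg_left (by linarith) (by positivity)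
    have h5 : 4 / u * (u * ν / 16 + u * ν / 16) = ν / 2 := by
      field_simp
      ring
    linarith
  have r15 : ((n : ℝ) + 3) * ι ≤ δ := by
    rw [le_div_iff₀ (by positivity)] at i2
    linarith
  have r16 : ι ≤ δ := by
    refine i2.trans ?_
    rw [div_le_iff₀ (by positivity)]
    exact le_mul_of_one_le_right hδ.le (by linarith only [hn0])
  have r18 : ι * Real.log 2 + (n + 3) * ι ≤ ι' * Real.log 2 := by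
    rw [le_div_iff₀ (by positivity)] at i4
    linarith
  have hsz := hX₂ d.X (by omega)
  exact l1_oneT b hD (c₅ := c) (u := u) (ε₄ := ε₄) (ε₇ := ε₇) (ε₈S := ε₈S) (ε₈ := ε₈)
    (ε₈A := ε₈A) (ε₉ := ε₉) (η := η) (ν := ν) (e := e) (δ := δ) (κ₂ := κ₂) (κ₂S := κ₂S)
    (e₀S := e₀S) (e₀A := e₀A) (π₁ := π₁) (π₀ := π₀) (ι := ι) (ιT := ιT) (ι' := ι')
    (C := C) (ε := ε) (k₀S := k₀S) (k₂ := k₂)
    (a := a) (k'' := k'') (k₅ := k₅) (k₁₀S := k₁₀S) (k₁₀A := k₁₀A) (k' := k') (k₁ := k₁)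
    (n₀S := n₀S) (n₀A := n₀A) (n₀N := n₀N) (n₀Q := n₀Q) (X₀T := X₀T)
    (X₀R := X₀R) (X₁ := X₁) hRem2 hRw hu hη0 hε₈0 hδ hκ₂0 hι0.le hι'0 hTim2 hQ1
    hR3 hS3 hN1 hA2 hL2 m1 m2 m3 r4 r5
    ((min_le_left _ _).trans (min_le_left _ _)) ((min_le_left _ _).trans (min_le_right _ _)) r8
    (min_le_left _ _) (min_le_right _ _) (min_le_left _ _) (min_le_left _ _) (min_le_right _ _)
    i1 r15 r16 i3 r18 i5 i6 ((min_le_left _ _).trans (min_le_left _ _))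
    ((min_le_left _ _).trans (min_le_right _ _)) rfl rfl
    (by rw [hsq]; exact min_le_right _ _) (by rw [hsq]; exact min_le_left _ _) rfl
    d hd (by omega) (by omega) (by omega) hsz hXb hH1 hTCS hTCT hH2 hH3 hH5

end T48

/-- **Lemma L1**, the spread of the first digits of the time is a hypothesis. -/
theorem l1t : L1TStmt :=
  T48.l1t_of_rows Pool.OC.RS.row_M5 T86.tim_thm Q86.qnt_thm rwa_thm spra_thm nlc_thm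
    A92.als_thm Pool.L1.lam_thm Pool.L1.rem_thm

open W31 in
/-- **Lemma L1** with nodes, the spread of the first digits of the time is a hypothesis. -/
theorem l1wt (k n K A : ℕ) (b : Bas k (Mon k K)) (c ε : ℝ) (kk : ℕ → ℕ)
    (hg : ∀ i, b.g i = mono (i : Fin k → ℕ)) (hD : ∀ i, b.D i = dmono (i : Fin k → ℕ))
    (hc : 0 < c) (hε : 0 < ε) :
    ∃ (κ₂ κ π₀ ι : ℝ) (i₁ k₀ X₀ : ℕ), 0 < κ₂ ∧ 0 < κ ∧ κ ≤ 1 ∧ 0 < π₀ ∧ 0 < ι ∧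
      ∀ d : LDat k n (Mon k K), d.OK b A (ι * d.X) → X₀ ≤ d.X → d.H1 ι 0 0 →
        (∀ i ≤ i₁, TC d (kk i) ((1 / 2) ^ i)) →
        (d.toR b).H2 ι → d.H3 ι → (d.toR b).H5 c κ π₀ ∅ →
        Pr d.Q1 {u | ¬ d.sep k₀ u.1 ∨ ∃ i, (2 : ℝ) ^ (-(κ₂ * d.X)) <
          |d.co (d.T u.2) i - d.itp u.1 i (d.th (d.T u.2))|} ≤ ε := by
  obtain ⟨i₀, hi₀⟩ := exists_pow_lt_of_lt_one
    (show (0 : ℝ) < ε / (2 * (n + 1) ^ 2) by positivity) (by norm_num : (1 / 2 : ℝ) < 1)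
  obtain ⟨k₀, hk₀⟩ : ∃ k₀ : ℕ, k₀ = kk i₀ := ⟨_, rfl⟩
  obtain ⟨κ₂, κ, π₀, ι, i₁, X₀, h1, h2, h3, h4, h5, hmain⟩ :=
    l1t k n K A b c (ε / (2 * (n + 2))) kk hg hD hc (by positivity)
  set Lg : ℕ := n + 1 + k₀ * n with hLg
  refine ⟨κ₂ / 2, κ, π₀, ι, max i₁ i₀, k₀, max X₀ ⌈2 * Lg / κ₂⌉₊, by positivity, h2, h3,
    h4, h5, ?_⟩
  intro d hd hX hH1 hTC hH2 hH3 hH5
  have hX0 : X₀ ≤ d.X := (le_max_left _ _).trans hX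
  have hX1 : (2 * Lg / κ₂ : ℝ) ≤ d.X :=
    (Nat.le_ceil _).trans (by exact_mod_cast (le_max_right _ _).trans hX)
  have hTC' : TC d k₀ (ε / (2 * (n + 1) ^ 2)) := by
    have h1 := hTC i₀ (le_max_right _ _)
    rw [← hk₀] at h1
    exact h1.trans hi₀.le
  have hr := hmain d hd hX0 hH1 (fun i hi => hTC i (hi.trans (le_max_left _ _))) hH2 hH3 hH5
  have hev := l1w_ev b d hd (e := (2 : ℝ) ^ (-(κ₂ * d.X))) (by positivity) hTC' hr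
  have hsz : (2 : ℝ) ^ Lg * (2 : ℝ) ^ (-(κ₂ * d.X)) ≤ (2 : ℝ) ^ (-(κ₂ / 2 * d.X)) := by
    rw [← Real.rpow_natCast, ← Real.rpow_add (by norm_num)]
    refine Real.rpow_le_rpow_of_exponent_le (by norm_num) ?_
    rw [div_le_iff₀ h1] at hX1
    linarith
  have hbound : ((n : ℝ) + 1) ^ 2 * (ε / (2 * (n + 1) ^ 2)) + (n + 2) * (ε / (2 * (n + 2))) =
      ε := by
    field_simp
    ring
  rw [hbound] at hev
  refine le_trans (Pool.KAF.Pr_mono (Q1_nonneg d hd.law) ?_) hev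
  rintro u _ (a1 | ⟨i, hi⟩)
  · exact Or.inl a1
  · exact Or.inr ⟨i, lt_of_le_of_lt hsz hi⟩

end Pool.M5
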