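import Pool.Agent.H48.GEN.LevD
import Pool.Agent.H48.GEN.TcL1
import Pool.Agent.H81.SLP.CoreW
import Pool.Agent.H81.SLP.Pick
import Pool.Agent.H7.SLP.H5P
import Pool.Agent.H1.M5.TAY

/-!
# L1 level by level: one coordinate

One base coordinate `y`, full given the label `Z` of the line; the known part of the height is a
function of `Z` and of the time. Lemma L1 in the typical classes of `Z`.
-/

set_option autoImplicit false

namespace Pool.LEV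

open Finset Real
open Pool.Agent.H49.Ent Pool.Agent.H32.Dense Pool.STK Pool.KAF Pool.M5 Pool.SLO
open Pool.KVA (MI)

section

theorem mon11 (i : Mon 1 1) : (i : Fin 1 → ℕ) = fun _ => 1 := by
  have h := i.2
  unfold Mon at h
  rw [Finset.mem_filter] at h
  have h1 := h.2.1
  have h2 := h.2.2
  simp only [Finset.univ_unique, Fin.default_eq_zero, Fin.isValue, Finset.sum_singleton] at h1 h2
  funext j
  rw [Subsingleton.elim j 0]
  omega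

theorem one_mem_mon : (fun _ => 1 : Fin 1 → ℕ) ∈ Mon 1 1 := by
  unfold Mon
  rw [Finset.mem_filter, Fintype.mem_piFinset]
  simp

theorem pol11 (b : Bas 1 (Mon 1 1)) (hg : ∀ i, b.g i = mono (i : Fin 1 → ℕ)) (a : ℝ)
    (x : Fin 1 → ℝ) : pol b (fun _ => a) x = a * x 0 := by
  unfold pol
  rw [Fintype.sum_eq_single (⟨fun _ => 1, one_mem_mon⟩ : Mon 1 1)]
  · rw [hg]
    unfold mono
    simp
  · intro i hi
    exact absurd (Subtype.ext (mon11 i)) hi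

variable {Ω Λ τ ν ζ : Type} [Fintype Ω] {D : ℕ}

/-- The data of L1 for a law `p` and a known part `S` of the height. -/
noncomputable def ldz (p : Ω → ℝ) (L : Ω → Λ) (T : Ω → τ) (y : Λ → ℤ) (q : Λ → Fin D → ℝ)
    (N : Ω → ℤ) (th : τ → ℝ) (e : τ → ℝ) (S : τ → ℝ) (X R : ℕ) : LDat 1 D (Mon 1 1) where
  Om := Ω
  Lam := Λ
  Tau := τ
  P := p
  L := L
  T := T
  y := fun l _ => y l
  c := fun l a => ⌊(2 : ℝ) ^ X * (q l a / 2 ^ R)⌋
  N := fun ω => N ω / 2 ^ R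
  th := th
  s := fun t => S t / 2 ^ R
  co := fun t _ => e t / 2 ^ R
  X := X

/-- The height of the sample, one coordinate. -/
noncomputable def hg1 (y : Λ → ℤ) (q : Λ → Fin D → ℝ) (th : τ → ℝ) (e : τ → ℝ) (S : τ → ℝ)
    (X : ℕ) (l : Λ) (t : τ) : ℝ :=
  ∑ i, q l i * th t ^ (i.val + 1) - S t - e t * (y l / 2 ^ X)

theorem floor_div_le {X : ℕ} {x : ℝ} (h : |x| ≤ 1) :
    |((⌊(2 : ℝ) ^ X * x⌋ : ℤ) : ℝ) / 2 ^ X| ≤ 1 := by
  have hX : (0 : ℝ) < 2 ^ X := by positivity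
  rw [abs_div, abs_of_pos hX, div_le_one hX, abs_le]
  have h1 := abs_le.1 h
  constructor
  · have h2 : (-(2 : ℤ) ^ X) ≤ ⌊(2 : ℝ) ^ X * x⌋ := by
      rw [Int.le_floor]
      push_cast
      nlinarith [h1.1]
    have h3 : ((-(2 : ℤ) ^ X : ℤ) : ℝ) ≤ ((⌊(2 : ℝ) ^ X * x⌋ : ℤ) : ℝ) := by exact_mod_cast h2
    push_cast at h3
    exact h3
  · refine (Int.floor_le _).trans ?_
    nlinarith [h1.2]

/-- Rounding of a quotient. -/
theorem ediv_near (N : ℤ) (R : ℕ) : |((N / 2 ^ R : ℤ) : ℝ) - (N : ℝ) / 2 ^ R| ≤ 1 := by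
  have hR : (0 : ℝ) < 2 ^ R := by positivity
  have hRz : (0 : ℤ) < 2 ^ R := by positivity
  have h1 := Int.ediv_mul_le N hRz.ne'
  have h2 := Int.lt_ediv_add_one_mul_self N hRz
  have h3 : ((N / 2 ^ R : ℤ) : ℝ) * 2 ^ R ≤ N := by exact_mod_cast h1
  have h4 : (N : ℝ) < (((N / 2 ^ R : ℤ) : ℝ) + 1) * 2 ^ R := by exact_mod_cast h2
  have h5 : ((N / 2 ^ R : ℤ) : ℝ) ≤ (N : ℝ) / 2 ^ R := by
    rw [le_div_iff₀ hR]
    exact h3
  have h6 : (N : ℝ) / 2 ^ R < ((N / 2 ^ R : ℤ) : ℝ) + 1 := by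
    rw [div_lt_iff₀ hR]
    exact h4
  rw [abs_le]
  constructor <;> linarith

theorem ldz_ok (b : Bas 1 (Mon 1 1)) (hg : ∀ i, b.g i = mono (i : Fin 1 → ℕ)) {p : Ω → ℝ}
    (hp : IsLaw p) {L : Ω → Λ} {T : Ω → τ} {y : Λ → ℤ} {q : Λ → Fin D → ℝ} {N : Ω → ℤ}
    {th e S : τ → ℝ} {X R A : ℕ} {c c' : ℝ} (hc : 0 ≤ c) (hR : (2 : ℝ) ^ c' ≤ 2 ^ R)
    (hy : ∀ l, |(y l : ℝ) / 2 ^ X| ≤ 1) (hq : ∀ l i, |q l i| ≤ (2 : ℝ) ^ c')
    (he : ∀ t, |e t| ≤ (2 : ℝ) ^ c') (hth : ∀ t, 0 ≤ th t ∧ th t < 1)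
    (hN : Det p (fun ω => (L ω, T ω)) N)
    (hh : ∀ ω ω', 0 < p ω → 0 < p ω' → L ω = L ω' →
      |((N ω' : ℝ) - N ω) - 2 ^ X * (hg1 y q th e S X (L ω) (T ω') -
        hg1 y q th e S X (L ω) (T ω))| ≤ 2 ^ A) :
    (ldz p L T y q N th e S X R).OK b (A + D + 2) c := by
  have hX : (0 : ℝ) < 2 ^ X := by positivity
  have hR0 : (0 : ℝ) < 2 ^ R := by positivity
  have hR1 : (1 : ℝ) ≤ 2 ^ R := one_le_pow₀ one_le_two
  have h1c : (1 : ℝ) ≤ (2 : ℝ) ^ c := Real.one_le_rpow one_le_two hc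
  refine ⟨hp, fun l j => hy l, fun l a => ?_, ?_, hth, fun t i => ?_, ?_⟩
  · refine floor_div_le ?_
    rw [abs_div, abs_of_pos hR0, div_le_one hR0]
    exact (hq l a).trans hR
  · intro ω ω' h h' e'
    show N ω / 2 ^ R = N ω' / 2 ^ R
    rw [hN ω ω' h h' e']
  · refine le_trans ?_ h1c
    show |e t / 2 ^ R| ≤ 1
    rw [abs_div, abs_of_pos hR0, div_le_one hR0]
    exact (he t).trans hR
  · intro (ω : Ω) (ω' : Ω) h h' hL
    have h1 := hh ω ω' h h' hL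
    have n1 := ediv_near (N ω) R
    have n2 := ediv_near (N ω') R
    -- the rounded coefficients
    have hcr : ∀ a : Fin D, |(((⌊(2 : ℝ) ^ X * (q (L ω) a / 2 ^ R)⌋ : ℤ) : ℝ) / 2 ^ X) -
        q (L ω) a / 2 ^ R| ≤ 1 / 2 ^ X := fun a => by
      have k1 := Int.floor_le ((2 : ℝ) ^ X * (q (L ω) a / 2 ^ R))
      have k2 := Int.lt_floor_add_one ((2 : ℝ) ^ X * (q (L ω) a / 2 ^ R))
      rw [abs_le]
      constructor
      · rw [le_sub_iff_add_le, le_div_iff₀ hX]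
        have : (-(1 / 2 ^ X) + q (L ω) a / 2 ^ R) * (2 : ℝ) ^ X =
          2 ^ X * (q (L ω) a / 2 ^ R) - 1 := by field_simp; ring
        rw [this]
        linarith
      · rw [sub_le_iff_le_add, div_le_iff₀ hX]
        have : (1 / 2 ^ X + q (L ω) a / 2 ^ R) * (2 : ℝ) ^ X =
          2 ^ X * (q (L ω) a / 2 ^ R) + 1 := by field_simp; ring
        rw [this]
        linarith
    obtain ⟨ZZ, hZZ⟩ : ∃ ZZ : ℝ, ZZ = (ldz p L T y q N th e S X R).Z b (T ω) (T ω')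
      (fun _ => y (L ω), fun a => ⌊(2 : ℝ) ^ X * (q (L ω) a / 2 ^ R)⌋) := ⟨_, rfl⟩
    have hZ : ZZ =
        ∑ a : Fin D, (th (T ω') ^ (a.val + 1) - th (T ω) ^ (a.val + 1)) *
          (((⌊(2 : ℝ) ^ X * (q (L ω) a / 2 ^ R)⌋ : ℤ) : ℝ) / 2 ^ X) -
        (S (T ω') / 2 ^ R - S (T ω) / 2 ^ R) -
        (e (T ω') / 2 ^ R * (y (L ω) / 2 ^ X) - e (T ω) / 2 ^ R * (y (L ω) / 2 ^ X)) := by
      rw [hZZ]
      unfold LDat.Z
      have e1 := pol11 b hg (e (T ω') / 2 ^ R) (fun j => ((y (L ω) : ℤ) : ℝ) / 2 ^ X)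
      have e2 := pol11 b hg (e (T ω) / 2 ^ R) (fun j => ((y (L ω) : ℤ) : ℝ) / 2 ^ X)
      show _ - _ - (pol b (fun _ => e (T ω') / 2 ^ R) (fun j => ((y (L ω) : ℤ) : ℝ) / 2 ^ X) -
        pol b (fun _ => e (T ω) / 2 ^ R) (fun j => ((y (L ω) : ℤ) : ℝ) / 2 ^ X)) = _
      rw [e1, e2]
      rfl
    have hdiff : |ZZ -
        (hg1 y q th e S X (L ω) (T ω') - hg1 y q th e S X (L ω) (T ω)) / 2 ^ R| ≤
        D * (1 / 2 ^ X) := by
      rw [hZ]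
      have e3 : ∑ a : Fin D, (th (T ω') ^ (a.val + 1) - th (T ω) ^ (a.val + 1)) *
          (((⌊(2 : ℝ) ^ X * (q (L ω) a / 2 ^ R)⌋ : ℤ) : ℝ) / 2 ^ X) -
        (S (T ω') / 2 ^ R - S (T ω) / 2 ^ R) -
        (e (T ω') / 2 ^ R * (y (L ω) / 2 ^ X) - e (T ω) / 2 ^ R * (y (L ω) / 2 ^ X)) -
        (hg1 y q th e S X (L ω) (T ω') - hg1 y q th e S X (L ω) (T ω)) / 2 ^ R =
        ∑ a : Fin D, (th (T ω') ^ (a.val + 1) - th (T ω) ^ (a.val + 1)) *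
          ((((⌊(2 : ℝ) ^ X * (q (L ω) a / 2 ^ R)⌋ : ℤ) : ℝ) / 2 ^ X) - q (L ω) a / 2 ^ R) := by
        unfold hg1
        have e4 : ∑ a : Fin D, (th (T ω') ^ (a.val + 1) - th (T ω) ^ (a.val + 1)) *
          ((((⌊(2 : ℝ) ^ X * (q (L ω) a / 2 ^ R)⌋ : ℤ) : ℝ) / 2 ^ X) - q (L ω) a / 2 ^ R) =
          ∑ a : Fin D, (th (T ω') ^ (a.val + 1) - th (T ω) ^ (a.val + 1)) *
          (((⌊(2 : ℝ) ^ X * (q (L ω) a / 2 ^ R)⌋ : ℤ) : ℝ) / 2 ^ X) -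
          (∑ a : Fin D, q (L ω) a * th (T ω') ^ (a.val + 1) -
            ∑ a : Fin D, q (L ω) a * th (T ω) ^ (a.val + 1)) / 2 ^ R := by
          rw [← Finset.sum_sub_distrib, Finset.sum_div, ← Finset.sum_sub_distrib]
          refine Finset.sum_congr rfl fun a _ => ?_
          ring
        rw [e4]
        ring
      rw [e3]
      refine (Finset.abs_sum_le_sum_abs _ _).trans ?_
      refine (Finset.sum_le_card_nsmul _ _ (1 / 2 ^ X) fun a _ => ?_).trans (le_of_eq (by simp))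
      rw [abs_mul]
      have t1 := hth (T ω)
      have t2 := hth (T ω')
      have k3 : |th (T ω') ^ (a.val + 1) - th (T ω) ^ (a.val + 1)| ≤ 1 := by
        rw [abs_le]
        have a1 : th (T ω') ^ (a.val + 1) ≤ 1 := pow_le_one₀ t2.1 t2.2.le
        have a2 : th (T ω) ^ (a.val + 1) ≤ 1 := pow_le_one₀ t1.1 t1.2.le
        have a3 : 0 ≤ th (T ω') ^ (a.val + 1) := pow_nonneg t2.1 _
        have a4 : 0 ≤ th (T ω) ^ (a.val + 1) := pow_nonneg t1.1 _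
        constructor <;> linarith
      calc _ ≤ 1 * (1 / 2 ^ X) := mul_le_mul k3 (hcr a) (abs_nonneg _) zero_le_one
        _ = 1 / 2 ^ X := one_mul _
    have e6 : ((N ω' : ℝ) - N ω) / 2 ^ R -
        2 ^ X * ((hg1 y q th e S X (L ω) (T ω') - hg1 y q th e S X (L ω) (T ω)) / 2 ^ R) =
        (((N ω' : ℝ) - N ω) - 2 ^ X * (hg1 y q th e S X (L ω) (T ω') -
        hg1 y q th e S X (L ω) (T ω))) / 2 ^ R := by ring
    have k5 : |((N ω' : ℝ) - N ω) / 2 ^ R -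
        2 ^ X * ((hg1 y q th e S X (L ω) (T ω') - hg1 y q th e S X (L ω) (T ω)) / 2 ^ R)| ≤
        2 ^ A := by
      rw [e6, abs_div, abs_of_pos hR0]
      refine (div_le_div_of_nonneg_right h1 hR0.le).trans ?_
      exact div_le_self (by positivity) hR1
    have k6 : |(2 : ℝ) ^ X * ZZ -
        2 ^ X * ((hg1 y q th e S X (L ω) (T ω') - hg1 y q th e S X (L ω) (T ω)) / 2 ^ R)| ≤ D := by
      rw [← mul_sub, abs_mul, abs_of_pos hX]
      refine (mul_le_mul_of_nonneg_left hdiff hX.le).trans (le_of_eq ?_)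
      field_simp
    have k7 : ((2 : ℝ) ^ A + 2 + D) ≤ 2 ^ (A + D + 2) := by
      have d1 : ((D : ℝ) + 1) ≤ 2 ^ D := by
        have : D + 1 ≤ 2 ^ D := Nat.lt_two_pow_self
        exact_mod_cast this
      have a1 : (1 : ℝ) ≤ 2 ^ A := one_le_pow₀ one_le_two
      rw [pow_add, pow_add]
      have d0 : (0 : ℝ) ≤ D := Nat.cast_nonneg _
      nlinarith
    show |(((N ω' / 2 ^ R : ℤ) : ℝ) - ((N ω / 2 ^ R : ℤ) : ℝ)) - 2 ^ X *
      (ldz p L T y q N th e S X R).Z b (T ω) (T ω')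
      (fun _ => y (L ω), fun a => ⌊(2 : ℝ) ^ X * (q (L ω) a / 2 ^ R)⌋)| ≤ _
    rw [← hZZ]
    have e7 : (((N ω' / 2 ^ R : ℤ) : ℝ) - ((N ω / 2 ^ R : ℤ) : ℝ)) - 2 ^ X * ZZ =
      (((N ω' / 2 ^ R : ℤ) : ℝ) - (N ω' : ℝ) / 2 ^ R) - (((N ω / 2 ^ R : ℤ) : ℝ) - (N ω : ℝ) / 2 ^ R)
      + (((N ω' : ℝ) - N ω) / 2 ^ R -
        2 ^ X * ((hg1 y q th e S X (L ω) (T ω') - hg1 y q th e S X (L ω) (T ω)) / 2 ^ R))
      - ((2 : ℝ) ^ X * ZZ -
        2 ^ X * ((hg1 y q th e S X (L ω) (T ω') - hg1 y q th e S X (L ω) (T ω)) / 2 ^ R)) := by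
      ring
    rw [e7]
    rw [abs_le] at n1 n2 k5 k6 ⊢
    constructor <;> linarith

end

end Pool.LEV
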