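import Pool.Agent.H48.GEN.Top
import Pool.Agent.H93.KVA.Var

/-!
# L1 level by level: the step for one coordinate
-/

set_option autoImplicit false

namespace Pool.LEV

open Finset Real
open Pool.Agent.H49.Ent Pool.Agent.H32.Dense Pool.STK Pool.KAF Pool.M5 Pool.SLO
open Pool.KVA (MI)

section

variable {Ω Λ τ ν ζ : Type} [Fintype Ω] {D : ℕ}

/-- The nodes are separated. -/
def sepN (th : τ → ℝ) (T : Ω → τ) (k₀ : ℕ) (v : Fin (D + 1) → Ω) : Prop :=
  ∀ i i', i ≠ i' → (2 : ℝ) ^ (-(k₀ : ℤ)) ≤ |th (T (v i)) - th (T (v i'))|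

/-- The interpolation of `f` at the nodes. -/
noncomputable def itpN (th : τ → ℝ) (T : Ω → τ) (f : τ → ℝ) (v : Fin (D + 1) → Ω) (t : ℝ) : ℝ :=
  (Lagrange.interpolate univ (fun i => th (T (v i))) (fun i => f (T (v i)))).eval t

omit [Fintype Ω] in
theorem itpN_div (th : τ → ℝ) (T : Ω → τ) (f : τ → ℝ) (v : Fin (D + 1) → Ω) (t r : ℝ) :
    itpN th T (fun x => f x / r) v t = itpN th T f v t / r := by
  unfold itpN
  have h1 : (fun i => f (T (v i)) / r) = (r⁻¹) • fun i => f (T (v i)) := by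
    funext i
    rw [Pi.smul_apply, smul_eq_mul, div_eq_inv_mul]
  rw [h1, map_smul, Polynomial.eval_smul, smul_eq_mul, div_eq_inv_mul]

/-- The bad tuples for one function. -/
def BadN (th : τ → ℝ) (T : Ω → τ) (e : τ → ℝ) (D k₀ : ℕ) (δ : ℝ) : Set (Fin (D + 2) → Ω) :=
  {v | ¬ sepN th T k₀ (Fin.init v : Fin (D + 1) → Ω) ∨ δ <
    |e (T (v (Fin.last (D + 1)))) -
      itpN th T e (Fin.init v : Fin (D + 1) → Ω) (th (T (v (Fin.last (D + 1)))))|}

/-- The average of the probabilities of pairs. -/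
theorem dbl_avg {p : Ω → ℝ} (hp : ∀ ω, 0 ≤ p ω) (L : Ω → Λ) (g : Ω → ζ) (hg : Det p L g)
    (E : Set (Ω × Ω)) : Ex p (fun ω => Pr (dbl (cond p g (g ω)) L) E) = Pr (dbl p L) E := by
  rw [pr_dbl]
  have h1 : ∀ ω, 0 < p ω → Pr (dbl (cond p g (g ω)) L) E =
      Ex (cond p g (g ω)) (fun v => Pr (cond p L (L v)) {w | (v, w) ∈ E}) := by
    intro ω hω
    rw [pr_dbl]
    unfold Ex
    refine Finset.sum_congr rfl fun v _ => ?_
    rcases (cond_nonneg hp g (g ω) v).eq_or_lt with h0 | h0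
    · rw [← h0, zero_mul, zero_mul]
    · obtain ⟨k1, k2⟩ := (cond_pos_iff hp g (g ω) v).1 h0
      congr 1
      have e1 : cond (cond p g (g ω)) L (L v) = cond p L (L v) := by
        funext w
        have hl : 0 < law p g (g ω) := law_pos hp g hω
        have hlaw : law (cond p g (g ω)) L (L v) = law p L (L v) / law p g (g ω) := by
          have := law_cond_of_det hg k1 hp
          rw [k2] at this
          exact this
        unfold Pool.Agent.H49.Ent.cond at hlaw ⊢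
        by_cases hw : L w = L v
        · rw [if_pos hw, if_pos hw, hlaw]
          rcases (hp w).eq_or_lt with h2 | h2
          · rw [← h2]
            simp
          · have h3 : g w = g ω := (hg w v h2 k1 hw).trans k2
            rw [if_pos h3]
            field_simp
        · rw [if_neg hw, if_neg hw]
      simp only [e1]
  have h2 : Ex p (fun ω => Pr (dbl (cond p g (g ω)) L) E) =
      Ex p (fun ω => Ex (cond p g (g ω)) (fun v => Pr (cond p L (L v)) {w | (v, w) ∈ E})) := by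
    unfold Ex
    refine Finset.sum_congr rfl fun ω _ => ?_
    rcases (hp ω).eq_or_lt with h0 | h0
    · rw [← h0, zero_mul, zero_mul]
    · have := h1 ω h0
      unfold Ex at this
      simp only [this]
  rw [h2]
  exact Pool.KVA.Ex_tower hp g _

theorem tmax {p' : Ω → ℝ} (hp' : IsLaw p') {th : τ → ℝ} (hth : ∀ t, 0 ≤ th t ∧ th t < 1)
    {T : Ω → τ} {L : Ω → Λ} {X : ℕ} {t : Ω → ℤ} (ht : t = fun ω => ⌊(2 : ℝ) ^ X * th (T ω)⌋) :
    CH p' t L ≤ X * Real.log 2 := by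
  have h3 := CH_le_card hp'.nonneg hp'.sum_one t L (fun _ => Finset.Ico 0 (2 ^ X)) (by
    intro ω _
    have k1 := hth (T ω)
    have k2 : (0 : ℝ) < 2 ^ X := by positivity
    rw [ht, Finset.mem_Ico]
    constructor
    · rw [Int.le_floor]
      push_cast
      exact mul_nonneg k2.le k1.1
    · rw [Int.floor_lt]
      push_cast
      nlinarith [k1.2])
  refine h3.trans (le_of_eq ?_)
  rw [Ex_const hp'.sum_one, Int.card_Ico]
  have e6 : ((2 : ℤ) ^ X - 0) = ((2 ^ X : ℕ) : ℤ) := by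
    push_cast
    ring
  rw [e6, Int.toNat_natCast]
  push_cast
  rw [Real.log_pow]

/-- The classes which are bad for (H1), (H2) or (H3). -/
def B1 {γ : Type} (p : Ω → ℝ) (g : Ω → γ) (T : Ω → τ) (L : Ω → Λ) (t : Ω → ℤ) (N : Ω → ℤ)
    (V : Ω → ν) (y : Ω → ℤ) (x : ℝ) (X : ℕ) : Set γ :=
  {z | ¬ (MI (cond p g z) T L (fun _ => ()) ≤ x * X ∧
      X * Real.log 2 - x * X * Real.log 2 ≤ CH (cond p g z) t L ∧
      X * Real.log 2 - x * X * Real.log 2 ≤ CH (cond p g z) t L ∧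
      MI (cond p g z) N V T ≤ x * X ∧
      (X + 2) * Real.log 2 - x * X * Real.log 2 ≤ H (cond p g z) y)}

theorem hmax {p' : Ω → ℝ} (hp' : IsLaw p') {y : Λ → ℤ} {L : Ω → Λ} {X : ℕ}
    (hy : ∀ l, |(y l : ℝ) / 2 ^ X| ≤ 1) : H p' (fun ω => y (L ω)) ≤ (X + 2) * Real.log 2 := by
  have k1 := H_le_log_card hp'.nonneg hp'.sum_one (fun ω => y (L ω))
    (F := Finset.Icc (-(2 : ℤ) ^ X) (2 ^ X)) (fun ω _ => by
      have k2 := hy (L ω)
      have k3 : (0 : ℝ) < 2 ^ X := by positivity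
      rw [abs_div, abs_of_pos k3, div_le_one k3, abs_le] at k2
      rw [Finset.mem_Icc]
      constructor
      · have : ((-(2 : ℤ) ^ X : ℤ) : ℝ) ≤ ((y (L ω) : ℤ) : ℝ) := by
          push_cast
          exact k2.1
        exact_mod_cast this
      · have : ((y (L ω) : ℤ) : ℝ) ≤ (((2 : ℤ) ^ X : ℤ) : ℝ) := by
          push_cast
          exact k2.2
        exact_mod_cast this)
  refine k1.trans ?_
  rw [Int.card_Icc]
  have e1 : ((2 : ℤ) ^ X + 1 - -(2 : ℤ) ^ X).toNat = 2 * 2 ^ X + 1 := by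
    have : (2 : ℤ) ^ X + 1 - -(2 : ℤ) ^ X = ((2 * 2 ^ X + 1 : ℕ) : ℤ) := by
      push_cast
      ring
    rw [this, Int.toNat_natCast]
  rw [e1]
  have e2 : (((2 * 2 ^ X + 1 : ℕ)) : ℝ) ≤ 2 ^ (X + 2) := by
    push_cast
    have : (1 : ℝ) ≤ 2 ^ X := one_le_pow₀ one_le_two
    rw [pow_add]
    linarith
  refine (Real.log_le_log (by positivity) e2).trans (le_of_eq ?_)
  rw [Real.log_pow]
  push_cast
  ring

theorem bad1 {β : Type} {p : Ω → ℝ} (hp : IsLaw p) {L : Ω → Λ} {T : Ω → τ} {V : Ω → ν} {Z : Ω → ζ}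
    {y : Λ → ℤ} {N : Ω → ℤ} {th : τ → ℝ} {X : ℕ} {ι x ε : ℝ} (hx : 0 < x)
    (hX0 : (0 : ℝ) < X) (hy : ∀ l, |(y l : ℝ) / 2 ^ X| ≤ 1)
    (hth : ∀ t, 0 ≤ th t ∧ th t < 1) (hLZ : Det p L Z) (hVZ : Det p V Z)
    {b : Ω → β} (hZb : Det p Z b) (hMI : MI p T L b ≤ ι * X) {t : Ω → ℤ} (ht : t = fun ω => ⌊(2 : ℝ) ^ X * th (T ω)⌋)
    (hTi : (1 - ι) * X * Real.log 2 ≤ CH p t L) (hH2 : MI p N V T ≤ ι * X)
    (hH3 : (1 - ι) * X * Real.log 2 ≤ CH p (fun ω => y (L ω)) Z)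
    (i1 : ι ≤ x * ε / 40) (x1 : 48 ≤ x * ε * X) :
    Pr p {ω | ((Z ω, True) : ζ × Prop) ∈
      B1 p (fun ω => ((Z ω, True) : ζ × Prop)) T L t N V (fun ω => y (L ω)) x X} ≤
        ε / 8 + ε / 16 := by
  classical
  have hp0 := hp.nonneg
  have hl2 : 0 < Real.log 2 := Real.log_pos one_lt_two
  have hpk := pick hp Z (fun _ => True) L T N V (fun ω => y (L ω)) t t
      (my := (X + 2) * Real.log 2) (m₁ := X * Real.log 2) (m₂ := X * Real.log 2)
      (e₁ := ι * X) (e₂ := ι * X * Real.log 2) (e₃ := ι * X * Real.log 2) (e₄ := ι * X)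
      (e₅ := (ι * X + 3) * Real.log 2) (θ₁ := x * X) (θ₂ := x * X * Real.log 2)
      (θ₃ := x * X * Real.log 2) (θ₄ := x * X) (θ₅ := x * X * Real.log 2)
      (by positivity) (by positivity) (by positivity) (by positivity) (by positivity) hLZ
      (fun _ _ _ _ _ => rfl) (fun _ _ _ _ _ => rfl)
      (fun p' hp' _ => hmax hp' hy)
      (fun p' hp' _ => tmax hp' hth ht)
      (fun p' hp' _ => tmax hp' hth ht)
      ((Pool.OC.mi_shift hp0 T L L b Z
        (fun ω ω' a a' hl => Prod.ext (Prod.ext_iff.1 hl).1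
          (hLZ ω ω' a a' (Prod.ext_iff.1 hl).1)) hZb).trans hMI)
      (by linarith) (by linarith)
      ((Pool.OC.mi_shift hp0 N V V T (fun ω => (T ω, Z ω))
        (fun ω ω' a a' hl => by
          have k1 := Prod.ext_iff.1 hl
          have k2 := hVZ ω ω' a a' k1.1
          simp only [Prod.mk.injEq] at k1 ⊢
          exact ⟨k1.1, k1.2, k2⟩)
        (fun ω ω' _ _ hl => (Prod.ext_iff.1 hl).1)).trans hH2)
      (by linarith)
  have e0 : Pr p {ω | ¬ (fun _ => True : Ω → Prop) ω} = 0 := by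
    rw [Pool.KAF.Pr_eq]
    simp
  rw [e0] at hpk
  have f1 : ι * X / (x * X) ≤ ε / 40 := by
    rw [div_le_iff₀ (by positivity)]
    have := mul_le_mul_of_nonneg_right i1 hX0.le
    linarith
  have f2 : ι * X * Real.log 2 / (x * X * Real.log 2) ≤ ε / 40 := by
    rw [mul_div_mul_right _ _ hl2.ne']
    exact f1
  have f3 : (ι * X + 3) * Real.log 2 / (x * X * Real.log 2) ≤ ε / 40 + ε / 16 := by
    rw [mul_div_mul_right _ _ hl2.ne', div_le_iff₀ (by positivity)]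
    have := mul_le_mul_of_nonneg_right i1 hX0.le
    nlinarith
  refine le_trans (Pool.KAF.Pr_mono hp0 fun ω _ hω => ?_) (hpk.trans (by linarith))
  intro hcon
  exact hω hcon.2

/-- The classes which are bad for the first digits of the time. -/
def B2 {γ : Type} (p : Ω → ℝ) (g : Ω → γ) (T : Ω → τ) (L : Ω → Λ) (th : τ → ℝ)
    (kk : ℕ → ℕ) (c0 iL : ℕ) : Set γ :=
  {z | ∃ i ∈ range (iL + 1), (1 / 2 : ℝ) ^ i < Pr (dbl (cond p g z) L)
    {w | |th (T w.2) - th (T w.1)| < (2 : ℝ) ^ (-(kk (2 * i + c0) : ℤ))}}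

theorem Pr_biUnion {Ω ι : Type} [Fintype Ω] {p : Ω → ℝ} (hp : ∀ ω, 0 ≤ p ω) (s : Finset ι)
    (F : ι → Set Ω) : Pr p {ω | ∃ i ∈ s, ω ∈ F i} ≤ ∑ i ∈ s, Pr p (F i) := by
  have h := Pool.M5.W31.Pr_un hp {ω | ∃ i ∈ s, ω ∈ F i} ∅ ∅ s F
    (fun ω hω => Or.inr (Or.inr hω))
  have h9 : Pr p (∅ : Set Ω) = 0 := by
    rw [Pool.KAF.Pr_eq]
    simp
  rw [h9, zero_add, zero_add] at h
  exact h

theorem bad2 {γ : Type} {p : Ω → ℝ} (hp : IsLaw p) {L : Ω → Λ} {T : Ω → τ} {g : Ω → γ}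
    (hg : Det p L g) {th : τ → ℝ} {kk : ℕ → ℕ} {c0 iL : ℕ} {ε : ℝ}
    (hc0 : (1 / 2 : ℝ) ^ c0 < ε / 16)
    (hTC : ∀ i ≤ 2 * iL + c0, Pr (dbl p L) {w | |th (T w.2) - th (T w.1)| <
      (2 : ℝ) ^ (-(kk i : ℤ))} ≤ (1 / 2) ^ i) :
    Pr p {ω | g ω ∈ B2 p g T L th kk c0 iL} ≤ ε / 8 := by
  classical
  have hp0 := hp.nonneg
  have h1 : ∀ i ∈ range (iL + 1), Pr p {ω | (1 / 2 : ℝ) ^ i < Pr (dbl (cond p g (g ω)) L)
      {w | |th (T w.2) - th (T w.1)| < (2 : ℝ) ^ (-(kk (2 * i + c0) : ℤ))}} ≤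
      (1 / 2) ^ i * (1 / 2) ^ c0 := by
    intro i hi
    have hi' : i ≤ iL := by
      have := Finset.mem_range.1 hi
      omega
    have k1 := Pool.M5T.Pr_gt hp0 (fun ω => Pr (dbl (cond p g (g ω)) L)
      {w | |th (T w.2) - th (T w.1)| < (2 : ℝ) ^ (-(kk (2 * i + c0) : ℤ))})
      (fun ω _ => law_nonneg (fun w => dbl_nonneg (fun v => cond_nonneg hp0 g _ v) w) _ _)
      (show (0 : ℝ) < (1 / 2) ^ i by positivity)
      (e := (1 / 2) ^ (2 * i + c0)) (by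
        rw [dbl_avg hp0 L g hg]
        exact hTC _ (by omega))
    refine k1.trans (le_of_eq ?_)
    rw [pow_add, two_mul, pow_add]
    field_simp
  have h2 := Pr_biUnion hp0 (range (iL + 1)) (fun i => {ω | (1 / 2 : ℝ) ^ i <
    Pr (dbl (cond p g (g ω)) L)
      {w | |th (T w.2) - th (T w.1)| < (2 : ℝ) ^ (-(kk (2 * i + c0) : ℤ))}})
  refine h2.trans ((Finset.sum_le_sum h1).trans ?_)
  rw [← Finset.sum_mul]
  have h3 : ∑ i ∈ range (iL + 1), (1 / 2 : ℝ) ^ i ≤ 2 := sum_geometric_two_le _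
  have h4 : (0 : ℝ) < (1 / 2) ^ c0 := by positivity
  nlinarith

/-- The classes which are bad for (H5). -/
def B3 {γ : Type} (p : Ω → ℝ) (g : Ω → γ) (T : Ω → τ) (N : Ω → ℤ) (c π₀ : ℝ) (X R h M : ℕ) :
    Set γ :=
  {z | ∃ (r : Fin M) (E : Set Ω), π₀ ≤ Pr (cond p g z) E ∧ ((r : ℕ) + 1) * h ≤ X ∧
    (1 - c / 2) * h * Real.log 2 < CH (rs (cond p g z) E)
      (fun ω => N ω / 2 ^ (X - ((r : ℕ) + 1) * h + R))
      (fun ω => (N ω / 2 ^ (X - (r : ℕ) * h + R), T ω))}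

theorem bad3 {γ : Type} {p : Ω → ℝ} (hp : IsLaw p) {T : Ω → τ} {g : Ω → γ} {N : Ω → ℤ}
    {c κ π₀ π₁ η : ℝ} {X R h M : ℕ} (hc1 : c ≤ 1) (hκ : 0 ≤ κ) (hπ₁ : 0 < π₁) (hη : 0 < η)
    (hM : 0 < M) (hπ : π₀ = π₁ * η / M) (hRs : (R : ℝ) < c / 2 * h) (hκs : κ * X + R ≤ h)
    (hH5 : ∀ W : Ω → ℝ, (∀ ω, 0 ≤ W ω ∧ W ω ≤ 1) → π₀ ≤ ∑ ω, p ω * W ω → ∀ r₁ r₂ : ℕ,
          r₁ ≤ r₂ → r₂ ≤ X → κ * X ≤ (r₂ : ℝ) - r₁ →
          CH (wt p W) (fun ω => N ω / 2 ^ (X - r₂)) (fun ω => (N ω / 2 ^ (X - r₁), T ω)) ≤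
            (1 - c) * ((r₂ : ℝ) - r₁) * Real.log 2) :
    Pr p {ω | g ω ∈ B3 p g T N c π₁ X R h M} ≤ η := by
  classical
  have hp0 := hp.nonneg
  have hl2 : 0 < Real.log 2 := Real.log_pos one_lt_two
  have hMr : (0 : ℝ) < M := by exact_mod_cast hM
  have hπ0 : 0 < π₀ := by
    rw [hπ]
    positivity
  have : Nonempty (Fin M) := ⟨⟨0, hM⟩⟩
  have hKpos : (0 : ℝ) < (1 - c / 2) * h * Real.log 2 := by
    have hh : (0 : ℝ) < h := by
      by_contra hcon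
      have : (h : ℝ) = 0 := le_antisymm (not_lt.1 hcon) (Nat.cast_nonneg _)
      rw [this] at hRs
      have := Nat.cast_nonneg (α := ℝ) R
      linarith
    have : 0 < 1 - c / 2 := by linarith
    positivity
  have key := Pool.SLP.h5_ctx hp g
    (fun (r : Fin M) (ω : Ω) => if ((r : ℕ) + 1) * h ≤ X then
      N ω / 2 ^ (X - ((r : ℕ) + 1) * h + R) else 0)
    (fun (r : Fin M) (ω : Ω) => (N ω / 2 ^ (X - (r : ℕ) * h + R), T ω))
    ((1 - c / 2) * h * Real.log 2) π₀ π₁ hπ₁ hπ0 (by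
      intro E hE r
      by_cases hr : ((r : ℕ) + 1) * h ≤ X
      · simp only [if_pos hr]
        have hsum : π₀ ≤ ∑ ω, p ω * (if ω ∈ E then (1 : ℝ) else 0) := by
          rw [sum_ind]
          exact hE
        have k0 := hH5 (fun ω => if ω ∈ E then 1 else 0)
          (fun ω => by split_ifs <;> norm_num) hsum
        rw [wt_ind] at k0
        have hlw : IsLaw (cond p (fun ω => ω ∈ E) True) := by
          refine ⟨fun ω => cond_nonneg hp0 _ _ ω, sum_cond p _ ?_⟩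
          exact (lt_of_lt_of_le hπ0 hE).ne'
        have hcast : (((((r : ℕ) + 1) * h : ℕ) : ℝ)) - (((r : ℕ) * h : ℕ) : ℝ) = h := by
          push_cast
          ring
        have k1 := row_off hlw N T hc1 k0 (R := R) (r₁ := (r : ℕ) * h) (r₂ := ((r : ℕ) + 1) * h)
          (Nat.mul_le_mul_right h (Nat.le_succ _)) hr (by
            rw [hcast]
            exact hκs) hκ
        rw [hcast] at k1
        have k2 : CH (rs p E) (fun ω => N ω / 2 ^ (X - ((r : ℕ) + 1) * h + R))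
            (fun ω => ((N ω / 2 ^ (X - (r : ℕ) * h + R), T ω), g ω)) ≤
            CH (rs p E) (fun ω => N ω / 2 ^ (X - ((r : ℕ) + 1) * h + R))
            (fun ω => (N ω / 2 ^ (X - (r : ℕ) * h + R), T ω)) :=
          CH_mono_cond hlw.nonneg fun ω ω' _ _ hl => (Prod.ext_iff.1 hl).1
        refine lt_of_le_of_lt k2 (lt_of_le_of_lt k1 ?_)
        have k3 : (R : ℝ) * Real.log 2 < c / 2 * h * Real.log 2 :=
          mul_lt_mul_of_pos_right hRs hl2
        linarith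
      · simp only [if_neg hr]
        have hlw : ∀ ω, 0 ≤ rs p E ω := fun ω => cond_nonneg hp0 _ _ ω
        have k4 : CH (rs p E) (fun _ : Ω => (0 : ℤ))
            (fun ω => ((N ω / 2 ^ (X - (r : ℕ) * h + R), T ω), g ω)) ≤ 0 :=
          (CH_eq_zero hlw fun _ _ _ _ _ => rfl).le
        exact lt_of_le_of_lt k4 hKpos)
  have hfin : π₀ * Fintype.card (Fin M) / π₁ = η := by
    rw [Fintype.card_fin, hπ]
    field_simp
  rw [hfin] at key
  refine le_trans (Pool.KAF.Pr_mono hp0 fun ω _ hω => ?_) key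
  obtain ⟨r, E, k1, k2, k3⟩ := hω
  refine ⟨r, E, k1, ?_⟩
  simp only [if_pos k2]
  exact k3.le

end

end Pool.LEV
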