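import Pool.Agent.H48.GEN.Top2

/-!
# L1 level by level: the step for one coordinate, assembly
-/

set_option autoImplicit false

namespace Pool.LEV

open Finset Real
open Pool.Agent.H49.Ent Pool.Agent.H32.Dense Pool.STK Pool.KAF Pool.M5 Pool.SLO
open Pool.KVA (MI)

section

variable {Ω Λ τ ν ζ : Type} [Fintype Ω] {D : ℕ}

theorem ldz_Q1 (p : Ω → ℝ) (L : Ω → Λ) (T : Ω → τ) (y : Λ → ℤ) (q : Λ → Fin D → ℝ) (N : Ω → ℤ)
    (th e S : τ → ℝ) (X R : ℕ) : (ldz p L T y q N th e S X R).Q1 = q1 p L D := by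
  unfold LDat.Q1 q1
  rw [Pool.M5.RWA.Qr_tup]
  rfl

/-- One class of `Z`. -/
theorem one_class (A : ℕ) {c ε ιL κL κL2 πL κ₂ : ℝ} {iL k₀ c0 XL : ℕ} {kk : ℕ → ℕ}
    (b : Bas 1 (Mon 1 1)) (hg : ∀ i, b.g i = mono (i : Fin 1 → ℕ)) (h5 : 0 < ιL) (h2 : 0 < κL)
    (hmain : ∀ d : LDat 1 D (Mon 1 1), d.OK b (A + D + 2) (ιL * d.X) → XL ≤ d.X → d.H1 ιL 0 0 →
        (∀ i ≤ iL, TC d (kk (2 * i + c0)) ((1 / 2) ^ i)) →
        (d.toR b).H2 ιL → d.H3 ιL → (d.toR b).H5 (c / 2) κL πL ∅ →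
        Pr d.Q1 {u | ¬ d.sep k₀ u.1 ∨ ∃ i, (2 : ℝ) ^ (-(κL2 * d.X)) <
          |d.co (d.T u.2) i - d.itp u.1 i (d.th (d.T u.2))|} ≤ ε)
    {γ : Type} {p : Ω → ℝ} (hp0 : ∀ ω, 0 ≤ p ω) {L : Ω → Λ} {T : Ω → τ} {V : Ω → ν}
    {y : Λ → ℤ} {q : Λ → Fin D → ℝ} {N : Ω → ℤ} {th e S : τ → ℝ} {X R h M : ℕ} {c' : ℝ}
    {g : Ω → γ} {z : γ} (hz : 0 < law p g z) (hX : XL ≤ X) (hX0 : (0 : ℝ) < X)
    (hR : (2 : ℝ) ^ c' ≤ 2 ^ R)
    (hRκ : (2 : ℝ) ^ (-(κL2 * X)) ≤ (2 : ℝ) ^ (-(κ₂ * X)) / 2 ^ R)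
    (hh0 : h = ⌊κL * X⌋₊) (hh1 : κL * X / 2 ≤ h) (hMκ : 2 / κL ≤ M)
    (hy : ∀ l, |(y l : ℝ) / 2 ^ X| ≤ 1) (hq : ∀ l i, |q l i| ≤ (2 : ℝ) ^ c')
    (he : ∀ t, |e t| ≤ (2 : ℝ) ^ c') (hth : ∀ t, 0 ≤ th t ∧ th t < 1)
    (hN : Det p (fun ω => (L ω, T ω)) N) (hV : Det p V (fun ω => (y (L ω), q (L ω))))
    (hh : ∀ ω ω', 0 < cond p g z ω → 0 < cond p g z ω' → L ω = L ω' →
      |((N ω' : ℝ) - N ω) - 2 ^ X * (hg1 y q th e S X (L ω) (T ω') -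
        hg1 y q th e S X (L ω) (T ω))| ≤ 2 ^ A)
    {t : Ω → ℤ} (ht : t = fun ω => ⌊(2 : ℝ) ^ X * th (T ω)⌋)
    (g1 : z ∉ B1 p g T L t N V (fun ω => y (L ω)) ιL X)
    (g2 : z ∉ B2 p g T L th kk c0 iL) (g3 : z ∉ B3 p g T N c πL X R h M) :
    Pr (q1 (cond p g z) L D) {u | ¬ sepN th T k₀ u.1 ∨ (2 : ℝ) ^ (-(κ₂ * X)) <
      |e (T u.2) - itpN th T e u.1 (th (T u.2))|} ≤ ε := by
  classical
  have hl2 : 0 < Real.log 2 := Real.log_pos one_lt_two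
  have hR0 : (0 : ℝ) < 2 ^ R := by positivity
  have hlw : IsLaw (cond p g z) := ⟨fun v => cond_nonneg hp0 g _ v, sum_cond p g hz.ne'⟩
  have hpos : ∀ ω, 0 < cond p g z ω → 0 < p ω := fun ω hω => ((cond_pos_iff hp0 g z ω).1 hω).1
  have hOK : (ldz (cond p g z) L T y q N th e S X R).OK b (A + D + 2) (ιL * X) :=
    ldz_ok b hg hlw (by positivity) hR hy hq he hth
      (fun ω ω' a a' hl => hN ω ω' (hpos ω a) (hpos ω' a') hl) hh
  have hg1 : MI (cond p g z) T L (fun _ => ()) ≤ ιL * X ∧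
      X * Real.log 2 - ιL * X * Real.log 2 ≤ CH (cond p g z) t L ∧
      X * Real.log 2 - ιL * X * Real.log 2 ≤ CH (cond p g z) t L ∧
      MI (cond p g z) N V T ≤ ιL * X ∧
      (X + 2) * Real.log 2 - ιL * X * Real.log 2 ≤ H (cond p g z) (fun ω => y (L ω)) :=
    not_not.1 g1
  obtain ⟨a1, a2, -, a4, a5⟩ := hg1
  have hH1 : (ldz (cond p g z) L T y q N th e S X R).H1 ιL 0 0 := by
    refine ⟨a1, ?_, ?_⟩
    · have e1 : (ldz (cond p g z) L T y q N th e S X R).Ti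
          (ldz (cond p g z) L T y q N th e S X R).X = t := by
        rw [ht]
        rfl
      show (1 - ιL) * X * Real.log 2 ≤ CH (cond p g z)
        ((ldz (cond p g z) L T y q N th e S X R).Ti
          (ldz (cond p g z) L T y q N th e S X R).X) L
      rw [e1]
      linarith
    · rw [Nat.cast_zero, zero_mul, sub_zero]
      exact CH_nonneg hlw.nonneg _ _
  have hTC : ∀ i ≤ iL, TC (ldz (cond p g z) L T y q N th e S X R) (kk (2 * i + c0))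
      ((1 / 2) ^ i) := by
    intro i hi
    unfold TC
    rw [Pool.L1.Qp0_eq b _ hOK]
    by_contra hcon
    exact g2 ⟨i, Finset.mem_range.2 (by omega), not_le.1 hcon⟩
  have hH2 : ((ldz (cond p g z) L T y q N th e S X R).toR b).H2 ιL := by
    show MI (cond p g z) (fun ω => N ω / 2 ^ R)
      (fun ω => ((fun _ => y (L ω) : Fin 1 → ℤ),
        fun a => ⌊(2 : ℝ) ^ X * (q (L ω) a / 2 ^ R)⌋)) T ≤ ιL * X
    refine le_trans ?_ a4
    refine (Pool.OC.RS.mi_mono_left hlw.nonneg N _ _ T fun ω ω' _ _ hl => ?_).trans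
      (Pool.OC.RS.mi_mono hlw.nonneg N V _ T fun ω ω' a a' hl => ?_)
    · show N ω / 2 ^ R = N ω' / 2 ^ R
      have k : N ω = N ω' := (Prod.ext_iff.1 hl).1
      rw [k]
    · have k1 := hV ω ω' (hpos ω a) (hpos ω' a') (Prod.ext_iff.1 hl).1
      have k2 : y (L ω) = y (L ω') := (Prod.ext_iff.1 k1).1
      have k3 : q (L ω) = q (L ω') := (Prod.ext_iff.1 k1).2
      show ((fun _ => y (L ω) : Fin 1 → ℤ), fun a => ⌊(2 : ℝ) ^ X * (q (L ω) a / 2 ^ R)⌋) =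
        ((fun _ => y (L ω') : Fin 1 → ℤ), fun a => ⌊(2 : ℝ) ^ X * (q (L ω') a / 2 ^ R)⌋)
      rw [k2, k3]
  have hH3 : (ldz (cond p g z) L T y q N th e S X R).H3 ιL := by
    show (((1 : ℕ) : ℝ) - ιL) * X * Real.log 2 ≤
      H (cond p g z) (fun ω => (fun _ => y (L ω) : Fin 1 → ℤ))
    have e1 : H (cond p g z) (fun ω => (fun _ => y (L ω) : Fin 1 → ℤ)) =
        H (cond p g z) (fun ω => y (L ω)) := by
      refine H_congr hlw.nonneg ?_ ?_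
      · intro ω ω' _ _ hl
        have k : y (L ω) = y (L ω') := hl
        show (fun _ => y (L ω) : Fin 1 → ℤ) = fun _ => y (L ω')
        rw [k]
      · intro ω ω' _ _ hl
        exact congrFun hl 0
    rw [e1]
    push_cast
    linarith
  have hH5 : ((ldz (cond p g z) L T y q N th e S X R).toR b).H5 (c / 2) κL πL ∅ := by
    intro j _ hj E hE
    have hj' : (j + 1) * h ≤ X := by
      rw [hh0]
      exact hj
    have hjM : j < M := by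
      have k1 : ((j : ℝ) + 1) * h ≤ X := by exact_mod_cast hj'
      have k2 : ((j : ℝ) + 1) * (κL * X / 2) ≤ X :=
        (mul_le_mul_of_nonneg_left hh1 (by positivity)).trans k1
      have k3 : ((j : ℝ) + 1) * κL ≤ 2 := by
        by_contra hcon
        rw [not_le] at hcon
        nlinarith
      have k4 : (j : ℝ) + 1 ≤ 2 / κL := by
        rw [le_div_iff₀ h2]
        exact k3
      have k5 : ((j + 1 : ℕ) : ℝ) ≤ M := by
        push_cast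
        linarith
      have k6 : j + 1 ≤ M := by exact_mod_cast k5
      omega
    have hrow : ∀ r : ℕ, ((ldz (cond p g z) L T y q N th e S X R).toR b).row r =
        fun ω => N ω / 2 ^ (X - r + R) := by
      intro r
      funext (ω : Ω)
      show (N ω / 2 ^ R) / 2 ^ (X - r) = N ω / 2 ^ (X - r + R)
      rw [Int.ediv_ediv_of_nonneg (by positivity), ← pow_add, add_comm R]
    rw [hrow, hrow]
    by_contra hcon
    rw [not_le] at hcon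
    refine g3 ⟨⟨j, hjM⟩, E, hE, hj', ?_⟩
    have hfl : ⌊κL * ((ldz (cond p g z) L T y q N th e S X R).toR b).X⌋₊ = h := hh0.symm
    rw [hfl] at hcon
    exact hcon
  have hfin := hmain _ hOK hX hH1 hTC hH2 hH3 hH5
  rw [ldz_Q1] at hfin
  refine le_trans (Pool.KAF.Pr_mono (fun u => ?_) ?_) hfin
  · exact glue_nonneg (fun v => tup_nonneg hlw.nonneg L D v) hlw.nonneg u
  · rintro u _ (k1 | k1)
    · exact Or.inl k1
    · refine Or.inr ⟨⟨fun _ => 1, one_mem_mon⟩, ?_⟩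
      have e1 : itpN th T (fun x => e x / 2 ^ R) u.1 (th (T u.2)) =
          itpN th T e u.1 (th (T u.2)) / 2 ^ R := itpN_div th T e u.1 _ _
      show (2 : ℝ) ^ (-(κL2 * X)) < |e (T u.2) / 2 ^ R -
        itpN th T (fun x => e x / 2 ^ R) u.1 (th (T u.2))|
      rw [e1, ← sub_div, abs_div, abs_of_pos hR0]
      refine lt_of_le_of_lt hRκ ?_
      exact div_lt_div_of_pos_right k1 hR0

/-- **One coordinate.** -/
theorem top_one (D A : ℕ) (c ε : ℝ) (kk : ℕ → ℕ) (hc : 0 < c) (hc1 : c ≤ 1) (hε : 0 < ε) :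
    ∃ (κ₂ κ π₀ ι : ℝ) (i₁ k₀ X₀ : ℕ), 0 < κ₂ ∧ κ₂ ≤ 1 ∧ 0 < κ ∧ κ ≤ 1 ∧ 0 < π₀ ∧ 0 < ι ∧
      ∀ (Ω Λ τ ν ζ β : Type) [Fintype Ω] (p : Ω → ℝ) (L : Ω → Λ) (T : Ω → τ) (V : Ω → ν)
        (Z : Ω → ζ) (b : Ω → β) (y : Λ → ℤ) (q : Λ → Fin D → ℝ) (N : Ω → ℤ) (th : τ → ℝ) (e : τ → ℝ)
        (S : ζ → τ → ℝ) (X : ℕ), IsLaw p → X₀ ≤ X → (∀ l, |(y l : ℝ) / 2 ^ X| ≤ 1) →
        (∀ l i, |q l i| ≤ (2 : ℝ) ^ (ι * X)) → (∀ t, |e t| ≤ (2 : ℝ) ^ (ι * X)) →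
        (∀ t, 0 ≤ th t ∧ th t < 1) → Det p (fun ω => (L ω, T ω)) N → Det p L Z → Det p Z b →
        Det p V (fun ω => (y (L ω), q (L ω), Z ω)) →
        (∀ ω ω', 0 < p ω → 0 < p ω' → L ω = L ω' →
          |((N ω' : ℝ) - N ω) - 2 ^ X * (hg1 y q th e (S (Z ω)) X (L ω) (T ω') -
            hg1 y q th e (S (Z ω)) X (L ω) (T ω))| ≤ 2 ^ A) →
        MI p T L b ≤ ι * X →
        (1 - ι) * X * Real.log 2 ≤ CH p (fun ω => ⌊(2 : ℝ) ^ X * th (T ω)⌋) L →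
        (∀ i ≤ i₁, Pr (dbl p L) {w | |th (T w.2) - th (T w.1)| < (2 : ℝ) ^ (-(kk i : ℤ))} ≤
          (1 / 2) ^ i) →
        MI p N V T ≤ ι * X → (1 - ι) * X * Real.log 2 ≤ CH p (fun ω => y (L ω)) Z →
        (∀ W : Ω → ℝ, (∀ ω, 0 ≤ W ω ∧ W ω ≤ 1) → π₀ ≤ ∑ ω, p ω * W ω → ∀ r₁ r₂ : ℕ,
          r₁ ≤ r₂ → r₂ ≤ X → κ * X ≤ (r₂ : ℝ) - r₁ →
          CH (wt p W) (fun ω => N ω / 2 ^ (X - r₂)) (fun ω => (N ω / 2 ^ (X - r₁), T ω)) ≤
            (1 - c) * ((r₂ : ℝ) - r₁) * Real.log 2) →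
        Pr (tup p L (D + 1)) (BadN th T e D k₀ ((2 : ℝ) ^ (-(κ₂ * X)))) ≤ ε := by
  classical
  obtain ⟨b0, hg, hD⟩ := Pool.Agent.H1.M5.tay_thm 1 1
  obtain ⟨c0, hc0⟩ := exists_pow_lt_of_lt_one (show (0 : ℝ) < ε / 16 by positivity)
    (by norm_num : (1 / 2 : ℝ) < 1)
  obtain ⟨κL2, κL, πL, ιL, iL, k₀, XL, h1, h2, h3, h4, h5, hmain⟩ :=
    l1wt 1 D 1 (A + D + 2) b0 (c / 2) (ε / 2) (fun i => kk (2 * i + c0)) hg hD (by positivity)
      (by positivity)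
  have hl2 : 0 < Real.log 2 := Real.log_pos one_lt_two
  obtain ⟨M, hM⟩ : ∃ M : ℕ, M = ⌈2 / κL⌉₊ + 1 := ⟨_, rfl⟩
  have hM0 : (0 : ℝ) < M := by
    rw [hM]
    positivity
  obtain ⟨ι, hι⟩ : ∃ ι : ℝ, ι = min (min (ιL * ε / 40) (c * κL / 16)) (κL2 / 4) := ⟨_, rfl⟩
  have hι0 : 0 < ι := by
    rw [hι]
    exact lt_min (lt_min (by positivity) (by positivity)) (by positivity)
  have i1 : ι ≤ ιL * ε / 40 := by
    rw [hι]
    exact (min_le_left _ _).trans (min_le_left _ _)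
  have i2 : ι ≤ c * κL / 16 := by
    rw [hι]
    exact (min_le_left _ _).trans (min_le_right _ _)
  have i3 : ι ≤ κL2 / 4 := by
    rw [hι]
    exact min_le_right _ _
  obtain ⟨X₁, hX₁⟩ := exists_nat_ge (48 / (ιL * ε) + (16 / (c * κL) + (4 / κL2 + 2 / κL)) + 1)
  refine ⟨min (κL2 / 2) 1, κL / 8, πL * (ε / 8) / M, ι, 2 * iL + c0, k₀, max XL X₁,
    lt_min (by positivity) one_pos, min_le_right _ _, by positivity, by linarith, by positivity,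
    hι0, ?_⟩
  intro Ω Λ τ ν ζ β _ p L T V Z b y q N th e S X hp hX hy hq he hth hN hLZ hZb hV hh hMI hTi hTC
    hH2 hH3 hH5
  have hp0 := hp.nonneg
  have hXL : XL ≤ X := (le_max_left _ _).trans hX
  have hXr : 48 / (ιL * ε) + (16 / (c * κL) + (4 / κL2 + 2 / κL)) + 1 ≤ (X : ℝ) :=
    hX₁.trans (by exact_mod_cast (le_max_right _ _).trans hX)
  have q1' : 0 < 48 / (ιL * ε) := by positivity
  have q2 : 0 < 16 / (c * κL) := by positivity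
  have q3 : 0 < 4 / κL2 := by positivity
  have q4 : 0 < 2 / κL := by positivity
  have hX0 : (0 : ℝ) < X := by linarith
  have x1 : 48 ≤ ιL * ε * X := by
    have : 48 / (ιL * ε) ≤ X := by linarith
    rw [div_le_iff₀ (by positivity)] at this
    linarith
  have x2 : 16 ≤ c * κL * X := by
    have : 16 / (c * κL) ≤ X := by linarith
    rw [div_le_iff₀ (by positivity)] at this
    linarith
  have x3 : 4 ≤ κL2 * X := by
    have : 4 / κL2 ≤ X := by linarith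
    rw [div_le_iff₀ (by positivity)] at this
    linarith
  have x4 : 2 ≤ κL * X := by
    have : 2 / κL ≤ X := by linarith
    rw [div_le_iff₀ (by positivity)] at this
    linarith
  have hcκ : c * κL ≤ κL := by
    have : c * κL ≤ 1 * κL := mul_le_mul_of_nonneg_right hc1 h2.le
    linarith
  have x5 : 16 ≤ κL * X := by
    have : c * κL * X ≤ κL * X := mul_le_mul_of_nonneg_right hcκ hX0.le
    linarith
  have y2 : ι * X ≤ c * κL / 16 * X := mul_le_mul_of_nonneg_right i2 hX0.le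
  have y3 : ι * X ≤ κL2 / 4 * X := mul_le_mul_of_nonneg_right i3 hX0.le
  -- the sizes
  obtain ⟨R, hR⟩ : ∃ R : ℕ, R = ⌈ι * X⌉₊ := ⟨_, rfl⟩
  have hR1 : ι * X ≤ R := by
    rw [hR]
    exact Nat.le_ceil _
  have hR2 : (R : ℝ) ≤ ι * X + 1 := by
    rw [hR]
    exact (Nat.ceil_lt_add_one (by positivity)).le
  have hRp : (2 : ℝ) ^ (ι * X) ≤ 2 ^ R := by
    rw [← Real.rpow_natCast]
    exact Real.rpow_le_rpow_of_exponent_le one_le_two hR1
  obtain ⟨h, hh0⟩ : ∃ h : ℕ, h = ⌊κL * X⌋₊ := ⟨_, rfl⟩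
  have hh1 : κL * X / 2 ≤ h := by
    have := Nat.lt_floor_add_one (κL * X)
    rw [← hh0] at this
    linarith
  have hRs : (R : ℝ) < c / 2 * h := by
    have a2 : c / 2 * (κL * X / 2) ≤ c / 2 * h := mul_le_mul_of_nonneg_left hh1 (by positivity)
    nlinarith
  have hκs : κL / 8 * X + R ≤ h := by
    have a2 : c * κL / 16 * X ≤ κL / 16 * X :=
      mul_le_mul_of_nonneg_right (by linarith) hX0.le
    nlinarith
  have hRκ : (2 : ℝ) ^ (-(κL2 * X)) ≤ (2 : ℝ) ^ (-(min (κL2 / 2) 1 * X)) / 2 ^ R := by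
    rw [le_div_iff₀ (by positivity), ← Real.rpow_natCast, ← Real.rpow_add two_pos]
    refine Real.rpow_le_rpow_of_exponent_le one_le_two ?_
    have a1 : min (κL2 / 2) 1 * X ≤ κL2 / 2 * X :=
      mul_le_mul_of_nonneg_right (min_le_left _ _) hX0.le
    linarith
  have hMκ : 2 / κL ≤ M := by
    rw [hM]
    push_cast
    have := Nat.le_ceil (2 / κL)
    linarith
  -- the conditioning function
  obtain ⟨t, ht⟩ : ∃ t : Ω → ℤ, t = fun ω => ⌊(2 : ℝ) ^ X * th (T ω)⌋ := ⟨_, rfl⟩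
  rw [← ht] at hTi
  obtain ⟨g, hgdef⟩ : ∃ g : Ω → ζ × Prop, g = fun ω => (Z ω, True) := ⟨_, rfl⟩
  have hgL : Det p L g := by
    intro ω ω' a a' hl
    rw [hgdef]
    exact Prod.ext (hLZ ω ω' a a' hl) rfl
  have b1 := bad1 hp h5 hX0 hy hth hLZ
    (fun ω ω' a a' hl => (Prod.ext_iff.1 (Prod.ext_iff.1 (hV ω ω' a a' hl)).2).2) hZb hMI ht hTi
    hH2 hH3 i1 x1
  have b2 := bad2 hp hgL hc0 hTC
  have b3 := bad3 hp (g := g) (η := ε / 8) (M := M) hc1 (by positivity) h4 (by positivity)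
    (by rw [hM]; omega) rfl hRs hκs hH5
  have e1 : {ω | ((Z ω, True) : ζ × Prop) ∈
      B1 p (fun ω => ((Z ω, True) : ζ × Prop)) T L t N V (fun ω => y (L ω)) ιL X} =
      {ω | g ω ∈ B1 p g T L t N V (fun ω => y (L ω)) ιL X} := by
    rw [hgdef]
  rw [e1] at b1
  -- the mixture
  have hmix := q1_mix (n := D) hp hgL {u | ¬ sepN th T k₀ u.1 ∨
      (2 : ℝ) ^ (-(min (κL2 / 2) 1 * X)) < |e (T u.2) - itpN th T e u.1 (th (T u.2))|}
    (B1 p g T L t N V (fun ω => y (L ω)) ιL X ∪ (B2 p g T L th kk c0 iL ∪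
      B3 p g T N c πL X R h M)) (ε := ε / 2) (by positivity) (by
      intro z hz hzb
      rw [Set.mem_union, Set.mem_union, not_or, not_or] at hzb
      have hzw : ∀ ω, 0 < cond p g z ω → 0 < p ω ∧ Z ω = z.1 := by
        intro ω hω
        obtain ⟨k1, k2⟩ := (cond_pos_iff hp0 g z ω).1 hω
        refine ⟨k1, ?_⟩
        rw [← k2, hgdef]
      refine one_class A b0 hg h5 h2 hmain (p := p) hp0 (L := L) (T := T) (V := V) (y := y)
        (q := q) (N := N) (th := th) (e := e) (S := S z.1) (c' := ι * X) hz hXL hX0 hRp hRκ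
        hh0 hh1 hMκ hy hq he hth hN (fun ω ω' a a' hl => ?_) ?_ ht hzb.1 hzb.2.1 hzb.2.2
      · have k1 := hV ω ω' a a' hl
        simp only [Prod.mk.injEq] at k1 ⊢
        exact ⟨k1.1, k1.2.1⟩
      · intro ω ω' a a' hl
        obtain ⟨k1, k2⟩ := hzw ω a
        obtain ⟨k3, k4⟩ := hzw ω' a'
        have k5 := hh ω ω' k1 k3 hl
        rw [k2] at k5
        exact k5)
  have hbad : Pr p {ω | g ω ∈ (B1 p g T L t N V (fun ω => y (L ω)) ιL X ∪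
      (B2 p g T L th kk c0 iL ∪ B3 p g T N c πL X R h M))} ≤ ε / 2 := by
    have k1 : Pr p {ω | g ω ∈ (B1 p g T L t N V (fun ω => y (L ω)) ιL X ∪
        (B2 p g T L th kk c0 iL ∪ B3 p g T N c πL X R h M))} ≤
        Pr p {ω | g ω ∈ B1 p g T L t N V (fun ω => y (L ω)) ιL X} +
        Pr p {ω | g ω ∈ (B2 p g T L th kk c0 iL ∪ B3 p g T N c πL X R h M)} :=
      Pool.M5T.Pr_or hp0 fun ω _ hω => hω
    have k2 : Pr p {ω | g ω ∈ (B2 p g T L th kk c0 iL ∪ B3 p g T N c πL X R h M)} ≤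
        Pr p {ω | g ω ∈ B2 p g T L th kk c0 iL} +
        Pr p {ω | g ω ∈ B3 p g T N c πL X R h M} :=
      Pool.M5T.Pr_or hp0 fun ω _ hω => hω
    linarith
  have hsn := Pool.L1.Pr_marg (tup_snoc hp0 L D) {u | ¬ sepN th T k₀ u.1 ∨
      (2 : ℝ) ^ (-(min (κL2 / 2) 1 * X)) < |e (T u.2) - itpN th T e u.1 (th (T u.2))|}
  calc Pr (tup p L (D + 1)) (BadN th T e D k₀ ((2 : ℝ) ^ (-(min (κL2 / 2) 1 * X))))
      = Pr (q1 p L D) {u | ¬ sepN th T k₀ u.1 ∨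
      (2 : ℝ) ^ (-(min (κL2 / 2) 1 * X)) < |e (T u.2) - itpN th T e u.1 (th (T u.2))|} := hsn
    _ ≤ ε := by linarith

end

end Pool.LEV
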