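import Pool.Agent.H46.MIC.Few

/-!
# The local theorem, the value of the shape along the path

`ValH`: as `FewH`, but only the value of the own shape along the path is a polynomial in the time,
instead of its gradient. The shape has no constant term.
-/

set_option autoImplicit false

namespace Pool.LSH

open Finset Polynomial
open Pool.Agent.H49.Ent Pool.Agent.H32.Dense Pool.STK Pool.BFL Pool.LBL Pool.MIC
open Pool.K2S (cpn)

/-- Typical samples: the path and the value of the shape along the path. -/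
def TypV {Ω Λ : Type} {k E : ℕ} (L : Ω → Λ) (th : Ω → ℕ) (Y : Ω → Fin k → ℕ) (kap : Ω → Pl k)
    (β : Λ → Fin k → Fin (E + 1) → ℝ) (g : Λ → ℝ[X]) (n J X s : ℕ) (C₀ : ℝ) (ω : Ω) : Prop :=
  (∀ i j, |β (L ω) i j| ≤ C₀) ∧ (g (L ω)).degree < n ∧
    (∀ i, |pos (β (L ω)) ((th ω : ℝ) / 2 ^ J) i - (Y ω i : ℝ) / 2 ^ X| ≤ C₀ / 2 ^ X) ∧
    |MvPolynomial.eval (pos (β (L ω)) ((th ω : ℝ) / 2 ^ J)) (kap ω) -
      (g (L ω)).eval ((th ω : ℝ) / 2 ^ J)| ≤ 1 / 2 ^ s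

/-- The hypotheses of the local theorem at one context, values. -/
structure ValH {Ω Λ Γ Β : Type} [Fintype Ω] {k E : ℕ} (p : Ω → ℝ) (L : Ω → Λ) (b : Ω → Γ)
    (B : Ω → Β) (th : Ω → ℕ) (Y : Ω → Fin k → ℕ) (kap : Ω → Pl k) (G : Ω → Prop)
    (β : Λ → Fin k → Fin (E + 1) → ℝ) (g : Λ → ℝ[X]) (n D N J X y s bb : ℕ)
    (C₀ θ κ₁ ϖ e : ℝ) : Prop where
  isLaw : IsLaw p
  b_L : Det p L b
  B_L : Det p L B
  Y_B : Det p (fun ω => (B ω, (b ω, th ω))) Y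
  th_le : ∀ ω, th ω ≤ 2 ^ J
  Y_lt : ∀ ω i, Y ω i < 2 ^ X
  deg : ∀ ω, (kap ω).totalDegree ≤ D
  cf : ∀ ω α, |MvPolynomial.coeff α (kap ω)| ≤ 2 ^ bb
  cf0 : ∀ ω, MvPolynomial.coeff 0 (kap ω) = 0
  /-- the position is full given the context and the time -/
  full : k * (X * Real.log 2) - θ ≤ CH p Y (fun ω => (b ω, th ω))
  /-- the shape has few bits given the context and the time, on an event -/
  G_ge : ϖ ≤ Pb p G
  few : CH (cond p G True) (fun ω => rk s (kap ω)) (fun ω => (b ω, th ω)) ≤ κ₁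
  /-- the times of `N + 1` samples are almost independent of the block of the line -/
  times : CH (Pool.K2S.cpn p L N) (fun w => B (w 0)) (fun w => b (w 0)) ≤
    CH (Pool.K2S.cpn p L N) (fun w => B (w 0)) (fun w => (b (w 0), fun i => th (w i))) + θ
  /-- typical samples -/
  typ : Pb p (fun ω => ¬ TypV L th Y kap β g n J X s C₀ ω) ≤ e
  /-- two samples of one line have different times -/
  sep : Pb (dbl p L) (fun w : Ω × Ω =>
    |((th w.1 : ℝ) / 2 ^ J) - ((th w.2 : ℝ) / 2 ^ J)| * 2 ^ y < 1) ≤ e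

/-- **The local theorem, values.** -/
def MicValStmt : Prop :=
  ∀ (k n D E V : ℕ) (C₀ ϖ : ℝ), 1 ≤ C₀ → 0 < ϖ → ϖ ≤ 1 →
    ∃ (A₂ a A K₂ N : ℕ) (c₁ C : ℝ), V * A₂ < a ∧ 0 < c₁ ∧ 1 ≤ C ∧
    ∀ (Ω Λ Γ Β : Type) [Fintype Ω] (p : Ω → ℝ) (L : Ω → Λ) (b : Ω → Γ)
      (B : Ω → Β) (th : Ω → ℕ) (Y : Ω → Fin k → ℕ) (kap : Ω → Pl k) (G : Ω → Prop)
      (β : Λ → Fin k → Fin (E + 1) → ℝ) (g : Λ → ℝ[X]) (J X y s bb : ℕ) (θ κ₁ : ℝ),
      0 ≤ θ → 0 ≤ κ₁ → C * (θ + κ₁ + 1) ≤ y → bb + 2 ≤ y → A * y ≤ s → s ≤ X →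
      ValH p L b B th Y kap G β g n D N J X y s bb C₀ θ κ₁ ϖ c₁ →
      ∃ H : Λ → ℤ → Pl (k + 1), (∀ l z, (H l z).totalDegree ≤ K₂) ∧
        c₁ ≤ Pb p (fun ω => G ω ∧ ∀ z : Fin k → ℝ, (∀ i, |z i| ≤ C₀) → ∀ l,
          |MvPolynomial.eval z (MvPolynomial.pderiv l (kap ω)) -
            MvPolynomial.eval (Fin.cons ((th ω : ℝ) / 2 ^ J) z : Fin (k + 1) → ℝ)
              (MvPolynomial.pderiv l.succ (H (L ω) ⌊(th ω : ℝ) / 2 ^ J * 2 ^ (A₂ * y)⌋))| *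
            2 ^ (a * y) ≤ 2)

end Pool.LSH
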